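import Pool.Agent.AHP.Defs

/-!
# The number of zeros in a window
-/

namespace Pool.Agent.AHP

open Real Set Filter Topology Pool.Agent.ZetaGaps

lemma card_In {w W : ℝ} (hW : 0 ≤ W) :
    ((In w W).card : ℝ) = (zeroCount (w + W) : ℝ) - zeroCount w := by
  rw [In, Nat.card_Ioc, Nat.cast_sub (zeroCount_mono (by linarith))]

theorem count_asymp {b' κ : ℝ} (hb : 0 < b') (hκ : 0 < κ) : ∃ T0 : ℝ, Real.exp 3 ≤ T0 ∧
    ∀ T : ℝ, T0 ≤ T → ∀ w W : ℝ, T ≤ w → T ^ b' ≤ W → w + W ≤ 4 * T →
      |(zeroCount (w + W) : ℝ) - zeroCount w - W * Real.log T / (2 * π)| ≤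
        κ * (W * Real.log T) := by
  obtain ⟨C, hC, hN⟩ := zeroCount_asymp
  have hpi := Real.pi_pos
  obtain ⟨E, hE⟩ : ∃ E : ℝ, E = 2 * Real.pi * Real.exp 1 := ⟨_, rfl⟩
  have hE0 : 0 < E := by rw [hE]; positivity
  obtain ⟨A, hA0, hA⟩ : ∃ A : ℝ, 0 < A ∧ A = |Real.log E| + 4 := ⟨_, by positivity, rfl⟩
  have ev1 : ∀ᶠ T : ℝ in atTop, 8 * C / κ ≤ T ^ b' :=
    (tendsto_rpow_atTop hb).eventually_ge_atTop _
  have ev2 : ∀ᶠ T : ℝ in atTop, 2 * A / κ ≤ Real.log T :=
    Real.tendsto_log_atTop.eventually_ge_atTop _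
  obtain ⟨T1, hT1⟩ := eventually_atTop.mp (ev1.and (ev2.and (eventually_ge_atTop 4)))
  refine ⟨max T1 (Real.exp 3), le_max_right _ _, fun T hT w W hw hW hwW => ?_⟩
  obtain ⟨e1, e2, e3⟩ := hT1 T ((le_max_left _ _).trans hT)
  have hTe : Real.exp 3 ≤ T := (le_max_right _ _).trans hT
  have hT0 : 0 < T := by linarith
  have hL3 : 3 ≤ Real.log T := by rwa [Real.le_log_iff_exp_le hT0]
  set L := Real.log T with hL
  have hW0 : 0 < W := (Real.rpow_pos_of_pos hT0 _).trans_le hW
  have hw0 : 0 < w := by linarith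
  have h1 := abs_le.mp (hN w (by linarith))
  have h2 := abs_le.mp (hN (w + W) (by linarith))
  rw [← hE] at h1 h2
  have hlog4 : Real.log 4 ≤ 2 := by
    have h := Real.log_two_lt_d9
    have h' : Real.log 4 = 2 * Real.log 2 := by
      rw [show (4:ℝ) = 2 ^ 2 by norm_num, Real.log_pow]; norm_num
    linarith
  have hl2 : Real.log (w + W) ≤ L + 2 := by
    have h3 : Real.log (w + W) ≤ Real.log (4 * T) := Real.log_le_log (by linarith) hwW
    rw [Real.log_mul (by norm_num) hT0.ne'] at h3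
    linarith
  have hl1 : L ≤ Real.log w := Real.log_le_log hT0 hw
  have hl1' : Real.log w ≤ L + 2 := (Real.log_le_log hw0 (by linarith)).trans hl2
  have hx : w / (2 * Real.pi) * Real.log (w / E) = E / (2 * Real.pi) * (w / E * Real.log (w / E)) := by
    field_simp
  have hy : (w + W) / (2 * Real.pi) * Real.log ((w + W) / E) =
      E / (2 * Real.pi) * ((w + W) / E * Real.log ((w + W) / E)) := by
    field_simp
  have hle : w / E ≤ (w + W) / E := div_le_div_of_nonneg_right (by linarith) hE0.le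
  have g1 := AHW.Fe_xlogx_ge (a := w / E) (b := (w + W) / E) (by positivity) hle
  have g2 := AHW.Fe_xlogx_le (a := w / E) (b := (w + W) / E) (by positivity) hle
  have hdiff : (w + W) / E - w / E = W / E := by ring
  rw [hdiff] at g1 g2
  have hk : 0 < E / (2 * Real.pi) := by positivity
  have k1 := mul_le_mul_of_nonneg_left g1 hk.le
  have k2 := mul_le_mul_of_nonneg_left g2 hk.le
  have m1 : E / (2 * Real.pi) * (W / E * Real.log (w / E)) =
      W / (2 * Real.pi) * (Real.log w - Real.log E) := by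
    rw [Real.log_div hw0.ne' hE0.ne']
    field_simp
  have m2 : E / (2 * Real.pi) * (W / E * (Real.log ((w + W) / E) + 1)) =
      W / (2 * Real.pi) * (Real.log (w + W) - Real.log E + 1) := by
    rw [Real.log_div (by linarith) hE0.ne']
    field_simp
  have s1 : E / (2 * Real.pi) * ((w + W) / E * Real.log ((w + W) / E) - w / E * Real.log (w / E)) =
      (w + W) / (2 * Real.pi) * Real.log ((w + W) / E) - w / (2 * Real.pi) * Real.log (w / E) := by
    rw [mul_sub, ← hx, ← hy]
  rw [m1, s1] at k1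
  rw [m2, s1] at k2
  have hab1 := le_abs_self (Real.log E)
  have hab2 := neg_abs_le (Real.log E)
  have hWp : 0 < W / (2 * Real.pi) := by positivity
  have hWle : W / (2 * Real.pi) ≤ W := by
    rw [div_le_iff₀ (by positivity)]
    nlinarith [Real.pi_gt_three]
  have n1 : W / (2 * Real.pi) * L - W * A ≤ W / (2 * Real.pi) * (Real.log w - Real.log E) := by
    have q1 : L - A ≤ Real.log w - Real.log E := by linarith
    have q2 := mul_le_mul_of_nonneg_left q1 hWp.le
    nlinarith
  have n2 : W / (2 * Real.pi) * (Real.log (w + W) - Real.log E + 1) ≤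
      W / (2 * Real.pi) * L + W * A := by
    have q1 : Real.log (w + W) - Real.log E + 1 ≤ L + A := by linarith
    have q2 := mul_le_mul_of_nonneg_left q1 hWp.le
    nlinarith
  have n3 : C * Real.log w + C * Real.log (w + W) ≤ κ / 2 * (W * L) := by
    have q1 : C * Real.log w + C * Real.log (w + W) ≤ C * (4 * L) := by nlinarith
    have q2 : 8 * C ≤ κ * W := by
      rw [div_le_iff₀ hκ] at e1
      nlinarith
    nlinarith
  have n4 : W * A ≤ κ / 2 * (W * L) := by
    rw [div_le_iff₀ hκ] at e2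
    nlinarith
  have n5 : W * L / (2 * Real.pi) = W / (2 * Real.pi) * L := by ring
  rw [n5, abs_le]
  constructor
  · linarith [h1.2, h2.1]
  · linarith [h1.1, h2.2]

end Pool.Agent.AHP
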