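import Pool.Agent.AHP.Block3
import Pool.Agent.AHP.Norm
import Pool.Agent.ZGap.DW.Ff

/-!
# The pair correlation in one block when there are few small gaps
-/

namespace Pool.Agent.AHP

open MeasureTheory Real Set Pool.Agent.ZGap.Gen Pool.Agent.ZetaGaps Pool.Agent.AHW

lemma card_filter_le_ncard {s : Finset ℕ} {Q : ℕ → Prop} [DecidablePred Q] {A : Set ℕ}
    (hA : A.Finite) (h : ∀ n ∈ s, Q n → n ∈ A) : ((s.filter Q).card : ℝ) ≤ (A.ncard : ℝ) := by
  have h1 : ((s.filter Q : Finset ℕ) : Set ℕ) ⊆ A := by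
    intro n hn
    have := Finset.mem_filter.1 (Finset.mem_coe.1 hn)
    exact h n this.1 this.2
  have h2 := Set.ncard_le_ncard h1 hA
  rw [Set.ncard_coe_finset] at h2
  exact_mod_cast h2

lemma card_filter_le_add {s : Finset ℕ} {Q : ℕ → Prop} [DecidablePred Q] {A B : Set ℕ}
    (hA : A.Finite) (hB : B.Finite) (h : ∀ n ∈ s, Q n → n ∈ A ∨ n ∈ B) :
    ((s.filter Q).card : ℝ) ≤ (A.ncard : ℝ) + (B.ncard : ℝ) := by
  have h1 := card_filter_le_ncard (s := s) (Q := Q) (hA.union hB) h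
  have h2 : ((A ∪ B).ncard : ℝ) ≤ (A.ncard : ℝ) + (B.ncard : ℝ) := by
    exact_mod_cast Set.ncard_union_le A B
  linarith

lemma ncard_le_card_add {s : Finset ℕ} {Q : ℕ → Prop} [DecidablePred Q] {A B : Set ℕ}
    (hB : B.Finite) (h : ∀ n ∈ A, (n ∈ s ∧ Q n) ∨ n ∈ B) :
    (A.ncard : ℝ) ≤ ((s.filter Q).card : ℝ) + (B.ncard : ℝ) := by
  have h1 : A ⊆ ((s.filter Q : Finset ℕ) : Set ℕ) ∪ B := by
    intro n hn
    rcases h n hn with h2 | h2
    · exact Or.inl (Finset.mem_coe.2 (Finset.mem_filter.2 h2))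
    · exact Or.inr h2
  have h2 := Set.ncard_le_ncard h1 ((Finset.finite_toSet _).union hB)
  have h3 := Set.ncard_union_le ((s.filter Q : Finset ℕ) : Set ℕ) B
  rw [Set.ncard_coe_finset] at h3
  exact_mod_cast h2.trans h3

/-- **The pair correlation of a block with few small gaps.** -/
theorem block (hRH : RiemannHypothesis) {ε κ : ℝ} (hε : 0 < ε) (hε8 : ε ≤ 1 / 8) (hκ : 0 < κ) :
    ∃ δ : ℝ, 0 < δ ∧ ∃ T0 : ℝ, ∀ T : ℝ, T0 ≤ T → ∀ H : ℝ, T ≤ H → H ≤ 3 * T →
      cn (fun n => gap n < 1 / 2 - δ) (zeroCount T) (zeroCount (T + H)) ≤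
        δ * ((zeroCount (T + H) : ℝ) - zeroCount T) →
      |cn (fun n => |gap n - 1 / 2| ≤ ε) (zeroCount T) (zeroCount (T + H)) -
        (1 / 2 - 2 / π ^ 2) * ((zeroCount (T + H) : ℝ) - zeroCount T)| ≤
          κ * ((zeroCount (T + H) : ℝ) - zeroCount T) ∧
      ∀ k : ℕ, 1 ≤ k → k * ε ≤ 1 →
        |cn (fun n => ∃ m, n < m ∧ |normOrdinate m - normOrdinate n - k / 2| ≤ ε)
            (zeroCount T) (zeroCount (T + H)) -
          (1 / 2 - (1 - (-1) ^ k) / (π ^ 2 * k ^ 2)) *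
            ((zeroCount (T + H) : ℝ) - zeroCount T)| ≤
          κ * ((zeroCount (T + H) : ℝ) - zeroCount T) := by
  classical
  obtain ⟨N, hNd⟩ : ∃ N : ℕ, N = ⌊1 / ε⌋₊ + 1 := ⟨_, rfl⟩
  have hN : 1 ≤ N := by omega
  have hkN : ∀ k : ℕ, (k:ℝ) * ε ≤ 1 → k ≤ N := by
    intro k hk
    have h1 : (k:ℝ) ≤ 1 / ε := by rw [le_div_iff₀ hε]; exact hk
    have h2 := Nat.le_floor h1
    omega
  obtain ⟨δ1, hδ1, T1, hT1, P1⟩ := pairs_asymp hRH (ε := ε / 2) (κ := κ / 2) (by positivity)
    (by linarith) (by positivity) hN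
  obtain ⟨δ2, hδ2, T2, hT2, P2⟩ := pairs_asymp hRH (ε := ε + 1 / 16) (κ := κ / 2) (by positivity)
    (by linarith) (by positivity) hN
  obtain ⟨δc, hδcd⟩ : ∃ δc : ℝ, δc = min δ1 δ2 := ⟨_, rfl⟩
  have hδc : 0 < δc := by rw [hδcd]; exact lt_min hδ1 hδ2
  have hδc1 : δc ≤ δ1 := by rw [hδcd]; exact min_le_left _ _
  have hδc2 : δc ≤ δ2 := by rw [hδcd]; exact min_le_right _ _
  obtain ⟨δ0, hδ0, T3, D⟩ := dichotomy_long hRH (a := 1) (ε := δc / 4) one_pos le_rfl
    (by positivity)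
  obtain ⟨G, T4, hG, BG⟩ := big_gaps (κ := δc / 52) (by positivity)
  obtain ⟨R, hRd⟩ : ∃ R : ℝ, R = G + N + 2 := ⟨_, rfl⟩
  have hN0 : (0:ℝ) ≤ N := Nat.cast_nonneg N
  have hR : 0 < R := by rw [hRd]; linarith
  obtain ⟨κ5, hκ5d⟩ : ∃ κ5 : ℝ, κ5 = min (δc / 4) (min (ε / 2) (1 / 16)) := ⟨_, rfl⟩
  have hκ5 : 0 < κ5 := by
    rw [hκ5d]
    exact lt_min (by positivity) (lt_min (by positivity) (by norm_num))
  have hκ5a : κ5 ≤ δc / 4 := by rw [hκ5d]; exact min_le_left _ _
  have hκ5b : κ5 ≤ ε / 2 := by rw [hκ5d]; exact (min_le_right _ _).trans (min_le_left _ _)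
  have hκ5c : κ5 ≤ 1 / 16 := by rw [hκ5d]; exact (min_le_right _ _).trans (min_le_right _ _)
  obtain ⟨T5, hT5, NC⟩ := norm_close (κ := κ5) (R := R) hκ5 hR
  obtain ⟨T6, ED⟩ := edge_le (κ := κ / 52) (R := R) (by positivity) hR
  obtain ⟨T7, hT7, LOW⟩ := count_low
  obtain ⟨δ, hδd⟩ : ∃ δ : ℝ, δ = min (δ0 / 2) (δc / 4) := ⟨_, rfl⟩
  have hδ : 0 < δ := by rw [hδd]; exact lt_min (by positivity) (by positivity)
  have hδa : δ ≤ δ0 / 2 := by rw [hδd]; exact min_le_left _ _
  have hδb : δ ≤ δc / 4 := by rw [hδd]; exact min_le_right _ _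
  refine ⟨δ, hδ, max (max (max T1 T2) (max T3 T4)) (max (max T5 T6) (max T7 (20 / κ))),
    fun T hT H hH hH3 hsmall => ?_⟩
  have gA : max (max T1 T2) (max T3 T4) ≤ T := (le_max_left _ _).trans hT
  have gB : max (max T5 T6) (max T7 (20 / κ)) ≤ T := (le_max_right _ _).trans hT
  have g1 : T1 ≤ T := (le_max_left _ _).trans ((le_max_left _ _).trans gA)
  have g2 : T2 ≤ T := (le_max_right _ _).trans ((le_max_left _ _).trans gA)
  have g3 : T3 ≤ T := (le_max_left _ _).trans ((le_max_right _ _).trans gA)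
  have g4 : T4 ≤ T := (le_max_right _ _).trans ((le_max_right _ _).trans gA)
  have g5 : T5 ≤ T := (le_max_left _ _).trans ((le_max_left _ _).trans gB)
  have g6 : T6 ≤ T := (le_max_right _ _).trans ((le_max_left _ _).trans gB)
  have g7 : T7 ≤ T := (le_max_left _ _).trans ((le_max_right _ _).trans gB)
  have g8 : 20 / κ ≤ T := (le_max_right _ _).trans ((le_max_right _ _).trans gB)
  have hTe : Real.exp 3 ≤ T := hT7.trans g7
  have hTp : 0 < T := lt_of_lt_of_le (Real.exp_pos 3) hTe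
  have hT1' : 1 ≤ T := by
    have : (1:ℝ) ≤ Real.exp 3 := Real.one_le_exp (by norm_num)
    linarith
  have hL3 : 3 ≤ Real.log T := by rw [Real.le_log_iff_exp_le hTp]; exact hTe
  have hlow := LOW T g7 H hH hH3
  have hij : zeroCount T ≤ zeroCount (T + H) := zeroCount_mono (by linarith)
  have hHL : 0 < H * Real.log T := by
    have : 0 < H := by linarith
    have : 0 < Real.log T := by linarith
    positivity
  have hJ : 0 < NI T H := by linarith
  have hbig : 1 ≤ κ / 4 * NI T H := by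
    have h1 : T * 3 ≤ H * Real.log T := mul_le_mul hH hL3 (by norm_num) (by linarith)
    have h2 : 20 ≤ T * κ := by
      rw [div_le_iff₀ hκ] at g8
      exact g8
    nlinarith
  have hJd : (zeroCount (T + H) : ℝ) - zeroCount T = NI T H := rfl
  rw [hJd] at hsmall ⊢
  -- ordinates of the window
  have hord : ∀ n, zeroCount T < n → n ≤ zeroCount (T + H) →
      1 ≤ n ∧ T ≤ ordinate n ∧ ordinate n ≤ 4 * T := by
    intro n h1 h2
    have h3 : 1 ≤ n := by omega
    refine ⟨h3, Me_gt h1, ?_⟩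
    have h4 := (le_zeroCount_iff (zeroCount_unbounded n) h3 (T := T + H)).1 h2
    linarith
  -- the dichotomy
  have hfar : cn (fun n => ∀ m : ℤ, δc / 4 < |gap n - m / 2|) (zeroCount T)
      (zeroCount (T + H)) ≤ δc / 4 * NI T H := by
    have h12 : (1:ℝ) + 1 = 2 := by norm_num
    have h := D T g3 H (by rw [Real.rpow_one]; exact hH)
    rw [h12, hJd] at h
    rcases h with h1 | h1
    · exfalso
      have h2 : ((({n ∈ Finset.Ioc (zeroCount T) (zeroCount (T + H)) |
          gap n < 1 / 2 - δ0} : Finset ℕ).card : ℕ) : ℝ) ≤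
          cn (fun n => gap n < 1 / 2 - δ) (zeroCount T) (zeroCount (T + H)) := by
        apply card_filter_le_ncard (cn_fin _ _ _)
        intro n hn hg
        exact ⟨hn, by linarith⟩
      have h3 : δ * NI T H ≤ δ0 / 2 * NI T H := mul_le_mul_of_nonneg_right hδa hJ.le
      have h4 : 0 < δ0 / 2 * NI T H := by positivity
      linarith
    · exact h1
  -- gaps
  have hgap : ∀ n, zeroCount T < n → n < zeroCount (T + H) → ∀ r : ℝ, r ≤ R →
      xs T (n + 1) - xs T n ≤ r ∨ gap n ≤ r →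
      xs T (n + 1) - xs T n ≤ gap n ∧ gap n ≤ xs T (n + 1) - xs T n + κ5 := by
    intro n h1 h2 r hr hrr
    obtain ⟨o1, o2, o3⟩ := hord n h1 h2.le
    exact NC T g5 n (n + 1) o1 (by omega) o2 o3 (hrr.imp (fun h => h.trans hr)
      (fun h => le_trans h hr))
  have hhalf : (1:ℝ) / 2 ≤ R := by rw [hRd]; linarith
  have hGR : G ≤ R := by rw [hRd]; linarith
  have hsm : Sm T H δc ≤ δc * NI T H := by
    have h1 : Sm T H δc ≤ cn (fun n => gap n < 1 / 2 - δ) (zeroCount T) (zeroCount (T + H)) := by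
      unfold Sm
      apply card_filter_le_ncard (cn_fin _ _ _)
      intro n hn hg
      rw [Finset.mem_Ioo] at hn
      have h2 := (hgap n hn.1 hn.2 (1 / 2) hhalf (Or.inl (by linarith))).2
      refine ⟨Finset.mem_Ioc.2 ⟨hn.1, hn.2.le⟩, ?_⟩
      linarith
    have h2 : δ * NI T H ≤ δc * NI T H := mul_le_mul_of_nonneg_right (by linarith) hJ.le
    linarith
  have haw : Aw T H δc ≤ δc * NI T H := by
    have h1 : Aw T H δc ≤ cn (fun n => ∀ m : ℤ, δc / 4 < |gap n - m / 2|) (zeroCount T)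
        (zeroCount (T + H)) + ({n : ℕ | n ∈ Finset.Ioo (zeroCount T) (zeroCount (T + H)) ∧
          G < xs T (n + 1) - xs T n}.ncard : ℝ) := by
      unfold Aw
      apply card_filter_le_add (cn_fin _ _ _)
        ((Finset.finite_toSet _).subset (fun n hn => Finset.mem_coe.2 hn.1))
      intro n hn hg
      have hn' := Finset.mem_Ioo.1 hn
      by_cases hbg : G < xs T (n + 1) - xs T n
      · exact Or.inr ⟨hn, hbg⟩
      · left
        push Not at hbg
        obtain ⟨h2, h3⟩ := hgap n hn'.1 hn'.2 G hGR (Or.inl hbg)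
        refine ⟨Finset.mem_Ioc.2 ⟨hn'.1, hn'.2.le⟩, fun m => ?_⟩
        have h4 := hg m
        have h5 : |xs T (n + 1) - xs T n - m / 2| ≤ |gap n - m / 2| +
            |gap n - (xs T (n + 1) - xs T n)| := by
          have := abs_sub_le (gap n - m / 2) 0 (gap n - (xs T (n + 1) - xs T n))
          have h6 : xs T (n + 1) - xs T n - m / 2 =
              (gap n - m / 2) - (gap n - (xs T (n + 1) - xs T n)) := by ring
          rw [h6]
          exact (abs_sub _ _)
        have h6 : |gap n - (xs T (n + 1) - xs T n)| ≤ κ5 := by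
          rw [abs_le]
          constructor <;> linarith
        linarith
    have h2 := BG T g4 T H le_rfl hH (by linarith)
    have h3 : δc / 52 * (H * Real.log T) ≤ δc / 4 * NI T H := by
      have : δc / 52 * (H * Real.log T) ≤ δc / 52 * (13 * NI T H) :=
        mul_le_mul_of_nonneg_left hlow (by positivity)
      linarith
    have h4 : 0 ≤ δc * NI T H := by positivity
    linarith
  obtain ⟨A1, B1⟩ := P1 T g1 H hH hH3 δc hδc1 hsm haw
  obtain ⟨A2, B2⟩ := P2 T g2 H hH hH3 δc hδc2 hsm haw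
  constructor
  · -- gaps near one half
    have hr1 : rr 1 = 1 / 2 - 2 / π ^ 2 := by
      unfold rr
      norm_num
    rw [← hr1]
    have hlo : G1 T H (ε / 2) ≤ cn (fun n => |gap n - 1 / 2| ≤ ε) (zeroCount T)
        (zeroCount (T + H)) := by
      unfold G1
      apply card_filter_le_ncard (cn_fin _ _ _)
      intro n hn hg
      rw [Finset.mem_Ioo] at hn
      have h0 := abs_le.mp hg
      obtain ⟨h2, h3⟩ := hgap n hn.1 hn.2 1 (by rw [hRd]; linarith) (Or.inl (by linarith))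
      refine ⟨Finset.mem_Ioc.2 ⟨hn.1, hn.2.le⟩, ?_⟩
      rw [abs_le]
      constructor <;> linarith
    have hup : cn (fun n => |gap n - 1 / 2| ≤ ε) (zeroCount T) (zeroCount (T + H)) ≤
        G1 T H (ε + 1 / 16) + (({zeroCount (T + H)} : Set ℕ).ncard : ℝ) := by
      unfold G1 cn
      apply ncard_le_card_add (Set.finite_singleton _)
      rintro n ⟨hn, hg⟩
      rw [Finset.mem_Ioc] at hn
      by_cases he : n = zeroCount (T + H)
      · right
        exact he
      · left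
        have hn2 : n < zeroCount (T + H) := lt_of_le_of_ne hn.2 he
        have h0 := abs_le.mp hg
        obtain ⟨h2, h3⟩ := hgap n hn.1 hn2 1 (by rw [hRd]; linarith) (Or.inr (by linarith))
        refine ⟨Finset.mem_Ioo.2 ⟨hn.1, hn2⟩, ?_⟩
        rw [abs_le]
        constructor <;> linarith
    rw [Set.ncard_singleton, Nat.cast_one] at hup
    have h1 := abs_le.mp B1
    have h2 := abs_le.mp B2
    have h3 : 0 ≤ κ * NI T H := by positivity
    rw [abs_le]
    constructor <;> linarith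
  · intro k hk hkε
    have hkN' := hkN k hkε
    have hkR : (k:ℝ) ≤ N := by exact_mod_cast hkN'
    have hk0 : (0:ℝ) ≤ k := Nat.cast_nonneg k
    change |_ - rr k * NI T H| ≤ _
    have hlo : Ak T H (ε / 2) k ≤ cn (fun n => ∃ m, n < m ∧
        |normOrdinate m - normOrdinate n - k / 2| ≤ ε) (zeroCount T) (zeroCount (T + H)) := by
      unfold Ak
      apply card_filter_le_ncard (cn_fin _ _ _)
      rintro n hn ⟨m, hm, hnm, hg⟩
      have hn' := Finset.mem_Ioc.1 hn
      obtain ⟨o1, o2, o3⟩ := hord n hn'.1 hn'.2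
      have h0 := abs_le.mp hg
      have hxR : xs T m - xs T n ≤ R := by rw [hRd]; linarith
      obtain ⟨h2, h3⟩ := NC T g5 n m o1 hnm.le o2 o3 (Or.inl hxR)
      refine ⟨hn, m, hnm, ?_⟩
      rw [abs_le]
      constructor <;> linarith
    have hfin : {n : ℕ | n ∈ In T H ∧ ∃ m, n < m ∧ m ∉ In T H ∧
        normOrdinate m - normOrdinate n ≤ R}.Finite :=
      (Finset.finite_toSet (In T H)).subset (fun n hn => Finset.mem_coe.2 hn.1)
    have hup : cn (fun n => ∃ m, n < m ∧
        |normOrdinate m - normOrdinate n - k / 2| ≤ ε) (zeroCount T) (zeroCount (T + H)) ≤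
        Ak T H (ε + 1 / 16) k + ({n : ℕ | n ∈ In T H ∧ ∃ m, n < m ∧ m ∉ In T H ∧
          normOrdinate m - normOrdinate n ≤ R}.ncard : ℝ) := by
      unfold Ak cn
      apply ncard_le_card_add hfin
      rintro n ⟨hn, m, hnm, hg⟩
      have hn' := Finset.mem_Ioc.1 hn
      obtain ⟨o1, o2, o3⟩ := hord n hn'.1 hn'.2
      have h0 := abs_le.mp hg
      have hxR : normOrdinate m - normOrdinate n ≤ R := by rw [hRd]; linarith
      obtain ⟨h2, h3⟩ := NC T g5 n m o1 hnm.le o2 o3 (Or.inr hxR)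
      by_cases hmI : m ∈ In T H
      · left
        refine ⟨hn, m, hmI, hnm, ?_⟩
        rw [abs_le]
        constructor <;> linarith
      · right
        exact ⟨hn, m, hnm, hmI, hxR⟩
    have hed := ED T g6 T H le_rfl hH (by linarith)
    have h5 : κ / 52 * (H * Real.log T) ≤ κ / 4 * NI T H := by
      have : κ / 52 * (H * Real.log T) ≤ κ / 52 * (13 * NI T H) :=
        mul_le_mul_of_nonneg_left hlow (by positivity)
      linarith
    have h1 := abs_le.mp (A1 k hk hkN')
    have h2 := abs_le.mp (A2 k hk hkN')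
    have h3 : 0 ≤ κ * NI T H := by positivity
    rw [abs_le]
    constructor <;> linarith

end Pool.Agent.AHP
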