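import Pool.Agent.AHP.MeanA

/-!
# The diagonal sum and the coefficients
-/

namespace Pool.Agent.AHP

open MeasureTheory Real Finset ArithmeticFunction
open Pool.Agent.ZGap.Gen Pool.Agent.DirPoly

/-- The clipped profile. -/
noncomputable def fc (P : PhiData) (x : ℝ) : ℝ := P.f0 (max 0 (min x 1))

lemma fc_abs (P : PhiData) (x : ℝ) : |fc P x| ≤ 2 :=
  P.b0 _ (le_max_left _ _) (max_le zero_le_one (min_le_right _ _))

lemma fc_one (P : PhiData) {x : ℝ} (hx : 1 ≤ x) : fc P x = 0 := by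
  unfold fc
  rw [min_eq_right hx, max_eq_right zero_le_one, P.one]

lemma fc_eq (P : PhiData) {x : ℝ} (h0 : 0 ≤ x) : fc P x = P.f0 (min x 1) := by
  unfold fc
  rw [max_eq_right (le_min h0 zero_le_one)]

lemma fc_eq' (P : PhiData) {x : ℝ} (h0 : 0 ≤ x) (h1 : x ≤ 1) : fc P x = P.f0 x := by
  rw [fc_eq P h0, min_eq_left h1]

lemma fc_continuous (P : PhiData) : Continuous (fc P) := by
  unfold fc
  exact P.c0.comp (by fun_prop)

lemma f0_lip (P : PhiData) {x y : ℝ} (hx : x ∈ Set.Icc (0:ℝ) 1) (hy : y ∈ Set.Icc (0:ℝ) 1) :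
    |P.f0 x - P.f0 y| ≤ 5 * |x - y| := by
  have h := (convex_Icc (0:ℝ) 1).norm_image_sub_le_of_norm_hasDerivWithin_le
    (f := P.f0) (f' := P.f1) (C := 5) (x := y) (y := x)
    (fun v _ => (P.d0 v).hasDerivWithinAt) (fun v hv => by
      rw [Real.norm_eq_abs]; exact P.b1 v hv.1 hv.2) hy hx
  rw [Real.norm_eq_abs, Real.norm_eq_abs] at h
  exact h

lemma fc_lip (P : PhiData) (x y : ℝ) : |fc P x - fc P y| ≤ 5 * |x - y| := by
  unfold fc
  refine (f0_lip P ⟨le_max_left _ _, max_le zero_le_one (min_le_right _ _)⟩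
    ⟨le_max_left _ _, max_le zero_le_one (min_le_right _ _)⟩).trans ?_
  refine mul_le_mul_of_nonneg_left ?_ (by norm_num)
  refine (abs_max_sub_max_le_max 0 (min x 1) 0 (min y 1)).trans ?_
  rw [sub_zero, abs_zero]
  refine max_le (abs_nonneg _) ?_
  refine (abs_min_sub_min_le_max x 1 y 1).trans ?_
  rw [sub_self, abs_zero]
  exact max_le le_rfl (abs_nonneg _)

/-- The diagonal sum. -/
lemma diag : ∃ C : ℝ, 0 < C ∧ ∀ (P P' : PhiData) (D : ℝ), 1 ≤ D →
    |∑ n ∈ Icc 1 ⌈Real.exp D⌉₊, Λ n ^ 2 / n * (fc P (Real.log n / D) * fc P' (Real.log n / D)) -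
      D ^ 2 * ∫ v in (0:ℝ)..1, v * P.f0 v * P'.f0 v| ≤ C * D := by
  obtain ⟨C1, hC1, hM⟩ := Pool.Agent.ANT.mertens_lip
  obtain ⟨C2, hC2, hP⟩ := Pool.Agent.DirPoly.exists_sum_nonprime_le
  refine ⟨C1 * 24 + 24 * C2, by positivity, fun P P' D hD => ?_⟩
  have hD0 : 0 < D := by linarith
  obtain ⟨N, hN⟩ : ∃ N : ℕ, N = ⌈Real.exp D⌉₊ := ⟨_, rfl⟩
  rw [← hN]
  have hN1 : 1 ≤ N := by rw [hN]; exact Nat.one_le_ceil_iff.mpr (Real.exp_pos _)
  have hN0 : (0:ℝ) < N := by exact_mod_cast hN1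
  have hlog1 : D ≤ Real.log N := by
    rw [Real.le_log_iff_exp_le hN0, hN]
    exact Nat.le_ceil _
  have hlog2 : Real.log N ≤ 2 * D := by
    have h1 : (N:ℝ) ≤ Real.exp D + 1 := by
      rw [hN]; exact (Nat.ceil_lt_add_one (Real.exp_pos _).le).le
    have h2 : (1:ℝ) + D ≤ Real.exp D := by
      have := Real.add_one_le_exp D; linarith
    rw [Real.log_le_iff_le_exp hN0, two_mul, Real.exp_add]
    nlinarith
  obtain ⟨g, hg⟩ : ∃ g : ℝ → ℝ, g = fun u => fc P (u / D) * fc P' (u / D) := ⟨_, rfl⟩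
  have hg4 : ∀ u, |g u| ≤ 4 := by
    intro u
    rw [hg, abs_mul]
    have h1 := fc_abs P (u / D)
    have h2 := fc_abs P' (u / D)
    calc |fc P (u / D)| * |fc P' (u / D)| ≤ 2 * 2 := mul_le_mul h1 h2 (abs_nonneg _) (by norm_num)
      _ = 4 := by norm_num
  have hgl : ∀ u v, |g u - g v| ≤ 20 * (|u - v| / D) := by
    intro u v
    have h1 : g u - g v = fc P (u / D) * (fc P' (u / D) - fc P' (v / D)) +
        fc P' (v / D) * (fc P (u / D) - fc P (v / D)) := by rw [hg]; ring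
    have h2 : |u / D - v / D| = |u - v| / D := by
      rw [← sub_div, abs_div, abs_of_pos hD0]
    have h3 := fc_lip P' (u / D) (v / D)
    have h4 := fc_lip P (u / D) (v / D)
    rw [h2] at h3 h4
    rw [h1]
    refine (abs_add_le _ _).trans ?_
    rw [abs_mul, abs_mul]
    have h5 : 0 ≤ |u - v| / D := by positivity
    calc |fc P (u / D)| * |fc P' (u / D) - fc P' (v / D)| +
          |fc P' (v / D)| * |fc P (u / D) - fc P (v / D)|
        ≤ 2 * (5 * (|u - v| / D)) + 2 * (5 * (|u - v| / D)) :=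
          add_le_add (mul_le_mul (fc_abs _ _) h3 (abs_nonneg _) (by norm_num))
            (mul_le_mul (fc_abs _ _) h4 (abs_nonneg _) (by norm_num))
      _ = _ := by ring
  have hg1 : ∀ u, D ≤ u → g u = 0 := by
    intro u hu
    rw [hg]
    simp only
    rw [fc_one P (by rw [le_div_iff₀ hD0]; linarith), zero_mul]
  -- the main term
  obtain ⟨h, hh⟩ : ∃ h : ℝ → ℝ, h = fun u => max 0 u * g u := ⟨_, rfl⟩
  have hL : ∀ u ∈ Set.Icc 0 D, ∀ v ∈ Set.Icc 0 D, |h u - h v| ≤ 24 * |u - v| := by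
    intro u hu v hv
    have h1 : h u - h v = (u - v) * g u + v * (g u - g v) := by
      rw [hh]
      simp only
      rw [max_eq_right hu.1, max_eq_right hv.1]
      ring
    rw [h1]
    refine (abs_add_le _ _).trans ?_
    rw [abs_mul, abs_mul, abs_of_nonneg hv.1]
    calc |u - v| * |g u| + v * |g u - g v| ≤ |u - v| * 4 + D * (20 * (|u - v| / D)) :=
          add_le_add (mul_le_mul_of_nonneg_left (hg4 u) (abs_nonneg _))
            (mul_le_mul hv.2 (hgl u v) (abs_nonneg _) hD0.le)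
      _ = _ := by field_simp; ring
  have h0 : ∀ u, u ∉ Set.Ioo 0 D → h u = 0 := by
    intro u hu
    rw [hh]
    simp only
    rcases le_or_gt u 0 with h | h
    · rw [max_eq_left h, zero_mul]
    · rcases le_or_gt D u with h' | h'
      · rw [hg1 u h', mul_zero]
      · exact absurd ⟨h, h'⟩ hu
  have hmain := hM h 24 0 D N hD0.le (by norm_num) hN1 hlog1 hL h0
  have hgc : Continuous g := by
    rw [hg]
    exact ((fc_continuous P).comp (by fun_prop)).mul ((fc_continuous P').comp (by fun_prop))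
  have hhc : Continuous h := by
    rw [hh]
    exact (continuous_const.max continuous_id).mul hgc
  have hint : ∫ u in (0:ℝ)..(Real.log N), h u = D ^ 2 * ∫ v in (0:ℝ)..1, v * P.f0 v * P'.f0 v := by
    rw [← intervalIntegral.integral_add_adjacent_intervals (b := D)
      (hhc.intervalIntegrable _ _) (hhc.intervalIntegrable _ _)]
    have h1 : ∫ u in D..(Real.log N), h u = 0 := by
      rw [intervalIntegral.integral_congr (g := fun _ => 0)]
      · simp
      · intro u hu
        rw [Set.uIcc_of_le hlog1] at hu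
        exact h0 u fun hu' => absurd hu'.2 (not_lt.mpr hu.1)
    rw [h1, add_zero]
    have h2 := intervalIntegral.integral_comp_mul_left (f := h) (a := 0) (b := 1) hD0.ne'
    rw [mul_zero, mul_one, smul_eq_mul] at h2
    have h3 : ∫ u in (0:ℝ)..D, h u = D * ∫ v in (0:ℝ)..1, h (D * v) := by
      rw [h2]
      field_simp
    rw [h3, pow_two, mul_assoc]
    congr 1
    rw [← intervalIntegral.integral_const_mul]
    refine intervalIntegral.integral_congr fun v hv => ?_
    rw [Set.uIcc_of_le zero_le_one] at hv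
    rw [hh, hg]
    simp only
    rw [max_eq_right (mul_nonneg hD0.le hv.1), mul_div_cancel_left₀ _ hD0.ne',
      fc_eq' P hv.1 hv.2, fc_eq' P' hv.1 hv.2]
    ring
  rw [hint] at hmain
  -- prime powers
  have hpp : |∑ n ∈ Icc 1 N, Λ n ^ 2 / n * g (Real.log n) -
      ∑ n ∈ Icc 1 N, Λ n / n * h (Real.log n)| ≤ C2 * (1 + Real.log N) * 8 := by
    rw [← Finset.sum_sub_distrib]
    have h1 : ∀ n ∈ Icc 1 N, |Λ n ^ 2 / n * g (Real.log n) - Λ n / n * h (Real.log n)| ≤
        (if n.Prime then 0 else Λ n / Real.sqrt n) * 8 := by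
      intro n hn
      rw [mem_Icc] at hn
      have hn0 : (0:ℝ) < n := by exact_mod_cast hn.1
      have h2 : Λ n ^ 2 / n * g (Real.log n) - Λ n / n * h (Real.log n) =
          - (Λ n / n * (Real.log n - Λ n) * g (Real.log n)) := by
        rw [hh]
        simp only
        rw [max_eq_right (Real.log_natCast_nonneg n)]
        ring
      rw [h2, abs_neg]
      split_ifs with hp
      · rw [vonMangoldt_apply_prime hp]; simp
      · have h3 : 0 ≤ Real.log n - Λ n := sub_nonneg.mpr vonMangoldt_le_log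
        have h4 : 0 ≤ Λ n := vonMangoldt_nonneg
        have h5 : Real.log n ≤ 2 * Real.sqrt n := by
          have h6 : Real.log n = 2 * Real.log (Real.sqrt n) := by
            rw [Real.log_sqrt hn0.le]; ring
          have h7 := Real.log_le_sub_one_of_pos (Real.sqrt_pos.mpr hn0)
          rw [h6]
          linarith
        have h8 : Real.sqrt n ^ 2 = n := Real.sq_sqrt hn0.le
        have h9 : 0 < Real.sqrt n := Real.sqrt_pos.mpr hn0
        rw [abs_mul, abs_of_nonneg (mul_nonneg (by positivity) h3)]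
        calc Λ n / n * (Real.log n - Λ n) * |g (Real.log n)|
            ≤ Λ n / n * (2 * Real.sqrt n) * 4 := by
              refine mul_le_mul (mul_le_mul_of_nonneg_left (by linarith) (by positivity)) (hg4 _)
                (abs_nonneg _) (by positivity)
          _ = Λ n / Real.sqrt n * 8 := by
              nth_rewrite 1 [← h8]
              field_simp
              ring
    calc _ ≤ ∑ n ∈ Icc 1 N, |Λ n ^ 2 / n * g (Real.log n) - Λ n / n * h (Real.log n)| :=
          Finset.abs_sum_le_sum_abs _ _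
      _ ≤ ∑ n ∈ Icc 1 N, (if n.Prime then 0 else Λ n / Real.sqrt n) * 8 :=
          Finset.sum_le_sum h1
      _ = (∑ n ∈ (Icc 1 N).filter (fun n => ¬ n.Prime), Λ n / Real.sqrt n) * 8 := by
          rw [← Finset.sum_mul, Finset.sum_filter]
          congr 1
          refine Finset.sum_congr rfl fun n _ => ?_
          split_ifs <;> simp_all
      _ ≤ (C2 * (1 + Real.log N)) * 8 := by
          gcongr
          exact hP N hN1
      _ = _ := by ring
  have e1 : ∀ n : ℕ, fc P (Real.log n / D) * fc P' (Real.log n / D) = g (Real.log n) := by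
    intro n
    rw [hg]
  simp only [e1]
  have h5 : C2 * (1 + Real.log N) * 8 ≤ 24 * C2 * D := by
    have h6 : 1 + Real.log N ≤ 3 * D := by linarith
    calc C2 * (1 + Real.log N) * 8 ≤ C2 * (3 * D) * 8 := by gcongr
      _ = _ := by ring
  calc |∑ n ∈ Icc 1 N, Λ n ^ 2 / n * g (Real.log n) -
        D ^ 2 * ∫ v in (0:ℝ)..1, v * P.f0 v * P'.f0 v|
      ≤ |∑ n ∈ Icc 1 N, Λ n ^ 2 / n * g (Real.log n) -
          ∑ n ∈ Icc 1 N, Λ n / n * h (Real.log n)| +
        |∑ n ∈ Icc 1 N, Λ n / n * h (Real.log n) -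
          D ^ 2 * ∫ v in (0:ℝ)..1, v * P.f0 v * P'.f0 v| := abs_sub_le _ _ _
    _ ≤ 24 * C2 * D + C1 * 24 * (D - 0) := add_le_add (hpp.trans h5) hmain
    _ = _ := by ring

/-- The coefficients. -/
noncomputable def cc (P : PhiData) (D : ℝ) (n : ℕ) : ℝ :=
  Λ n * fc P (Real.log n / D) * (Real.sqrt n)⁻¹

lemma cc_one (P : PhiData) (D : ℝ) : cc P D 1 = 0 := by
  unfold cc
  simp

lemma cc_mul (P P' : PhiData) (D : ℝ) (n : ℕ) : cc P D n * cc P' D n =
    Λ n ^ 2 / n * (fc P (Real.log n / D) * fc P' (Real.log n / D)) := by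
  unfold cc
  have h : (Real.sqrt n)⁻¹ * (Real.sqrt n)⁻¹ = (n:ℝ)⁻¹ := by
    rw [← mul_inv, Real.mul_self_sqrt (Nat.cast_nonneg n)]
  calc Λ n * fc P (Real.log n / D) * (Real.sqrt n)⁻¹ *
        (Λ n * fc P' (Real.log n / D) * (Real.sqrt n)⁻¹)
      = Λ n ^ 2 * (fc P (Real.log n / D) * fc P' (Real.log n / D)) *
        ((Real.sqrt n)⁻¹ * (Real.sqrt n)⁻¹) := by ring
    _ = _ := by rw [h]; ring

lemma vm_eq (P : PhiData) {D : ℝ} (hD : 1 ≤ D) {x : ℕ} (hx : ⌈Real.exp D⌉₊ ≤ x) (t : ℝ) :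
    vmPoly (bb P D) x t = dp (cc P D) ⌈Real.exp D⌉₊ t := by
  have hD0 : 0 < D := by linarith
  unfold vmPoly dp
  have h1 : ∀ n ∈ Icc 1 x, (vonMangoldt n : ℂ) * bb P D n *
      (n : ℂ) ^ (-(1 / 2 + t * Complex.I) : ℂ) =
      ((cc P D n : ℝ) : ℂ) * (n : ℂ) ^ (-(t * Complex.I) : ℂ) := by
    intro n hn
    rw [mem_Icc] at hn
    have hn0 : (n : ℂ) ≠ 0 := by exact_mod_cast (by omega : n ≠ 0)
    have hnr : (0:ℝ) < n := by exact_mod_cast hn.1
    have h2 : (n : ℂ) ^ (-(1 / 2 + t * Complex.I) : ℂ) =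
        (((Real.sqrt n)⁻¹ : ℝ) : ℂ) * (n : ℂ) ^ (-(t * Complex.I) : ℂ) := by
      have h3 : (-(1 / 2 + t * Complex.I) : ℂ) = (((-(1/2) : ℝ)) : ℂ) + -(t * Complex.I) := by
        push_cast
        ring
      rw [h3, Complex.cpow_add _ _ hn0]
      congr 1
      rw [Real.sqrt_eq_rpow, ← Real.rpow_neg hnr.le, Complex.ofReal_cpow hnr.le]
      simp
    rw [h2]
    unfold bb cc
    rw [fc_eq P (div_nonneg (Real.log_natCast_nonneg n) hD0.le)]
    push_cast
    ring
  rw [Finset.sum_congr rfl h1]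
  symm
  refine Finset.sum_subset (Finset.Icc_subset_Icc_right hx) fun n hn hn' => ?_
  rw [mem_Icc] at hn hn'
  have h3 : ⌈Real.exp D⌉₊ < n := by omega
  have h4 : Real.exp D ≤ n := (Nat.le_ceil _).trans (by exact_mod_cast h3.le)
  have h5 : D ≤ Real.log n := by
    rw [Real.le_log_iff_exp_le (by exact_mod_cast hn.1)]
    exact h4
  have h6 : cc P D n = 0 := by
    unfold cc
    rw [fc_one P (by rw [le_div_iff₀ hD0]; linarith)]
    ring
  rw [h6]
  simp

end Pool.Agent.AHP
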