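import Pool.Agent.AHP.Exp
import Pool.Agent.AHP.MeanD

/-!
# The mean value of `SS P * SS P'` over short windows
-/

namespace Pool.Agent.AHP

open MeasureTheory Real Set Pool.Agent.ZGap.Gen Pool.Agent.ZetaGaps Pool.Agent.PF.SN
open Pool.Agent.Hadamard Pool.Agent.DirPoly Pool.Agent.ZGap

/-- The model function. -/
noncomputable def am (α L : ℝ) (a : ℕ → ℝ) (N : ℕ) (t : ℝ) : ℝ := α * L - (dp a N t).re

lemma am_continuous (α L : ℝ) (a : ℕ → ℝ) (N : ℕ) : Continuous (am α L a N) := by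
  unfold am
  have := dp_continuous a N
  fun_prop

lemma int_re_dp {a : ℕ → ℝ} (ha : a 1 = 0) (N : ℕ) (w v : ℝ) :
    |∫ t in w..v, (dp a N t).re| ≤ 3 * (N + ∑ n ∈ Finset.Icc 1 N, a n ^ 2) := by
  have hc := dp_continuous a N
  have h1 : ∫ t in w..v, (dp a N t).re = (∫ t in w..v, dp a N t).re :=
    Complex.reCLM.intervalIntegral_comp_comm (μ := volume) (hc.intervalIntegrable _ _)
  rw [h1]
  refine (Complex.abs_re_le_norm _).trans ((int_dp ha N w v).trans ?_)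
  exact mul_le_mul_of_nonneg_left (sum_abs_le a N) (by norm_num)

lemma mean_am {N : ℕ} (hN : 1 ≤ N) {a a' : ℕ → ℝ} (ha : a 1 = 0) (ha' : a' 1 = 0)
    {α α' L : ℝ} (hα : |α| ≤ 1) (hα' : |α'| ≤ 1) (hL : 0 ≤ L) (w v : ℝ) :
    |(∫ t in w..v, am α L a N t * am α' L a' N t) - ((v - w) * (α * α' * L ^ 2) +
      (v - w) / 2 * ∑ n ∈ Finset.Icc 1 N, a n * a' n)| ≤
      3 * L * (2 * N + ((∑ n ∈ Finset.Icc 1 N, a n ^ 2) + ∑ n ∈ Finset.Icc 1 N, a' n ^ 2)) +
      4 * N * (1 + Real.log N) *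
        ((∑ n ∈ Finset.Icc 1 N, a n ^ 2) + ∑ n ∈ Finset.Icc 1 N, a' n ^ 2) := by
  have hc := dp_continuous a N
  have hc' := dp_continuous a' N
  have hr : Continuous fun t => (dp a N t).re := Complex.continuous_re.comp hc
  have hr' : Continuous fun t => (dp a' N t).re := Complex.continuous_re.comp hc'
  have e1 : ∀ t : ℝ, am α L a N t * am α' L a' N t = α * α' * L ^ 2 +
      (-(α * L)) * (dp a' N t).re + (-(α' * L)) * (dp a N t).re +
      (dp a N t).re * (dp a' N t).re := by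
    intro t
    unfold am
    ring
  have e2 : (∫ t in w..v, am α L a N t * am α' L a' N t) = (v - w) * (α * α' * L ^ 2) +
      (-(α * L)) * (∫ t in w..v, (dp a' N t).re) + (-(α' * L)) * (∫ t in w..v, (dp a N t).re) +
      ∫ t in w..v, (dp a N t).re * (dp a' N t).re := by
    simp only [e1]
    rw [intervalIntegral.integral_add, intervalIntegral.integral_add,
      intervalIntegral.integral_add, intervalIntegral.integral_const,
      intervalIntegral.integral_const_mul, intervalIntegral.integral_const_mul, smul_eq_mul]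
    all_goals
      refine Continuous.intervalIntegrable ?_ _ _
      fun_prop
  have h1 := int_re_dp ha N w v
  have h2 := int_re_dp ha' N w v
  have h3 := mean_re hN ha ha' w v
  rw [e2]
  obtain ⟨A, hA⟩ : ∃ A, A = ∑ n ∈ Finset.Icc 1 N, a n ^ 2 := ⟨_, rfl⟩
  obtain ⟨A', hA'⟩ : ∃ A', A' = ∑ n ∈ Finset.Icc 1 N, a' n ^ 2 := ⟨_, rfl⟩
  rw [← hA] at h1 h3 ⊢
  rw [← hA'] at h2 h3 ⊢
  have g1 : |(-(α' * L)) * (∫ t in w..v, (dp a N t).re)| ≤ L * (3 * (N + A)) := by
    rw [abs_mul, abs_neg, abs_mul, abs_of_nonneg hL]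
    refine mul_le_mul ?_ h1 (abs_nonneg _) hL
    exact mul_le_of_le_one_left hL hα'
  have g2 : |(-(α * L)) * (∫ t in w..v, (dp a' N t).re)| ≤ L * (3 * (N + A')) := by
    rw [abs_mul, abs_neg, abs_mul, abs_of_nonneg hL]
    refine mul_le_mul ?_ h2 (abs_nonneg _) hL
    exact mul_le_of_le_one_left hL hα
  have e3 : (v - w) * (α * α' * L ^ 2) +
      (-(α * L)) * (∫ t in w..v, (dp a' N t).re) + (-(α' * L)) * (∫ t in w..v, (dp a N t).re) +
      (∫ t in w..v, (dp a N t).re * (dp a' N t).re) - ((v - w) * (α * α' * L ^ 2) +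
      (v - w) / 2 * ∑ n ∈ Finset.Icc 1 N, a n * a' n) =
      (-(α * L)) * (∫ t in w..v, (dp a' N t).re) + (-(α' * L)) * (∫ t in w..v, (dp a N t).re) +
      ((∫ t in w..v, (dp a N t).re * (dp a' N t).re) -
        (v - w) / 2 * ∑ n ∈ Finset.Icc 1 N, a n * a' n) := by ring
  rw [e3]
  refine (abs_add_le _ _).trans ?_
  have g3 := abs_add_le ((-(α * L)) * (∫ t in w..v, (dp a' N t).re))
    ((-(α' * L)) * (∫ t in w..v, (dp a N t).re))
  have e4 : 3 * L * (2 * N + (A + A')) = L * (3 * (N + A)) + L * (3 * (N + A')) := by ring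
  rw [e4]
  linarith

lemma mean_am_sq {N : ℕ} (hN : 1 ≤ N) {a : ℕ → ℝ} {α L : ℝ} (hα : |α| ≤ 1)
    {w v : ℝ} (hwv : w ≤ v) :
    (∫ t in w..v, am α L a N t ^ 2) ≤ 2 * ((v - w) * L ^ 2) +
      2 * (((v - w) + 4 * N * (1 + Real.log N)) * ∑ n ∈ Finset.Icc 1 N, a n ^ 2) := by
  have hc := dp_continuous a N
  have hca := am_continuous α L a N
  have h1 : ∀ t ∈ Icc w v, am α L a N t ^ 2 ≤ 2 * L ^ 2 + 2 * ‖dp a N t‖ ^ 2 := by
    intro t _
    unfold am
    have h2 := Complex.abs_re_le_norm (dp a N t)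
    have h3 : (dp a N t).re ^ 2 ≤ ‖dp a N t‖ ^ 2 := by
      rw [← sq_abs (dp a N t).re]
      exact pow_le_pow_left₀ (abs_nonneg _) h2 2
    have h4 : (α * L) ^ 2 ≤ L ^ 2 := by
      rw [mul_pow]
      have h5 : α ^ 2 ≤ 1 := by
        rw [← sq_abs]
        exact pow_le_one₀ (abs_nonneg _) hα
      exact mul_le_of_le_one_left (sq_nonneg L) h5
    nlinarith [sq_nonneg (α * L + (dp a N t).re)]
  have hcs : Continuous fun t => am α L a N t ^ 2 := hca.pow 2
  have h2 := intervalIntegral.integral_mono_on hwv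
    (hcs.intervalIntegrable (μ := volume) w v)
    ((by fun_prop : Continuous fun t => 2 * L ^ 2 + 2 * ‖dp a N t‖ ^ 2).intervalIntegrable w v) h1
  rw [intervalIntegral.integral_add ((by fun_prop : Continuous _).intervalIntegrable _ _)
    ((by fun_prop : Continuous _).intervalIntegrable _ _), intervalIntegral.integral_const_mul,
    intervalIntegral.integral_const_mul, intervalIntegral.integral_const, smul_eq_mul] at h2
  have h3 := (abs_le.mp (mean_dp hN a w v)).2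
  have h4 : ((v - w) + 4 * N * (1 + Real.log N)) * ∑ n ∈ Finset.Icc 1 N, a n ^ 2 =
      (v - w) * (∑ n ∈ Finset.Icc 1 N, a n ^ 2) +
      4 * N * (1 + Real.log N) * ∑ n ∈ Finset.Icc 1 N, a n ^ 2 := by ring
  rw [h4]
  linarith

lemma int_f_le (P : PhiData) : |∫ v in (0:ℝ)..1, v * P.f0 v * P.f0 v| ≤ 4 := by
  have h := intervalIntegral.norm_integral_le_of_norm_le_const (a := 0) (b := 1) (C := 4)
    (f := fun v => v * P.f0 v * P.f0 v) (fun v hv => by
      rw [Set.uIoc_of_le zero_le_one] at hv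
      rw [Real.norm_eq_abs, abs_mul, abs_mul, abs_of_pos hv.1]
      have h1 := P.b0 v hv.1.le hv.2
      have h2 := abs_nonneg (P.f0 v)
      have h3 : v * |P.f0 v| ≤ 1 * 2 := mul_le_mul hv.2 h1 h2 zero_le_one
      calc v * |P.f0 v| * |P.f0 v| ≤ (1 * 2) * 2 := mul_le_mul h3 h1 h2 (by norm_num)
        _ = 4 := by norm_num)
  rw [Real.norm_eq_abs] at h
  linarith [h.trans_eq (by norm_num : (4:ℝ) * |1 - 0| = 4)]

/-- Replacing two functions by nearby ones. -/
lemma prod_compare {S S' A A' : ℝ → ℝ} {w v κ L : ℝ} (hwv : w ≤ v) (hκ : 0 ≤ κ) (hκ1 : κ ≤ 1)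
    (hL : 0 ≤ L) (hS : ContinuousOn S (Icc w v)) (hS' : ContinuousOn S' (Icc w v))
    (hA : Continuous A) (hA' : Continuous A')
    (h : ∀ t ∈ Icc w v, |S t - A t| ≤ κ * L) (h' : ∀ t ∈ Icc w v, |S' t - A' t| ≤ κ * L) :
    |(∫ t in w..v, S t * S' t) - ∫ t in w..v, A t * A' t| ≤
      κ * (2 * ((v - w) * L ^ 2) + (∫ t in w..v, A t ^ 2) + ∫ t in w..v, A' t ^ 2) := by
  have i1 : IntervalIntegrable (fun t => S t * S' t) volume w v :=
    (hS.mul hS').intervalIntegrable_of_Icc hwv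
  have i2 : IntervalIntegrable (fun t => A t * A' t) volume w v :=
    (hA.mul hA').intervalIntegrable _ _
  rw [← intervalIntegral.integral_sub i1 i2]
  have hpt : ∀ t ∈ Icc w v, |S t * S' t - A t * A' t| ≤ κ * (2 * L ^ 2 + A t ^ 2 + A' t ^ 2) := by
    intro t ht
    have h1 := h t ht
    have h2 := h' t ht
    have e1 : S t * S' t - A t * A' t = (S t - A t) * A' t + A t * (S' t - A' t) +
        (S t - A t) * (S' t - A' t) := by ring
    rw [e1]
    have g1 : |(S t - A t) * A' t| ≤ κ * L * |A' t| := by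
      rw [abs_mul]
      exact mul_le_mul_of_nonneg_right h1 (abs_nonneg _)
    have g2 : |A t * (S' t - A' t)| ≤ κ * L * |A t| := by
      rw [abs_mul, mul_comm]
      exact mul_le_mul_of_nonneg_right h2 (abs_nonneg _)
    have g3 : |(S t - A t) * (S' t - A' t)| ≤ κ * L * (κ * L) := by
      rw [abs_mul]
      exact mul_le_mul h1 h2 (abs_nonneg _) (mul_nonneg hκ hL)
    have g4 : κ * L * (κ * L) ≤ κ * L ^ 2 := by
      have : κ * L * (κ * L) = κ * (κ * L ^ 2) := by ring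
      rw [this]
      exact mul_le_mul_of_nonneg_left (mul_le_of_le_one_left (sq_nonneg L) hκ1) hκ
    have g5 : L * |A t| ≤ (L ^ 2 + A t ^ 2) / 2 := by
      have := sq_nonneg (L - |A t|)
      have h3 := sq_abs (A t)
      nlinarith
    have g6 : L * |A' t| ≤ (L ^ 2 + A' t ^ 2) / 2 := by
      have := sq_nonneg (L - |A' t|)
      have h3 := sq_abs (A' t)
      nlinarith
    have g7 := mul_le_mul_of_nonneg_left g5 hκ
    have g8 := mul_le_mul_of_nonneg_left g6 hκ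
    have g9 : 0 ≤ κ * A t ^ 2 := mul_nonneg hκ (sq_nonneg _)
    have g10 : 0 ≤ κ * A' t ^ 2 := mul_nonneg hκ (sq_nonneg _)
    have g11 := abs_add_le ((S t - A t) * A' t + A t * (S' t - A' t))
      ((S t - A t) * (S' t - A' t))
    have g12 := abs_add_le ((S t - A t) * A' t) (A t * (S' t - A' t))
    have e2 : κ * L * |A t| = κ * (L * |A t|) := by ring
    have e3 : κ * L * |A' t| = κ * (L * |A' t|) := by ring
    have e4 : κ * (2 * L ^ 2 + A t ^ 2 + A' t ^ 2) = κ * ((L ^ 2 + A t ^ 2) / 2) +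
        κ * ((L ^ 2 + A' t ^ 2) / 2) + κ * L ^ 2 + (κ * A t ^ 2 + κ * A' t ^ 2) / 2 := by ring
    rw [e4]
    linarith
  calc |∫ t in w..v, (S t * S' t - A t * A' t)|
      ≤ ∫ t in w..v, |S t * S' t - A t * A' t| :=
        intervalIntegral.abs_integral_le_integral_abs hwv
    _ ≤ ∫ t in w..v, κ * (2 * L ^ 2 + A t ^ 2 + A' t ^ 2) := by
        apply intervalIntegral.integral_mono_on hwv
        · exact (i1.sub i2).abs
        · exact (by fun_prop : Continuous _).intervalIntegrable _ _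
        · exact hpt
    _ = _ := by
        rw [intervalIntegral.integral_const_mul, intervalIntegral.integral_add
          ((by fun_prop : Continuous _).intervalIntegrable _ _)
          ((by fun_prop : Continuous _).intervalIntegrable _ _), intervalIntegral.integral_add
          ((by fun_prop : Continuous _).intervalIntegrable _ _)
          ((by fun_prop : Continuous _).intervalIntegrable _ _),
          intervalIntegral.integral_const, smul_eq_mul]
        ring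

lemma SS_contOn (hRH : RiemannHypothesis) (P : PhiData) {D : ℝ} (hD : 1 / 2 ≤ D) (w W : ℝ) :
    ContinuousOn (fun t => SS P D t) (Icc w (w + W)) := by
  have h := SS_continuousOn hRH P hD w W
  have h1 : ContinuousOn (fun t : ℝ => t - w) (Icc w (w + W)) := by fun_prop
  have h2 := h.comp h1 (fun t ht => ⟨by linarith [ht.1], by linarith [ht.2]⟩)
  refine h2.congr fun t _ => ?_
  simp [Function.comp]

/-- **The mean value.** -/
theorem mean_prod (hRH : RiemannHypothesis) (P P' : PhiData) {b b' κ : ℝ} (hb0 : 0 < b)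
    (hb : b < b') (hb' : b' ≤ 1) (hκ : 0 < κ) : ∃ T0 : ℝ, ∀ T : ℝ, T0 ≤ T → ∀ w W : ℝ,
      T ≤ w → T ^ b' ≤ W → w + W ≤ 4 * T →
      |(∫ t in w..(w + W), SS P (b * Real.log T) t * SS P' (b * Real.log T) t) -
        W * Real.log T ^ 2 * (P.f0 0 * P'.f0 0 / 4 +
          b ^ 2 / 2 * ∫ v in (0:ℝ)..1, v * P.f0 v * P'.f0 v)| ≤ κ * W * Real.log T ^ 2 := by
  obtain ⟨C, hC, hdiag⟩ := diag
  have hb1 : b < 1 := by linarith
  obtain ⟨C1, hC1⟩ : ∃ C1 : ℝ, C1 = 4 + C := ⟨_, rfl⟩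
  have hC10 : 0 < C1 := by linarith
  obtain ⟨κ', hκ'⟩ : ∃ κ' : ℝ, κ' = min 1 (κ / (3 * (6 + 68 * C1))) := ⟨_, rfl⟩
  have hκ'0 : 0 < κ' := by rw [hκ']; positivity
  have hκ'1 : κ' ≤ 1 := by rw [hκ']; exact min_le_left _ _
  have hκ'2 : κ' * (6 + 68 * C1) ≤ κ / 3 := by
    have h1 : κ' ≤ κ / (3 * (6 + 68 * C1)) := by rw [hκ']; exact min_le_right _ _
    have h2 := mul_le_mul_of_nonneg_right h1 (by positivity : 0 ≤ 6 + 68 * C1)
    refine h2.trans (le_of_eq ?_)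
    field_simp
  obtain ⟨δ, hδ⟩ : ∃ δ : ℝ, δ = min 1 (κ / (3 * (12 + 38 * C1))) := ⟨_, rfl⟩
  have hδ0 : 0 < δ := by rw [hδ]; positivity
  have hδ1 : δ ≤ 1 := by rw [hδ]; exact min_le_left _ _
  have hδ2 : δ * (12 + 38 * C1) ≤ κ / 3 := by
    have h1 : δ ≤ κ / (3 * (12 + 38 * C1)) := by rw [hδ]; exact min_le_right _ _
    have h2 := mul_le_mul_of_nonneg_right h1 (by positivity : 0 ≤ 12 + 38 * C1)
    refine h2.trans (le_of_eq ?_)
    field_simp
  obtain ⟨T1, hT1e, hexpl⟩ := expl hRH hb0 hb1 hκ'0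
  -- eventual conditions
  have ev1 : ∀ᶠ T : ℝ in Filter.atTop, 3 * C / (2 * κ) + 1 ≤ Real.log T :=
    Real.tendsto_log_atTop.eventually_ge_atTop _
  have ev2 : ∀ᶠ T : ℝ in Filter.atTop, 2 ≤ T ^ (1 - b) :=
    (tendsto_rpow_atTop (by linarith)).eventually_ge_atTop _
  have ev3 : ∀ᶠ T : ℝ in Filter.atTop, Real.log T ≤ δ * T ^ (b' - b) := by
    have hlo := isLittleO_log_rpow_atTop (show 0 < b' - b by linarith)
    filter_upwards [hlo.bound hδ0, Filter.eventually_gt_atTop 1] with T hT hT1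
    have hT0 : 0 < T := by linarith
    rwa [Real.norm_of_nonneg (Real.log_pos hT1).le, Real.norm_of_nonneg (by positivity)] at hT
  obtain ⟨T2, hT2⟩ := Filter.eventually_atTop.mp (ev1.and (ev2.and ev3))
  refine ⟨max T1 T2, fun T hT w W hw hW hwW => ?_⟩
  obtain ⟨g1, g2, g3⟩ := hT2 T ((le_max_right _ _).trans hT)
  have hTT1 : T1 ≤ T := (le_max_left _ _).trans hT
  obtain ⟨hD1, hSS⟩ := hexpl T hTT1
  have hT0 : 0 < T := lt_of_lt_of_le (Real.exp_pos 3) (hT1e.trans hTT1)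
  have hT1 : 1 ≤ T := by linarith [Real.add_one_le_exp (3:ℝ)]
  obtain ⟨L, hL⟩ : ∃ L, L = Real.log T := ⟨_, rfl⟩
  rw [← hL] at g1 g3 hD1 hSS ⊢
  obtain ⟨D, hD⟩ : ∃ D, D = b * L := ⟨_, rfl⟩
  rw [← hD] at hD1 hSS ⊢
  have hC3 : 0 < 3 * C / (2 * κ) := by positivity
  have hL1 : 1 ≤ L := by linarith
  have hL0 : 0 < L := by linarith
  have hDL : D ≤ L := by rw [hD]; exact mul_le_of_le_one_left hL0.le hb1.le
  obtain ⟨X, hX⟩ : ∃ X, X = T ^ b := ⟨_, rfl⟩
  have hexpD : Real.exp D = X := by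
    rw [hX, Real.rpow_def_of_pos hT0, hD, hL, mul_comm]
  have hX1 : 1 ≤ X := by rw [hX]; exact Real.one_le_rpow hT1 hb0.le
  have hXT : 2 * X ≤ T := by
    have h1 : T = X * T ^ (1 - b) := by
      rw [hX, ← Real.rpow_add hT0]
      simp
    calc 2 * X = X * 2 := by ring
      _ ≤ X * T ^ (1 - b) := mul_le_mul_of_nonneg_left g2 (by linarith)
      _ = T := h1.symm
  have hXW : X * L ≤ δ * W := by
    have h1 : X * T ^ (b' - b) = T ^ b' := by
      rw [hX, ← Real.rpow_add hT0]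
      congr 1
      ring
    calc X * L ≤ X * (δ * T ^ (b' - b)) := mul_le_mul_of_nonneg_left g3 (by linarith)
      _ = δ * T ^ b' := by rw [← h1]; ring
      _ ≤ δ * W := mul_le_mul_of_nonneg_left hW hδ0.le
  obtain ⟨N, hN⟩ : ∃ N : ℕ, N = ⌈Real.exp D⌉₊ := ⟨_, rfl⟩
  have hN1 : 1 ≤ N := by rw [hN]; exact Nat.one_le_ceil_iff.mpr (Real.exp_pos _)
  have hN0 : (0:ℝ) < N := by exact_mod_cast hN1
  have hN2 : (N:ℝ) ≤ 2 * X := by
    have h1 : (N:ℝ) ≤ Real.exp D + 1 := by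
      rw [hN]; exact (Nat.ceil_lt_add_one (Real.exp_pos _).le).le
    rw [hexpD] at h1
    linarith
  have hNT : N ≤ ⌊T⌋₊ := Nat.le_floor (hN2.trans hXT)
  have hlogN : 1 + Real.log N ≤ 2 * L := by
    have h1 : Real.log N ≤ L := by
      rw [hL]
      exact Real.log_le_log hN0 (hN2.trans hXT)
    linarith
  have hlogN0 : 0 ≤ Real.log N := Real.log_natCast_nonneg N
  have hNlog : 4 * (N:ℝ) * (1 + Real.log N) ≤ 16 * (δ * W) := by
    calc 4 * (N:ℝ) * (1 + Real.log N) ≤ 4 * (2 * X) * (2 * L) := by gcongr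
      _ = 16 * (X * L) := by ring
      _ ≤ 16 * (δ * W) := mul_le_mul_of_nonneg_left hXW (by norm_num)
  have hW0 : 0 < W := lt_of_lt_of_le (Real.rpow_pos_of_pos hT0 _) hW
  -- the sums of squares
  have hsq : ∀ Q : PhiData, ∑ n ∈ Finset.Icc 1 N, cc Q D n ^ 2 ≤ C1 * L ^ 2 := by
    intro Q
    have h1 := hdiag Q Q D hD1
    rw [← hN] at h1
    have h2 : ∑ n ∈ Finset.Icc 1 N, cc Q D n ^ 2 = ∑ n ∈ Finset.Icc 1 N,
        ArithmeticFunction.vonMangoldt n ^ 2 / n *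
          (fc Q (Real.log n / D) * fc Q (Real.log n / D)) :=
      Finset.sum_congr rfl fun n _ => by rw [pow_two, cc_mul]
    rw [h2]
    have h3 := (abs_le.mp h1).2
    have h4 := (abs_le.mp (int_f_le Q)).2
    have h5 : D ^ 2 ≤ L ^ 2 := pow_le_pow_left₀ (by linarith) hDL 2
    have h6 : D ^ 2 * (∫ v in (0:ℝ)..1, v * Q.f0 v * Q.f0 v) ≤ L ^ 2 * 4 := by
      calc D ^ 2 * (∫ v in (0:ℝ)..1, v * Q.f0 v * Q.f0 v) ≤ D ^ 2 * 4 :=
            mul_le_mul_of_nonneg_left h4 (sq_nonneg D)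
        _ ≤ L ^ 2 * 4 := mul_le_mul_of_nonneg_right h5 (by norm_num)
    have h7 : C * D ≤ C * L ^ 2 := by
      refine mul_le_mul_of_nonneg_left (hDL.trans ?_) hC.le
      exact le_self_pow₀ hL1 (by norm_num)
    rw [hC1]
    linarith
  have hsq0 : ∀ Q : PhiData, 0 ≤ ∑ n ∈ Finset.Icc 1 N, cc Q D n ^ 2 := fun Q =>
    Finset.sum_nonneg fun n _ => sq_nonneg _
  -- the model functions
  have hα : ∀ Q : PhiData, |Q.f0 0 / 2| ≤ 1 := by
    intro Q
    have := Q.b0 0 le_rfl zero_le_one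
    rw [abs_div, abs_of_pos (by norm_num : (0:ℝ) < 2)]
    linarith
  have hclose : ∀ Q : PhiData, ∀ t ∈ Icc w (w + W),
      |SS Q D t - am (Q.f0 0 / 2) L (cc Q D) N t| ≤ κ' * L := by
    intro Q t ht
    have h1 := hSS Q t (hw.trans ht.1) (ht.2.trans hwW)
    rw [vm_eq Q hD1 (x := ⌊T⌋₊) (by rw [← hN]; exact hNT) t, ← hN] at h1
    exact h1
  have hsqA : ∀ Q : PhiData, (∫ t in w..(w + W), am (Q.f0 0 / 2) L (cc Q D) N t ^ 2) ≤
      (2 + 34 * C1) * (W * L ^ 2) := by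
    intro Q
    have h1 := mean_am_sq hN1 (a := cc Q D) (L := L) (hα Q) (by linarith : w ≤ w + W)
    have e1 : w + W - w = W := by ring
    rw [e1] at h1
    refine h1.trans ?_
    have h2 : (W + 4 * N * (1 + Real.log N)) * ∑ n ∈ Finset.Icc 1 N, cc Q D n ^ 2 ≤
        (17 * W) * (C1 * L ^ 2) := by
      refine mul_le_mul ?_ (hsq Q) (hsq0 Q) (by linarith)
      have : δ * W ≤ W := mul_le_of_le_one_left hW0.le hδ1
      linarith
    have e2 : (2 + 34 * C1) * (W * L ^ 2) = 2 * (W * L ^ 2) + 2 * ((17 * W) * (C1 * L ^ 2)) := by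
      ring
    rw [e2]
    linarith
  have hWL : 0 < W * L ^ 2 := by positivity
  -- first error
  have err1 := prod_compare (S := fun t => SS P D t) (S' := fun t => SS P' D t)
    (by linarith : w ≤ w + W) hκ'0.le hκ'1 hL0.le
    (SS_contOn hRH P (by linarith) w W) (SS_contOn hRH P' (by linarith) w W)
    (am_continuous (P.f0 0 / 2) L (cc P D) N) (am_continuous (P'.f0 0 / 2) L (cc P' D) N)
    (hclose P) (hclose P')
  have err1' : |(∫ t in w..(w + W), SS P D t * SS P' D t) -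
      ∫ t in w..(w + W), am (P.f0 0 / 2) L (cc P D) N t * am (P'.f0 0 / 2) L (cc P' D) N t| ≤
      κ / 3 * (W * L ^ 2) := by
    refine err1.trans ?_
    have e1 : w + W - w = W := by ring
    rw [e1]
    calc κ' * (2 * (W * L ^ 2) + (∫ t in w..(w + W), am (P.f0 0 / 2) L (cc P D) N t ^ 2) +
          ∫ t in w..(w + W), am (P'.f0 0 / 2) L (cc P' D) N t ^ 2)
        ≤ κ' * (2 * (W * L ^ 2) + (2 + 34 * C1) * (W * L ^ 2) + (2 + 34 * C1) * (W * L ^ 2)) := by
          refine mul_le_mul_of_nonneg_left ?_ hκ'0.le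
          linarith [hsqA P, hsqA P']
      _ = κ' * (6 + 68 * C1) * (W * L ^ 2) := by ring
      _ ≤ κ / 3 * (W * L ^ 2) := mul_le_mul_of_nonneg_right hκ'2 hWL.le
  -- second error
  have err2 := mean_am hN1 (cc_one P D) (cc_one P' D) (hα P) (hα P') hL0.le w (w + W)
  have err2' : |(∫ t in w..(w + W), am (P.f0 0 / 2) L (cc P D) N t *
      am (P'.f0 0 / 2) L (cc P' D) N t) - (W * (P.f0 0 / 2 * (P'.f0 0 / 2) * L ^ 2) +
      W / 2 * ∑ n ∈ Finset.Icc 1 N, cc P D n * cc P' D n)| ≤ κ / 3 * (W * L ^ 2) := by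
    have e1 : w + W - w = W := by ring
    rw [e1] at err2
    refine err2.trans ?_
    have h1 := hsq P
    have h2 := hsq P'
    obtain ⟨A, hA⟩ : ∃ A, A = ∑ n ∈ Finset.Icc 1 N, cc P D n ^ 2 := ⟨_, rfl⟩
    obtain ⟨A', hA'⟩ : ∃ A', A' = ∑ n ∈ Finset.Icc 1 N, cc P' D n ^ 2 := ⟨_, rfl⟩
    have hA0 : 0 ≤ A := by rw [hA]; exact hsq0 P
    have hA0' : 0 ≤ A' := by rw [hA']; exact hsq0 P'
    rw [← hA, ← hA']
    rw [← hA] at h1
    rw [← hA'] at h2
    have h3 : 3 * L * (2 * N + (A + A')) ≤ 12 * (δ * (W * L ^ 2)) + 6 * C1 * (δ * (W * L ^ 2)) := by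
      have h4 : 3 * L * (2 * N) ≤ 12 * (δ * (W * L ^ 2)) := by
        have h5 : δ * W ≤ δ * (W * L ^ 2) :=
          mul_le_mul_of_nonneg_left (le_mul_of_one_le_right hW0.le (one_le_pow₀ hL1)) hδ0.le
        calc 3 * L * (2 * N) ≤ 3 * L * (2 * (2 * X)) := by gcongr
          _ = 12 * (X * L) := by ring
          _ ≤ 12 * (δ * (W * L ^ 2)) := mul_le_mul_of_nonneg_left (hXW.trans h5) (by norm_num)
      have h6 : 3 * L * (A + A') ≤ 6 * C1 * (δ * (W * L ^ 2)) := by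
        have h7 : L ≤ δ * W := (le_mul_of_one_le_left hL0.le hX1).trans hXW
        calc 3 * L * (A + A') ≤ 3 * (δ * W) * (C1 * L ^ 2 + C1 * L ^ 2) := by
              refine mul_le_mul (by linarith) (by linarith) (by linarith) (by positivity)
          _ = _ := by ring
      linarith
    have h4 : 4 * (N:ℝ) * (1 + Real.log N) * (A + A') ≤ 32 * C1 * (δ * (W * L ^ 2)) := by
      calc 4 * (N:ℝ) * (1 + Real.log N) * (A + A') ≤
            16 * (δ * W) * (C1 * L ^ 2 + C1 * L ^ 2) := by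
              refine mul_le_mul hNlog (by linarith) (by linarith) (by positivity)
        _ = _ := by ring
    calc _ ≤ 12 * (δ * (W * L ^ 2)) + 6 * C1 * (δ * (W * L ^ 2)) +
          32 * C1 * (δ * (W * L ^ 2)) := add_le_add h3 h4
      _ = δ * (12 + 38 * C1) * (W * L ^ 2) := by ring
      _ ≤ κ / 3 * (W * L ^ 2) := mul_le_mul_of_nonneg_right hδ2 hWL.le
  -- third error
  have err3 := hdiag P P' D hD1
  rw [← hN] at err3
  have e3 : ∑ n ∈ Finset.Icc 1 N, cc P D n * cc P' D n = ∑ n ∈ Finset.Icc 1 N,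
      ArithmeticFunction.vonMangoldt n ^ 2 / n *
        (fc P (Real.log n / D) * fc P' (Real.log n / D)) :=
    Finset.sum_congr rfl fun n _ => cc_mul P P' D n
  rw [← e3] at err3
  obtain ⟨B, hB⟩ : ∃ B, B = ∑ n ∈ Finset.Icc 1 N, cc P D n * cc P' D n := ⟨_, rfl⟩
  obtain ⟨J, hJ⟩ : ∃ J, J = ∫ v in (0:ℝ)..1, v * P.f0 v * P'.f0 v := ⟨_, rfl⟩
  rw [← hB] at err3 err2'
  rw [← hJ] at err3 ⊢
  have err3' : |W / 2 * (B - D ^ 2 * J)| ≤ κ / 3 * (W * L ^ 2) := by
    rw [abs_mul, abs_of_pos (by linarith : 0 < W / 2)]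
    have h1 : C * D ≤ (2 * κ / 3) * L ^ 2 := by
      have h2 : 3 * C / (2 * κ) ≤ L := by linarith
      rw [div_le_iff₀ (by positivity)] at h2
      have h3 : C * D ≤ C * L := mul_le_mul_of_nonneg_left hDL hC.le
      have h4 : C * L ≤ (2 * κ / 3) * L * L := by
        refine mul_le_mul_of_nonneg_right ?_ hL0.le
        linarith
      calc C * D ≤ C * L := h3
        _ ≤ (2 * κ / 3) * L * L := h4
        _ = _ := by ring
    calc W / 2 * |B - D ^ 2 * J| ≤ W / 2 * ((2 * κ / 3) * L ^ 2) :=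
          mul_le_mul_of_nonneg_left (err3.trans h1) (by linarith)
      _ = κ / 3 * (W * L ^ 2) := by ring
  have e4 : (∫ t in w..(w + W), SS P D t * SS P' D t) -
      W * L ^ 2 * (P.f0 0 * P'.f0 0 / 4 + b ^ 2 / 2 * J) =
      ((∫ t in w..(w + W), SS P D t * SS P' D t) -
        ∫ t in w..(w + W), am (P.f0 0 / 2) L (cc P D) N t * am (P'.f0 0 / 2) L (cc P' D) N t) +
      ((∫ t in w..(w + W), am (P.f0 0 / 2) L (cc P D) N t *
        am (P'.f0 0 / 2) L (cc P' D) N t) - (W * (P.f0 0 / 2 * (P'.f0 0 / 2) * L ^ 2) +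
        W / 2 * B)) + W / 2 * (B - D ^ 2 * J) := by
    rw [hD]
    ring
  rw [e4]
  have k1 := abs_add_le (((∫ t in w..(w + W), SS P D t * SS P' D t) -
        ∫ t in w..(w + W), am (P.f0 0 / 2) L (cc P D) N t * am (P'.f0 0 / 2) L (cc P' D) N t) +
      ((∫ t in w..(w + W), am (P.f0 0 / 2) L (cc P D) N t *
        am (P'.f0 0 / 2) L (cc P' D) N t) - (W * (P.f0 0 / 2 * (P'.f0 0 / 2) * L ^ 2) +
        W / 2 * B))) (W / 2 * (B - D ^ 2 * J))
  have k2 := abs_add_le ((∫ t in w..(w + W), SS P D t * SS P' D t) -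
        ∫ t in w..(w + W), am (P.f0 0 / 2) L (cc P D) N t * am (P'.f0 0 / 2) L (cc P' D) N t)
      ((∫ t in w..(w + W), am (P.f0 0 / 2) L (cc P D) N t *
        am (P'.f0 0 / 2) L (cc P' D) N t) - (W * (P.f0 0 / 2 * (P'.f0 0 / 2) * L ^ 2) +
        W / 2 * B))
  have e5 : κ * W * L ^ 2 = κ / 3 * (W * L ^ 2) + κ / 3 * (W * L ^ 2) + κ / 3 * (W * L ^ 2) := by
    ring
  rw [e5]
  linarith

end Pool.Agent.AHP
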