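import Pool.Agent.AHP.Defs

/-!
# Plancherel for the kernels
-/

namespace Pool.Agent.AHP

open MeasureTheory Real Set Pool.Agent.ZGap.Gen FourierTransform

variable {P : PhiData}

/-! ### The size of the kernel -/

/-- The kernel at scale one. -/
noncomputable def J (P : PhiData) (z : ℝ) : ℝ := ∫ v in (0:ℝ)..1, P.f0 v * Real.cos (z * v)

lemma FF_eq_J {D : ℝ} (hD : 0 < D) (x : ℝ) : FF P D x = D * J P (D * x) :=
  Pool.Agent.PF.SN.FF_scale P hD x

lemma abs_J_le_two (z : ℝ) : |J P z| ≤ 2 := by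
  have h := intervalIntegral.norm_integral_le_of_norm_le_const (a := 0) (b := 1) (C := 2)
    (f := fun v => P.f0 v * Real.cos (z * v)) (fun v hv => by
      rw [uIoc_of_le zero_le_one] at hv
      rw [norm_mul, Real.norm_eq_abs, Real.norm_eq_abs]
      have h1 := P.b0 v hv.1.le hv.2
      have h2 := Real.abs_cos_le_one (z * v)
      nlinarith [abs_nonneg (P.f0 v), abs_nonneg (Real.cos (z * v))])
  rw [Real.norm_eq_abs, sub_zero, abs_one, mul_one] at h
  exact h

lemma J_parts {z : ℝ} (hz : z ≠ 0) : z ^ 2 * J P z =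
    P.f1 1 * Real.cos z - P.f1 0 - ∫ v in (0:ℝ)..1, P.f2 v * Real.cos (z * v) := by
  have hder : ∀ v ∈ Set.uIcc (0:ℝ) 1, HasDerivAt
      (fun v => P.f0 v * Real.sin (z * v) / z + P.f1 v * Real.cos (z * v) / z ^ 2)
      (P.f0 v * Real.cos (z * v) + P.f2 v * Real.cos (z * v) / z ^ 2) v := by
    intro v _
    have h1 : HasDerivAt (fun v : ℝ => z * v) z v := by
      simpa using (hasDerivAt_id v).const_mul z
    have h2 := ((P.d0 v).mul h1.sin).div_const z
    have h3 := ((P.d1 v).mul h1.cos).div_const (z ^ 2)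
    refine (h2.add h3).congr_deriv ?_
    field_simp
    ring
  have hc2 := P.c2
  have hc0 := P.c0
  have hint := intervalIntegral.integral_eq_sub_of_hasDerivAt hder
    (Continuous.intervalIntegrable (by fun_prop) _ _)
  rw [intervalIntegral.integral_add (Continuous.intervalIntegrable (by fun_prop) _ _)
    (Continuous.intervalIntegrable (by fun_prop) _ _), intervalIntegral.integral_div] at hint
  simp only [P.one, zero_mul, zero_div, mul_one, mul_zero, Real.sin_zero, Real.cos_zero,
    zero_add] at hint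
  unfold J
  have e : (∫ v in (0:ℝ)..1, P.f0 v * Real.cos (z * v)) =
      (P.f1 1 * Real.cos z / z ^ 2 - P.f1 0 / z ^ 2) -
        (∫ v in (0:ℝ)..1, P.f2 v * Real.cos (z * v)) / z ^ 2 := by linarith
  rw [e]
  field_simp

lemma sq_mul_abs_J_le (z : ℝ) : z ^ 2 * |J P z| ≤ 34 := by
  by_cases hz : z = 0
  · rw [hz]
    norm_num
  have h := J_parts (P := P) hz
  have h1 : z ^ 2 * |J P z| = |z ^ 2 * J P z| := by rw [abs_mul, abs_of_nonneg (sq_nonneg z)]
  rw [h1, h]
  have h2 : |∫ v in (0:ℝ)..1, P.f2 v * Real.cos (z * v)| ≤ 24 := by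
    have h := intervalIntegral.norm_integral_le_of_norm_le_const (a := 0) (b := 1) (C := 24)
      (f := fun v => P.f2 v * Real.cos (z * v)) (fun v hv => by
        rw [uIoc_of_le zero_le_one] at hv
        rw [norm_mul, Real.norm_eq_abs, Real.norm_eq_abs]
        have h1 := P.b2 v hv.1.le hv.2
        have h2 := Real.abs_cos_le_one (z * v)
        nlinarith [abs_nonneg (P.f2 v), abs_nonneg (Real.cos (z * v))])
    rw [Real.norm_eq_abs] at h
    simpa using h
  have h3 : |P.f1 1 * Real.cos z| ≤ 5 := by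
    rw [abs_mul]
    have h4 := P.b1 1 zero_le_one le_rfl
    have h5 := Real.abs_cos_le_one z
    nlinarith [abs_nonneg (P.f1 1), abs_nonneg (Real.cos z)]
  have h4 := P.b1 0 le_rfl zero_le_one
  calc |P.f1 1 * Real.cos z - P.f1 0 - ∫ v in (0:ℝ)..1, P.f2 v * Real.cos (z * v)| ≤
      |P.f1 1 * Real.cos z - P.f1 0| + |∫ v in (0:ℝ)..1, P.f2 v * Real.cos (z * v)| := abs_sub _ _
    _ ≤ (|P.f1 1 * Real.cos z| + |P.f1 0|) + 24 := add_le_add (abs_sub _ _) h2
    _ ≤ 34 := by linarith

/-- The decay of the kernel. -/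
theorem abs_J_le (z : ℝ) : |J P z| ≤ 36 / (1 + z ^ 2) := by
  rw [le_div_iff₀ (by positivity)]
  have h1 := abs_J_le_two (P := P) z
  have h2 := sq_mul_abs_J_le (P := P) z
  nlinarith

theorem FF_le36 {D : ℝ} (hD : 0 < D) (x : ℝ) : |FF P D x| ≤ 36 * D / (1 + (D * x) ^ 2) := by
  rw [FF_eq_J hD, abs_mul, abs_of_pos hD]
  calc D * |J P (D * x)| ≤ D * (36 / (1 + (D * x) ^ 2)) :=
        mul_le_mul_of_nonneg_left (abs_J_le _) hD.le
    _ = _ := by ring

theorem FF_le {D : ℝ} (hD : 0 < D) (x : ℝ) : |FF P D x| ≤ 50 * D / (1 + (D * x) ^ 2) := by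
  refine (FF_le36 hD x).trans ?_
  refine div_le_div_of_nonneg_right ?_ (by positivity)
  linarith

/-! ### Fourier inversion -/

/-- The Fourier side. -/
noncomputable def hf (P : PhiData) (D ξ : ℝ) : ℝ := P.f0 (min (|ξ| / D) 1)

@[fun_prop]
lemma hf_continuous (P : PhiData) (D : ℝ) : Continuous (hf P D) := by
  unfold hf; fun_prop

lemma hf_of_le {D ξ : ℝ} (hD : 0 < D) (h : D ≤ |ξ|) : hf P D ξ = 0 := by
  unfold hf
  rw [min_eq_right ((one_le_div hD).mpr h), P.one]

lemma hf_of_nonneg_le {D ξ : ℝ} (hD : 0 < D) (h0 : 0 ≤ ξ) (h : ξ ≤ D) :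
    hf P D ξ = P.f0 (ξ / D) := by
  unfold hf
  rw [abs_of_nonneg h0, min_eq_left ((div_le_one hD).mpr h)]

lemma hf_neg (D ξ : ℝ) : hf P D (-ξ) = hf P D ξ := by
  unfold hf; rw [abs_neg]

lemma hf_hasCompactSupport {D : ℝ} (hD : 0 < D) : HasCompactSupport (hf P D) := by
  refine HasCompactSupport.intro (isCompact_Icc (a := -D) (b := D)) fun ξ hξ => ?_
  apply hf_of_le hD
  by_contra h
  push Not at h
  exact hξ (abs_le.mp h.le)

lemma hf_integrable {D : ℝ} (hD : 0 < D) : Integrable (hf P D) :=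
  (hf_continuous P D).integrable_of_hasCompactSupport (hf_hasCompactSupport hD)

lemma FF_cont (P : PhiData) (D : ℝ) : Continuous (FF P D) :=
  Pool.Agent.PF.SN.FF_continuous P D

lemma weight_int {D : ℝ} (hD : 0 < D) : Integrable (fun x : ℝ => 36 * D / (1 + (D * x) ^ 2)) := by
  have h := ((integrable_inv_one_add_sq).comp_mul_left' hD.ne').const_mul (36 * D)
  refine h.congr (Filter.Eventually.of_forall fun x => ?_)
  simp only
  rw [div_eq_mul_inv]

lemma FF_integrable {D : ℝ} (hD : 0 < D) : Integrable (FF P D) := by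
  refine (weight_int hD).mono' (FF_cont P D).aestronglyMeasurable
    (Filter.Eventually.of_forall fun u => ?_)
  rw [Real.norm_eq_abs]
  exact FF_le36 hD u

lemma integral_hf_cos {D : ℝ} (hD : 0 < D) (u : ℝ) :
    ∫ v : ℝ, hf P D v * Real.cos (u * v) = 2 * FF P D u := by
  have h1 : ∀ v : ℝ, hf P D v * Real.cos (u * v) =
      (fun r => hf P D r * Real.cos (u * r)) |v| := by
    intro v
    simp only
    rcases abs_cases v with ⟨h, _⟩ | ⟨h, _⟩
    · rw [h]
    · rw [h, hf_neg, mul_neg, Real.cos_neg]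
  rw [funext h1, integral_comp_abs (f := fun r => hf P D r * Real.cos (u * r))]
  congr 1
  rw [FF, intervalIntegral.integral_of_le hD.le]
  rw [setIntegral_eq_of_subset_of_forall_sdiff_eq_zero measurableSet_Ioi
    (s := Ioc 0 D) Ioc_subset_Ioi_self]
  · refine setIntegral_congr_fun measurableSet_Ioc fun v hv => ?_
    rw [hf_of_nonneg_le hD hv.1.le hv.2]
  · intro v hv
    have h2 : D ≤ |v| := by
      have h3 : 0 < v := hv.1
      rw [abs_of_pos h3]
      by_contra h
      push Not at h
      exact hv.2 ⟨h3, h.le⟩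
    rw [hf_of_le hD h2, zero_mul]

lemma integral_hf_sin {D : ℝ} (u : ℝ) :
    ∫ v : ℝ, hf P D v * Real.sin (u * v) = 0 := by
  have h1 := integral_neg_eq_self (fun v : ℝ => hf P D v * Real.sin (u * v)) volume
  simp only [hf_neg, mul_neg, Real.sin_neg] at h1
  rw [MeasureTheory.integral_neg] at h1
  linarith

lemma fourier_hf {D : ℝ} (hD : 0 < D) (w : ℝ) :
    𝓕 (fun ξ : ℝ => (hf P D ξ : ℂ)) w = ((2 * FF P D (2 * π * w) : ℝ) : ℂ) := by
  rw [Real.fourier_real_eq_integral_exp_smul]
  have h1 : ∀ v : ℝ, Complex.exp (↑(-2 * π * v * w) * Complex.I) • (hf P D v : ℂ) =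
      ((hf P D v * Real.cos (2 * π * w * v) : ℝ) : ℂ) -
        ((hf P D v * Real.sin (2 * π * w * v) : ℝ) : ℂ) * Complex.I := by
    intro v
    rw [Complex.exp_mul_I, ← Complex.ofReal_cos, ← Complex.ofReal_sin, smul_eq_mul]
    have h2 : -2 * π * v * w = -(2 * π * w * v) := by ring
    rw [h2, Real.cos_neg, Real.sin_neg]
    push_cast
    ring
  simp_rw [h1]
  have hg := hf_integrable (P := P) hD
  have hi1 : Integrable (fun v => hf P D v * Real.cos (2 * π * w * v)) := by
    refine hg.norm.mono' (Continuous.aestronglyMeasurable (by fun_prop))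
      (Filter.Eventually.of_forall fun v => ?_)
    rw [norm_mul, Real.norm_eq_abs, Real.norm_eq_abs]
    exact mul_le_of_le_one_right (abs_nonneg _) (Real.abs_cos_le_one _)
  have hi2 : Integrable (fun v => hf P D v * Real.sin (2 * π * w * v)) := by
    refine hg.norm.mono' (Continuous.aestronglyMeasurable (by fun_prop))
      (Filter.Eventually.of_forall fun v => ?_)
    rw [norm_mul, Real.norm_eq_abs, Real.norm_eq_abs]
    exact mul_le_of_le_one_right (abs_nonneg _) (Real.abs_sin_le_one _)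
  rw [integral_sub hi1.ofReal (hi2.ofReal.mul_const _), integral_mul_const,
    integral_complex_ofReal, integral_complex_ofReal, integral_hf_cos hD, integral_hf_sin]
  simp

/-- Fourier inversion. -/
theorem integral_FF_exp {D : ℝ} (hD0 : 0 < D) (L : ℝ) :
    ∫ u : ℝ, Complex.exp ((u * L : ℝ) * Complex.I) * (FF P D u : ℂ) =
      ((π * hf P D L : ℝ) : ℂ) := by
  have hF : 𝓕 (fun ξ : ℝ => (hf P D ξ : ℂ)) =
      fun w => ((2 * FF P D (2 * π * w) : ℝ) : ℂ) := funext fun w => fourier_hf hD0 w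
  have hint : Integrable (𝓕 (fun ξ : ℝ => (hf P D ξ : ℂ))) := by
    rw [hF]
    exact (((FF_integrable (P := P) hD0).comp_mul_left' (by positivity)).const_mul 2).ofReal
  have h2 := Continuous.fourierInv_fourier_eq (f := fun ξ : ℝ => (hf P D ξ : ℂ))
    (by fun_prop) (hf_integrable hD0).ofReal hint
  have h3 := congrFun h2 L
  rw [hF, Real.fourierInv_eq'] at h3
  have h4 := Measure.integral_comp_mul_left
    (fun u : ℝ => Complex.exp ((u * L : ℝ) * Complex.I) * ((2 * FF P D u : ℝ) : ℂ)) (2 * π)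
  have h5 : ∀ w : ℝ, Complex.exp (↑(2 * π * inner ℝ w L) * Complex.I) •
      ((2 * FF P D (2 * π * w) : ℝ) : ℂ) = Complex.exp ((2 * π * w * L : ℝ) * Complex.I) *
        ((2 * FF P D (2 * π * w) : ℝ) : ℂ) := by
    intro w
    rw [smul_eq_mul]
    congr 3
    simp only [RCLike.inner_apply, conj_trivial]
    push_cast
    ring
  simp_rw [h5] at h3
  rw [h3] at h4
  have h6 : ∀ u : ℝ, Complex.exp ((u * L : ℝ) * Complex.I) * ((2 * FF P D u : ℝ) : ℂ) =
      2 * (Complex.exp ((u * L : ℝ) * Complex.I) * (FF P D u : ℂ)) := by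
    intro u; push_cast; ring
  simp_rw [h6] at h4
  rw [integral_const_mul, abs_of_pos (by positivity), Complex.real_smul] at h4
  have h7 : (π : ℂ) ≠ 0 := by exact_mod_cast Real.pi_ne_zero
  rw [Complex.ofReal_mul, h4]
  set J' := ∫ u : ℝ, Complex.exp ((u * L : ℝ) * Complex.I) * (FF P D u : ℂ) with hJ
  push_cast
  field_simp

lemma FF_mul_integrable {D : ℝ} (hD : 0 < D) {g : ℝ → ℝ} (hg : Continuous g)
    (hb : ∀ x, |g x| ≤ 1) : Integrable (fun u => FF P D u * g u) := by
  have hc := FF_cont P D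
  refine (FF_integrable (P := P) hD).norm.mono' (Continuous.aestronglyMeasurable (by fun_prop))
      (Filter.Eventually.of_forall fun v => ?_)
  rw [norm_mul, Real.norm_eq_abs (g v)]
  exact mul_le_of_le_one_right (norm_nonneg _) (hb v)

theorem integral_FF_cos_sin {D : ℝ} (hD : 0 < D) (L : ℝ) :
    ∫ u : ℝ, FF P D u * Real.cos (u * L) = π * hf P D L ∧
    ∫ u : ℝ, FF P D u * Real.sin (u * L) = 0 := by
  have h2 := integral_FF_exp (P := P) hD L
  have h3 : ∀ u : ℝ, Complex.exp ((u * L : ℝ) * Complex.I) * (FF P D u : ℂ) =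
      ((FF P D u * Real.cos (u * L) : ℝ) : ℂ) +
        ((FF P D u * Real.sin (u * L) : ℝ) : ℂ) * Complex.I := by
    intro u
    rw [Complex.exp_mul_I, ← Complex.ofReal_cos, ← Complex.ofReal_sin]
    push_cast
    ring
  simp_rw [h3] at h2
  rw [integral_add
    (FF_mul_integrable (P := P) hD (by fun_prop) fun x => Real.abs_cos_le_one _).ofReal
    ((FF_mul_integrable (P := P) hD (by fun_prop) fun x => Real.abs_sin_le_one _).ofReal.mul_const
      _), integral_mul_const,
    integral_complex_ofReal, integral_complex_ofReal] at h2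
  constructor
  · have := congrArg Complex.re h2
    simpa using this
  · have := congrArg Complex.im h2
    simpa using this

/-- The shifted cosine integral. -/
theorem integral_FF_cos_shift {D : ℝ} (hD : 0 < D) (d L : ℝ) :
    ∫ s : ℝ, FF P D s * Real.cos ((s + d) * L) = π * hf P D L * Real.cos (d * L) := by
  obtain ⟨h2, h3⟩ := integral_FF_cos_sin (P := P) hD L
  have h4 : ∀ s : ℝ, FF P D s * Real.cos ((s + d) * L) =
      (FF P D s * Real.cos (s * L)) * Real.cos (d * L) -
        (FF P D s * Real.sin (s * L)) * Real.sin (d * L) := by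
    intro s
    rw [add_mul, Real.cos_add]
    ring
  simp_rw [h4]
  rw [integral_sub
    ((FF_mul_integrable (P := P) hD (by fun_prop) fun x => Real.abs_cos_le_one _).mul_const _)
    ((FF_mul_integrable (P := P) hD (by fun_prop) fun x => Real.abs_sin_le_one _).mul_const _),
    integral_mul_const, integral_mul_const, h2, h3]
  ring

/-! ### Plancherel -/

lemma FF_mul_FF_integrable {P' : PhiData} {D : ℝ} (hD : 0 < D) (u v : ℝ) :
    Integrable (fun t => FF P D (t - u) * FF P' D (t - v)) := by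
  have hc := FF_cont P D
  have hc' := FF_cont P' D
  refine (((FF_integrable (P := P) hD).comp_sub_right u).norm.mul_const (36 * D)).mono'
    (Continuous.aestronglyMeasurable (by fun_prop)) (Filter.Eventually.of_forall fun t => ?_)
  rw [norm_mul]
  refine mul_le_mul_of_nonneg_left ?_ (norm_nonneg _)
  rw [Real.norm_eq_abs]
  refine (FF_le36 hD (t - v)).trans ?_
  exact div_le_self (by positivity) (by nlinarith [sq_nonneg (D * (t - v))])

/-- **Plancherel**: the integral of the product of two shifted kernels. -/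
theorem planch_eq {P P' : PhiData} {D : ℝ} (hD : 0 < D) (u v : ℝ) :
    ∫ t : ℝ, FF P D (t - u) * FF P' D (t - v) = D * GG P P' (D * (u - v)) := by
  have hcF := FF_cont P D
  have h1 : ∫ t : ℝ, FF P D (t - u) * FF P' D (t - v) =
      ∫ s : ℝ, FF P D s * FF P' D (s + (u - v)) := by
    rw [← integral_sub_right_eq_self (fun s : ℝ => FF P D s * FF P' D (s + (u - v))) u]
    refine integral_congr_ae (Filter.Eventually.of_forall fun t => ?_)
    simp only
    congr 2
    ring
  set d := u - v with hd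
  have h2 : ∀ s : ℝ, FF P D s * FF P' D (s + d) =
      ∫ η in (0:ℝ)..D, FF P D s * (P'.f0 (η / D) * Real.cos ((s + d) * η)) := by
    intro s
    rw [intervalIntegral.integral_const_mul]
    rfl
  rw [h1]
  simp_rw [h2]
  have hint : Integrable (Function.uncurry fun (η s : ℝ) =>
      FF P D s * (P'.f0 (η / D) * Real.cos ((s + d) * η)))
      ((volume.restrict (Set.uIoc 0 D)).prod volume) := by
    have hc0 := P'.c0
    have hb : Integrable (fun p : ℝ × ℝ => (2:ℝ) * ‖FF P D p.2‖)
        ((volume.restrict (Set.uIoc 0 D)).prod volume) := by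
      have h3 : Integrable (fun _ : ℝ => (2:ℝ)) (volume.restrict (Set.uIoc 0 D)) := by
        refine integrable_const_iff.mpr (Or.inr ?_)
        rw [isFiniteMeasure_restrict]
        rw [Set.uIoc_of_le hD.le, Real.volume_Ioc]
        exact ENNReal.ofReal_ne_top
      exact h3.mul_prod (FF_integrable (P := P) hD).norm
    refine hb.mono' (Continuous.aestronglyMeasurable ?_) ?_
    · simp only [Function.uncurry_def]
      fun_prop
    · rw [Filter.Eventually, MeasureTheory.mem_ae_iff]
      have h4 : {p : ℝ × ℝ | ‖Function.uncurry (fun (η s : ℝ) =>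
          FF P D s * (P'.f0 (η / D) * Real.cos ((s + d) * η))) p‖ ≤ 2 * ‖FF P D p.2‖}ᶜ ⊆
          (Set.uIoc 0 D)ᶜ ×ˢ Set.univ := by
        rintro ⟨η, s⟩ hp
        rw [Set.mem_prod]
        refine ⟨fun hη => hp ?_, Set.mem_univ _⟩
        rw [Set.uIoc_of_le hD.le] at hη
        show ‖FF P D s * (P'.f0 (η / D) * Real.cos ((s + d) * η))‖ ≤ 2 * ‖FF P D s‖
        rw [norm_mul, norm_mul, mul_comm]
        refine mul_le_mul_of_nonneg_right ?_ (norm_nonneg _)
        have h5 := P'.b0 (η / D) (div_nonneg hη.1.le hD.le) ((div_le_one hD).mpr hη.2)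
        rw [Real.norm_eq_abs, Real.norm_eq_abs]
        have h6 := Real.abs_cos_le_one ((s + d) * η)
        nlinarith [abs_nonneg (P'.f0 (η / D)), abs_nonneg (Real.cos ((s + d) * η))]
      refine measure_mono_null h4 ?_
      rw [Measure.prod_prod, Measure.restrict_apply measurableSet_uIoc.compl]
      simp
  rw [← intervalIntegral_integral_swap hint]
  have h7 : ∀ η ∈ Set.uIcc (0:ℝ) D,
      ∫ s : ℝ, FF P D s * (P'.f0 (η / D) * Real.cos ((s + d) * η)) =
        π * (P.f0 (η / D) * P'.f0 (η / D) * Real.cos (d * η)) := by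
    intro η hη
    rw [Set.uIcc_of_le hD.le] at hη
    have h8 : ∀ s : ℝ, FF P D s * (P'.f0 (η / D) * Real.cos ((s + d) * η)) =
        P'.f0 (η / D) * (FF P D s * Real.cos ((s + d) * η)) := fun s => by ring
    simp_rw [h8]
    rw [integral_const_mul, integral_FF_cos_shift hD, hf_of_nonneg_le hD hη.1 hη.2]
    ring
  rw [intervalIntegral.integral_congr h7, intervalIntegral.integral_const_mul]
  have h9 := intervalIntegral.integral_comp_div (a := 0) (b := D)
    (fun w => P.f0 w * P'.f0 w * Real.cos (D * d * w)) hD.ne'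
  rw [zero_div, div_self hD.ne', smul_eq_mul] at h9
  have h10 : ∫ η in (0:ℝ)..D, P.f0 (η / D) * P'.f0 (η / D) * Real.cos (d * η) =
      D * ∫ w in (0:ℝ)..1, P.f0 w * P'.f0 w * Real.cos (D * d * w) := by
    rw [← h9]
    refine intervalIntegral.integral_congr fun η _ => ?_
    have e : D * d * (η / D) = d * η := by field_simp
    show P.f0 (η / D) * P'.f0 (η / D) * Real.cos (d * η) =
      P.f0 (η / D) * P'.f0 (η / D) * Real.cos (D * d * (η / D))
    rw [e]
  rw [h10]
  unfold GG
  ring

theorem planch (P P' : PhiData) {D : ℝ} (hD : 1 / 2 ≤ D) (u v : ℝ) :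
    Integrable (fun t => FF P D (t - u) * FF P' D (t - v)) ∧
      ∫ t : ℝ, FF P D (t - u) * FF P' D (t - v) = D * GG P P' (D * (u - v)) :=
  ⟨FF_mul_FF_integrable (by linarith) u v, planch_eq (by linarith) u v⟩

end Pool.Agent.AHP
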