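import Pool.Agent.AHP.Win
import Pool.Agent.AHP.CountA
import Pool.Agent.AHP.Planch

/-!
# The mean of a product as a sum over pairs of zeros
-/

namespace Pool.Agent.AHP

open MeasureTheory Real Set Filter Topology Pool.Agent.ZGap.Gen Pool.Agent.ZetaGaps
  Pool.Agent.Hadamard Pool.Agent.PF.SN Pool.Agent.ZGap.Res.FM

/-- The sum over the zeros of the window. -/
noncomputable def Sin (P : PhiData) (D w W t : ℝ) : ℝ := ∑ n ∈ In w W, FF P D (t - ordinate n)

lemma Sin_continuous (P : PhiData) (D w W : ℝ) : Continuous (Sin P D w W) := by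
  unfold Sin
  exact continuous_finsetSum _ fun n _ => (FF_continuous P D).comp (by fun_prop)

lemma FF_maj (P : PhiData) {b L : ℝ} (hb0 : 0 < b) (hb1 : b ≤ 1) (hL : 0 < L)
    (hD : 1 / 2 ≤ b * L) (x : ℝ) : |FF P (b * L) x| ≤ 50 / b * L * q L x := by
  refine (FF_le (P := P) (by linarith) x).trans ?_
  unfold q
  rw [mul_one_div, div_le_div_iff₀ (by positivity) (by positivity)]
  have e : 50 / b * L * (1 + (b * L * x) ^ 2) = 50 * (L / b + b * L * (L * x) ^ 2) := by
    field_simp
  rw [e]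
  have h1 : b * L ≤ L / b := by
    rw [le_div_iff₀ hb0]
    nlinarith [mul_nonneg hb0.le hL.le]
  nlinarith

lemma SS_maj (hRH : RiemannHypothesis) (P : PhiData) {b T : ℝ} (hb0 : 0 < b)
    (hb1 : b ≤ 1) (hL : 1 ≤ Real.log T) (hD : 1 / 2 ≤ b * Real.log T) (t : ℝ) :
    |SS P (b * Real.log T) t| ≤ 50 / b * Real.log T * W1 T t := by
  have h1 := hasSum_SS hRH P hD t
  have h2 := (hasSum_W1 hRH hL t).mul_left (50 / b * Real.log T)
  rw [← Real.norm_eq_abs]
  refine h1.norm_le_of_bounded h2 fun ρ => ?_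
  rw [norm_mul, Real.norm_of_nonneg (Nat.cast_nonneg _ : (0:ℝ) ≤ mult (ρ : ℂ)), Real.norm_eq_abs]
  have h3 := FF_maj P hb0 hb1 (by linarith) hD (t - (ρ : ℂ).im)
  calc _ ≤ (mult (ρ : ℂ) : ℝ) * (50 / b * Real.log T * q (Real.log T) (t - (ρ : ℂ).im)) := by
        gcongr
    _ = _ := by ring

lemma Sin_maj (P : PhiData) {b T : ℝ} (hb0 : 0 < b)
    (hb1 : b ≤ 1) (hL : 1 ≤ Real.log T) (hD : 1 / 2 ≤ b * Real.log T) (w W t : ℝ) :
    |Sin P (b * Real.log T) w W t| ≤ 50 / b * Real.log T * wn T w W t := by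
  unfold Sin wn
  rw [Finset.mul_sum]
  refine (Finset.abs_sum_le_sum_abs _ _).trans (Finset.sum_le_sum fun n _ => ?_)
  exact FF_maj P hb0 hb1 (by linarith) hD _

lemma SS_sub_Sin (hRH : RiemannHypothesis) (P : PhiData) {b T w W : ℝ} (hb0 : 0 < b)
    (hb1 : b ≤ 1) (hL : 1 ≤ Real.log T) (hD : 1 / 2 ≤ b * Real.log T) (hw : 0 ≤ w) (t : ℝ) :
    |SS P (b * Real.log T) t - Sin P (b * Real.log T) w W t| ≤
      50 / b * Real.log T * (W1 T t - wn T w W t) := by
  have h1 := (hasSum_SS hRH P hD t).sub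
    (hasSum_index (fun γ => FF P (b * Real.log T) (t - γ)) (W := W) hw)
  have h2 := ((hasSum_W1 hRH hL t).sub (hasSum_wn (T := T) (W := W) (t := t) hw)).mul_left
    (50 / b * Real.log T)
  rw [← Real.norm_eq_abs]
  refine h1.norm_le_of_bounded h2 fun ρ => ?_
  have h3 := FF_maj P hb0 hb1 (by linarith) hD (t - (ρ : ℂ).im)
  split_ifs
  · rw [sub_self, norm_zero, sub_self, mul_zero]
  · rw [sub_zero, sub_zero, norm_mul, Real.norm_of_nonneg
      (Nat.cast_nonneg _ : (0:ℝ) ≤ mult (ρ : ℂ)), Real.norm_eq_abs]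
    calc _ ≤ (mult (ρ : ℂ) : ℝ) * (50 / b * Real.log T * q (Real.log T) (t - (ρ : ℂ).im)) := by
          gcongr
      _ = _ := by ring

lemma integral_Sin (P P' : PhiData) {D : ℝ} (hD : 1 / 2 ≤ D) (w W : ℝ) :
    Integrable (fun t => Sin P D w W t * Sin P' D w W t) ∧
      ∫ t, Sin P D w W t * Sin P' D w W t =
        D * ∑ n ∈ In w W, ∑ m ∈ In w W, GG P P' (D * (ordinate n - ordinate m)) := by
  have e : (fun t => Sin P D w W t * Sin P' D w W t) = fun t => ∑ n ∈ In w W, ∑ m ∈ In w W,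
      FF P D (t - ordinate n) * FF P' D (t - ordinate m) := by
    funext t
    unfold Sin
    rw [Finset.sum_mul_sum]
  rw [e]
  have hi : ∀ n ∈ In w W, Integrable fun t => ∑ m ∈ In w W,
      FF P D (t - ordinate n) * FF P' D (t - ordinate m) := fun n _ =>
    integrable_finsetSum _ fun m _ => (planch P P' hD _ _).1
  refine ⟨integrable_finsetSum _ hi, ?_⟩
  rw [integral_finsetSum _ hi, Finset.mul_sum]
  refine Finset.sum_congr rfl fun n _ => ?_
  rw [integral_finsetSum _ fun m _ => (planch P P' hD _ _).1, Finset.mul_sum]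
  exact Finset.sum_congr rfl fun m _ => (planch P P' hD _ _).2

/-- The first moment of the local count. -/
lemma W1_mean (hRH : RiemannHypothesis) {b' : ℝ} (hb : 0 < b') :
    ∃ C T0 : ℝ, 0 < C ∧ Real.exp 3 ≤ T0 ∧ ∀ T : ℝ, T0 ≤ T → ∀ y H : ℝ, T / 4 ≤ y →
      y + H ≤ 4 * T → T ^ b' ≤ H → ∫ t in y..(y + H), W1 T t ≤ C * H := by
  obtain ⟨N, hN⟩ := exists_nat_ge (1 / b')
  have hN1 : 1 ≤ N + 1 := by omega
  have hK : ∀ x : ℝ, |1 / (1 + x ^ 2)| ≤ 1 / (1 + x ^ 2) := fun x => by
    rw [abs_of_nonneg (by positivity)]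
  have hc : Continuous fun x : ℝ => 1 / (1 + x ^ 2) :=
    continuous_const.div (by fun_prop) fun x => by positivity
  obtain ⟨C, T0, hC, hT0, h⟩ := Pool.Agent.RG.CW.NC_moment_short hRH hN1 hc
    (fun x => by positivity) (K := 1) hK
  refine ⟨1 + C, T0, by positivity, hT0, fun T hT y H hy hyH hH => ?_⟩
  have hTe : Real.exp 3 ≤ T := hT0.trans hT
  have hT1 : 1 ≤ T := (Real.one_le_exp (by norm_num)).trans hTe
  have hT0' : 0 < T := by linarith
  have hL1 : 1 ≤ Real.log T := by
    rw [Real.le_log_iff_exp_le hT0']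
    exact (Real.exp_le_exp.2 (by norm_num)).trans hTe
  have hH0 : 0 < H := (Real.rpow_pos_of_pos hT0' _).trans_le hH
  have h1 : T ^ (1 / ((N + 1 : ℕ) : ℝ)) ≤ H := by
    refine le_trans (Real.rpow_le_rpow_of_exponent_le hT1 ?_) hH
    push_cast
    rw [div_le_iff₀ (by positivity)]
    rw [div_le_iff₀ hb] at hN
    nlinarith
  have h2 := h T hT y H hy hyH h1
  have e1 : ∀ t, Pool.Agent.ZGap.Res.NC (fun x => 1 / (1 + x ^ 2)) T t = W1 T t := fun t => by
    unfold Pool.Agent.ZGap.Res.NC W1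
    refine tsum_congr fun ρ => ?_
    rw [mul_comm (t - (ρ : ℂ).im)]
  simp_rw [e1] at h2
  have hcW : Continuous (W1 T) := by
    have h3 : Continuous (Pool.Agent.ZGap.Res.NC (fun x => 1 / (1 + x ^ 2)) T) :=
      Pool.Agent.ZGap.Res.NC_continuous hc hK hL1
    have e2 : Pool.Agent.ZGap.Res.NC (fun x => 1 / (1 + x ^ 2)) T = W1 T := funext e1
    rwa [e2] at h3
  calc ∫ t in y..(y + H), W1 T t ≤ ∫ t in y..(y + H), (1 + W1 T t ^ 4) := by
        apply intervalIntegral.integral_mono_on (by linarith)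
        · exact hcW.intervalIntegrable _ _
        · exact Continuous.intervalIntegrable (by fun_prop) _ _
        · intro t _
          nlinarith [sq_nonneg (W1 T t ^ 2 - 1), sq_nonneg (W1 T t - 1), W1_nonneg T t,
            sq_nonneg (W1 T t)]
    _ = H + ∫ t in y..(y + H), W1 T t ^ 4 := by
        rw [intervalIntegral.integral_add (by simp)
          (Continuous.intervalIntegrable (by fun_prop) _ _)]
        simp
    _ ≤ H + C * H := by linarith
    _ = _ := by ring

lemma SS_cont (hRH : RiemannHypothesis) (P : PhiData) {D : ℝ} (hD : 1 / 2 ≤ D) :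
    Continuous (SS P D) := by
  rw [continuous_iff_continuousAt]
  intro x
  have h := (SS_continuousOn hRH P hD (x - 1) 2).continuousAt (x := 1)
    (Icc_mem_nhds (by norm_num) (by norm_num))
  have h2 : ContinuousAt (fun y : ℝ => (fun s => SS P D (x - 1 + s)) (y - (x - 1))) x := by
    refine ContinuousAt.comp (g := fun s => SS P D (x - 1 + s)) (f := fun y : ℝ => y - (x - 1))
      ?_ (by fun_prop)
    simpa using h
  refine h2.congr (Filter.Eventually.of_forall fun y => ?_)
  show SS P D (x - 1 + (y - (x - 1))) = SS P D y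
  congr 1
  ring

/-- The final comparison of sizes. -/
lemma pair_arith {A1 A2 κ b' : ℝ} (_hA1 : 0 < A1) (hA2 : 0 < A2) (hκ : 0 < κ) (hb : 0 < b') :
    ∃ T0 : ℝ, ∀ T : ℝ, T0 ≤ T → ∀ W : ℝ, T ^ b' ≤ W →
      A1 * Real.log T * W + A2 * Real.log T ^ 4 ≤ κ * W * Real.log T ^ 2 := by
  have ev1 : ∀ᶠ T : ℝ in atTop, 2 * A1 / κ ≤ Real.log T :=
    Real.tendsto_log_atTop.eventually_ge_atTop _
  have ev2 : ∀ᶠ T : ℝ in atTop, ‖Real.log T ^ 2‖ ≤ κ / (2 * A2) * ‖T ^ b'‖ :=
    (isLittleO_log_rpow_rpow_atTop 2 hb |>.congr_left (fun T => by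
      rw [← Real.rpow_natCast]; norm_num)).def (by positivity)
  obtain ⟨T1, hT1⟩ := eventually_atTop.mp (ev1.and (ev2.and (eventually_ge_atTop 3)))
  refine ⟨T1, fun T hT W hW => ?_⟩
  obtain ⟨e1, e2, e3⟩ := hT1 T hT
  have hT0 : 0 < T := by linarith
  have hL : 0 < Real.log T := Real.log_pos (by linarith)
  have hTb : 0 < T ^ b' := Real.rpow_pos_of_pos hT0 _
  have hW0 : 0 < W := hTb.trans_le hW
  rw [Real.norm_of_nonneg (by positivity), Real.norm_of_nonneg hTb.le] at e2
  set L := Real.log T with hLdef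
  have h1 : A1 * L * W ≤ κ / 2 * W * L ^ 2 := by
    rw [div_le_iff₀ hκ] at e1
    have h3 : A1 ≤ κ / 2 * L := by linarith
    calc A1 * L * W = A1 * (L * W) := by ring
      _ ≤ κ / 2 * L * (L * W) := by gcongr
      _ = _ := by ring
  have h2 : A2 * L ^ 4 ≤ κ / 2 * W * L ^ 2 := by
    have h3 : L ^ 2 ≤ κ / (2 * A2) * W := e2.trans (by gcongr)
    calc A2 * L ^ 4 = A2 * L ^ 2 * L ^ 2 := by ring
      _ ≤ A2 * (κ / (2 * A2) * W) * L ^ 2 := by gcongr
      _ = _ := by field_simp
  linarith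

/-- **The mean of a product of sums over the zeros is a sum over the pairs in the window.** -/
theorem pair_sum (hRH : RiemannHypothesis) (P P' : PhiData) {b b' κ : ℝ} (hb0 : 0 < b)
    (hb : b < b') (hb' : b' ≤ 1) (hκ : 0 < κ) : ∃ T0 : ℝ, ∀ T : ℝ, T0 ≤ T → ∀ w W : ℝ, T ≤ w →
      T ^ b' ≤ W → w + W ≤ 4 * T →
      |(∫ t in w..(w + W), SS P (b * Real.log T) t * SS P' (b * Real.log T) t) -
        b * Real.log T * ∑ n ∈ In w W, ∑ m ∈ In w W, GG P P' (2 * π * b * (xs T n - xs T m))| ≤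
        κ * W * Real.log T ^ 2 := by
  have hb1 : b ≤ 1 := by linarith
  have hb0' : 0 < b' := by linarith
  obtain ⟨C1, hC1, h1⟩ := W1_sub_wn_le hRH
  obtain ⟨C2, hC2, h2⟩ := wn_far
  obtain ⟨C3, hC3, h3⟩ := tsum_weight_le
  obtain ⟨C4, T4, hC4, hT4, h4⟩ := W1_mean hRH hb0'
  obtain ⟨T5, hT5, h5⟩ := count_asymp hb0' (κ := 1 / 2) (by norm_num)
  obtain ⟨M, hM⟩ : ∃ M : ℝ, M = 50 / b := ⟨_, rfl⟩
  have hM0 : 0 < M := by rw [hM]; positivity
  have hpi := Real.pi_pos
  obtain ⟨A1, hA1⟩ : ∃ A : ℝ, A = 8 * M ^ 2 * C1 * C4 + M ^ 2 * (4 * C2) * π := ⟨_, rfl⟩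
  obtain ⟨A2, hA2⟩ : ∃ A : ℝ, A = 24 * M ^ 2 * C3 ^ 2 := ⟨_, rfl⟩
  have hA10 : 0 < A1 := by rw [hA1]; positivity
  have hA20 : 0 < A2 := by rw [hA2]; positivity
  obtain ⟨T6, h6⟩ := pair_arith hA10 hA20 hκ hb0'
  have ev1 : ∀ᶠ T : ℝ in atTop, 1 / b ≤ Real.log T :=
    Real.tendsto_log_atTop.eventually_ge_atTop _
  have ev2 : ∀ᶠ T : ℝ in atTop, 2 ≤ T ^ b' := (tendsto_rpow_atTop hb0').eventually_ge_atTop _
  obtain ⟨T7, h7⟩ := eventually_atTop.mp (ev1.and (ev2.and (eventually_ge_atTop 6)))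
  refine ⟨max (max T4 T5) (max T6 T7), fun T hT w W hw hW hwW => ?_⟩
  have hTT4 : T4 ≤ T := ((le_max_left _ _).trans (le_max_left _ _)).trans hT
  have hTT5 : T5 ≤ T := ((le_max_right _ _).trans (le_max_left _ _)).trans hT
  have hTT6 : T6 ≤ T := ((le_max_left _ _).trans (le_max_right _ _)).trans hT
  obtain ⟨e1, e2, e3⟩ := h7 T (((le_max_right _ _).trans (le_max_right _ _)).trans hT)
  have hT0 : 0 < T := by linarith
  have hW2 : 2 ≤ W := e2.trans hW
  have hw0 : 0 ≤ w := by linarith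
  have hL3 : 3 ≤ Real.log T := by
    rw [Real.le_log_iff_exp_le hT0]; exact hT4.trans hTT4
  have hD1 : 1 ≤ b * Real.log T := by
    rw [div_le_iff₀ hb0] at e1
    linarith
  have hTsq : Real.log (4 * T + 4) ≤ 2 * Real.log T := by
    have : Real.log (4 * T + 4) ≤ Real.log (T ^ 2) := Real.log_le_log (by linarith) (by nlinarith)
    rwa [Real.log_pow] at this
  have h4' := h4 T hTT4 w W (by linarith) hwW hW
  have h5' := h5 T hTT5 w W hw hW hwW
  have h6' := h6 T hTT6 W hW
  set L := Real.log T with hL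
  set D := b * L with hD
  have hL0 : 0 < L := by linarith
  have hL1 : 1 ≤ L := by linarith
  have hDh : 1 / 2 ≤ D := by linarith
  -- pointwise bounds
  have hlogt : ∀ t, w - 1 ≤ t → t ≤ w + W + 1 → Real.log (|t| + 2) ≤ 2 * L := fun t ht1 ht2 => by
    refine le_trans (Real.log_le_log (by positivity) ?_) hTsq
    rw [abs_of_nonneg (by linarith)]
    linarith
  have hW1 : ∀ t, w - 1 ≤ t → t ≤ w + W + 1 → W1 T t ≤ 2 * C3 * L := fun t ht1 ht2 => by
    have g1 : W1 T t ≤ ∑' ρ : ntz, (mult ρ : ℝ) / (1 + (t - (ρ:ℂ).im) ^ 2) := by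
      refine hasSum_le (fun ρ => ?_) (hasSum_W1 hRH hL1 t) (summable_weight t).hasSum
      have := q_le (x := t - (ρ : ℂ).im) hL1
      calc (mult ρ : ℝ) * q L (t - (ρ : ℂ).im) ≤
          (mult ρ : ℝ) * (1 / (1 + (t - (ρ : ℂ).im) ^ 2)) := by gcongr
        _ = _ := by ring
    calc W1 T t ≤ C3 * Real.log (|t| + 2) := g1.trans (h3 t)
      _ ≤ C3 * (2 * L) := mul_le_mul_of_nonneg_left (hlogt t ht1 ht2) hC3.le
      _ = _ := by ring
  have hmid : ∀ t, w + 1 ≤ t → t ≤ w + W - 1 → W1 T t - wn T w W t ≤ 4 * C1 / L :=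
    fun t ht1 ht2 => by
      refine (h1 T w W t hL1 hw0 ht1 ht2).trans ?_
      calc 2 / L ^ 2 * (C1 * Real.log (|t| + 2)) ≤ 2 / L ^ 2 * (C1 * (2 * L)) := by
            have := hlogt t (by linarith) (by linarith)
            gcongr
        _ = _ := by field_simp; ring
  have hfar : ∀ t, (t ≤ w - 1 ∨ w + W + 1 ≤ t) → wn T w W t ≤ 4 * C2 / L := fun t ht => by
    refine (h2 T w W t hL1 (by linarith) (by linarith) ht).trans ?_
    have g1 : Real.log (w + W + 3) ≤ 2 * L :=
      le_trans (Real.log_le_log (by linarith) (by linarith)) hTsq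
    calc 2 / L ^ 2 * (C2 * Real.log (w + W + 3)) ≤ 2 / L ^ 2 * (C2 * (2 * L)) := by gcongr
      _ = _ := by field_simp; ring
  -- the functions
  have hc1 := SS_cont hRH P hDh
  have hc2 := SS_cont hRH P' hDh
  have hs1 := Sin_continuous P D w W
  have hs2 := Sin_continuous P' D w W
  have hcn := wn_continuous T w W
  have hnn := wn_nonneg T w W
  have hle := wn_le_W1 hRH (W := W) hL1 hw0
  set f := fun t => SS P D t * SS P' D t with hf
  set g := fun t => Sin P D w W t * Sin P' D w W t with hg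
  have hfc : Continuous f := hc1.mul hc2
  have hgc : Continuous g := hs1.mul hs2
  have hdiff : ∀ t, |f t - g t| ≤ 2 * (M * L) ^ 2 * (W1 T t * (W1 T t - wn T w W t)) := by
    intro t
    have k1 : |SS P D t - Sin P D w W t| ≤ M * L * (W1 T t - wn T w W t) := by
      rw [hM]; exact SS_sub_Sin hRH P hb0 hb1 hL1 hDh hw0 t
    have k2 : |SS P' D t - Sin P' D w W t| ≤ M * L * (W1 T t - wn T w W t) := by
      rw [hM]; exact SS_sub_Sin hRH P' hb0 hb1 hL1 hDh hw0 t
    have k3 : |SS P' D t| ≤ M * L * W1 T t := by rw [hM]; exact SS_maj hRH P' hb0 hb1 hL1 hDh t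
    have k4 : |Sin P D w W t| ≤ M * L * W1 T t := by
      rw [hM]
      refine (Sin_maj P hb0 hb1 hL1 hDh w W t).trans ?_
      have := hle t
      gcongr
    have e : f t - g t = (SS P D t - Sin P D w W t) * SS P' D t +
        Sin P D w W t * (SS P' D t - Sin P' D w W t) := by
      rw [hf, hg]; ring
    have hd0 : 0 ≤ W1 T t - wn T w W t := sub_nonneg.2 (hle t)
    have hw10 : 0 ≤ W1 T t := W1_nonneg T t
    rw [e]
    refine (abs_add_le _ _).trans ?_
    rw [abs_mul, abs_mul]
    calc _ ≤ M * L * (W1 T t - wn T w W t) * (M * L * W1 T t) +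
          M * L * W1 T t * (M * L * (W1 T t - wn T w W t)) := by gcongr
      _ = _ := by ring
  have hW1c : Continuous (W1 T) := by
    have h3 : Continuous (Pool.Agent.ZGap.Res.NC (fun x => 1 / (1 + x ^ 2)) T) :=
      Pool.Agent.ZGap.Res.NC_continuous (K := 1) (continuous_const.div (by fun_prop)
        fun x => by positivity) (fun x => by rw [abs_of_nonneg (by positivity)]) hL1
    have e2 : Pool.Agent.ZGap.Res.NC (fun x => 1 / (1 + x ^ 2)) T = W1 T := funext fun t => by
      unfold Pool.Agent.ZGap.Res.NC W1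
      refine tsum_congr fun ρ => ?_
      rw [mul_comm (t - (ρ : ℂ).im)]
    rwa [e2] at h3
  have hii : ∀ u v : ℝ, IntervalIntegrable (fun t => f t - g t) volume u v := fun u v =>
    (hfc.sub hgc).intervalIntegrable _ _
  have hedge : ∀ u : ℝ, w - 1 ≤ u → u + 1 ≤ w + W + 1 →
      |∫ t in u..(u + 1), (f t - g t)| ≤ 8 * M ^ 2 * C3 ^ 2 * L ^ 4 := by
    intro u hu1 hu2
    have := intervalIntegral.norm_integral_le_of_norm_le_const (a := u) (b := u + 1)
      (f := fun t => f t - g t) (C := 8 * M ^ 2 * C3 ^ 2 * L ^ 4) (fun t ht => by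
        rw [uIoc_of_le (by linarith)] at ht
        rw [Real.norm_eq_abs]
        refine (hdiff t).trans ?_
        have g1 := hW1 t (by linarith [ht.1]) (by linarith [ht.2])
        have g2 : W1 T t - wn T w W t ≤ 2 * C3 * L := by linarith [hnn t]
        have g3 : 0 ≤ W1 T t - wn T w W t := sub_nonneg.2 (hle t)
        calc 2 * (M * L) ^ 2 * (W1 T t * (W1 T t - wn T w W t)) ≤
            2 * (M * L) ^ 2 * (2 * C3 * L * (2 * C3 * L)) := by gcongr
          _ = _ := by ring)
    rwa [add_sub_cancel_left, abs_one, mul_one, Real.norm_eq_abs] at this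
  have hmiddle : |∫ t in (w + 1)..(w + W - 1), (f t - g t)| ≤ 8 * M ^ 2 * C1 * L * (C4 * W) := by
    rw [← Real.norm_eq_abs]
    have k1 : ‖∫ t in (w + 1)..(w + W - 1), (f t - g t)‖ ≤
        ∫ t in (w + 1)..(w + W - 1), 8 * M ^ 2 * C1 * L * W1 T t := by
      apply intervalIntegral.norm_integral_le_of_norm_le (by linarith)
      · refine Filter.Eventually.of_forall fun t ht => ?_
        rw [Real.norm_eq_abs]
        refine (hdiff t).trans ?_
        have g1 := hmid t (by linarith [ht.1]) (by linarith [ht.2])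
        have g3 : 0 ≤ W1 T t := W1_nonneg T t
        calc 2 * (M * L) ^ 2 * (W1 T t * (W1 T t - wn T w W t)) ≤
            2 * (M * L) ^ 2 * (W1 T t * (4 * C1 / L)) := by gcongr
          _ = _ := by field_simp; ring
      · exact (hW1c.const_mul _).intervalIntegrable _ _
    refine k1.trans ?_
    rw [intervalIntegral.integral_const_mul]
    have k2 : ∫ t in (w + 1)..(w + W - 1), W1 T t ≤ ∫ t in w..(w + W), W1 T t := by
      apply intervalIntegral.integral_mono_interval (by linarith) (by linarith) (by linarith)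
      · exact Filter.Eventually.of_forall fun t => W1_nonneg T t
      · exact hW1c.intervalIntegrable _ _
    have k3 := k2.trans h4'
    gcongr
  have hin : |(∫ t in w..(w + W), f t) - ∫ t in w..(w + W), g t| ≤
      8 * M ^ 2 * C1 * L * (C4 * W) + 16 * M ^ 2 * C3 ^ 2 * L ^ 4 := by
    rw [← intervalIntegral.integral_sub (hfc.intervalIntegrable _ _) (hgc.intervalIntegrable _ _)]
    have k1 := intervalIntegral.integral_add_adjacent_intervals (hii w (w + 1))
      (hii (w + 1) (w + W - 1))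
    have k2 := intervalIntegral.integral_add_adjacent_intervals (hii w (w + W - 1))
      (hii (w + W - 1) (w + W))
    have k3 := hedge w (by linarith) (by linarith)
    have k4 := hedge (w + W - 1) (by linarith) (by linarith)
    rw [sub_add_cancel] at k4
    rw [← k2, ← k1]
    refine (abs_add_le _ _).trans ?_
    have k5 := abs_add_le (∫ t in w..(w + 1), (f t - g t)) (∫ t in (w + 1)..(w + W - 1), (f t - g t))
    linarith
  -- outside
  obtain ⟨hgi, hge⟩ := integral_Sin P P' hDh w W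
  obtain ⟨hwi, hwe⟩ := integral_wn hL0 w W
  have hgb : ∀ t, |g t| ≤ (M * L) ^ 2 * wn T w W t ^ 2 := by
    intro t
    have k1 := Sin_maj P hb0 hb1 hL1 hDh w W t
    have k2 := Sin_maj P' hb0 hb1 hL1 hDh w W t
    rw [← hM] at k1 k2
    have := hnn t
    rw [hg]
    simp only
    rw [abs_mul]
    calc _ ≤ M * L * wn T w W t * (M * L * wn T w W t) := by gcongr
      _ = _ := by ring
  have hout : |(∫ t, g t) - ∫ t in w..(w + W), g t| ≤
      8 * M ^ 2 * C3 ^ 2 * L ^ 4 + M ^ 2 * (4 * C2) * π * L * W := by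
    set E : Set ℝ := Icc (w - 1) w ∪ Icc (w + W) (w + W + 1) with hE
    have hEm : MeasurableSet E := measurableSet_Icc.union measurableSet_Icc
    have hEv : volume.real E ≤ 2 := by
      refine (measureReal_union_le _ _).trans ?_
      rw [Real.volume_real_Icc_of_le (by linarith), Real.volume_real_Icc_of_le (by linarith)]
      linarith
    have hEfin : volume E ≠ ⊤ :=
      ((measure_union_lt_top (by rw [Real.volume_Icc]; exact ENNReal.ofReal_lt_top)
        (by rw [Real.volume_Icc]; exact ENNReal.ofReal_lt_top))).ne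
    have k1 : (∫ t, g t) - ∫ t in w..(w + W), g t = ∫ t in (Ioc w (w + W))ᶜ, g t := by
      rw [intervalIntegral.integral_of_le (by linarith),
        ← integral_add_compl measurableSet_Ioc hgi]
      ring
    rw [k1]
    set Y : ℝ → ℝ := fun t => (M * L) ^ 2 * ((2 * C3 * L) ^ 2 * E.indicator (fun _ => (1:ℝ)) t +
      4 * C2 / L * wn T w W t) with hY
    have hYi : Integrable Y := by
      rw [hY]
      refine Integrable.const_mul (Integrable.add (Integrable.const_mul ?_ _)
        (hwi.const_mul _)) _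
      exact (integrable_indicator_iff hEm).2 (integrableOn_const (hs := hEfin))
    have hYnn : ∀ t, 0 ≤ Y t := fun t => by
      have g1 : 0 ≤ E.indicator (fun _ => (1:ℝ)) t := indicator_nonneg (fun _ _ => zero_le_one) t
      have := hnn t
      rw [hY]
      positivity
    have k2 : |∫ t in (Ioc w (w + W))ᶜ, g t| ≤ ∫ t in (Ioc w (w + W))ᶜ, Y t := by
      rw [← Real.norm_eq_abs]
      refine (norm_integral_le_integral_norm _).trans ?_
      refine setIntegral_mono_on hgi.norm.integrableOn hYi.integrableOn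
        measurableSet_Ioc.compl fun t ht => ?_
      rw [Real.norm_eq_abs]
      refine (hgb t).trans ?_
      rw [hY]
      simp only
      have hn := hnn t
      refine mul_le_mul_of_nonneg_left ?_ (by positivity)
      by_cases htE : t ∈ E
      · rw [indicator_of_mem htE, mul_one]
        have g1 : wn T w W t ≤ 2 * C3 * L := (hle t).trans (by
          rcases htE with htE | htE
          · exact hW1 t htE.1 (by linarith [htE.2])
          · exact hW1 t (by linarith [htE.1]) htE.2)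
        have g2 : wn T w W t ^ 2 ≤ (2 * C3 * L) ^ 2 := by gcongr
        have g3 : 0 ≤ 4 * C2 / L * wn T w W t := by positivity
        linarith
      · rw [indicator_of_notMem htE, mul_zero, zero_add, sq]
        refine mul_le_mul_of_nonneg_right (hfar t ?_) hn
        by_contra hc
        rw [not_or, not_le, not_le] at hc
        apply htE
        have ht' : ¬ (w < t ∧ t ≤ w + W) := ht
        rw [not_and_or, not_lt, not_le] at ht'
        rcases ht' with ht' | ht'
        · exact Or.inl ⟨hc.1.le, ht'⟩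
        · exact Or.inr ⟨ht'.le, hc.2.le⟩
    have k3 : ∫ t in (Ioc w (w + W))ᶜ, Y t ≤ ∫ t, Y t :=
      setIntegral_le_integral hYi (Filter.Eventually.of_forall hYnn)
    have k4 : ∫ t, Y t = (M * L) ^ 2 * ((2 * C3 * L) ^ 2 * volume.real E +
        4 * C2 / L * ((In w W).card * (π / L))) := by
      rw [hY, MeasureTheory.integral_const_mul, integral_add (Integrable.const_mul
        ((integrable_indicator_iff hEm).2 (integrableOn_const (hs := hEfin))) _)
        (hwi.const_mul _), MeasureTheory.integral_const_mul, MeasureTheory.integral_const_mul,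
        hwe, integral_indicator_const _ hEm, smul_eq_mul, mul_one]
    have k5 : ((In w W).card : ℝ) ≤ W * L := by
      rw [card_In (by linarith)]
      have g1 := (abs_le.1 h5').2
      have g2 : W * L / (2 * π) ≤ 1 / 2 * (W * L) := by
        rw [div_le_iff₀ (by positivity)]
        have : 0 ≤ W * L := by positivity
        nlinarith [Real.pi_gt_three]
      linarith
    refine k2.trans (k3.trans ?_)
    rw [k4]
    calc _ ≤ (M * L) ^ 2 * ((2 * C3 * L) ^ 2 * 2 + 4 * C2 / L * (W * L * (π / L))) := by gcongr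
      _ = _ := by field_simp; ring
  -- the scaled ordinates
  have hx : b * L * ∑ n ∈ In w W, ∑ m ∈ In w W, GG P P' (2 * π * b * (xs T n - xs T m)) =
      ∫ t, g t := by
    rw [hge]
    congr 1
    refine Finset.sum_congr rfl fun n _ => Finset.sum_congr rfl fun m _ => ?_
    congr 1
    unfold xs
    rw [← hL, hD]
    field_simp
  rw [hx]
  have hfin : |(∫ t in w..(w + W), f t) - ∫ t, g t| ≤ A1 * L * W + A2 * L ^ 4 := by
    have k1 := abs_sub_le (∫ t in w..(w + W), f t) (∫ t in w..(w + W), g t) (∫ t, g t)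
    rw [abs_sub_comm (∫ t in w..(w + W), g t) (∫ t, g t)] at k1
    rw [hA1, hA2]
    nlinarith
  exact hfin.trans h6'

end Pool.Agent.AHP
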