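import Pool.Agent.AHP.Const
import Pool.Agent.AHP.Mean
import Pool.Agent.AHP.Pair
import Pool.Agent.AHP.CountA

/-!
# The pair sums of the kernels
-/

namespace Pool.Agent.AHP

open MeasureTheory Real Set Pool.Agent.ZGap.Gen Pool.Agent.ZetaGaps Pool.Agent.PF.SN

/-- The constant of the mean square. -/
noncomputable def cb (P P' : PhiData) (b : ℝ) : ℝ :=
  P.f0 0 * P'.f0 0 / 4 + b ^ 2 / 2 * ∫ v in (0:ℝ)..1, v * P.f0 v * P'.f0 v

/-- The number of zeros of the window as a real number. -/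
noncomputable def NI (T H : ℝ) : ℝ := (zeroCount (T + H) : ℝ) - zeroCount T

lemma count_one {κ : ℝ} (hκ : 0 < κ) : ∃ T0 : ℝ, Real.exp 3 ≤ T0 ∧ ∀ T : ℝ, T0 ≤ T →
    ∀ H : ℝ, T ≤ H → H ≤ 3 * T →
    |NI T H - H * Real.log T / (2 * π)| ≤ κ * (H * Real.log T) := by
  obtain ⟨T0, _, h0⟩ := count_asymp (b' := 1) one_pos hκ
  refine ⟨max T0 (Real.exp 3), le_max_right _ _, fun T hT H hH hH3 => ?_⟩
  have h1 := h0 T ((le_max_left _ _).trans hT) T H le_rfl
    (by rw [Real.rpow_one]; exact hH) (by linarith)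
  exact h1

/-- `H log T ≤ 13 #I`. -/
lemma count_low : ∃ T0 : ℝ, Real.exp 3 ≤ T0 ∧ ∀ T : ℝ, T0 ≤ T →
    ∀ H : ℝ, T ≤ H → H ≤ 3 * T → H * Real.log T ≤ 13 * NI T H := by
  obtain ⟨T0, hT0, h0⟩ := count_one (κ := 1 / 20) (by norm_num)
  refine ⟨T0, hT0, fun T hT H hH hH3 => ?_⟩
  have h1 := (abs_le.mp (h0 T hT H hH hH3)).1
  have hTp : 0 < T := lt_of_lt_of_le (Real.exp_pos 3) (hT0.trans hT)
  have hL : 0 ≤ Real.log T := by
    apply Real.log_nonneg
    have : (1:ℝ) ≤ Real.exp 3 := Real.one_le_exp (by norm_num)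
    linarith
  have hHL : 0 ≤ H * Real.log T := mul_nonneg (by linarith) hL
  have hpi := Real.pi_pos
  have hpi2 : π ≤ 63 / 20 := by
    have := Real.pi_lt_d2
    norm_num at this
    linarith
  have h2 : H * Real.log T * (10 / 63) ≤ H * Real.log T / (2 * π) := by
    rw [le_div_iff₀ (by positivity)]
    nlinarith
  linarith

/-- The pair sum of two kernels. -/
noncomputable def PS (P P' : PhiData) (b T H : ℝ) : ℝ :=
  ∑ n ∈ In T H, ∑ m ∈ In T H, GG P P' (2 * π * b * (xs T n - xs T m))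

lemma sum_asymp (hRH : RiemannHypothesis) (P P' : PhiData) {b κ : ℝ} (hb0 : 0 < b) (hb : b < 1)
    (hκ : 0 < κ) : ∃ T0 : ℝ, Real.exp 3 ≤ T0 ∧ ∀ T : ℝ, T0 ≤ T → ∀ H : ℝ, T ≤ H → H ≤ 3 * T →
    |b * PS P P' b T H - 2 * π * cb P P' b * NI T H| ≤ κ * NI T H := by
  have hpi := Real.pi_pos
  obtain ⟨c, hc⟩ : ∃ c : ℝ, c = |2 * π * cb P P' b| + 1 := ⟨_, rfl⟩
  have hc1 : 1 ≤ c := by rw [hc]; linarith [abs_nonneg (2 * π * cb P P' b)]
  obtain ⟨T1, h1⟩ := mean_prod hRH P P' hb0 hb le_rfl (κ := κ / 52) (by positivity)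
  obtain ⟨T2, h2⟩ := pair_sum hRH P P' hb0 hb le_rfl (κ := κ / 52) (by positivity)
  obtain ⟨T3, hT3, h3⟩ := count_one (κ := κ / (26 * c)) (by positivity)
  obtain ⟨T4, hT4, h4⟩ := count_low
  refine ⟨max (max T1 T2) (max T3 T4), ?_, fun T hT H hH hH3 => ?_⟩
  · exact hT4.trans ((le_max_right _ _).trans (le_max_right _ _))
  have g1 : T1 ≤ T := (le_max_left _ _).trans ((le_max_left _ _).trans hT)
  have g2 : T2 ≤ T := (le_max_right _ _).trans ((le_max_left _ _).trans hT)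
  have g3 : T3 ≤ T := (le_max_left _ _).trans ((le_max_right _ _).trans hT)
  have g4 : T4 ≤ T := (le_max_right _ _).trans ((le_max_right _ _).trans hT)
  have hTe : Real.exp 3 ≤ T := hT4.trans g4
  have hTp : 0 < T := lt_of_lt_of_le (Real.exp_pos 3) hTe
  have hL3 : 3 ≤ Real.log T := by rw [Real.le_log_iff_exp_le hTp]; exact hTe
  have e1 := h1 T g1 T H le_rfl (by rw [Real.rpow_one]; exact hH) (by linarith)
  have e2 := h2 T g2 T H le_rfl (by rw [Real.rpow_one]; exact hH) (by linarith)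
  have e3 := h3 T g3 H hH hH3
  have e4 := h4 T g4 H hH hH3
  change |_ - H * Real.log T ^ 2 * cb P P' b| ≤ _ at e1
  change |_ - b * Real.log T * PS P P' b T H| ≤ _ at e2
  generalize (∫ t in T..(T + H), SS P (b * Real.log T) t * SS P' (b * Real.log T) t) = Iv at e1 e2
  obtain ⟨L, hL⟩ : ∃ L : ℝ, L = Real.log T := ⟨_, rfl⟩
  rw [← hL] at e1 e2 e3 e4 hL3
  have hLp : 0 < L := by linarith
  have hHp : 0 < H := by linarith
  have a1 := abs_le.mp e1
  have a2 := abs_le.mp e2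
  have a3 := abs_le.mp e3
  -- divide by `L`
  have k1 : |b * PS P P' b T H - H * L * cb P P' b| ≤ κ / 26 * (H * L) := by
    have h : |L * (b * PS P P' b T H - H * L * cb P P' b)| ≤ L * (κ / 26 * (H * L)) := by
      rw [abs_le]
      constructor <;> nlinarith
    rw [abs_mul, abs_of_pos hLp] at h
    exact le_of_mul_le_mul_left h hLp
  have k2 : |H * L * cb P P' b - 2 * π * cb P P' b * NI T H| ≤ κ / 26 * (H * L) := by
    have h : H * L * cb P P' b - 2 * π * cb P P' b * NI T H =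
        -(2 * π * cb P P' b) * (NI T H - H * L / (2 * π)) := by
      field_simp
      ring
    rw [h, abs_mul, abs_neg]
    calc |2 * π * cb P P' b| * |NI T H - H * L / (2 * π)| ≤ c * (κ / (26 * c) * (H * L)) := by
          apply mul_le_mul _ e3 (abs_nonneg _) (by linarith)
          rw [hc]; linarith
      _ = κ / 26 * (H * L) := by
          field_simp
  have k3 := abs_add_le (b * PS P P' b T H - H * L * cb P P' b)
    (H * L * cb P P' b - 2 * π * cb P P' b * NI T H)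
  have k4 : b * PS P P' b T H - H * L * cb P P' b +
    (H * L * cb P P' b - 2 * π * cb P P' b * NI T H) =
    b * PS P P' b T H - 2 * π * cb P P' b * NI T H := by ring
  rw [k4] at k3
  have k5 : κ / 13 * (H * L) ≤ κ * NI T H := by
    have : κ / 13 * (H * L) ≤ κ / 13 * (13 * NI T H) :=
      mul_le_mul_of_nonneg_left e4 (by positivity)
    linarith
  linarith

/-- The weighted sum over the distances. -/
noncomputable def WS (P P' : PhiData) (K : ℕ) (R : ℕ → ℝ) : ℝ :=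
  ∑ k ∈ Finset.Icc 1 K, GG P P' (π * k) * R k

lemma WS_self {i K : ℕ} (h : 2 * i + 1 ≤ K) (R : ℕ → ℝ) :
    WS (PC i) (PC i) K R = π / 4 * R (2 * i + 1) / (2 * (i:ℝ) + 1) ^ 4 := by
  unfold WS
  rw [Finset.sum_eq_single (2 * i + 1)]
  · rw [GG_self, if_neg (by omega), if_pos rfl]
    ring
  · intro k hk hne
    rw [Finset.mem_Icc] at hk
    rw [GG_self, if_neg (by omega), if_neg hne]
    simp
  · intro hn
    exact absurd (Finset.mem_Icc.2 ⟨by omega, h⟩) hn

lemma WS_cross {i K : ℕ} (h : 2 * i + 2 ≤ K) (R : ℕ → ℝ) :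
    WS (PC i) (PC (i + 1)) K R =
      π / 4 * (R 1 + R (2 * i + 2)) / ((2 * (i:ℝ) + 1) ^ 2 * (2 * (i:ℝ) + 3) ^ 2) := by
  unfold WS
  have hsub : ({1, 2 * i + 2} : Finset ℕ) ⊆ Finset.Icc 1 K := by
    intro k hk
    rw [Finset.mem_insert, Finset.mem_singleton] at hk
    rw [Finset.mem_Icc]
    rcases hk with rfl | rfl <;> omega
  rw [← Finset.sum_subset hsub]
  · rw [Finset.sum_pair (by omega), GG_cross, GG_cross, if_pos rfl, if_neg (by omega), if_pos rfl]
    ring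
  · intro k _ hk
    rw [Finset.mem_insert, Finset.mem_singleton, not_or] at hk
    rw [GG_cross, if_neg hk.1, if_neg hk.2]
    simp

end Pool.Agent.AHP
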