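import Pool.Agent.AHP.Block1

/-!
# From the pair sums to the numbers of pairs
-/

namespace Pool.Agent.AHP

open MeasureTheory Real Set Pool.Agent.ZGap.Gen Pool.Agent.ZetaGaps Pool.Agent.PF.SN

lemma int_ff_le (i i' : ℕ) : |∫ v in (0:ℝ)..1, v * (PC i).f0 v * (PC i').f0 v| ≤ 1 := by
  have h : ‖∫ v in (0:ℝ)..1, v * (PC i).f0 v * (PC i').f0 v‖ ≤ 1 * |1 - 0| := by
    apply intervalIntegral.norm_integral_le_of_norm_le_const
    intro v hv
    rw [uIoc_of_le zero_le_one] at hv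
    rw [Real.norm_eq_abs, abs_mul, abs_mul, abs_of_pos hv.1]
    have h1 := f0_le_one i v
    have h2 := f0_le_one i' v
    calc v * |(PC i).f0 v| * |(PC i').f0 v| ≤ 1 * 1 * 1 := by
          gcongr
          exact hv.2
      _ = 1 := by norm_num
  rw [Real.norm_eq_abs] at h
  simpa using h

lemma cb_sub (i i' : ℕ) {b : ℝ} (hb : 0 ≤ b) (hb1 : b ≤ 1) :
    |cb (PC i) (PC i') b - cb (PC i) (PC i') 1| ≤ 1 - b := by
  unfold cb
  have h := int_ff_le i i'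
  generalize (∫ v in (0:ℝ)..1, v * (PC i).f0 v * (PC i').f0 v) = z at h ⊢
  have e : (PC i).f0 0 * (PC i').f0 0 / 4 + b ^ 2 / 2 * z -
      ((PC i).f0 0 * (PC i').f0 0 / 4 + 1 ^ 2 / 2 * z) = -((1 - b ^ 2) / 2 * z) := by ring
  rw [e, abs_neg, abs_mul, abs_of_nonneg (by nlinarith)]
  have h2 : (1 - b ^ 2) / 2 * |z| ≤ (1 - b ^ 2) / 2 * 1 :=
    mul_le_mul_of_nonneg_left h (by nlinarith)
  nlinarith

lemma cb_le (i i' : ℕ) {b : ℝ} (hb : 0 ≤ b) (hb1 : b ≤ 1) : |cb (PC i) (PC i') b| ≤ 1 := by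
  unfold cb
  have h := int_ff_le i i'
  have h1 := f0_le_one i 0
  have h2 := f0_le_one i' 0
  generalize (∫ v in (0:ℝ)..1, v * (PC i).f0 v * (PC i').f0 v) = z at h ⊢
  have h3 := abs_add_le ((PC i).f0 0 * (PC i').f0 0 / 4) (b ^ 2 / 2 * z)
  have h4 : |(PC i).f0 0 * (PC i').f0 0 / 4| ≤ 1 / 4 := by
    rw [abs_div, abs_mul]
    have : |(PC i).f0 0| * |(PC i').f0 0| ≤ 1 * 1 := by gcongr
    rw [abs_of_pos (by norm_num : (0:ℝ) < 4)]
    linarith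
  have h5 : |b ^ 2 / 2 * z| ≤ 1 / 2 := by
    rw [abs_mul, abs_of_nonneg (by positivity)]
    have h6 : b ^ 2 / 2 ≤ 1 / 2 := by nlinarith
    calc b ^ 2 / 2 * |z| ≤ 1 / 2 * 1 := by gcongr
      _ = 1 / 2 := by norm_num
  linarith

lemma rel_gen {i i' K : ℕ} {b κ J S : ℝ} {R : ℕ → ℝ} (hb : 1 / 2 ≤ b) (hb1 : b ≤ 1)
    (hκ1 : κ ≤ 1 / 10) (hJ : 0 ≤ J)
    (hA : |b * S - 2 * π * cb (PC i) (PC i') b * J| ≤ κ * J)
    (hB : |S - (GG (PC i) (PC i') 0 * J + 2 * ∑ k ∈ Finset.Icc 1 K,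
      GG (PC i) (PC i') (2 * π * b * (k / 2)) * R k)| ≤ κ * J)
    (hR : ∀ k ∈ Finset.Icc 1 K, 0 ≤ R k ∧ R k ≤ 2 * J) :
    |GG (PC i) (PC i') 0 * J + 2 * WS (PC i) (PC i') K R - 2 * π * cb (PC i) (PC i') 1 * J| ≤
      (2 * κ + (1 - b) * (50 * (K:ℝ) ^ 2 + 22)) * J := by
  have hpi := Real.pi_pos
  have hpi2 : π ≤ 63 / 20 := by
    have := Real.pi_lt_d2
    norm_num at this
    linarith
  have h1 : |(∑ k ∈ Finset.Icc 1 K, GG (PC i) (PC i') (2 * π * b * (k / 2)) * R k) -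
      WS (PC i) (PC i') K R| ≤ (1 - b) * (20 * (K:ℝ) ^ 2) * J := by
    unfold WS
    rw [← Finset.sum_sub_distrib]
    refine (Finset.abs_sum_le_sum_abs _ _).trans ?_
    have h2 : ∀ k ∈ Finset.Icc 1 K, |GG (PC i) (PC i') (2 * π * b * (k / 2)) * R k -
        GG (PC i) (PC i') (π * k) * R k| ≤ (1 - b) * (20 * (K:ℝ)) * J := by
      intro k hk
      obtain ⟨r1, r2⟩ := hR k hk
      rw [← sub_mul, abs_mul, abs_of_nonneg r1]
      have h3 := GG_lip i i' (2 * π * b * (k / 2)) (π * k)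
      have h4 : |2 * π * b * ((k:ℝ) / 2) - π * k| = π * k * (1 - b) := by
        have : 2 * π * b * ((k:ℝ) / 2) - π * k = -(π * k * (1 - b)) := by ring
        rw [this, abs_neg, abs_of_nonneg]
        have : (0:ℝ) ≤ k := Nat.cast_nonneg k
        have : 0 ≤ 1 - b := by linarith
        positivity
      rw [h4] at h3
      have hkK : (k:ℝ) ≤ K := by exact_mod_cast (Finset.mem_Icc.1 hk).2
      have hk0 : (0:ℝ) ≤ k := Nat.cast_nonneg k
      have hb2 : 0 ≤ 1 - b := by linarith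
      have h5 : π * (π * k * (1 - b)) ≤ (1 - b) * (10 * (K:ℝ)) := by
        have h6 : π * π ≤ 10 := by nlinarith
        have h7 : π * (π * k * (1 - b)) = (π * π) * (k * (1 - b)) := by ring
        rw [h7]
        calc (π * π) * (k * (1 - b)) ≤ 10 * (K * (1 - b)) := by gcongr
          _ = (1 - b) * (10 * (K:ℝ)) := by ring
      calc |GG (PC i) (PC i') (2 * π * b * (k / 2)) - GG (PC i) (PC i') (π * k)| * R k
          ≤ ((1 - b) * (10 * (K:ℝ))) * (2 * J) :=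
            mul_le_mul (h3.trans h5) r2 r1 (by positivity)
        _ = (1 - b) * (20 * (K:ℝ)) * J := by ring
    refine (Finset.sum_le_sum h2).trans ?_
    rw [Finset.sum_const, Nat.card_Icc, Nat.add_sub_cancel, nsmul_eq_mul]
    apply le_of_eq
    ring
  have h2 := cb_sub i i' (b := b) (by linarith) hb1
  have h3 := cb_le i i' (b := b) (by linarith) hb1
  -- the size of `S`
  have a1 := abs_le.mp hA
  have a3 := abs_le.mp h3
  have h4 : |2 * π * cb (PC i) (PC i') b * J| ≤ 63 / 10 * J := by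
    rw [abs_mul, abs_mul, abs_of_pos (by positivity : 0 < 2 * π), abs_of_nonneg hJ]
    have : 2 * π * |cb (PC i) (PC i') b| ≤ 63 / 10 * 1 := by
      apply mul_le_mul _ h3 (abs_nonneg _) (by norm_num)
      linarith
    calc 2 * π * |cb (PC i) (PC i') b| * J ≤ (63 / 10 * 1) * J :=
          mul_le_mul_of_nonneg_right this hJ
      _ = 63 / 10 * J := by ring
  have a4 := abs_le.mp h4
  have hκJ : κ * J ≤ 1 / 10 * J := mul_le_mul_of_nonneg_right hκ1 hJ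
  have h5 : |S| ≤ 14 * J := by
    rw [abs_le]
    constructor <;> nlinarith
  have a5 := abs_le.mp h5
  have h6 : |S - b * S| ≤ (1 - b) * (14 * J) := by
    have : S - b * S = (1 - b) * S := by ring
    rw [this, abs_mul, abs_of_nonneg (by linarith)]
    exact mul_le_mul_of_nonneg_left h5 (by linarith)
  have h7 : |2 * π * cb (PC i) (PC i') b * J - 2 * π * cb (PC i) (PC i') 1 * J| ≤
      (1 - b) * (7 * J) := by
    have : 2 * π * cb (PC i) (PC i') b * J - 2 * π * cb (PC i) (PC i') 1 * J =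
        2 * π * J * (cb (PC i) (PC i') b - cb (PC i) (PC i') 1) := by ring
    rw [this, abs_mul, abs_of_nonneg (by positivity)]
    calc 2 * π * J * |cb (PC i) (PC i') b - cb (PC i) (PC i') 1| ≤ 2 * π * J * (1 - b) :=
          mul_le_mul_of_nonneg_left h2 (by positivity)
      _ ≤ 7 * J * (1 - b) := by
          apply mul_le_mul_of_nonneg_right _ (by linarith)
          apply mul_le_mul_of_nonneg_right _ hJ
          linarith
      _ = (1 - b) * (7 * J) := by ring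
  have b1 := abs_le.mp h1
  have b6 := abs_le.mp h6
  have b7 := abs_le.mp h7
  have bB := abs_le.mp hB
  have hKJ : 0 ≤ (1 - b) * ((K:ℝ) ^ 2 * J) := by
    have : 0 ≤ 1 - b := by linarith
    positivity
  have hbJ : 0 ≤ (1 - b) * J := mul_nonneg (by linarith) hJ
  rw [abs_le]
  constructor
  · nlinarith [b1.1, b1.2, b6.1, b6.2, b7.1, b7.2, bB.1, bB.2, a1.1, a1.2]
  · nlinarith [b1.1, b1.2, b6.1, b6.2, b7.1, b7.2, bB.1, bB.2, a1.1, a1.2]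

lemma rel_self {i K : ℕ} {κ J : ℝ} {R : ℕ → ℝ} (h : 2 * i + 1 ≤ K) (hκ : 0 ≤ κ) (hJ : 0 ≤ J)
    (hrel : |GG (PC i) (PC i) 0 * J + 2 * WS (PC i) (PC i) K R -
      2 * π * cb (PC i) (PC i) 1 * J| ≤ κ * J) :
    |R (2 * i + 1) - (1 / 2 - 2 / (π ^ 2 * (2 * (i:ℝ) + 1) ^ 2)) * J| ≤
      κ * (2 * (i:ℝ) + 1) ^ 4 * J := by
  have hpi := Real.pi_pos
  have hpi3 := Real.pi_gt_three
  have h0 : GG (PC i) (PC i) 0 = π / 2 / (2 * (i:ℝ) + 1) ^ 4 := by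
    have := GG_self i 0
    simpa using this
  have hc : cb (PC i) (PC i) 1 = (3 / 8 - 1 / (2 * π ^ 2 * (2 * (i:ℝ) + 1) ^ 2)) /
      (2 * (i:ℝ) + 1) ^ 4 := by
    unfold cb
    rw [const_self]
    norm_num
  rw [h0, WS_self h, hc] at hrel
  obtain ⟨q, hq⟩ : ∃ q : ℝ, q = 2 * (i:ℝ) + 1 := ⟨_, rfl⟩
  rw [← hq] at hrel ⊢
  have hqp : 0 < q := by rw [hq]; positivity
  have e : π / 2 / q ^ 4 * J + 2 * (π / 4 * R (2 * i + 1) / q ^ 4) -
      2 * π * ((3 / 8 - 1 / (2 * π ^ 2 * q ^ 2)) / q ^ 4) * J =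
      π / 2 / q ^ 4 * (R (2 * i + 1) - (1 / 2 - 2 / (π ^ 2 * q ^ 2)) * J) := by
    field_simp
    ring
  rw [e, abs_mul, abs_of_pos (by positivity)] at hrel
  have h1 : |R (2 * i + 1) - (1 / 2 - 2 / (π ^ 2 * q ^ 2)) * J| ≤
      κ * J / (π / 2 / q ^ 4) := by
    rw [le_div_iff₀ (by positivity), mul_comm]
    exact hrel
  refine h1.trans ?_
  rw [div_le_iff₀ (by positivity)]
  have h2 : κ * q ^ 4 * J * (π / 2 / q ^ 4) = κ * J * (π / 2) := by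
    field_simp
  rw [h2]
  have h3 : 0 ≤ κ * J := mul_nonneg hκ hJ
  nlinarith

lemma rel_cross {i K : ℕ} {κ J : ℝ} {R : ℕ → ℝ} (h : 2 * i + 2 ≤ K) (hκ : 0 ≤ κ) (hJ : 0 ≤ J)
    (hrel : |GG (PC i) (PC (i + 1)) 0 * J + 2 * WS (PC i) (PC (i + 1)) K R -
      2 * π * cb (PC i) (PC (i + 1)) 1 * J| ≤ κ * J) :
    |R 1 + R (2 * i + 2) - (1 - 2 / π ^ 2) * J| ≤
      κ * ((2 * (i:ℝ) + 1) ^ 2 * (2 * (i:ℝ) + 3) ^ 2) * J := by
  have hpi := Real.pi_pos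
  have hpi3 := Real.pi_gt_three
  have h0 : GG (PC i) (PC (i + 1)) 0 = 0 := by
    have := GG_cross i 0
    simpa using this
  have hc : cb (PC i) (PC (i + 1)) 1 = (1 / 4 - 1 / (2 * π ^ 2)) /
      ((2 * (i:ℝ) + 1) ^ 2 * (2 * (i:ℝ) + 3) ^ 2) := by
    unfold cb
    rw [const_cross]
    norm_num
  rw [h0, WS_cross h, hc] at hrel
  obtain ⟨q, hq⟩ : ∃ q : ℝ, q = (2 * (i:ℝ) + 1) ^ 2 * (2 * (i:ℝ) + 3) ^ 2 := ⟨_, rfl⟩
  rw [← hq] at hrel ⊢
  have hqp : 0 < q := by rw [hq]; positivity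
  have e : 0 * J + 2 * (π / 4 * (R 1 + R (2 * i + 2)) / q) -
      2 * π * ((1 / 4 - 1 / (2 * π ^ 2)) / q) * J =
      π / 2 / q * (R 1 + R (2 * i + 2) - (1 - 2 / π ^ 2) * J) := by
    field_simp
    ring
  rw [e, abs_mul, abs_of_pos (by positivity)] at hrel
  have h1 : |R 1 + R (2 * i + 2) - (1 - 2 / π ^ 2) * J| ≤ κ * J / (π / 2 / q) := by
    rw [le_div_iff₀ (by positivity), mul_comm]
    exact hrel
  refine h1.trans ?_
  rw [div_le_iff₀ (by positivity)]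
  have h2 : κ * q * J * (π / 2 / q) = κ * J * (π / 2) := by
    field_simp
  rw [h2]
  have h3 : 0 ≤ κ * J := mul_nonneg hκ hJ
  nlinarith

/-- The proportion of pairs at distance `k / 2`. -/
noncomputable def rr (k : ℕ) : ℝ := 1 / 2 - (1 - (-1) ^ k) / (π ^ 2 * (k:ℝ) ^ 2)

lemma rel_all {N K : ℕ} {κ J : ℝ} {R : ℕ → ℝ} (hNK : N ≤ K) (hκ : 0 ≤ κ) (hJ : 0 ≤ J)
    (h1 : ∀ i, 2 * i + 1 ≤ N → |GG (PC i) (PC i) 0 * J + 2 * WS (PC i) (PC i) K R -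
      2 * π * cb (PC i) (PC i) 1 * J| ≤ κ * J)
    (h2 : ∀ i, 2 * i + 2 ≤ N → |GG (PC i) (PC (i + 1)) 0 * J + 2 * WS (PC i) (PC (i + 1)) K R -
      2 * π * cb (PC i) (PC (i + 1)) 1 * J| ≤ κ * J)
    (k : ℕ) (hk : 1 ≤ k) (hkN : k ≤ N) :
    |R k - rr k * J| ≤ κ * (2 * ((N:ℝ) + 1) ^ 4) * J := by
  have hκJ : 0 ≤ κ * J := mul_nonneg hκ hJ
  have hkR : (k:ℝ) ≤ N := by exact_mod_cast hkN
  rcases Nat.even_or_odd k with he | ho
  · obtain ⟨j, hj⟩ := he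
    obtain ⟨i, hi⟩ : ∃ i, k = 2 * i + 2 := ⟨j - 1, by omega⟩
    have r1 := rel_self (i := 0) (K := K) (R := R) (by omega) hκ hJ (h1 0 (by omega))
    have r2 := rel_cross (i := i) (K := K) (R := R) (by omega) hκ hJ (h2 i (by omega))
    have e : rr k = 1 / 2 := by
      unfold rr
      have : Even k := ⟨j, hj⟩
      rw [this.neg_one_pow]
      simp
    rw [e]
    rw [← hi] at r2
    simp only [Nat.cast_zero, mul_zero, zero_add, one_pow, mul_one] at r1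
    have hik : (k:ℝ) = 2 * i + 2 := by exact_mod_cast hi
    have hM : (2 * (i:ℝ) + 1) ^ 2 * (2 * (i:ℝ) + 3) ^ 2 ≤ ((N:ℝ) + 1) ^ 4 := by
      have hi0 : (0:ℝ) ≤ i := Nat.cast_nonneg i
      have hA : 2 * (i:ℝ) + 1 ≤ (N:ℝ) + 1 := by linarith
      have hB : 2 * (i:ℝ) + 3 ≤ (N:ℝ) + 1 := by linarith
      calc (2 * (i:ℝ) + 1) ^ 2 * (2 * (i:ℝ) + 3) ^ 2 ≤ ((N:ℝ) + 1) ^ 2 * ((N:ℝ) + 1) ^ 2 :=
            mul_le_mul (pow_le_pow_left₀ (by linarith) hA 2) (pow_le_pow_left₀ (by linarith) hB 2)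
              (by positivity) (by positivity)
        _ = ((N:ℝ) + 1) ^ 4 := by ring
    have hN1 : (1:ℝ) ≤ ((N:ℝ) + 1) ^ 4 := by
      have : (1:ℝ) ≤ (N:ℝ) + 1 := by
        have : (0:ℝ) ≤ N := Nat.cast_nonneg N
        linarith
      exact one_le_pow₀ this
    have k1 : κ * ((2 * (i:ℝ) + 1) ^ 2 * (2 * (i:ℝ) + 3) ^ 2) * J ≤
        κ * J * ((N:ℝ) + 1) ^ 4 := by
      calc κ * ((2 * (i:ℝ) + 1) ^ 2 * (2 * (i:ℝ) + 3) ^ 2) * J =
          κ * J * ((2 * (i:ℝ) + 1) ^ 2 * (2 * (i:ℝ) + 3) ^ 2) := by ring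
        _ ≤ _ := mul_le_mul_of_nonneg_left hM hκJ
    have k2 : κ * J ≤ κ * J * ((N:ℝ) + 1) ^ 4 := le_mul_of_one_le_right hκJ hN1
    have k3 : κ * (2 * ((N:ℝ) + 1) ^ 4) * J = 2 * (κ * J * ((N:ℝ) + 1) ^ 4) := by ring
    rw [k3]
    have a1 := abs_le.mp r1
    have a2 := abs_le.mp r2
    rw [abs_le]
    constructor <;> nlinarith [a1.1, a1.2, a2.1, a2.2]
  · obtain ⟨i, hi⟩ := ho
    have r1 := rel_self (i := i) (K := K) (R := R) (by omega) hκ hJ (h1 i (by omega))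
    rw [← hi] at r1
    have hik : (k:ℝ) = 2 * i + 1 := by exact_mod_cast hi
    rw [← hik] at r1
    have e : rr k = 1 / 2 - 2 / (π ^ 2 * (k:ℝ) ^ 2) := by
      unfold rr
      have : Odd k := ⟨i, hi⟩
      rw [this.neg_one_pow]
      norm_num
    rw [e]
    refine r1.trans ?_
    have hM : (k:ℝ) ^ 4 ≤ 2 * ((N:ℝ) + 1) ^ 4 := by
      have hk0 : (0:ℝ) ≤ k := Nat.cast_nonneg k
      have : (k:ℝ) ^ 4 ≤ ((N:ℝ) + 1) ^ 4 := by gcongr; linarith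
      have h5 : 0 ≤ ((N:ℝ) + 1) ^ 4 := by positivity
      linarith
    calc κ * (k:ℝ) ^ 4 * J = κ * J * (k:ℝ) ^ 4 := by ring
      _ ≤ κ * J * (2 * ((N:ℝ) + 1) ^ 4) := mul_le_mul_of_nonneg_left hM hκJ
      _ = _ := by ring

end Pool.Agent.AHP
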