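import Mathlib

/-!
# Pairs of indices with a bad gap between them
-/

namespace Pool.Agent.AHP

open Classical in
/-- Pairs `n < m` at distance at most `R` with a gap of the set `B` between them are few if `B` is
small and the third moment of the numbers of points near a point is bounded. -/
theorem bad_pairs {x : ℕ → ℝ} {i j : ℕ}
    (hmono : ∀ m n, i < m → m ≤ n → n ≤ j → x m ≤ x n) {R M : ℝ} (hM : 0 < M) {B : Finset ℕ}
    (hB : B ⊆ Finset.Ioo i j) {E : Finset (ℕ × ℕ)}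
    (hE : ∀ p ∈ E, i < p.1 ∧ p.1 < p.2 ∧ p.2 ≤ j ∧ x p.2 - x p.1 ≤ R ∧
      ∃ l ∈ B, p.1 ≤ l ∧ l < p.2) :
    (E.card : ℝ) ≤ M ^ 2 * B.card + (1 / M) * ∑ n ∈ Finset.Ioc i j,
      (((Finset.Ioc i j).filter fun m => |x m - x n| ≤ R).card : ℝ) ^ 3 := by
  set W : ℕ → Finset ℕ := fun n => (Finset.Ioc i j).filter fun m => |x m - x n| ≤ R with hW
  have h1 : E ⊆ B.biUnion fun l => W l ×ˢ W l := by
    intro p hp
    obtain ⟨a1, a2, a3, a4, l, hl, a5, a6⟩ := hE p hp
    have hl2 := Finset.mem_Ioo.1 (hB hl)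
    rw [Finset.mem_biUnion]
    refine ⟨l, hl, Finset.mem_product.2 ⟨?_, ?_⟩⟩
    · have e1 := hmono p.1 l a1 a5 hl2.2.le
      have e2 := hmono l p.2 hl2.1 a6.le a3
      simp only [hW, Finset.mem_filter, Finset.mem_Ioc]
      refine ⟨⟨a1, (a5.trans hl2.2.le)⟩, ?_⟩
      rw [abs_le]
      constructor <;> linarith
    · have e1 := hmono p.1 l a1 a5 hl2.2.le
      have e2 := hmono l p.2 hl2.1 a6.le a3
      simp only [hW, Finset.mem_filter, Finset.mem_Ioc]
      refine ⟨⟨a1.trans a2, a3⟩, ?_⟩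
      rw [abs_le]
      constructor <;> linarith
  have h2 : E.card ≤ ∑ l ∈ B, (W l).card ^ 2 := by
    refine (Finset.card_le_card h1).trans (Finset.card_biUnion_le.trans ?_)
    refine Finset.sum_le_sum fun l _ => ?_
    rw [Finset.card_product, sq]
  have h3 : ∀ l, ((W l).card : ℝ) ^ 2 ≤ M ^ 2 + (1 / M) * ((W l).card : ℝ) ^ 3 := by
    intro l
    set c : ℝ := ((W l).card : ℝ) with hc
    have c0 : 0 ≤ c := Nat.cast_nonneg _
    by_cases hcM : c ≤ M
    · have : c ^ 2 ≤ M ^ 2 := by gcongr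
      have : 0 ≤ (1 / M) * c ^ 3 := by positivity
      linarith
    · push Not at hcM
      have e1 : (1 / M) * c ^ 3 = c ^ 2 * (c / M) := by field_simp
      have e2 : 1 ≤ c / M := by rw [le_div_iff₀ hM]; linarith
      have e3 : 0 ≤ M ^ 2 := by positivity
      rw [e1]
      nlinarith [sq_nonneg c, mul_le_mul_of_nonneg_left e2 (sq_nonneg c)]
  have h4 : (E.card : ℝ) ≤ ∑ l ∈ B, ((W l).card : ℝ) ^ 2 := by exact_mod_cast h2
  refine h4.trans ((Finset.sum_le_sum fun l _ => h3 l).trans ?_)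
  rw [Finset.sum_add_distrib, Finset.sum_const, nsmul_eq_mul, ← Finset.mul_sum, mul_comm]
  refine add_le_add le_rfl (mul_le_mul_of_nonneg_left ?_ (by positivity))
  refine Finset.sum_le_sum_of_subset_of_nonneg (fun l hl => ?_) fun _ _ _ => by positivity
  have := Finset.mem_Ioo.1 (hB hl)
  exact Finset.mem_Ioc.2 ⟨this.1, this.2.le⟩

end Pool.Agent.AHP
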