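import Pool.Agent.AHP.CombE

/-!
# Pairs without a bad gap in between
-/

namespace Pool.Agent.AHP

lemma chain {x : ℕ → ℝ} {δ : ℝ} (hδ : δ ≤ 1 / 16) {a : ℕ} : ∀ n : ℕ,
    (∀ l, a ≤ l → l < a + n → 1 / 2 - δ ≤ x (l + 1) - x l ∧
      ∃ m : ℤ, |x (l + 1) - x l - m / 2| ≤ δ) →
    ∃ k : ℕ, n ≤ k ∧ |x (a + n) - x a - (k : ℝ) / 2| ≤ n * δ ∧
      n * (1 / 2 - δ) ≤ x (a + n) - x a := by
  intro n
  induction n with
  | zero =>
    intro _
    exact ⟨0, le_rfl, by simp, by simp⟩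
  | succ n ih =>
    intro h
    obtain ⟨k, h1, h2, h3⟩ := ih fun l hl1 hl2 => h l hl1 (by omega)
    obtain ⟨g1, m, g2⟩ := h (a + n) (by omega) (by omega)
    have g3 := abs_le.1 g2
    have hm : (1 : ℤ) ≤ m := by
      by_contra hc
      have hc' : m ≤ 0 := by omega
      have hc2 : (m : ℝ) ≤ 0 := by exact_mod_cast hc'
      linarith [g3.2]
    have hcast : ((k + m.toNat : ℕ) : ℝ) = k + m := by
      push_cast
      congr 1
      exact_mod_cast Int.toNat_of_nonneg (by omega : 0 ≤ m)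
    refine ⟨k + m.toNat, ?_, ?_, ?_⟩
    · have : 1 ≤ m.toNat := by omega
      omega
    · rw [hcast]
      have e : x (a + (n + 1)) - x a - ((k : ℝ) + m) / 2 =
          (x (a + n) - x a - (k : ℝ) / 2) + (x (a + n + 1) - x (a + n) - (m : ℝ) / 2) := by
        rw [← add_assoc]
        ring
      rw [e]
      refine (abs_add_le _ _).trans ?_
      push_cast
      linarith
    · have e : x (a + (n + 1)) - x a = (x (a + n) - x a) + (x (a + n + 1) - x (a + n)) := by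
        rw [← add_assoc]
        ring
      rw [e]
      push_cast
      linarith

theorem good_pair {x : ℕ → ℝ} {i j : ℕ} (_hm : ∀ m n, i < m → m ≤ n → n ≤ j → x m ≤ x n)
    {δ : ℝ} (hδ : 0 < δ) {K : ℕ} (hK : 1 ≤ K) (hKδ : 2 * K * δ ≤ 1 / 8) {p : ℕ × ℕ}
    (hp : i < p.1 ∧ p.1 < p.2 ∧ p.2 ≤ j) (hd : x p.2 - x p.1 ≤ K / 2 + 1 / 4)
    (hnb : p ∉ NB x i j δ K) :
    ∃ k ∈ Finset.Icc 1 K, |x p.2 - x p.1 - (k : ℕ) / 2| ≤ 2 * K * δ := by
  have hK1 : (1:ℝ) ≤ K := by exact_mod_cast hK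
  have hδ16 : δ ≤ 1 / 16 := by nlinarith
  have hgood : ∀ l, p.1 ≤ l → l < p.1 + (p.2 - p.1) → 1 / 2 - δ ≤ x (l + 1) - x l ∧
      ∃ m : ℤ, |x (l + 1) - x l - m / 2| ≤ δ := by
    intro l hl1 hl2
    have hl3 : l < p.2 := by omega
    have hnot : l ∉ BG x i j δ := fun hl => hnb (by
      rw [mem_NB]
      exact ⟨hp, by linarith, l, hl, hl1, hl3⟩)
    rw [mem_BG] at hnot
    push Not at hnot
    exact hnot ⟨by omega, by omega⟩
  obtain ⟨k, h1, h2, h3⟩ := chain hδ16 (p.2 - p.1) hgood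
  have he : p.1 + (p.2 - p.1) = p.2 := by omega
  rw [he] at h2 h3
  have hn1 : 1 ≤ p.2 - p.1 := by omega
  set n := p.2 - p.1 with hn
  have hn1' : (1:ℝ) ≤ n := by exact_mod_cast hn1
  have hnK : (n : ℝ) ≤ 2 * K := by
    have h4 : (n : ℝ) * (7 / 16) ≤ K / 2 + 1 / 4 := by
      have : (n : ℝ) * (7 / 16) ≤ n * (1 / 2 - δ) := by
        apply mul_le_mul_of_nonneg_left (by linarith) (by linarith)
      linarith
    linarith
  have h5 : |x p.2 - x p.1 - (k : ℝ) / 2| ≤ 2 * K * δ :=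
    h2.trans (mul_le_mul_of_nonneg_right hnK hδ.le)
  refine ⟨k, Finset.mem_Icc.2 ⟨by omega, ?_⟩, h5⟩
  have h6 := (abs_le.1 (h5.trans hKδ)).1
  have h7 : (k : ℝ) < K + 1 := by linarith
  have h8 : k < K + 1 := by exact_mod_cast h7
  omega

end Pool.Agent.AHP
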