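import Pool.Agent.AHP.CombE

/-!
# The number of pairs against the number of points with a partner
-/

namespace Pool.Agent.AHP

open Classical in
/-- The pairs at distance about `k / 2`. -/
noncomputable def RS (x : ℕ → ℝ) (i j : ℕ) (ε : ℝ) (k : ℕ) : Finset (ℕ × ℕ) :=
  (Finset.Ioc i j ×ˢ Finset.Ioc i j).filter
    fun p : ℕ × ℕ => p.1 < p.2 ∧ |x p.2 - x p.1 - k / 2| ≤ ε

lemma Rk_eq (x : ℕ → ℝ) (i j : ℕ) (ε : ℝ) (k : ℕ) : Rk x i j ε k = (RS x i j ε k).card := rfl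

lemma mem_RS {x : ℕ → ℝ} {i j : ℕ} {ε : ℝ} {k : ℕ} {p : ℕ × ℕ} : p ∈ RS x i j ε k ↔
    (i < p.1 ∧ p.1 < p.2 ∧ p.2 ≤ j) ∧ |x p.2 - x p.1 - k / 2| ≤ ε := by
  simp only [RS, Finset.mem_filter, Finset.mem_product, Finset.mem_Ioc]
  constructor
  · rintro ⟨⟨⟨a, b⟩, c, d⟩, e, f⟩
    exact ⟨⟨a, e, d⟩, f⟩
  · rintro ⟨⟨a, b, c⟩, d⟩
    exact ⟨⟨⟨a, by omega⟩, by omega, c⟩, b, d⟩

lemma le_card_of_sdiff {s t : Finset (ℕ × ℕ)} {c : ℕ} (h : (s \ t).card ≤ c) :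
    s.card ≤ c + t.card := by
  have h1 : s ⊆ (s \ t) ∪ t := fun p hp => by
    by_cases hq : p ∈ t
    · exact Finset.mem_union_right _ hq
    · exact Finset.mem_union_left _ (Finset.mem_sdiff.2 ⟨hp, hq⟩)
  have h2 := Finset.card_le_card h1
  have h3 := Finset.card_union_le (s \ t) t
  omega

open Classical in
theorem rk_part {x : ℕ → ℝ} {i j : ℕ} (hm : ∀ m n, i < m → m ≤ n → n ≤ j → x m ≤ x n)
    {δ ε : ℝ} (hδ : δ ≤ 1 / 16) (hε : ε ≤ 3 / 16) {K k : ℕ} (hk : 1 ≤ k) (hkK : k ≤ K) :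
    |(Rk x i j ε k : ℝ) - ((Finset.Ioc i j).filter fun n =>
      ∃ m ∈ Finset.Ioc i j, n < m ∧ |x m - x n - k / 2| ≤ ε).card| ≤ (NB x i j δ K).card := by
  rw [Rk_eq]
  obtain ⟨F, hF⟩ : ∃ F : Finset ℕ, F = (Finset.Ioc i j).filter fun n =>
      ∃ m ∈ Finset.Ioc i j, n < m ∧ |x m - x n - k / 2| ≤ ε := ⟨_, rfl⟩
  rw [← hF]
  have hkR : (k:ℝ) ≤ K := by exact_mod_cast hkK
  have hk0 : (1:ℝ) ≤ k := by exact_mod_cast hk
  have h1 : F.card ≤ (RS x i j ε k).card := by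
    have h2 : F ⊆ (RS x i j ε k).image Prod.fst := by
      intro n hn
      rw [hF, Finset.mem_filter] at hn
      obtain ⟨hn1, m, hm1, hnm, hd⟩ := hn
      rw [Finset.mem_image]
      exact ⟨(n, m), mem_RS.2 ⟨⟨(Finset.mem_Ioc.1 hn1).1, hnm, (Finset.mem_Ioc.1 hm1).2⟩, hd⟩,
        rfl⟩
    exact (Finset.card_le_card h2).trans Finset.card_image_le
  -- a second partner forces a bad gap
  have key : ∀ p q : ℕ × ℕ, p ∈ RS x i j ε k → q ∈ RS x i j ε k → p.1 = q.1 → p.2 < q.2 →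
      q ∈ NB x i j δ K := by
    intro p q hp hq h12 hlt
    obtain ⟨⟨p1, p2, p3⟩, p4⟩ := mem_RS.1 hp
    obtain ⟨⟨q1, q2, q3⟩, q4⟩ := mem_RS.1 hq
    have a1 := abs_le.1 p4
    have a2 := abs_le.1 q4
    rw [h12] at a1
    have h3 : x p.2 ≤ x (q.2 - 1) := hm _ _ (by omega) (by omega) (by omega)
    have h4 : q.2 - 1 + 1 = q.2 := by omega
    rw [mem_NB]
    refine ⟨⟨q1, q2, q3⟩, by linarith, q.2 - 1, ?_, by omega, by omega⟩
    rw [mem_BG, h4]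
    exact ⟨⟨by omega, by omega⟩, Or.inl (by linarith)⟩
  have h2 : (RS x i j ε k).card ≤ F.card + (NB x i j δ K).card := by
    apply le_card_of_sdiff
    apply Finset.card_le_card_of_injOn Prod.fst
    · intro p hp
      rw [Finset.mem_coe, Finset.mem_sdiff] at hp
      obtain ⟨⟨p1, p2, p3⟩, p4⟩ := mem_RS.1 hp.1
      rw [Finset.mem_coe, hF, Finset.mem_filter]
      exact ⟨Finset.mem_Ioc.2 ⟨p1, by omega⟩, p.2, Finset.mem_Ioc.2 ⟨by omega, p3⟩, p2, p4⟩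
    · intro p hp q hq h
      rw [Finset.mem_coe, Finset.mem_sdiff] at hp hq
      rcases lt_trichotomy p.2 q.2 with h3 | h3 | h3
      · exact absurd (key p q hp.1 hq.1 h h3) hq.2
      · exact Prod.ext h h3
      · exact absurd (key q p hq.1 hp.1 h.symm h3) hp.2
  have h1' : (F.card : ℝ) ≤ (RS x i j ε k).card := by exact_mod_cast h1
  have h2' : ((RS x i j ε k).card : ℝ) ≤ F.card + (NB x i j δ K).card := by exact_mod_cast h2
  rw [abs_le]
  have h3 : (0:ℝ) ≤ (NB x i j δ K).card := Nat.cast_nonneg _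
  constructor <;> linarith

open Classical in
theorem rk_one {x : ℕ → ℝ} {i j : ℕ} (hm : ∀ m n, i < m → m ≤ n → n ≤ j → x m ≤ x n)
    {δ ε : ℝ} (hδ : δ ≤ 1 / 16) (hε : ε ≤ 3 / 16) (K : ℕ) :
    |(Rk x i j ε 1 : ℝ) - ((Finset.Ioo i j).filter fun n =>
      |x (n + 1) - x n - 1 / 2| ≤ ε).card| ≤ (NB x i j δ K).card := by
  rw [Rk_eq]
  obtain ⟨F, hF⟩ : ∃ F : Finset ℕ, F = (Finset.Ioo i j).filter fun n =>
      |x (n + 1) - x n - 1 / 2| ≤ ε := ⟨_, rfl⟩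
  rw [← hF]
  have hK0 : (0:ℝ) ≤ K := Nat.cast_nonneg K
  have h1 : F.card ≤ (RS x i j ε 1).card := by
    apply Finset.card_le_card_of_injOn (fun n => (n, n + 1))
    · intro n hn
      rw [Finset.mem_coe, hF, Finset.mem_filter, Finset.mem_Ioo] at hn
      rw [Finset.mem_coe, mem_RS]
      refine ⟨⟨hn.1.1, by simp, hn.1.2⟩, ?_⟩
      simpa using hn.2
    · intro n _ m _ h
      exact (Prod.ext_iff.1 h).1
  have key : ∀ p : ℕ × ℕ, p ∈ RS x i j ε 1 → p ∉ NB x i j δ K → p.2 = p.1 + 1 := by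
    intro p hp hnb
    obtain ⟨⟨p1, p2, p3⟩, p4⟩ := mem_RS.1 hp
    by_contra hne
    apply hnb
    have a1 := abs_le.1 p4
    rw [Nat.cast_one] at a1
    have hle : p.1 + 1 ≤ p.2 - 1 := by omega
    have h3 : x (p.1 + 1) ≤ x (p.2 - 1) := hm _ _ (by omega) hle (by omega)
    have h4 : p.2 - 1 + 1 = p.2 := by omega
    rw [mem_NB]
    refine ⟨⟨p1, p2, p3⟩, by linarith, ?_⟩
    by_cases hs : x (p.1 + 1) - x p.1 < 1 / 2 - δ
    · exact ⟨p.1, mem_BG.2 ⟨⟨p1, by omega⟩, Or.inl hs⟩, le_rfl, p2⟩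
    · push Not at hs
      refine ⟨p.2 - 1, mem_BG.2 ⟨⟨by omega, by omega⟩, Or.inl ?_⟩, by omega, by omega⟩
      rw [h4]
      linarith
  have h2 : (RS x i j ε 1).card ≤ F.card + (NB x i j δ K).card := by
    apply le_card_of_sdiff
    apply Finset.card_le_card_of_injOn Prod.fst
    · intro p hp
      rw [Finset.mem_coe, Finset.mem_sdiff] at hp
      obtain ⟨⟨p1, p2, p3⟩, p4⟩ := mem_RS.1 hp.1
      have h3 := key p hp.1 hp.2
      rw [Nat.cast_one, h3] at p4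
      rw [Finset.mem_coe, hF, Finset.mem_filter, Finset.mem_Ioo]
      exact ⟨⟨p1, by omega⟩, p4⟩
    · intro p hp q hq h
      rw [Finset.mem_coe, Finset.mem_sdiff] at hp hq
      have h3 := key p hp.1 hp.2
      have h4 := key q hq.1 hq.2
      have h5 : p.1 = q.1 := h
      exact Prod.ext h5 (by omega)
  have h1' : (F.card : ℝ) ≤ (RS x i j ε 1).card := by exact_mod_cast h1
  have h2' : ((RS x i j ε 1).card : ℝ) ≤ F.card + (NB x i j δ K).card := by exact_mod_cast h2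
  rw [abs_le]
  have h3 : (0:ℝ) ≤ (NB x i j δ K).card := Nat.cast_nonneg _
  constructor <;> linarith

end Pool.Agent.AHP
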