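import Pool.Agent.AHP.CombA
import Pool.Agent.AHP.CombB
import Pool.Agent.AHP.CombC
import Pool.Agent.AHP.CombD

/-!
# The combinatorics of the second case of the dichotomy
-/

namespace Pool.Agent.AHP

/-- The sum of an even function over the pairs against the numbers of pairs at distance `k / 2`. -/
theorem pairs_sum {Cg : ℝ} (hCg : 0 < Cg) {g : ℝ → ℝ} (hg1 : ∀ x, |g x| ≤ Cg / (1 + |x| ^ 3))
    (hg2 : ∀ x y, |g x - g y| ≤ Cg * |x - y|) {x : ℕ → ℝ} {i j : ℕ}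
    (hm : ∀ m n, i < m → m ≤ n → n ≤ j → x m ≤ x n) {δ ε : ℝ} (hδ : 0 < δ) (hε1 : ε ≤ 3 / 16)
    {K : ℕ} (hK : 1 ≤ K) (hKδ : 2 * K * δ ≤ 1 / 8) (hKε : 2 * K * δ ≤ ε) :
    |(∑ p ∈ PP i j, g (x p.2 - x p.1)) - ∑ k ∈ Finset.Icc 1 K, g (k / 2) * Rk x i j ε k| ≤
      (4 * Cg / K + Cg * (2 * K * δ) * (1 + ((K:ℝ) + 1) ^ 2)) *
        (∑ n ∈ Finset.Ioc i j, ∑ m ∈ Finset.Ioc i j, 1 / (1 + (x n - x m) ^ 2)) +
        2 * Cg * (NB x i j δ K).card := by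
  classical
  have hK0 : (1:ℝ) ≤ K := by exact_mod_cast hK
  set S := ∑ n ∈ Finset.Ioc i j, ∑ m ∈ Finset.Ioc i j, 1 / (1 + (x n - x m) ^ 2) with hS
  have hgC : ∀ x, |g x| ≤ Cg := fun y => (hg1 y).trans
    (div_le_self hCg.le (by have : 0 ≤ |y| ^ 3 := by positivity
                            linarith))
  set w : ℕ × ℕ → ℝ := fun p => 1 / (1 + (x p.2 - x p.1) ^ 2) with hw
  have w0 : ∀ p, 0 ≤ w p := fun p => by positivity
  -- the terms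
  have h1 : ∀ p ∈ PP i j, |g (x p.2 - x p.1) - hs g ε K (x p.2 - x p.1)| ≤
      (4 * Cg / K + Cg * (2 * K * δ) * (1 + ((K:ℝ) + 1) ^ 2)) * w p +
        2 * Cg * (if p ∈ NB x i j δ K then 1 else 0) := by
    intro p hp
    have hp' := mem_PP.1 hp
    set y := x p.2 - x p.1 with hy
    have y0 : 0 ≤ y := by
      have := hm p.1 p.2 hp'.1 hp'.2.1.le hp'.2.2
      linarith
    have c1 : 0 ≤ 4 * Cg / K * w p := mul_nonneg (by positivity) (w0 p)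
    have c2 : 0 ≤ Cg * (2 * K * δ) * (1 + ((K:ℝ) + 1) ^ 2) * w p :=
      mul_nonneg (by positivity) (w0 p)
    have c3 : (0:ℝ) ≤ (if p ∈ NB x i j δ K then (1:ℝ) else 0) := by
      split_ifs <;> norm_num
    by_cases hf : (K:ℝ) / 2 + 1 / 4 < y
    · rw [hs_far hε1 hf, sub_zero]
      have := far_term hCg hg1 hK hf
      have : |g y| ≤ 4 * Cg / K * w p := this
      have : 0 ≤ 2 * Cg * (if p ∈ NB x i j δ K then (1:ℝ) else 0) :=
        mul_nonneg (by positivity) c3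
      linarith
    · push Not at hf
      by_cases hnb : p ∈ NB x i j δ K
      · rw [if_pos hnb, mul_one]
        have e1 := hs_abs hCg.le hgC (ε := ε) (y := y) hε1 (K := K)
        have e2 := hgC y
        have e3 := abs_sub (g y) (hs g ε K y)
        linarith
      · rw [if_neg hnb, mul_zero, add_zero]
        obtain ⟨k, hk, e1⟩ := good_pair hm hδ hK hKδ hp' hf hnb
        rw [hs_eq hε1 hk (e1.trans hKε)]
        have e2 := hg2 y (k / 2)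
        have e3 : Cg * |y - k / 2| ≤ Cg * (2 * K * δ) := mul_le_mul_of_nonneg_left e1 hCg.le
        have e4 : 1 ≤ (1 + ((K:ℝ) + 1) ^ 2) * w p := by
          simp only [hw, ← hy]
          rw [mul_one_div, le_div_iff₀ (by positivity), one_mul]
          have : y ≤ (K:ℝ) + 1 := by linarith
          have : y ^ 2 ≤ ((K:ℝ) + 1) ^ 2 := by gcongr
          linarith
        have e5 : Cg * (2 * K * δ) ≤ Cg * (2 * K * δ) * ((1 + ((K:ℝ) + 1) ^ 2) * w p) :=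
          le_mul_of_one_le_right (by positivity) e4
        have e6 : Cg * (2 * K * δ) * ((1 + ((K:ℝ) + 1) ^ 2) * w p) =
          Cg * (2 * K * δ) * (1 + ((K:ℝ) + 1) ^ 2) * w p := by ring
        linarith
  rw [sum_Rk, ← Finset.sum_sub_distrib]
  refine (Finset.abs_sum_le_sum_abs _ _).trans ((Finset.sum_le_sum h1).trans ?_)
  rw [Finset.sum_add_distrib, ← Finset.mul_sum, ← Finset.mul_sum]
  refine add_le_add (mul_le_mul_of_nonneg_left (sum_PP_le x i j _ (Finset.Subset.refl _))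
    (by positivity)) (mul_le_mul_of_nonneg_left ?_ (by positivity))
  rw [← Finset.sum_filter, Finset.sum_const, nsmul_eq_mul, mul_one]
  exact_mod_cast Finset.card_le_card fun p hp => (Finset.mem_filter.1 hp).2

open Classical in
theorem comb {Cg C2 κ : ℝ} (hCg : 0 < Cg) (hC2 : 0 < C2) (hκ : 0 < κ) : ∃ K0 : ℕ, ∀ K : ℕ,
    K0 ≤ K → ∀ C3 ε : ℝ, 0 < C3 → 0 < ε → ε ≤ 3 / 16 → ∃ δ : ℝ, 0 < δ ∧
    ∀ g : ℝ → ℝ, (∀ x, |g x| ≤ Cg / (1 + |x| ^ 3)) → (∀ x y, |g x - g y| ≤ Cg * |x - y|) →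
    (∀ x, g (-x) = g x) → ∀ (x : ℕ → ℝ) (i j : ℕ), i ≤ j →
    (∀ m n, i < m → m ≤ n → n ≤ j → x m ≤ x n) →
    ∑ n ∈ Finset.Ioc i j, ∑ m ∈ Finset.Ioc i j, 1 / (1 + (x n - x m) ^ 2) ≤ C2 * ((j:ℝ) - i) →
    ∑ n ∈ Finset.Ioc i j, (((Finset.Ioc i j).filter fun m => |x m - x n| ≤ K + 1).card : ℝ) ^ 3 ≤
      C3 * ((j:ℝ) - i) →
    (((Finset.Ioo i j).filter fun n => x (n + 1) - x n < 1 / 2 - δ).card : ℝ) ≤
      δ * ((j:ℝ) - i) →
    (((Finset.Ioo i j).filter fun n => ∀ m : ℤ, δ < |x (n + 1) - x n - m / 2|).card : ℝ) ≤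
      δ * ((j:ℝ) - i) →
    |(∑ n ∈ Finset.Ioc i j, ∑ m ∈ Finset.Ioc i j, g (x n - x m)) -
        (g 0 * ((j:ℝ) - i) + 2 * ∑ k ∈ Finset.Icc 1 K, g (k / 2) * Rk x i j ε k)| ≤
      κ * ((j:ℝ) - i) ∧
    (∀ k ∈ Finset.Icc 1 K, |(Rk x i j ε k : ℝ) - ((Finset.Ioc i j).filter fun n =>
        ∃ m ∈ Finset.Ioc i j, n < m ∧ |x m - x n - k / 2| ≤ ε).card| ≤ κ * ((j:ℝ) - i)) ∧
    |(Rk x i j ε 1 : ℝ) - ((Finset.Ioo i j).filter fun n =>
        |x (n + 1) - x n - 1 / 2| ≤ ε).card| ≤ κ * ((j:ℝ) - i) := by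
  refine ⟨⌈32 * Cg * C2 / κ⌉₊ + 1, fun K hK C3 ε hC3 hε hε1 => ?_⟩
  have hK1 : 1 ≤ K := (Nat.le_add_left 1 _).trans hK
  have hK0 : (1:ℝ) ≤ K := by exact_mod_cast hK1
  have hKb : 32 * Cg * C2 / κ ≤ K := by
    refine (Nat.le_ceil _).trans ?_
    exact_mod_cast (Nat.le_add_right _ 1).trans hK
  -- the constants
  set β : ℝ := min (κ / (8 * Cg)) κ with hβ
  have β0 : 0 < β := lt_min (by positivity) hκ
  set M : ℝ := 2 * C3 / β with hM
  have M0 : 0 < M := by positivity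
  set δ : ℝ := min (min (1 / (16 * K)) (ε / (2 * K)))
    (min (β / (4 * M ^ 2)) (κ / (16 * Cg * K * (1 + ((K:ℝ) + 1) ^ 2) * C2))) with hδd
  have δ0 : 0 < δ := by
    rw [hδd]
    refine lt_min (lt_min ?_ ?_) (lt_min ?_ ?_) <;> positivity
  have d1 : 2 * K * δ ≤ 1 / 8 := by
    have : δ ≤ 1 / (16 * K) := (min_le_left _ _).trans (min_le_left _ _)
    calc 2 * K * δ ≤ 2 * K * (1 / (16 * K)) := by gcongr
      _ = 1 / 8 := by field_simp; norm_num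
  have d2 : 2 * K * δ ≤ ε := by
    have : δ ≤ ε / (2 * K) := (min_le_left _ _).trans (min_le_right _ _)
    calc 2 * K * δ ≤ 2 * K * (ε / (2 * K)) := by gcongr
      _ = ε := by field_simp
  have d3 : 2 * δ * M ^ 2 ≤ β / 2 := by
    have : δ ≤ β / (4 * M ^ 2) := (min_le_right _ _).trans (min_le_left _ _)
    calc 2 * δ * M ^ 2 ≤ 2 * (β / (4 * M ^ 2)) * M ^ 2 := by gcongr
      _ = β / 2 := by field_simp; norm_num
  have d4 : Cg * (2 * K * δ) * (1 + ((K:ℝ) + 1) ^ 2) * C2 ≤ κ / 8 := by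
    have : δ ≤ κ / (16 * Cg * K * (1 + ((K:ℝ) + 1) ^ 2) * C2) :=
      (min_le_right _ _).trans (min_le_right _ _)
    calc Cg * (2 * K * δ) * (1 + ((K:ℝ) + 1) ^ 2) * C2
        ≤ Cg * (2 * K * (κ / (16 * Cg * K * (1 + ((K:ℝ) + 1) ^ 2) * C2))) *
          (1 + ((K:ℝ) + 1) ^ 2) * C2 := by gcongr
      _ = κ / 8 := by field_simp; norm_num
  have d5 : 4 * Cg / K * C2 ≤ κ / 8 := by
    rw [div_mul_eq_mul_div, div_le_iff₀ (by positivity)]
    rw [div_le_iff₀ hκ] at hKb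
    linarith
  have d6 : δ ≤ 1 / 16 := by nlinarith
  refine ⟨δ, δ0, fun g hg1 hg2 hg3 x i j hij hm hw2 hw3 hs1 hs2 => ?_⟩
  have L0 : (0:ℝ) ≤ (j:ℝ) - i := by
    have : (i:ℝ) ≤ j := by exact_mod_cast hij
    linarith
  -- the bad gaps
  have b1 : ((BG x i j δ).card : ℝ) ≤ 2 * δ * ((j:ℝ) - i) := by
    have e1 : BG x i j δ ⊆ ((Finset.Ioo i j).filter fun n => x (n + 1) - x n < 1 / 2 - δ) ∪
        ((Finset.Ioo i j).filter fun n => ∀ m : ℤ, δ < |x (n + 1) - x n - m / 2|) := by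
      intro n hn
      rw [mem_BG] at hn
      rw [Finset.mem_union, Finset.mem_filter, Finset.mem_filter, Finset.mem_Ioo]
      exact hn.2.imp (fun h => ⟨hn.1, h⟩) fun h => ⟨hn.1, h⟩
    have e2 := (Finset.card_le_card e1).trans (Finset.card_union_le _ _)
    have e3 : ((BG x i j δ).card : ℝ) ≤
        (((Finset.Ioo i j).filter fun n => x (n + 1) - x n < 1 / 2 - δ).card : ℝ) +
        (((Finset.Ioo i j).filter fun n => ∀ m : ℤ, δ < |x (n + 1) - x n - m / 2|).card : ℝ) := by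
      exact_mod_cast e2
    linarith
  have b2 : ((NB x i j δ K).card : ℝ) ≤ β * ((j:ℝ) - i) := by
    have e1 := bad_pairs hm (R := K + 1) M0 (B := BG x i j δ) (E := NB x i j δ K)
      (Finset.filter_subset _ _) (fun p hp => by
        obtain ⟨h1, h2, h3⟩ := mem_NB.1 hp
        exact ⟨h1.1, h1.2.1, h1.2.2, h2, h3⟩)
    have e2 : M ^ 2 * ((BG x i j δ).card : ℝ) ≤ M ^ 2 * (2 * δ * ((j:ℝ) - i)) := by gcongr
    have e3 : M ^ 2 * (2 * δ * ((j:ℝ) - i)) = (2 * δ * M ^ 2) * ((j:ℝ) - i) := by ring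
    have e4 : (2 * δ * M ^ 2) * ((j:ℝ) - i) ≤ β / 2 * ((j:ℝ) - i) :=
      mul_le_mul_of_nonneg_right d3 L0
    have e5 : (1 / M) * ∑ n ∈ Finset.Ioc i j,
        (((Finset.Ioc i j).filter fun m => |x m - x n| ≤ K + 1).card : ℝ) ^ 3 ≤
        (1 / M) * (C3 * ((j:ℝ) - i)) := mul_le_mul_of_nonneg_left hw3 (by positivity)
    have e6 : (1 / M) * (C3 * ((j:ℝ) - i)) = β / 2 * ((j:ℝ) - i) := by
      rw [hM]
      field_simp
    linarith
  have b3 : β * ((j:ℝ) - i) ≤ κ * ((j:ℝ) - i) := mul_le_mul_of_nonneg_right (min_le_right _ _) L0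
  refine ⟨?_, fun k hk => ?_, ?_⟩
  · have e1 := pairs_sum hCg hg1 hg2 hm δ0 hε1 hK1 d1 d2
    rw [sum_sym hg3 x hij]
    set A := ∑ p ∈ PP i j, g (x p.2 - x p.1)
    set A' := ∑ k ∈ Finset.Icc 1 K, g (k / 2) * (Rk x i j ε k : ℝ)
    have e2 : g 0 * ((j:ℝ) - i) + 2 * A - (g 0 * ((j:ℝ) - i) + 2 * A') = 2 * (A - A') := by ring
    rw [e2, abs_mul, abs_of_pos (by norm_num : (0:ℝ) < 2)]
    have e3 : (4 * Cg / K + Cg * (2 * K * δ) * (1 + ((K:ℝ) + 1) ^ 2)) *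
        (∑ n ∈ Finset.Ioc i j, ∑ m ∈ Finset.Ioc i j, 1 / (1 + (x n - x m) ^ 2)) ≤
        (4 * Cg / K + Cg * (2 * K * δ) * (1 + ((K:ℝ) + 1) ^ 2)) * (C2 * ((j:ℝ) - i)) :=
      mul_le_mul_of_nonneg_left hw2 (by positivity)
    have e4 : (4 * Cg / K + Cg * (2 * K * δ) * (1 + ((K:ℝ) + 1) ^ 2)) * (C2 * ((j:ℝ) - i)) =
        (4 * Cg / K * C2 + Cg * (2 * K * δ) * (1 + ((K:ℝ) + 1) ^ 2) * C2) * ((j:ℝ) - i) := by
      ring
    have e5 : (4 * Cg / K * C2 + Cg * (2 * K * δ) * (1 + ((K:ℝ) + 1) ^ 2) * C2) * ((j:ℝ) - i) ≤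
        (κ / 8 + κ / 8) * ((j:ℝ) - i) := mul_le_mul_of_nonneg_right (add_le_add d5 d4) L0
    have e6 : 2 * Cg * ((NB x i j δ K).card : ℝ) ≤ κ / 4 * ((j:ℝ) - i) := by
      have f1 : 2 * Cg * ((NB x i j δ K).card : ℝ) ≤ 2 * Cg * (β * ((j:ℝ) - i)) := by gcongr
      have f2 : 2 * Cg * β ≤ κ / 4 := by
        have : β ≤ κ / (8 * Cg) := min_le_left _ _
        calc 2 * Cg * β ≤ 2 * Cg * (κ / (8 * Cg)) := by gcongr
          _ = κ / 4 := by field_simp; norm_num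
      calc 2 * Cg * ((NB x i j δ K).card : ℝ) ≤ 2 * Cg * (β * ((j:ℝ) - i)) := f1
        _ = 2 * Cg * β * ((j:ℝ) - i) := by ring
        _ ≤ κ / 4 * ((j:ℝ) - i) := mul_le_mul_of_nonneg_right f2 L0
    linarith
  · have hk' := Finset.mem_Icc.1 hk
    have e1 := rk_part hm d6 hε1 hk'.1 hk'.2
    exact e1.trans (b2.trans b3)
  · have e1 := rk_one hm d6 hε1 K
    exact e1.trans (b2.trans b3)

end Pool.Agent.AHP
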