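import Pool.Agent.AHP.Defs
import Pool.Agent.RG.CountW

/-!
# Moments of the number of zeros near a zero, in short windows
-/

namespace Pool.Agent.AHP

open MeasureTheory Real Set Pool.Agent.Hadamard Pool.Agent.ZetaGaps
open Pool.Agent.ZGap.Res (NC NC_summable NC_continuous)

/-- Just below `γ` there are no zeros. -/
lemma exists_below {a γ : ℝ} (h : a < γ) : ∃ S : ℝ, a ≤ S ∧ S < γ ∧
    ∀ ρ ∈ ntz, 0 < ρ.im → S < ρ.im → ρ.im ≤ γ → ρ.im = γ := by
  classical
  set F : Finset ℂ := (finite_zerosUpTo γ).toFinset.filter (fun ρ => ρ.im < γ) with hF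
  have hmemF : ∀ ρ, ρ ∈ F ↔ (ρ ∈ ntz ∧ 0 < ρ.im ∧ ρ.im ≤ γ) ∧ ρ.im < γ := by
    intro ρ; rw [hF, Finset.mem_filter, Set.Finite.mem_toFinset, mem_zerosUpTo]
  by_cases hne : F.Nonempty
  · obtain ⟨ρ0, h0, hmax⟩ := F.exists_max_image (fun ρ => ρ.im) hne
    rw [hmemF] at h0
    refine ⟨max a ρ0.im, le_max_left _ _, max_lt h h0.2, fun ρ hρ hp h1 h2 => ?_⟩
    by_contra hne'
    have h3 : ρ.im ≤ ρ0.im := hmax ρ ((hmemF ρ).mpr ⟨⟨hρ, hp, h2⟩, lt_of_le_of_ne h2 hne'⟩)
    exact absurd h1 (not_lt.mpr (h3.trans (le_max_right _ _)))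
  · refine ⟨a, le_rfl, h, fun ρ hρ hp h1 h2 => ?_⟩
    by_contra hne'
    exact hne ⟨ρ, (hmemF ρ).mpr ⟨⟨hρ, hp, h2⟩, lt_of_le_of_ne h2 hne'⟩⟩

/-- A sum over the ordinates of the window is a sum over the zeros with multiplicity. -/
theorem sum_ordinate {a b : ℝ} (f : ℝ → ℝ) :
    ∑ n ∈ Finset.Ioc (zeroCount a) (zeroCount b), f (ordinate n) =
      ∑ ρ ∈ (finite_zerosUpTo b).toFinset.filter (fun ρ => a < ρ.im), (mult ρ : ℝ) * f ρ.im := by
  classical
  set Z := (finite_zerosUpTo b).toFinset.filter (fun ρ => a < ρ.im) with hZ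
  have hZm : ∀ ρ, ρ ∈ Z ↔ (ρ ∈ ntz ∧ 0 < ρ.im ∧ ρ.im ≤ b) ∧ a < ρ.im := by
    intro ρ; rw [hZ, Finset.mem_filter, Set.Finite.mem_toFinset, mem_zerosUpTo]
  have hmap1 : ∀ n ∈ Finset.Ioc (zeroCount a) (zeroCount b),
      ordinate n ∈ Z.image (fun ρ => ρ.im) := by
    intro n hn
    rw [Finset.mem_Ioc] at hn
    have hn1 : 1 ≤ n := by omega
    have hex := zeroCount_unbounded n
    obtain ⟨ρ, hρ, hρo⟩ := exists_zero_ordinate hex hn1
    rw [Finset.mem_image]
    refine ⟨ρ, (hZm ρ).mpr ⟨⟨hρ, ?_, ?_⟩, ?_⟩, hρo⟩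
    · rw [hρo]; exact ordinate_pos hex hn1
    · rw [hρo]; exact (le_zeroCount_iff hex hn1).mp hn.2
    · rw [hρo]
      by_contra hcon
      have := (le_zeroCount_iff hex hn1).mpr (not_lt.mp hcon)
      omega
  have hmap2 : ∀ ρ ∈ Z, ρ.im ∈ Z.image (fun ρ => ρ.im) := fun ρ hρ =>
    Finset.mem_image_of_mem _ hρ
  rw [← Finset.sum_fiberwise_of_maps_to hmap1, ← Finset.sum_fiberwise_of_maps_to hmap2]
  refine Finset.sum_congr rfl fun γ hγ => ?_
  obtain ⟨ρ1, hρ1, hγ1⟩ := Finset.mem_image.mp hγ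
  rw [hZm] at hρ1
  have haγ : a < γ := by rw [← hγ1]; exact hρ1.2
  have hγb : γ ≤ b := by rw [← hγ1]; exact hρ1.1.2.2
  obtain ⟨S, hS1, hS2, hS3⟩ := exists_below haγ
  have hcount : zeroCount γ = zeroCount S + ∑ ρ ∈ Z.filter (fun ρ => ρ.im = γ), mult ρ := by
    rw [zeroCount_sub hS2.le]
    congr 1
    apply Finset.sum_congr _ (fun _ _ => rfl)
    ext ρ
    rw [Finset.mem_filter, Finset.mem_filter, Set.Finite.mem_toFinset, mem_zerosUpTo, hZm]
    constructor
    · rintro ⟨⟨h1, h2, h3⟩, h4⟩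
      have h5 := hS3 ρ h1 h2 h4 h3
      exact ⟨⟨⟨h1, h2, by rw [h5]; exact hγb⟩, by rw [h5]; exact haγ⟩, h5⟩
    · rintro ⟨⟨⟨h1, h2, h3⟩, h4⟩, h5⟩
      exact ⟨⟨h1, h2, h5.le⟩, by rw [h5]; exact hS2⟩
  have hset : (Finset.Ioc (zeroCount a) (zeroCount b)).filter (fun n => ordinate n = γ) =
      Finset.Ioc (zeroCount S) (zeroCount γ) := by
    ext n
    rw [Finset.mem_filter, Finset.mem_Ioc, Finset.mem_Ioc]
    have hSa := zeroCount_mono hS1
    have hγb' := zeroCount_mono hγb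
    constructor
    · rintro ⟨⟨h1, h2⟩, h3⟩
      have hn1 : 1 ≤ n := by omega
      have hex := zeroCount_unbounded n
      refine ⟨?_, (le_zeroCount_iff hex hn1).mpr h3.le⟩
      by_contra hcon
      have := (le_zeroCount_iff hex hn1).mp (not_lt.mp hcon)
      rw [h3] at this
      linarith
    · rintro ⟨h1, h2⟩
      have hn1 : 1 ≤ n := by omega
      have hex := zeroCount_unbounded n
      refine ⟨⟨by omega, by omega⟩, ?_⟩
      have h4 : ordinate n ≤ γ := (le_zeroCount_iff hex hn1).mp h2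
      have h5 : S < ordinate n := by
        by_contra hcon
        have := (le_zeroCount_iff hex hn1).mpr (not_lt.mp hcon)
        omega
      obtain ⟨ρ, hρ, hρo⟩ := exists_zero_ordinate hex hn1
      rw [← hρo] at h4 h5 ⊢
      have hpos : 0 < ρ.im := by rw [hρo]; exact ordinate_pos hex hn1
      exact hS3 ρ hρ hpos h5 h4
  have h6 : ∑ n ∈ (Finset.Ioc (zeroCount a) (zeroCount b)).filter (fun n => ordinate n = γ),
      f (ordinate n) = ((Finset.Ioc (zeroCount S) (zeroCount γ)).card : ℝ) * f γ := by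
    rw [← hset, ← nsmul_eq_mul]
    exact Finset.sum_eq_card_nsmul fun n hn => by rw [(Finset.mem_filter.mp hn).2]
  have h7 : ∑ ρ ∈ Z.filter (fun ρ => ρ.im = γ), (mult ρ : ℝ) * f ρ.im =
      ((∑ ρ ∈ Z.filter (fun ρ => ρ.im = γ), mult ρ : ℕ) : ℝ) * f γ := by
    rw [Nat.cast_sum, Finset.sum_mul]
    exact Finset.sum_congr rfl fun ρ hρ => by rw [(Finset.mem_filter.mp hρ).2]
  rw [h6, h7, Nat.card_Ioc, hcount]
  congr 2
  omega

/-- The smoothed count dominates the sum over the window. -/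
lemma sum_le_NC {ψ : ℝ → ℝ} {K T t a b : ℝ} (hL : 1 ≤ Real.log T)
    (hψ00 : ∀ x, 0 ≤ ψ x) (hK : ∀ x, |ψ x| ≤ K / (1 + x ^ 2)) :
    ∑ n ∈ Finset.Ioc (zeroCount a) (zeroCount b), ψ ((t - ordinate n) * Real.log T) ≤
      NC ψ T t := by
  classical
  rw [sum_ordinate (fun x => ψ ((t - x) * Real.log T))]
  set Z := (finite_zerosUpTo b).toFinset.filter (fun ρ => a < ρ.im) with hZ
  have hZn : ∀ ρ ∈ Z, ρ ∈ ntz := by
    intro ρ hρ
    rw [hZ, Finset.mem_filter, Set.Finite.mem_toFinset, mem_zerosUpTo] at hρ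
    exact hρ.1.1
  have h1 := (NC_summable hK hL t).sum_le_tsum (Z.subtype (fun x => x ∈ ntz))
    (fun ρ' _ => mul_nonneg (Nat.cast_nonneg _) (hψ00 _))
  have h2 : ∑ ρ ∈ Z.subtype (fun x => x ∈ ntz),
      (mult ρ : ℝ) * ψ ((t - (ρ : ℂ).im) * Real.log T) =
      ∑ ρ ∈ Z, (mult ρ : ℝ) * ψ ((t - ρ.im) * Real.log T) :=
    Finset.sum_subtype_of_mem (f := fun ρ : ℂ => (mult ρ : ℝ) * ψ ((t - ρ.im) * Real.log T)) hZn
  rw [← h2]
  exact h1

/-- The kernel. -/
noncomputable def ps (x : ℝ) : ℝ := 1 / (1 + x ^ 2)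

lemma ps_nonneg (x : ℝ) : 0 ≤ ps x := by unfold ps; positivity

lemma ps_continuous : Continuous ps := by
  unfold ps
  exact continuous_const.div (by fun_prop) (fun x => by positivity)

lemma ps_abs (x : ℝ) : |ps x| ≤ 1 / (1 + x ^ 2) := by
  rw [abs_of_nonneg (ps_nonneg x)]; exact le_rfl

lemma peetre (u v : ℝ) : 1 / (1 + ((v - u) / (2 * π)) ^ 2) ≤ 8 * π ^ 2 * (1 + u ^ 2) * ps v := by
  unfold ps
  have hpi : (3:ℝ) < π := Real.pi_gt_three
  have hpi0 : 0 < π := Real.pi_pos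
  obtain ⟨d, hd⟩ : ∃ d, d = (v - u) / (2 * π) := ⟨_, rfl⟩
  rw [← hd]
  have hv : v = 2 * π * d + u := by rw [hd]; field_simp; ring
  rw [mul_one_div, div_le_div_iff₀ (by positivity) (by positivity), hv]
  have h1 : (2 * π * d + u) ^ 2 ≤ 8 * π ^ 2 * d ^ 2 + 2 * u ^ 2 := by
    nlinarith [sq_nonneg (2 * π * d - u)]
  have h2 : 0 ≤ π ^ 2 * (d ^ 2 * u ^ 2) := by positivity
  have h3 : 1 ≤ π ^ 2 := by nlinarith
  have h4 : u ^ 2 ≤ π ^ 2 * u ^ 2 := by nlinarith [sq_nonneg u]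
  nlinarith

/-- The sum of the cubes of the smoothed counts at the zeros of the window. -/
theorem sum_cubes (hRH : RiemannHypothesis) : ∃ C T0 : ℝ, 0 < C ∧ ∀ T : ℝ, T0 ≤ T →
    ∀ w W : ℝ, T ≤ w → T ^ ((1:ℝ) / 2) ≤ W → w + W ≤ 4 * T →
    ∑ n ∈ In w W, (∑ m ∈ In w W, 1 / (1 + (xs T n - xs T m) ^ 2)) ^ 3 ≤ C * W * Real.log T := by
  obtain ⟨C1, T1, hC1, hT1, hM⟩ := RG.CW.NC_moment_short hRH (b := 2) (by norm_num)
    ps_continuous ps_nonneg (K := 1) ps_abs
  refine ⟨32 * (8 * π ^ 2) ^ 3 * C1, T1, by positivity, fun T hT w W hw hW hwW => ?_⟩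
  have hTe : Real.exp 3 ≤ T := hT1.trans hT
  have he3 : (4:ℝ) ≤ Real.exp 3 := by
    have := Real.add_one_le_exp (3:ℝ); linarith
  have hT4 : 4 ≤ T := he3.trans hTe
  have hTp : 0 < T := by linarith
  have hL3 : 3 ≤ Real.log T := by rw [Real.le_log_iff_exp_le hTp]; exact hTe
  have hL1 : 1 ≤ Real.log T := by linarith
  have hL0 : 0 < Real.log T := by linarith
  have hW1 : 1 ≤ W := by
    refine le_trans ?_ hW
    exact Real.one_le_rpow (by linarith) (by norm_num)
  have hcont : Continuous (NC ps T) := NC_continuous ps_continuous ps_abs hL1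
  have hNCnn : ∀ t, 0 ≤ NC ps T t := fun t =>
    tsum_nonneg fun ρ => mul_nonneg (Nat.cast_nonneg _) (ps_nonneg _)
  have hint := hM T hT (w - 1) (W + 1) (by linarith) (by linarith) (by
    refine le_trans (le_of_eq ?_) (hW.trans (by linarith))
    norm_num)
  have hend : w - 1 + (W + 1) = w + W := by ring
  rw [hend] at hint
  obtain ⟨a, ha⟩ : ∃ a : ℕ → ℝ, a = fun n => ∑ m ∈ In w W, 1 / (1 + (xs T n - xs T m) ^ 2) :=
    ⟨_, rfl⟩
  have hann : ∀ n, 0 ≤ a n := fun n => by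
    rw [ha]; exact Finset.sum_nonneg fun m _ => by positivity
  have hsum : ∀ t : ℝ, ∑ n ∈ In w W, ps ((t - ordinate n) * Real.log T) ≤ NC ps T t := fun t =>
    sum_le_NC hL1 ps_nonneg ps_abs
  have hpt : ∀ t : ℝ, ∀ n, a n ≤ 8 * π ^ 2 * (1 + ((t - ordinate n) * Real.log T) ^ 2) *
      NC ps T t := by
    intro t n
    have h1 : a n ≤ ∑ m ∈ In w W, 8 * π ^ 2 * (1 + ((t - ordinate n) * Real.log T) ^ 2) *
        ps ((t - ordinate m) * Real.log T) := by
      rw [ha]
      refine Finset.sum_le_sum fun m _ => ?_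
      have h2 := peetre ((t - ordinate n) * Real.log T) ((t - ordinate m) * Real.log T)
      have h3 : xs T n - xs T m =
          ((t - ordinate m) * Real.log T - (t - ordinate n) * Real.log T) / (2 * π) := by
        unfold xs; ring
      rw [h3]
      exact h2
    refine h1.trans ?_
    rw [← Finset.mul_sum]
    exact mul_le_mul_of_nonneg_left (hsum t) (by positivity)
  have hcore : ∀ t : ℝ, ∑ n ∈ In w W, a n ^ 3 * ps ((t - ordinate n) * Real.log T) ^ 4 ≤
      (8 * π ^ 2) ^ 3 * NC ps T t ^ 4 := by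
    intro t
    have h1 : ∀ n ∈ In w W, a n ^ 3 * ps ((t - ordinate n) * Real.log T) ^ 4 ≤
        (8 * π ^ 2) ^ 3 * NC ps T t ^ 3 * ps ((t - ordinate n) * Real.log T) := by
      intro n _
      obtain ⟨u, hu⟩ : ∃ u, u = (t - ordinate n) * Real.log T := ⟨_, rfl⟩
      have h2 := hpt t n
      rw [← hu] at h2 ⊢
      have h3 : (1 + u ^ 2) * ps u = 1 := by
        unfold ps; field_simp
      have h4 : a n * ps u ≤ 8 * π ^ 2 * NC ps T t := by
        calc a n * ps u ≤ 8 * π ^ 2 * (1 + u ^ 2) * NC ps T t * ps u :=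
              mul_le_mul_of_nonneg_right h2 (ps_nonneg u)
          _ = 8 * π ^ 2 * NC ps T t * ((1 + u ^ 2) * ps u) := by ring
          _ = _ := by rw [h3, mul_one]
      have h5 := pow_le_pow_left₀ (mul_nonneg (hann n) (ps_nonneg u)) h4 3
      calc a n ^ 3 * ps u ^ 4 = (a n * ps u) ^ 3 * ps u := by ring
        _ ≤ (8 * π ^ 2 * NC ps T t) ^ 3 * ps u := mul_le_mul_of_nonneg_right h5 (ps_nonneg u)
        _ = _ := by ring
    refine (Finset.sum_le_sum h1).trans ?_
    rw [← Finset.mul_sum]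
    calc (8 * π ^ 2) ^ 3 * NC ps T t ^ 3 * ∑ n ∈ In w W, ps ((t - ordinate n) * Real.log T) ≤
        (8 * π ^ 2) ^ 3 * NC ps T t ^ 3 * NC ps T t :=
          mul_le_mul_of_nonneg_left (hsum t) (by have := hNCnn t; positivity)
      _ = _ := by ring
  have hps : ∀ n, Continuous fun t => ps ((t - ordinate n) * Real.log T) ^ 4 := fun n =>
    (ps_continuous.comp (by fun_prop)).pow 4
  have hIle : ∑ n ∈ In w W, a n ^ 3 * ∫ t in (w - 1)..(w + W),
      ps ((t - ordinate n) * Real.log T) ^ 4 ≤ (8 * π ^ 2) ^ 3 * (C1 * (W + 1)) := by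
    have h1 : ∑ n ∈ In w W, a n ^ 3 * ∫ t in (w - 1)..(w + W),
        ps ((t - ordinate n) * Real.log T) ^ 4 = ∫ t in (w - 1)..(w + W),
          ∑ n ∈ In w W, a n ^ 3 * ps ((t - ordinate n) * Real.log T) ^ 4 := by
      rw [intervalIntegral.integral_finsetSum]
      · exact Finset.sum_congr rfl fun n _ => (intervalIntegral.integral_const_mul _ _).symm
      · exact fun n _ => ((hps n).const_mul _).intervalIntegrable _ _
    rw [h1]
    calc ∫ t in (w - 1)..(w + W), ∑ n ∈ In w W, a n ^ 3 *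
          ps ((t - ordinate n) * Real.log T) ^ 4 ≤
          ∫ t in (w - 1)..(w + W), (8 * π ^ 2) ^ 3 * NC ps T t ^ 4 := by
            apply intervalIntegral.integral_mono_on (by linarith)
            · exact (continuous_finsetSum _ fun n _ => (hps n).const_mul _).intervalIntegrable _ _
            · exact ((hcont.pow 4).const_mul _).intervalIntegrable _ _
            · exact fun t _ => hcore t
      _ = (8 * π ^ 2) ^ 3 * ∫ t in (w - 1)..(w + W), NC ps T t ^ 4 :=
          intervalIntegral.integral_const_mul _ _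
      _ ≤ _ := mul_le_mul_of_nonneg_left hint (by positivity)
  have hlow : ∀ n ∈ In w W, 1 / (16 * Real.log T) ≤ ∫ t in (w - 1)..(w + W),
      ps ((t - ordinate n) * Real.log T) ^ 4 := by
    intro n hn
    unfold In at hn
    rw [Finset.mem_Ioc] at hn
    have hn1 : 1 ≤ n := by omega
    have hex := zeroCount_unbounded n
    have h1 : ordinate n ≤ w + W := (le_zeroCount_iff hex hn1).mp hn.2
    have h2 : w ≤ ordinate n := by
      by_contra hcon
      have := (le_zeroCount_iff hex hn1).mpr (not_le.mp hcon).le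
      omega
    have hinv : 1 / Real.log T ≤ 1 := by
      rw [div_le_one hL0]; exact hL1
    have hinv0 : 0 < 1 / Real.log T := by positivity
    have h3 : ∫ t in (ordinate n - 1 / Real.log T)..(ordinate n),
        ps ((t - ordinate n) * Real.log T) ^ 4 ≤ ∫ t in (w - 1)..(w + W),
        ps ((t - ordinate n) * Real.log T) ^ 4 := by
      apply intervalIntegral.integral_mono_interval (by linarith) (by linarith) h1
      · exact Filter.Eventually.of_forall fun t => pow_nonneg (ps_nonneg _) 4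
      · exact (hps n).intervalIntegrable _ _
    refine le_trans ?_ h3
    have h4 : ∫ _t in (ordinate n - 1 / Real.log T)..(ordinate n), (1:ℝ) / 16 =
        1 / (16 * Real.log T) := by
      rw [intervalIntegral.integral_const, smul_eq_mul]
      field_simp
      ring
    rw [← h4]
    apply intervalIntegral.integral_mono_on (by linarith)
    · exact continuous_const.intervalIntegrable _ _
    · exact (hps n).intervalIntegrable _ _
    · intro t ht
      have h5 : |(t - ordinate n) * Real.log T| ≤ 1 := by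
        rw [abs_mul, abs_of_pos hL0]
        have : |t - ordinate n| ≤ 1 / Real.log T := by
          rw [abs_le]; constructor <;> linarith [ht.1, ht.2]
        calc |t - ordinate n| * Real.log T ≤ 1 / Real.log T * Real.log T :=
              mul_le_mul_of_nonneg_right this hL0.le
          _ = 1 := by field_simp
      have h6 : 1 / 2 ≤ ps ((t - ordinate n) * Real.log T) := by
        unfold ps
        apply one_div_le_one_div_of_le (by positivity)
        have := (sq_le_one_iff_abs_le_one _).mpr h5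
        linarith
      calc (1:ℝ) / 16 = (1 / 2) ^ 4 := by norm_num
        _ ≤ _ := pow_le_pow_left₀ (by norm_num) h6 4
  have hfin : (∑ n ∈ In w W, a n ^ 3) * (1 / (16 * Real.log T)) ≤
      (8 * π ^ 2) ^ 3 * (C1 * (W + 1)) := by
    refine le_trans ?_ hIle
    rw [Finset.sum_mul]
    exact Finset.sum_le_sum fun n hn =>
      mul_le_mul_of_nonneg_left (hlow n hn) (pow_nonneg (hann n) 3)
  have hgoal : ∑ n ∈ In w W, a n ^ 3 ≤ (8 * π ^ 2) ^ 3 * (C1 * (W + 1)) * (16 * Real.log T) := by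
    rw [mul_one_div, div_le_iff₀ (by positivity)] at hfin
    exact hfin
  have hlast : (8 * π ^ 2) ^ 3 * (C1 * (W + 1)) * (16 * Real.log T) ≤
      32 * (8 * π ^ 2) ^ 3 * C1 * W * Real.log T := by
    have h1 : (8 * π ^ 2) ^ 3 * (C1 * (W + 1)) * (16 * Real.log T) ≤
        (8 * π ^ 2) ^ 3 * (C1 * (W + W)) * (16 * Real.log T) := by
      gcongr
    refine h1.trans (le_of_eq (by ring))
  rw [ha] at hgoal
  exact hgoal.trans hlast

lemma one_le_inner {w W T : ℝ} {n : ℕ} (hn : n ∈ In w W) :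
    1 ≤ ∑ m ∈ In w W, 1 / (1 + (xs T n - xs T m) ^ 2) := by
  have h1 := Finset.single_le_sum (f := fun m => 1 / (1 + (xs T n - xs T m) ^ 2))
    (fun m _ => by positivity) hn
  simpa using h1

theorem mom_two (hRH : RiemannHypothesis) : ∃ C T0 : ℝ, 0 < C ∧ ∀ T : ℝ, T0 ≤ T → ∀ w W : ℝ,
    T ≤ w → T ^ ((1:ℝ) / 2) ≤ W → w + W ≤ 4 * T →
    ∑ n ∈ In w W, ∑ m ∈ In w W, 1 / (1 + (xs T n - xs T m) ^ 2) ≤ C * W * Real.log T := by
  obtain ⟨C, T0, hC, h⟩ := sum_cubes hRH
  refine ⟨C, T0, hC, fun T hT w W hw hW hwW => le_trans ?_ (h T hT w W hw hW hwW)⟩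
  refine Finset.sum_le_sum fun n hn => ?_
  have h1 := one_le_inner (T := T) hn
  exact le_self_pow₀ h1 (by norm_num)

open Classical in
theorem mom_three (hRH : RiemannHypothesis) (R : ℝ) : ∃ C T0 : ℝ, 0 < C ∧ ∀ T : ℝ, T0 ≤ T →
    ∀ w W : ℝ, T ≤ w → T ^ ((1:ℝ) / 2) ≤ W → w + W ≤ 4 * T →
    ∑ n ∈ In w W, (((In w W).filter fun m => |xs T m - xs T n| ≤ R).card : ℝ) ^ 3 ≤
      C * W * Real.log T := by
  obtain ⟨C, T0, hC, h⟩ := sum_cubes hRH
  refine ⟨(1 + R ^ 2) ^ 3 * C, T0, by positivity, fun T hT w W hw hW hwW => ?_⟩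
  have h0 := h T hT w W hw hW hwW
  calc ∑ n ∈ In w W, (((In w W).filter fun m => |xs T m - xs T n| ≤ R).card : ℝ) ^ 3 ≤
      ∑ n ∈ In w W, (1 + R ^ 2) ^ 3 *
        (∑ m ∈ In w W, 1 / (1 + (xs T n - xs T m) ^ 2)) ^ 3 := by
        refine Finset.sum_le_sum fun n _ => ?_
        rw [← mul_pow]
        refine pow_le_pow_left₀ (Nat.cast_nonneg _) ?_ 3
        rw [Finset.card_filter, Nat.cast_sum, Finset.mul_sum]
        refine Finset.sum_le_sum fun m _ => ?_
        split_ifs with hm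
        · have h1 : (xs T n - xs T m) ^ 2 ≤ R ^ 2 := by
            rw [← sq_abs, abs_sub_comm]
            exact pow_le_pow_left₀ (abs_nonneg _) hm 2
          rw [Nat.cast_one, mul_one_div, le_div_iff₀ (by positivity)]
          linarith
        · rw [Nat.cast_zero]; positivity
    _ = (1 + R ^ 2) ^ 3 * ∑ n ∈ In w W,
        (∑ m ∈ In w W, 1 / (1 + (xs T n - xs T m) ^ 2)) ^ 3 := by rw [Finset.mul_sum]
    _ ≤ (1 + R ^ 2) ^ 3 * (C * W * Real.log T) :=
        mul_le_mul_of_nonneg_left h0 (by positivity)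
    _ = _ := by ring

end Pool.Agent.AHP
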