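import Pool.Agent.AHP.Block2
import Pool.Agent.AHP.Mom
import Pool.Agent.AHP.Comb

/-!
# The numbers of pairs of the scaled ordinates
-/

namespace Pool.Agent.AHP

open MeasureTheory Real Set Pool.Agent.ZGap.Gen Pool.Agent.ZetaGaps

open Classical in
/-- The number of points with a second one at distance about `k / 2`. -/
noncomputable def Ak (T H ε : ℝ) (k : ℕ) : ℝ :=
  (((Finset.Ioc (zeroCount T) (zeroCount (T + H))).filter fun n =>
    ∃ m ∈ Finset.Ioc (zeroCount T) (zeroCount (T + H)), n < m ∧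
      |xs T m - xs T n - k / 2| ≤ ε).card : ℝ)

open Classical in
/-- The number of gaps about `1 / 2`. -/
noncomputable def G1 (T H ε : ℝ) : ℝ :=
  (((Finset.Ioo (zeroCount T) (zeroCount (T + H))).filter fun n =>
    |xs T (n + 1) - xs T n - 1 / 2| ≤ ε).card : ℝ)

open Classical in
/-- The number of small gaps. -/
noncomputable def Sm (T H δ : ℝ) : ℝ :=
  (((Finset.Ioo (zeroCount T) (zeroCount (T + H))).filter fun n =>
    xs T (n + 1) - xs T n < 1 / 2 - δ).card : ℝ)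

open Classical in
/-- The number of gaps away from the lattice. -/
noncomputable def Aw (T H δ : ℝ) : ℝ :=
  (((Finset.Ioo (zeroCount T) (zeroCount (T + H))).filter fun n =>
    ∀ m : ℤ, δ < |xs T (n + 1) - xs T n - m / 2|).card : ℝ)

open Classical in
lemma Sm_mono (T H : ℝ) {δ δ' : ℝ} (h : δ' ≤ δ) : Sm T H δ ≤ Sm T H δ' := by
  unfold Sm
  have h1 : ((Finset.Ioo (zeroCount T) (zeroCount (T + H))).filter fun n =>
      xs T (n + 1) - xs T n < 1 / 2 - δ) ⊆
      ((Finset.Ioo (zeroCount T) (zeroCount (T + H))).filter fun n =>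
        xs T (n + 1) - xs T n < 1 / 2 - δ') := by
    intro n hn
    rw [Finset.mem_filter] at hn ⊢
    exact ⟨hn.1, by linarith [hn.2]⟩
  exact_mod_cast Finset.card_le_card h1

open Classical in
lemma Aw_mono (T H : ℝ) {δ δ' : ℝ} (h : δ' ≤ δ) : Aw T H δ ≤ Aw T H δ' := by
  unfold Aw
  have h1 : ((Finset.Ioo (zeroCount T) (zeroCount (T + H))).filter fun n =>
      ∀ m : ℤ, δ < |xs T (n + 1) - xs T n - m / 2|) ⊆
      ((Finset.Ioo (zeroCount T) (zeroCount (T + H))).filter fun n =>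
        ∀ m : ℤ, δ' < |xs T (n + 1) - xs T n - m / 2|) := by
    intro n hn
    rw [Finset.mem_filter] at hn ⊢
    exact ⟨hn.1, fun m => lt_of_le_of_lt h (hn.2 m)⟩
  exact_mod_cast Finset.card_le_card h1

lemma xs_mono {T : ℝ} (hT : 1 ≤ T) {m n : ℕ} (hm : 1 ≤ m) (h : m ≤ n) : xs T m ≤ xs T n := by
  unfold xs
  have hL : 0 ≤ Real.log T := Real.log_nonneg hT
  have hpi := Real.pi_pos
  apply div_le_div_of_nonneg_right _ (by positivity)
  exact mul_le_mul_of_nonneg_right (ordinate_mono (zeroCount_unbounded n) hm h) hL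

open Classical in
lemma Ak_le (T H ε : ℝ) (hH : 0 ≤ H) (k : ℕ) : Ak T H ε k ≤ NI T H := by
  unfold Ak NI
  have h1 := Finset.card_filter_le (Finset.Ioc (zeroCount T) (zeroCount (T + H)))
    (fun n => ∃ m ∈ Finset.Ioc (zeroCount T) (zeroCount (T + H)), n < m ∧
      |xs T m - xs T n - k / 2| ≤ ε)
  rw [Nat.card_Ioc] at h1
  have h2 : zeroCount T ≤ zeroCount (T + H) := zeroCount_mono (by linarith)
  rw [← Nat.cast_sub h2]
  exact_mod_cast h1

lemma pairs_asymp (hRH : RiemannHypothesis) {ε κ : ℝ} (hε : 0 < ε) (hε2 : ε ≤ 3 / 16)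
    (hκ : 0 < κ) {N : ℕ} (hN : 1 ≤ N) : ∃ δ : ℝ, 0 < δ ∧ ∃ T0 : ℝ, Real.exp 3 ≤ T0 ∧
    ∀ T : ℝ, T0 ≤ T → ∀ H : ℝ, T ≤ H → H ≤ 3 * T → ∀ δ' : ℝ, δ' ≤ δ →
      Sm T H δ' ≤ δ' * NI T H → Aw T H δ' ≤ δ' * NI T H →
      (∀ k, 1 ≤ k → k ≤ N → |Ak T H ε k - rr k * NI T H| ≤ κ * NI T H) ∧
        |G1 T H ε - rr 1 * NI T H| ≤ κ * NI T H := by
  classical
  have hpi := Real.pi_pos
  have hN4 : (1:ℝ) ≤ ((N:ℝ) + 1) ^ 4 := by
    have : (1:ℝ) ≤ (N:ℝ) + 1 := by
      have : (0:ℝ) ≤ N := Nat.cast_nonneg N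
      linarith
    exact one_le_pow₀ this
  obtain ⟨κ1, hκ1d⟩ : ∃ κ1 : ℝ, κ1 = min (1 / 10) (κ / (7 * ((N:ℝ) + 1) ^ 4)) := ⟨_, rfl⟩
  have hκ1 : 0 < κ1 := by
    rw [hκ1d]
    exact lt_min (by norm_num) (by positivity)
  have hκ1a : κ1 ≤ 1 / 10 := by rw [hκ1d]; exact min_le_left _ _
  have hκ1b : 7 * κ1 * ((N:ℝ) + 1) ^ 4 ≤ κ := by
    have : κ1 ≤ κ / (7 * ((N:ℝ) + 1) ^ 4) := by rw [hκ1d]; exact min_le_right _ _
    rw [le_div_iff₀ (by positivity)] at this
    linarith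
  choose Cs hCs hCs2 using fun i => GG_props i i
  choose Cc hCc hCc2 using fun i => GG_props i (i + 1)
  obtain ⟨Cg, hCgd⟩ : ∃ Cg : ℝ, Cg = ∑ i ∈ Finset.range (N + 1), (Cs i + Cc i) := ⟨_, rfl⟩
  have hCg1 : ∀ i, i ≤ N → Cs i + Cc i ≤ Cg := by
    intro i hi
    rw [hCgd]
    exact Finset.single_le_sum (f := fun i => Cs i + Cc i)
      (fun j _ => by have := hCs j; have := hCc j; positivity) (Finset.mem_range.2 (by omega))
  have hCg : 0 < Cg := by
    have := hCg1 0 (by omega)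
    have := hCs 0
    have := hCc 0
    linarith
  obtain ⟨C2, T2, hC2, hm2⟩ := mom_two hRH
  obtain ⟨K0, hK0⟩ := comb (Cg := Cg) (C2 := 13 * C2) (κ := κ1) hCg (by positivity) hκ1
  obtain ⟨K, hK⟩ : ∃ K : ℕ, K = max K0 N := ⟨_, rfl⟩
  have hKN : N ≤ K := by rw [hK]; exact le_max_right _ _
  obtain ⟨C3, T3, hC3, hm3⟩ := mom_three hRH ((K:ℝ) + 1)
  obtain ⟨δ, hδ, hcomb⟩ := hK0 K (by rw [hK]; exact le_max_left _ _) (13 * C3) ε (by positivity)
    hε hε2
  obtain ⟨b, hb⟩ : ∃ b : ℝ, b = 1 - κ1 / (50 * (K:ℝ) ^ 2 + 22) := ⟨_, rfl⟩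
  have hb1 : b < 1 := by
    rw [hb]
    have : 0 < κ1 / (50 * (K:ℝ) ^ 2 + 22) := by positivity
    linarith
  have hbK : (1 - b) * (50 * (K:ℝ) ^ 2 + 22) = κ1 := by
    rw [hb]
    field_simp
    ring
  have hb2 : 1 / 2 ≤ b := by
    have h1 : 0 ≤ (1 - b) * (50 * (K:ℝ) ^ 2) := by
      have : 0 ≤ 1 - b := by linarith
      positivity
    nlinarith
  choose Ts hTs hTs2 using fun i => sum_asymp hRH (PC i) (PC i) (b := b) (κ := κ1)
    (by linarith) hb1 hκ1
  choose Tc hTc hTc2 using fun i => sum_asymp hRH (PC i) (PC (i + 1)) (b := b) (κ := κ1)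
    (by linarith) hb1 hκ1
  obtain ⟨T4, hT4, hlow⟩ := count_low
  obtain ⟨Tp, hTpd⟩ : ∃ Tp : ℝ, Tp = ∑ i ∈ Finset.range (N + 1), (Ts i + Tc i) := ⟨_, rfl⟩
  have hTp1 : ∀ i, i ≤ N → Ts i ≤ Tp ∧ Tc i ≤ Tp := by
    intro i hi
    have he : (0:ℝ) < Real.exp 3 := Real.exp_pos 3
    have h1 : Ts i + Tc i ≤ Tp := by
      rw [hTpd]
      exact Finset.single_le_sum (f := fun i => Ts i + Tc i)
        (fun j _ => by have := hTs j; have := hTc j; linarith) (Finset.mem_range.2 (by omega))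
    have := hTs i
    have := hTc i
    constructor <;> linarith
  refine ⟨δ, hδ, max (max T4 Tp) (max T2 T3), hT4.trans ((le_max_left _ _).trans
    (le_max_left _ _)), fun T hT H hH hH3 δ' hδ' hsm haw => ?_⟩
  have g4 : T4 ≤ T := (le_max_left _ _).trans ((le_max_left _ _).trans hT)
  have gp : Tp ≤ T := (le_max_right _ _).trans ((le_max_left _ _).trans hT)
  have g2 : T2 ≤ T := (le_max_left _ _).trans ((le_max_right _ _).trans hT)
  have g3 : T3 ≤ T := (le_max_right _ _).trans ((le_max_right _ _).trans hT)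
  have hTe : Real.exp 3 ≤ T := hT4.trans g4
  have hT1 : 1 ≤ T := by
    have : (1:ℝ) ≤ Real.exp 3 := Real.one_le_exp (by norm_num)
    linarith
  have hHT : T ^ ((1:ℝ) / 2) ≤ H := by
    calc T ^ ((1:ℝ) / 2) ≤ T ^ (1:ℝ) := Real.rpow_le_rpow_of_exponent_le hT1 (by norm_num)
      _ = T := Real.rpow_one T
      _ ≤ H := hH
  have hlow' := hlow T g4 H hH hH3
  have hij : zeroCount T ≤ zeroCount (T + H) := zeroCount_mono (by linarith)
  have hJ : 0 ≤ NI T H := by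
    unfold NI
    have : (zeroCount T : ℝ) ≤ zeroCount (T + H) := by exact_mod_cast hij
    linarith
  have hJd : (zeroCount (T + H) : ℝ) - zeroCount T = NI T H := rfl
  have k2 : ∑ n ∈ Finset.Ioc (zeroCount T) (zeroCount (T + H)),
      ∑ m ∈ Finset.Ioc (zeroCount T) (zeroCount (T + H)), 1 / (1 + (xs T n - xs T m) ^ 2) ≤
      13 * C2 * ((zeroCount (T + H) : ℝ) - zeroCount T) := by
    have h1 := hm2 T g2 T H le_rfl hHT (by linarith)
    unfold In at h1
    refine h1.trans ?_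
    rw [hJd]
    calc C2 * H * Real.log T = C2 * (H * Real.log T) := by ring
      _ ≤ C2 * (13 * NI T H) := mul_le_mul_of_nonneg_left hlow' hC2.le
      _ = _ := by ring
  have k3 : ∑ n ∈ Finset.Ioc (zeroCount T) (zeroCount (T + H)),
      (((Finset.Ioc (zeroCount T) (zeroCount (T + H))).filter fun m =>
        |xs T m - xs T n| ≤ K + 1).card : ℝ) ^ 3 ≤
      13 * C3 * ((zeroCount (T + H) : ℝ) - zeroCount T) := by
    have h1 := hm3 T g3 T H le_rfl hHT (by linarith)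
    unfold In at h1
    refine h1.trans ?_
    rw [hJd]
    calc C3 * H * Real.log T = C3 * (H * Real.log T) := by ring
      _ ≤ C3 * (13 * NI T H) := mul_le_mul_of_nonneg_left hlow' hC3.le
      _ = _ := by ring
  have k5 : Sm T H δ ≤ δ * NI T H :=
    (Sm_mono T H hδ').trans (hsm.trans (mul_le_mul_of_nonneg_right hδ' hJ))
  have k6 : Aw T H δ ≤ δ * NI T H :=
    (Aw_mono T H hδ').trans (haw.trans (mul_le_mul_of_nonneg_right hδ' hJ))
  have hall : ∀ P P' : PhiData, (∀ x : ℝ, |GG P P' (2 * π * b * x)| ≤ Cg / (1 + |x| ^ 3)) →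
      (∀ x y : ℝ, |GG P P' (2 * π * b * x) - GG P P' (2 * π * b * y)| ≤ Cg * |x - y|) →
      (∀ x : ℝ, GG P P' (2 * π * b * -x) = GG P P' (2 * π * b * x)) →
      |PS P P' b T H - (GG P P' 0 * NI T H + 2 * ∑ k ∈ Finset.Icc 1 K,
        GG P P' (2 * π * b * (k / 2)) *
          (Rk (xs T) (zeroCount T) (zeroCount (T + H)) ε k : ℝ))| ≤ κ1 * NI T H ∧
      (∀ k ∈ Finset.Icc 1 K, |(Rk (xs T) (zeroCount T) (zeroCount (T + H)) ε k : ℝ) -
        Ak T H ε k| ≤ κ1 * NI T H) ∧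
      |(Rk (xs T) (zeroCount T) (zeroCount (T + H)) ε 1 : ℝ) - G1 T H ε| ≤ κ1 * NI T H := by
    intro P P' p1 p2 p3
    have h := hcomb (fun x => GG P P' (2 * π * b * x)) p1 p2 p3 (xs T) (zeroCount T)
      (zeroCount (T + H)) hij (fun m n h1 h2 _ => xs_mono hT1 (by omega) h2) k2 k3 k5 k6
    obtain ⟨h1, h2, h3⟩ := h
    refine ⟨?_, h2, h3⟩
    simp only [mul_zero] at h1
    exact h1
  have hps : ∀ i, i ≤ N → _ := fun i hi => hall (PC i) (PC i)
    (fun x => ((hCs2 i b hb2 hb1.le).1 x).trans (by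
      apply div_le_div_of_nonneg_right _ (by positivity)
      have := hCg1 i hi; have := hCc i; linarith))
    (fun x y => ((hCs2 i b hb2 hb1.le).2.1 x y).trans (by
      apply mul_le_mul_of_nonneg_right _ (abs_nonneg _)
      have := hCg1 i hi; have := hCc i; linarith))
    (hCs2 i b hb2 hb1.le).2.2
  have hpc : ∀ i, i ≤ N → _ := fun i hi => hall (PC i) (PC (i + 1))
    (fun x => ((hCc2 i b hb2 hb1.le).1 x).trans (by
      apply div_le_div_of_nonneg_right _ (by positivity)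
      have := hCg1 i hi; have := hCs i; linarith))
    (fun x y => ((hCc2 i b hb2 hb1.le).2.1 x y).trans (by
      apply mul_le_mul_of_nonneg_right _ (abs_nonneg _)
      have := hCg1 i hi; have := hCs i; linarith))
    (hCc2 i b hb2 hb1.le).2.2
  obtain ⟨-, q2, q3⟩ := hps 0 (by omega)
  have hκJ : κ1 * NI T H ≤ 1 / 10 * NI T H := mul_le_mul_of_nonneg_right hκ1a hJ
  have hR : ∀ k ∈ Finset.Icc 1 K,
      0 ≤ (Rk (xs T) (zeroCount T) (zeroCount (T + H)) ε k : ℝ) ∧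
      (Rk (xs T) (zeroCount T) (zeroCount (T + H)) ε k : ℝ) ≤ 2 * NI T H := by
    intro k hk
    refine ⟨Nat.cast_nonneg _, ?_⟩
    have h1 := (abs_le.mp (q2 k hk)).2
    have h2 := Ak_le T H ε (by linarith) k
    linarith
  have hrel := rel_all (N := N) (K := K) (κ := 3 * κ1) (J := NI T H)
    (R := fun k => (Rk (xs T) (zeroCount T) (zeroCount (T + H)) ε k : ℝ)) hKN (by positivity) hJ
    (fun i hi => by
      have h := rel_gen (i := i) (i' := i) (K := K) hb2 hb1.le hκ1a hJ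
        (hTs2 i T ((hTp1 i (by omega)).1.trans gp) H hH hH3) (hps i (by omega)).1 hR
      rw [hbK] at h
      refine h.trans (le_of_eq ?_)
      ring)
    (fun i hi => by
      have h := rel_gen (i := i) (i' := i + 1) (K := K) hb2 hb1.le hκ1a hJ
        (hTc2 i T ((hTp1 i (by omega)).2.trans gp) H hH hH3) (hpc i (by omega)).1 hR
      rw [hbK] at h
      refine h.trans (le_of_eq ?_)
      ring)
  have hfin : 3 * κ1 * (2 * ((N:ℝ) + 1) ^ 4) * NI T H + κ1 * NI T H ≤ κ * NI T H := by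
    have h1 : 3 * κ1 * (2 * ((N:ℝ) + 1) ^ 4) + κ1 ≤ κ := by nlinarith
    nlinarith
  constructor
  · intro k hk hkN
    have h1 := hrel k hk hkN
    have h2 := q2 k (Finset.mem_Icc.2 ⟨hk, hkN.trans hKN⟩)
    have h3 := abs_le.mp h1
    have h4 := abs_le.mp h2
    rw [abs_le]
    constructor <;> linarith [h3.1, h3.2, h4.1, h4.2]
  · have h1 := hrel 1 le_rfl hN
    have h3 := abs_le.mp h1
    have h4 := abs_le.mp q3
    rw [abs_le]
    constructor <;> linarith [h3.1, h3.2, h4.1, h4.2]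

end Pool.Agent.AHP
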