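import Pool.Agent.AHP.Long
import Pool.Agent.AHP.Block1

/-!
# The second case of the dichotomy for every exponent: definitions
-/

namespace Pool.Agent.AHP

open MeasureTheory Real Set Pool.Agent.ZetaGaps

/-- The Fourier coefficients of the known part of the form factor, exponent `a`. -/
noncomputable def ck (a : ℝ) (k : ℕ) : ℝ :=
  1 + 2 * ∫ u in (0:ℝ)..a, u * Real.cos (2 * π * k * u / (1 + a))

/-- The pair correlation clauses for one window. -/
def PCa (a ε κ T H : ℝ) : Prop :=
  (ck a 1 - a * (1 - a) - κ) * Zc T H ≤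
    (1 + a) * Cn (fun n => |gap n - 1 / (1 + a)| ≤ ε) T H ∧
  (1 + a) * Cn (fun n => |gap n - 1 / (1 + a)| ≤ ε) T H ≤
    (ck a 1 + a * (1 - a) * Real.cos (2 * π * a / (1 + a)) + κ) * Zc T H ∧
  ∀ k : ℕ, 1 ≤ k → k * ε ≤ 1 →
    |(1 + a) * Cn (fun n => ∃ m, n < m ∧
        |normOrdinate m - normOrdinate n - k / (1 + a)| ≤ ε) T H - ck a k * Zc T H| ≤
      (a * (1 - a) + κ) * Zc T H

/-- The ordinate in the scale where the lattice is `ℤ / 2`. -/
noncomputable def ys (a T : ℝ) (n : ℕ) : ℝ := xs T n * ((1 + a) / 2)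

open Classical in
/-- The number of points with a second one at distance about `k / 2`. -/
noncomputable def AkA (a T H ε : ℝ) (k : ℕ) : ℝ :=
  (((Finset.Ioc (zeroCount T) (zeroCount (T + H))).filter fun n =>
    ∃ m ∈ Finset.Ioc (zeroCount T) (zeroCount (T + H)), n < m ∧
      |ys a T m - ys a T n - k / 2| ≤ ε).card : ℝ)

open Classical in
/-- The number of gaps about `1 / 2`. -/
noncomputable def G1A (a T H ε : ℝ) : ℝ :=
  (((Finset.Ioo (zeroCount T) (zeroCount (T + H))).filter fun n =>
    |ys a T (n + 1) - ys a T n - 1 / 2| ≤ ε).card : ℝ)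

open Classical in
/-- The number of small gaps. -/
noncomputable def SmA (a T H δ : ℝ) : ℝ :=
  (((Finset.Ioo (zeroCount T) (zeroCount (T + H))).filter fun n =>
    ys a T (n + 1) - ys a T n < 1 / 2 - δ).card : ℝ)

open Classical in
/-- The number of gaps away from the lattice. -/
noncomputable def AwA (a T H δ : ℝ) : ℝ :=
  (((Finset.Ioo (zeroCount T) (zeroCount (T + H))).filter fun n =>
    ∀ m : ℤ, δ < |ys a T (n + 1) - ys a T n - m / 2|).card : ℝ)

end Pool.Agent.AHP
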