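import Pool.Agent.AHP.CkDefs

/-!
# Existence of the kernels
-/

namespace Pool.Agent.AHP

open MeasureTheory Real Set Pool.Agent.ZGap.Gen

/-- A smooth function which vanishes at `1` is a kernel up to a factor. -/
lemma mk_phi {h : ℝ → ℝ} (hh : ContDiff ℝ 3 h) (h1 : h 1 = 0) :
    ∃ M : ℝ, 0 < M ∧ ∃ P : PhiData, ∀ v, P.f0 v = h v / M := by
  have c0 : Continuous h := hh.continuous
  have d1 : ContDiff ℝ 2 (deriv h) := by
    have := (contDiff_succ_iff_deriv (n := 2) (f := h)).1 (by
      have e : (2:WithTop ℕ∞) + 1 = 3 := by norm_num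
      rwa [e])
    exact this.2.2
  have c1 : Continuous (deriv h) := d1.continuous
  have d2 : ContDiff ℝ 1 (deriv (deriv h)) := by
    have := (contDiff_succ_iff_deriv (n := 1) (f := deriv h)).1 (by
      have e : (1:WithTop ℕ∞) + 1 = 2 := by norm_num
      rwa [e])
    exact this.2.2
  have c2 : Continuous (deriv (deriv h)) := d2.continuous
  obtain ⟨M0, hM0⟩ := isCompact_Icc.exists_bound_of_continuousOn
    (s := Icc (0:ℝ) 1) c0.continuousOn
  obtain ⟨M1, hM1⟩ := isCompact_Icc.exists_bound_of_continuousOn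
    (s := Icc (0:ℝ) 1) c1.continuousOn
  obtain ⟨M2, hM2⟩ := isCompact_Icc.exists_bound_of_continuousOn
    (s := Icc (0:ℝ) 1) c2.continuousOn
  obtain ⟨M, hM⟩ : ∃ M : ℝ, M = |M0| + |M1| + |M2| + 1 := ⟨_, rfl⟩
  have hM1' : 0 < M := by rw [hM]; positivity
  have e0 := le_abs_self M0
  have e1 := le_abs_self M1
  have e2 := le_abs_self M2
  have a0 := abs_nonneg M0
  have a1 := abs_nonneg M1
  have a2 := abs_nonneg M2
  refine ⟨M, hM1', ⟨fun v => h v / M, fun v => deriv h v / M, fun v => deriv (deriv h) v / M,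
    c0.div_const M, c1.div_const M, c2.div_const M, fun v => ?_, fun v => ?_, ?_, ?_, ?_, ?_⟩,
    fun _ => rfl⟩
  · exact ((hh.differentiable (by norm_num)) v).hasDerivAt.div_const M
  · exact ((d1.differentiable (by norm_num)) v).hasDerivAt.div_const M
  · simp only [h1, zero_div]
  · intro v hv0 hv1
    have := hM0 v ⟨hv0, hv1⟩
    rw [Real.norm_eq_abs] at this
    rw [abs_div, abs_of_pos hM1', div_le_iff₀ hM1']
    linarith
  · intro v hv0 hv1
    have := hM1 v ⟨hv0, hv1⟩
    rw [Real.norm_eq_abs] at this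
    rw [abs_div, abs_of_pos hM1', div_le_iff₀ hM1']
    linarith
  · intro v hv0 hv1
    have := hM2 v ⟨hv0, hv1⟩
    rw [Real.norm_eq_abs] at this
    rw [abs_div, abs_of_pos hM1', div_le_iff₀ hM1']
    linarith

lemma AB_lip (A B : ℝ) (k : ℕ) (v w : ℝ) :
    A + B * Real.cos (π * k * w) - |B| * (π * k) * |v - w| ≤ A + B * Real.cos (π * k * v) := by
  have hpi := Real.pi_pos
  have h1 := Real.abs_cos_sub_cos_le (π * k * v) (π * k * w)
  have h2 : |π * k * v - π * k * w| = π * k * |v - w| := by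
    rw [← mul_sub, abs_mul, abs_of_nonneg (by positivity)]
  rw [h2] at h1
  have h3 : |B * (Real.cos (π * k * v) - Real.cos (π * k * w))| ≤ |B| * (π * k * |v - w|) := by
    rw [abs_mul]
    exact mul_le_mul_of_nonneg_left h1 (abs_nonneg B)
  have h4 := (abs_le.mp h3).1
  linarith

/-- Near the known arc the trigonometric factor is almost nonnegative. -/
lemma AB_near {a A B : ℝ} {k : ℕ}
    (hAB : ∀ v : ℝ, 2 * a / (1 + a) ≤ v → v ≤ 1 → 0 ≤ A + B * Real.cos (π * k * v))
    (hα : 2 * a / (1 + a) ≤ 1) {w : ℝ} (hw1 : w ≤ 1) {s : ℝ} (hs : 0 ≤ s)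
    (hw : 2 * a / (1 + a) - s ≤ w) : -(|B| * (π * k) * s) ≤ A + B * Real.cos (π * k * w) := by
  have hpi := Real.pi_pos
  have hB := abs_nonneg B
  rcases le_total (2 * a / (1 + a)) w with h | h
  · have h1 := hAB w h hw1
    have : 0 ≤ |B| * (π * k) * s := by positivity
    linarith
  · have h1 := hAB (2 * a / (1 + a)) le_rfl hα
    have h2 := AB_lip A B k w (2 * a / (1 + a))
    have h3 : |w - 2 * a / (1 + a)| ≤ s := by
      rw [abs_of_nonpos (by linarith)]
      linarith
    have h4 : |B| * (π * k) * |w - 2 * a / (1 + a)| ≤ |B| * (π * k) * s :=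
      mul_le_mul_of_nonneg_left h3 (by positivity)
    linarith

theorem ker_exists {a A B η : ℝ} {k : ℕ} (ha : 0 < a) (ha1 : a < 1) (hη : 0 < η)
    (hAB : ∀ v : ℝ, 2 * a / (1 + a) ≤ v → v ≤ 1 → 0 ≤ A + B * Real.cos (π * k * v)) :
    ∃ (b c M : ℝ) (Φ : ℝ → ℝ) (P P' : PhiData), 0 < b ∧ b < a ∧ c = 2 * b / (1 + a) ∧
      0 < c ∧ c < 1 ∧ 0 < M ∧ Continuous Φ ∧
      (∀ v : ℝ, M * (P.f0 v * P'.f0 v) = Φ v * (A + B * Real.cos (π * k * (c * v)))) ∧
      (∀ v : ℝ, 0 ≤ v → v ≤ 1 →
        0 ≤ (1 - Φ v) * (A + B * Real.cos (π * k * (c * v))) + η) ∧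
      (∀ v : ℝ, c ≤ v → v ≤ 2 - c → 0 ≤ A + B * Real.cos (π * k * v) + η) ∧
      |4 * M * cb P P' b - (A * (1 + a ^ 2) + B * ck a k)| ≤ η := by
  have hpi := Real.pi_pos
  have h1a : 0 < 1 + a := by linarith
  obtain ⟨α, hα⟩ : ∃ α : ℝ, α = 2 * a / (1 + a) := ⟨_, rfl⟩
  have hα0 : 0 < α := by rw [hα]; positivity
  have hα1 : α < 1 := by
    rw [hα, div_lt_one h1a]
    linarith
  obtain ⟨G, hG⟩ : ∃ G : ℝ, G = |A| + |B| := ⟨_, rfl⟩
  have hG0 : 0 ≤ G := by rw [hG]; positivity
  have hGb : ∀ x : ℝ, |A + B * Real.cos x| ≤ G := by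
    intro x
    rw [hG]
    refine (abs_add_le _ _).trans ?_
    rw [abs_mul]
    have := mul_le_mul_of_nonneg_left (Real.abs_cos_le_one x) (abs_nonneg B)
    linarith
  obtain ⟨D, hD⟩ : ∃ D : ℝ, D = |B| * (π * k) + G + 1 := ⟨_, rfl⟩
  have hB0 := abs_nonneg B
  have hDk : 0 ≤ |B| * (π * k) := by positivity
  have hD1 : 1 ≤ D := by rw [hD]; linarith
  obtain ⟨s, hs⟩ : ∃ s : ℝ, s = min (1 / 2) (η / (4 * D)) := ⟨_, rfl⟩
  have hs0 : 0 < s := by rw [hs]; positivity
  have hs2 : s ≤ 1 / 2 := by rw [hs]; exact min_le_left _ _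
  have hsD : 4 * D * s ≤ η := by
    have : s ≤ η / (4 * D) := by rw [hs]; exact min_le_right _ _
    rw [le_div_iff₀ (by positivity)] at this
    linarith
  obtain ⟨t, ht⟩ : ∃ t : ℝ, t = 1 - s := ⟨_, rfl⟩
  have ht0 : 0 < t := by linarith
  have ht1 : t < 1 := by linarith
  -- the power
  have hq : ∃ q : ℕ, 1 ≤ q ∧ 2 * t ^ (2 * q) * G ≤ η ∧ 4 * G ≤ η * (q + 1) := by
    have l1 : Filter.Tendsto (fun q : ℕ => 2 * t ^ (2 * q) * G) Filter.atTop (nhds 0) := by
      have l0 : Filter.Tendsto (fun q : ℕ => (t ^ 2) ^ q) Filter.atTop (nhds 0) :=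
        tendsto_pow_atTop_nhds_zero_of_lt_one (by positivity) (by nlinarith)
      have := (l0.const_mul 2).mul_const G
      simp only [mul_zero, zero_mul] at this
      refine this.congr fun q => ?_
      rw [← pow_mul]
    have e1 := l1.eventually_le_const (u := η) hη
    have e2 : ∀ᶠ q : ℕ in Filter.atTop, 4 * G / η ≤ (q:ℝ) :=
      tendsto_natCast_atTop_atTop.eventually_ge_atTop _
    have e3 : ∀ᶠ q : ℕ in Filter.atTop, 1 ≤ q := Filter.eventually_ge_atTop 1
    obtain ⟨q, h1, h2, h3⟩ := (e1.and (e2.and e3)).exists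
    refine ⟨q, h3, h1, ?_⟩
    rw [div_le_iff₀ hη] at h2
    linarith
  obtain ⟨q, hq1, hq2, hq3⟩ := hq
  obtain ⟨b, hb⟩ : ∃ b : ℝ, b = a * t := ⟨_, rfl⟩
  obtain ⟨c, hc⟩ : ∃ c : ℝ, c = 2 * b / (1 + a) := ⟨_, rfl⟩
  have hcα : c = α * t := by rw [hc, hb, hα]; ring
  have hb0 : 0 < b := by rw [hb]; positivity
  have hba : b < a := by rw [hb]; nlinarith
  have hc0 : 0 < c := by rw [hcα]; positivity
  have hc1 : c < 1 := by rw [hcα]; nlinarith
  obtain ⟨M1, hM1, P, hP⟩ := mk_phi (h := fun v => (1 - v ^ (2 * q)) *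
    (A + B * Real.cos (π * k * (c * v)))) (by fun_prop) (by simp)
  obtain ⟨M2, hM2, P', hP'⟩ := mk_phi (h := fun v : ℝ => 1 - v ^ (2 * q)) (by fun_prop) (by simp)
  obtain ⟨Φ, hΦ⟩ : ∃ Φ : ℝ → ℝ, Φ = fun v => (1 - v ^ (2 * q)) ^ 2 := ⟨_, rfl⟩
  have hΦc : Continuous Φ := by rw [hΦ]; fun_prop
  have hprod : ∀ v : ℝ, M1 * M2 * (P.f0 v * P'.f0 v) =
      Φ v * (A + B * Real.cos (π * k * (c * v))) := by
    intro v
    rw [hP, hP', hΦ]
    field_simp
  have hv2q : ∀ v : ℝ, 0 ≤ v → v ≤ 1 → 0 ≤ v ^ (2 * q) ∧ v ^ (2 * q) ≤ 1 := fun v h0 h1 =>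
    ⟨by positivity, pow_le_one₀ h0 h1⟩
  have hΦ01 : ∀ v : ℝ, 0 ≤ v → v ≤ 1 → 0 ≤ 1 - Φ v ∧ 1 - Φ v ≤ 1 ∧
      1 - Φ v ≤ 2 * v ^ (2 * q) := by
    intro v h0 h1
    obtain ⟨p0, p1⟩ := hv2q v h0 h1
    rw [hΦ]
    simp only
    refine ⟨by nlinarith, by nlinarith [sq_nonneg (1 - v ^ (2 * q))], by nlinarith⟩
  have hkey : |B| * (π * k) * (2 * s) ≤ η := by
    have : |B| * (π * k) * (2 * s) ≤ 4 * D * s := by
      rw [hD]
      nlinarith
    linarith
  refine ⟨b, c, M1 * M2, Φ, P, P', hb0, hba, hc, hc0, hc1, by positivity, hΦc, hprod, ?_, ?_, ?_⟩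
  · -- first positivity
    intro v h0 h1
    obtain ⟨p0, p1, p2⟩ := hΦ01 v h0 h1
    rcases le_total t v with h | h
    · have hw : 2 * a / (1 + a) - 2 * s ≤ c * v := by
        rw [← hα, hcα]
        have : α * t * t ≤ α * t * v := mul_le_mul_of_nonneg_left h (by positivity)
        have : α * (1 - t * t) ≤ 1 * (2 * s) := by
          apply mul_le_mul hα1.le _ (by nlinarith) (by norm_num)
          rw [ht]; nlinarith
        linarith
      have hw1 : c * v ≤ 1 := by nlinarith
      have h2 := AB_near hAB (by rw [← hα]; exact hα1.le) hw1 (s := 2 * s) (by positivity) hw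
      have h3 : -η ≤ A + B * Real.cos (π * k * (c * v)) := by linarith
      have h4 : (1 - Φ v) * -η ≤ (1 - Φ v) * (A + B * Real.cos (π * k * (c * v))) :=
        mul_le_mul_of_nonneg_left h3 p0
      nlinarith
    · have h2 : v ^ (2 * q) ≤ t ^ (2 * q) := pow_le_pow_left₀ h0 h _
      have h3 := (abs_le.mp (hGb (π * k * (c * v)))).1
      have h4 : (1 - Φ v) * -G ≤ (1 - Φ v) * (A + B * Real.cos (π * k * (c * v))) :=
        mul_le_mul_of_nonneg_left h3 p0
      have h5 : (1 - Φ v) * G ≤ 2 * t ^ (2 * q) * G :=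
        mul_le_mul_of_nonneg_right (by linarith) hG0
      linarith
  · -- second positivity
    intro v h0 h1
    have hmain : ∀ w : ℝ, c ≤ w → w ≤ 1 → 0 ≤ A + B * Real.cos (π * k * w) + η := by
      intro w hw0 hw1
      have hw : 2 * a / (1 + a) - 2 * s ≤ w := by
        rw [← hα]
        have : α * (1 - t) ≤ 1 * s := by
          apply mul_le_mul hα1.le (by linarith) (by linarith) (by norm_num)
        rw [hcα] at hw0
        linarith
      have h2 := AB_near hAB (by rw [← hα]; exact hα1.le) hw1 (s := 2 * s) (by positivity) hw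
      linarith
    rcases le_total v 1 with h | h
    · exact hmain v h0 h
    · have h2 := hmain (2 - v) (by linarith) (by linarith)
      have e : Real.cos (π * k * (2 - v)) = Real.cos (π * k * v) := by
        have : π * k * (2 - v) = (k:ℝ) * (2 * π) - π * k * v := by ring
        rw [this, Real.cos_nat_mul_two_pi_sub]
      rwa [e] at h2
  · -- the constant
    have hGc : Continuous fun u : ℝ => A + B * Real.cos (2 * π * k * u / (1 + a)) := by fun_prop
    have e1 : 4 * (M1 * M2) * cb P P' b = (A + B) +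
        2 * b ^ 2 * ∫ v in (0:ℝ)..1, v * (Φ v * (A + B * Real.cos (π * k * (c * v)))) := by
      have i1 : (∫ v in (0:ℝ)..1, v * (Φ v * (A + B * Real.cos (π * k * (c * v))))) =
          M1 * M2 * ∫ v in (0:ℝ)..1, v * P.f0 v * P'.f0 v := by
        rw [← intervalIntegral.integral_const_mul]
        refine intervalIntegral.integral_congr fun v _ => ?_
        rw [← hprod]
        ring
      have i2 : M1 * M2 * (P.f0 0 * P'.f0 0) = A + B := by
        rw [hprod, hΦ]
        have : (0:ℝ) ^ (2 * q) = 0 := zero_pow (by omega)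
        simp [this]
      rw [i1]
      unfold cb
      linear_combination i2
    have e2 : A * (1 + a ^ 2) + B * ck a k = (A + B) +
        2 * ∫ u in (0:ℝ)..a, u * (A + B * Real.cos (2 * π * k * u / (1 + a))) := by
      have i1 : (∫ u in (0:ℝ)..a, u * (A + B * Real.cos (2 * π * k * u / (1 + a)))) =
          A * (a ^ 2 / 2) + B * ∫ u in (0:ℝ)..a, u * Real.cos (2 * π * k * u / (1 + a)) := by
        have j1 : ∀ u : ℝ, u * (A + B * Real.cos (2 * π * k * u / (1 + a))) =
            A * u + B * (u * Real.cos (2 * π * k * u / (1 + a))) := fun u => by ring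
        simp only [j1]
        rw [intervalIntegral.integral_add (Continuous.intervalIntegrable (by fun_prop) _ _)
          (Continuous.intervalIntegrable (by fun_prop) _ _),
          intervalIntegral.integral_const_mul, intervalIntegral.integral_const_mul, integral_id]
        ring
      rw [i1]
      unfold ck
      ring
    have e3 : (∫ u in (0:ℝ)..a, u * (A + B * Real.cos (2 * π * k * u / (1 + a)))) =
        b ^ 2 * (∫ v in (0:ℝ)..1, v * (A + B * Real.cos (π * k * (c * v)))) +
        ∫ u in b..a, u * (A + B * Real.cos (2 * π * k * u / (1 + a))) := by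
      rw [← intervalIntegral.integral_add_adjacent_intervals (b := b)
        (Continuous.intervalIntegrable (by fun_prop) _ _)
        (Continuous.intervalIntegrable (by fun_prop) _ _)]
      congr 1
      have e := intervalIntegral.mul_integral_comp_mul_left (a := 0) (b := 1)
        (f := fun u => u * (A + B * Real.cos (2 * π * k * u / (1 + a)))) b
      rw [mul_zero, mul_one] at e
      have e' : ∀ X : ℝ, b ^ 2 * X = b * (b * X) := fun X => by ring
      rw [← e, e', ← intervalIntegral.integral_const_mul (r := b)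
        (f := fun v => v * (A + B * Real.cos (π * k * (c * v))))]
      congr 1
      refine intervalIntegral.integral_congr fun v _ => ?_
      have : 2 * π * k * (b * v) / (1 + a) = π * k * (c * v) := by
        rw [hc]
        field_simp
      simp only [this]
      ring
    have e4 : (∫ v in (0:ℝ)..1, v * (A + B * Real.cos (π * k * (c * v)))) -
        (∫ v in (0:ℝ)..1, v * (Φ v * (A + B * Real.cos (π * k * (c * v))))) =
        ∫ v in (0:ℝ)..1, v * ((1 - Φ v) * (A + B * Real.cos (π * k * (c * v)))) := by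
      rw [← intervalIntegral.integral_sub (Continuous.intervalIntegrable (by fun_prop) _ _)
        (Continuous.intervalIntegrable (by fun_prop) _ _)]
      refine intervalIntegral.integral_congr fun v _ => ?_
      ring
    have e5 : |∫ v in (0:ℝ)..1, v * ((1 - Φ v) * (A + B * Real.cos (π * k * (c * v))))| ≤
        G / (q + 1) := by
      have j1 : ‖∫ v in (0:ℝ)..1, v * ((1 - Φ v) * (A + B * Real.cos (π * k * (c * v))))‖ ≤
          ∫ v in (0:ℝ)..1, 2 * G * v ^ (2 * q + 1) := by
        apply intervalIntegral.norm_integral_le_of_norm_le zero_le_one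
        · refine Filter.Eventually.of_forall fun v hv => ?_
          obtain ⟨p0, p1, p2⟩ := hΦ01 v hv.1.le hv.2
          rw [Real.norm_eq_abs, abs_mul, abs_mul, abs_of_pos hv.1, abs_of_nonneg p0]
          have h1 := hGb (π * k * (c * v))
          have h2 : (1 - Φ v) * |A + B * Real.cos (π * k * (c * v))| ≤ 2 * v ^ (2 * q) * G :=
            mul_le_mul p2 h1 (abs_nonneg _) (by have := hv.1; positivity)
          have h3 := mul_le_mul_of_nonneg_left h2 hv.1.le
          rw [pow_succ]
          linarith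
        · exact Continuous.intervalIntegrable (by fun_prop) _ _
      rw [Real.norm_eq_abs] at j1
      refine j1.trans (le_of_eq ?_)
      rw [intervalIntegral.integral_const_mul, integral_pow]
      push_cast
      rw [one_pow, zero_pow (by omega)]
      have : (2 * (q:ℝ) + 1 + 1) = 2 * (q + 1) := by ring
      rw [this]
      field_simp
      ring
    have e6 : |∫ u in b..a, u * (A + B * Real.cos (2 * π * k * u / (1 + a)))| ≤ G * s := by
      have j1 : ‖∫ u in b..a, u * (A + B * Real.cos (2 * π * k * u / (1 + a)))‖ ≤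
          G * |a - b| := by
        apply intervalIntegral.norm_integral_le_of_norm_le_const
        intro u hu
        rw [uIoc_of_le hba.le] at hu
        have hu0 : 0 < u := hb0.trans hu.1
        rw [Real.norm_eq_abs, abs_mul, abs_of_pos hu0]
        calc u * |A + B * Real.cos (2 * π * k * u / (1 + a))| ≤ 1 * G :=
              mul_le_mul (by linarith [hu.2]) (hGb _) (abs_nonneg _) (by norm_num)
          _ = G := one_mul G
      rw [Real.norm_eq_abs, abs_of_pos (by linarith : 0 < a - b)] at j1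
      refine j1.trans (mul_le_mul_of_nonneg_left ?_ hG0)
      rw [hb, ht]
      nlinarith
    have e7 : G / (q + 1) ≤ η / 4 := by
      rw [div_le_iff₀ (by positivity)]
      linarith
    have e8 : G * s ≤ η / 4 := by
      have : 4 * (G * s) ≤ 4 * D * s := by
        rw [hD]
        nlinarith
      linarith
    rw [e1, e2, e3]
    generalize (∫ v in (0:ℝ)..1, v * (A + B * Real.cos (π * k * (c * v)))) = X at *
    generalize (∫ v in (0:ℝ)..1, v * (Φ v * (A + B * Real.cos (π * k * (c * v))))) = Y at *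
    generalize (∫ v in (0:ℝ)..1, v * ((1 - Φ v) * (A + B * Real.cos (π * k * (c * v))))) = Z at *
    generalize (∫ u in b..a, u * (A + B * Real.cos (2 * π * k * u / (1 + a)))) = W at *
    have hb2 : b ^ 2 ≤ 1 := by nlinarith
    have e9 : A + B + 2 * b ^ 2 * Y - (A + B + 2 * (b ^ 2 * X + W)) =
        -(2 * b ^ 2 * Z) - 2 * W := by
      rw [← e4]
      ring
    rw [e9]
    refine (abs_sub _ _).trans ?_
    rw [abs_neg, abs_mul (2 * b ^ 2), abs_mul 2 W,
      abs_of_nonneg (by positivity : (0:ℝ) ≤ 2 * b ^ 2), abs_of_pos (by norm_num : (0:ℝ) < 2)]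
    have f1 : 2 * b ^ 2 * |Z| ≤ 2 * 1 * (η / 4) := by
      apply mul_le_mul (by linarith) (e5.trans e7) (abs_nonneg _) (by norm_num)
    linarith

end Pool.Agent.AHP
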