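import Pool.Agent.AHP.Mom

/-!
# Moments of the number of zeros near a zero, in windows of length `T ^ a`
-/

namespace Pool.Agent.AHP

open MeasureTheory Real Set Pool.Agent.Hadamard Pool.Agent.ZetaGaps
open Pool.Agent.ZGap.Res (NC NC_summable NC_continuous)

/-- The sum of the cubes of the smoothed counts at the zeros of the window. -/
theorem sum_cubes_a (hRH : RiemannHypothesis) {a : ℝ} (ha0 : 0 < a) :
    ∃ C T0 : ℝ, 0 < C ∧ ∀ T : ℝ, T0 ≤ T →
    ∀ w W : ℝ, T ≤ w → T ^ a ≤ W → w + W ≤ 4 * T →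
    ∑ n ∈ In w W, (∑ m ∈ In w W, 1 / (1 + (xs T n - xs T m) ^ 2)) ^ 3 ≤ C * W * Real.log T := by
  obtain ⟨b, hb1, hba⟩ : ∃ b : ℕ, 1 ≤ b ∧ 1 / (b : ℝ) ≤ a := by
    refine ⟨⌈1 / a⌉₊, Nat.one_le_ceil_iff.mpr (by positivity), ?_⟩
    have h1 : 1 / a ≤ (⌈1 / a⌉₊ : ℝ) := Nat.le_ceil _
    have h2 : (0:ℝ) < (⌈1 / a⌉₊ : ℝ) := lt_of_lt_of_le (by positivity) h1
    rw [div_le_iff₀ h2]
    rw [div_le_iff₀ ha0] at h1
    linarith
  obtain ⟨C1, T1, hC1, hT1, hM⟩ := RG.CW.NC_moment_short hRH (b := b) hb1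
    ps_continuous ps_nonneg (K := 1) ps_abs
  refine ⟨32 * (8 * π ^ 2) ^ 3 * C1, T1, by positivity, fun T hT w W hw hW hwW => ?_⟩
  have hTe : Real.exp 3 ≤ T := hT1.trans hT
  have he3 : (4:ℝ) ≤ Real.exp 3 := by
    have := Real.add_one_le_exp (3:ℝ); linarith
  have hT4 : 4 ≤ T := he3.trans hTe
  have hTp : 0 < T := by linarith
  have hL3 : 3 ≤ Real.log T := by rw [Real.le_log_iff_exp_le hTp]; exact hTe
  have hL1 : 1 ≤ Real.log T := by linarith
  have hL0 : 0 < Real.log T := by linarith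
  have hW1 : 1 ≤ W := by
    refine le_trans ?_ hW
    exact Real.one_le_rpow (by linarith) ha0.le
  have hcont : Continuous (NC ps T) := NC_continuous ps_continuous ps_abs hL1
  have hNCnn : ∀ t, 0 ≤ NC ps T t := fun t =>
    tsum_nonneg fun ρ => mul_nonneg (Nat.cast_nonneg _) (ps_nonneg _)
  have hint := hM T hT (w - 1) (W + 1) (by linarith) (by linarith)
    ((Real.rpow_le_rpow_of_exponent_le (by linarith) hba).trans (hW.trans (by linarith)))
  have hend : w - 1 + (W + 1) = w + W := by ring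
  rw [hend] at hint
  obtain ⟨s, hs⟩ : ∃ s : ℕ → ℝ, s = fun n => ∑ m ∈ In w W, 1 / (1 + (xs T n - xs T m) ^ 2) :=
    ⟨_, rfl⟩
  have hann : ∀ n, 0 ≤ s n := fun n => by
    rw [hs]; exact Finset.sum_nonneg fun m _ => by positivity
  have hsum : ∀ t : ℝ, ∑ n ∈ In w W, ps ((t - ordinate n) * Real.log T) ≤ NC ps T t := fun t =>
    sum_le_NC hL1 ps_nonneg ps_abs
  have hpt : ∀ t : ℝ, ∀ n, s n ≤ 8 * π ^ 2 * (1 + ((t - ordinate n) * Real.log T) ^ 2) *
      NC ps T t := by
    intro t n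
    have h1 : s n ≤ ∑ m ∈ In w W, 8 * π ^ 2 * (1 + ((t - ordinate n) * Real.log T) ^ 2) *
        ps ((t - ordinate m) * Real.log T) := by
      rw [hs]
      refine Finset.sum_le_sum fun m _ => ?_
      have h2 := peetre ((t - ordinate n) * Real.log T) ((t - ordinate m) * Real.log T)
      have h3 : xs T n - xs T m =
          ((t - ordinate m) * Real.log T - (t - ordinate n) * Real.log T) / (2 * π) := by
        unfold xs; ring
      rw [h3]
      exact h2
    refine h1.trans ?_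
    rw [← Finset.mul_sum]
    exact mul_le_mul_of_nonneg_left (hsum t) (by positivity)
  have hcore : ∀ t : ℝ, ∑ n ∈ In w W, s n ^ 3 * ps ((t - ordinate n) * Real.log T) ^ 4 ≤
      (8 * π ^ 2) ^ 3 * NC ps T t ^ 4 := by
    intro t
    have h1 : ∀ n ∈ In w W, s n ^ 3 * ps ((t - ordinate n) * Real.log T) ^ 4 ≤
        (8 * π ^ 2) ^ 3 * NC ps T t ^ 3 * ps ((t - ordinate n) * Real.log T) := by
      intro n _
      obtain ⟨u, hu⟩ : ∃ u, u = (t - ordinate n) * Real.log T := ⟨_, rfl⟩
      have h2 := hpt t n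
      rw [← hu] at h2 ⊢
      have h3 : (1 + u ^ 2) * ps u = 1 := by
        unfold ps; field_simp
      have h4 : s n * ps u ≤ 8 * π ^ 2 * NC ps T t := by
        calc s n * ps u ≤ 8 * π ^ 2 * (1 + u ^ 2) * NC ps T t * ps u :=
              mul_le_mul_of_nonneg_right h2 (ps_nonneg u)
          _ = 8 * π ^ 2 * NC ps T t * ((1 + u ^ 2) * ps u) := by ring
          _ = _ := by rw [h3, mul_one]
      have h5 := pow_le_pow_left₀ (mul_nonneg (hann n) (ps_nonneg u)) h4 3
      calc s n ^ 3 * ps u ^ 4 = (s n * ps u) ^ 3 * ps u := by ring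
        _ ≤ (8 * π ^ 2 * NC ps T t) ^ 3 * ps u := mul_le_mul_of_nonneg_right h5 (ps_nonneg u)
        _ = _ := by ring
    refine (Finset.sum_le_sum h1).trans ?_
    rw [← Finset.mul_sum]
    calc (8 * π ^ 2) ^ 3 * NC ps T t ^ 3 * ∑ n ∈ In w W, ps ((t - ordinate n) * Real.log T) ≤
        (8 * π ^ 2) ^ 3 * NC ps T t ^ 3 * NC ps T t :=
          mul_le_mul_of_nonneg_left (hsum t) (by have := hNCnn t; positivity)
      _ = _ := by ring
  have hps : ∀ n, Continuous fun t => ps ((t - ordinate n) * Real.log T) ^ 4 := fun n =>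
    (ps_continuous.comp (by fun_prop)).pow 4
  have hIle : ∑ n ∈ In w W, s n ^ 3 * ∫ t in (w - 1)..(w + W),
      ps ((t - ordinate n) * Real.log T) ^ 4 ≤ (8 * π ^ 2) ^ 3 * (C1 * (W + 1)) := by
    have h1 : ∑ n ∈ In w W, s n ^ 3 * ∫ t in (w - 1)..(w + W),
        ps ((t - ordinate n) * Real.log T) ^ 4 = ∫ t in (w - 1)..(w + W),
          ∑ n ∈ In w W, s n ^ 3 * ps ((t - ordinate n) * Real.log T) ^ 4 := by
      rw [intervalIntegral.integral_finsetSum]
      · exact Finset.sum_congr rfl fun n _ => (intervalIntegral.integral_const_mul _ _).symm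
      · exact fun n _ => ((hps n).const_mul _).intervalIntegrable _ _
    rw [h1]
    calc ∫ t in (w - 1)..(w + W), ∑ n ∈ In w W, s n ^ 3 *
          ps ((t - ordinate n) * Real.log T) ^ 4 ≤
          ∫ t in (w - 1)..(w + W), (8 * π ^ 2) ^ 3 * NC ps T t ^ 4 := by
            apply intervalIntegral.integral_mono_on (by linarith)
            · exact (continuous_finsetSum _ fun n _ => (hps n).const_mul _).intervalIntegrable _ _
            · exact ((hcont.pow 4).const_mul _).intervalIntegrable _ _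
            · exact fun t _ => hcore t
      _ = (8 * π ^ 2) ^ 3 * ∫ t in (w - 1)..(w + W), NC ps T t ^ 4 :=
          intervalIntegral.integral_const_mul _ _
      _ ≤ _ := mul_le_mul_of_nonneg_left hint (by positivity)
  have hlow : ∀ n ∈ In w W, 1 / (16 * Real.log T) ≤ ∫ t in (w - 1)..(w + W),
      ps ((t - ordinate n) * Real.log T) ^ 4 := by
    intro n hn
    unfold In at hn
    rw [Finset.mem_Ioc] at hn
    have hn1 : 1 ≤ n := by omega
    have hex := zeroCount_unbounded n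
    have h1 : ordinate n ≤ w + W := (le_zeroCount_iff hex hn1).mp hn.2
    have h2 : w ≤ ordinate n := by
      by_contra hcon
      have := (le_zeroCount_iff hex hn1).mpr (not_le.mp hcon).le
      omega
    have hinv : 1 / Real.log T ≤ 1 := by
      rw [div_le_one hL0]; exact hL1
    have hinv0 : 0 < 1 / Real.log T := by positivity
    have h3 : ∫ t in (ordinate n - 1 / Real.log T)..(ordinate n),
        ps ((t - ordinate n) * Real.log T) ^ 4 ≤ ∫ t in (w - 1)..(w + W),
        ps ((t - ordinate n) * Real.log T) ^ 4 := by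
      apply intervalIntegral.integral_mono_interval (by linarith) (by linarith) h1
      · exact Filter.Eventually.of_forall fun t => pow_nonneg (ps_nonneg _) 4
      · exact (hps n).intervalIntegrable _ _
    refine le_trans ?_ h3
    have h4 : ∫ _t in (ordinate n - 1 / Real.log T)..(ordinate n), (1:ℝ) / 16 =
        1 / (16 * Real.log T) := by
      rw [intervalIntegral.integral_const, smul_eq_mul]
      field_simp
      ring
    rw [← h4]
    apply intervalIntegral.integral_mono_on (by linarith)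
    · exact continuous_const.intervalIntegrable _ _
    · exact (hps n).intervalIntegrable _ _
    · intro t ht
      have h5 : |(t - ordinate n) * Real.log T| ≤ 1 := by
        rw [abs_mul, abs_of_pos hL0]
        have : |t - ordinate n| ≤ 1 / Real.log T := by
          rw [abs_le]; constructor <;> linarith [ht.1, ht.2]
        calc |t - ordinate n| * Real.log T ≤ 1 / Real.log T * Real.log T :=
              mul_le_mul_of_nonneg_right this hL0.le
          _ = 1 := by field_simp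
      have h6 : 1 / 2 ≤ ps ((t - ordinate n) * Real.log T) := by
        unfold ps
        apply one_div_le_one_div_of_le (by positivity)
        have := (sq_le_one_iff_abs_le_one _).mpr h5
        linarith
      calc (1:ℝ) / 16 = (1 / 2) ^ 4 := by norm_num
        _ ≤ _ := pow_le_pow_left₀ (by norm_num) h6 4
  have hfin : (∑ n ∈ In w W, s n ^ 3) * (1 / (16 * Real.log T)) ≤
      (8 * π ^ 2) ^ 3 * (C1 * (W + 1)) := by
    refine le_trans ?_ hIle
    rw [Finset.sum_mul]
    exact Finset.sum_le_sum fun n hn =>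
      mul_le_mul_of_nonneg_left (hlow n hn) (pow_nonneg (hann n) 3)
  have hgoal : ∑ n ∈ In w W, s n ^ 3 ≤ (8 * π ^ 2) ^ 3 * (C1 * (W + 1)) * (16 * Real.log T) := by
    rw [mul_one_div, div_le_iff₀ (by positivity)] at hfin
    exact hfin
  have hlast : (8 * π ^ 2) ^ 3 * (C1 * (W + 1)) * (16 * Real.log T) ≤
      32 * (8 * π ^ 2) ^ 3 * C1 * W * Real.log T := by
    have h1 : (8 * π ^ 2) ^ 3 * (C1 * (W + 1)) * (16 * Real.log T) ≤
        (8 * π ^ 2) ^ 3 * (C1 * (W + W)) * (16 * Real.log T) := by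
      gcongr
    refine h1.trans (le_of_eq (by ring))
  rw [hs] at hgoal
  exact hgoal.trans hlast

theorem mom_two_a (hRH : RiemannHypothesis) {a : ℝ} (ha0 : 0 < a) :
    ∃ C T0 : ℝ, 0 < C ∧ ∀ T : ℝ, T0 ≤ T → ∀ w W : ℝ,
    T ≤ w → T ^ a ≤ W → w + W ≤ 4 * T →
    ∑ n ∈ In w W, ∑ m ∈ In w W, 1 / (1 + (xs T n - xs T m) ^ 2) ≤ C * W * Real.log T := by
  obtain ⟨C, T0, hC, h⟩ := sum_cubes_a hRH ha0
  refine ⟨C, T0, hC, fun T hT w W hw hW hwW => le_trans ?_ (h T hT w W hw hW hwW)⟩
  refine Finset.sum_le_sum fun n hn => ?_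
  have h1 := one_le_inner (T := T) hn
  exact le_self_pow₀ h1 (by norm_num)

open Classical in
theorem mom_three_a (hRH : RiemannHypothesis) {a : ℝ} (ha0 : 0 < a) (R : ℝ) :
    ∃ C T0 : ℝ, 0 < C ∧ ∀ T : ℝ, T0 ≤ T →
    ∀ w W : ℝ, T ≤ w → T ^ a ≤ W → w + W ≤ 4 * T →
    ∑ n ∈ In w W, (((In w W).filter fun m => |xs T m - xs T n| ≤ R).card : ℝ) ^ 3 ≤
      C * W * Real.log T := by
  obtain ⟨C, T0, hC, h⟩ := sum_cubes_a hRH ha0
  refine ⟨(1 + R ^ 2) ^ 3 * C, T0, by positivity, fun T hT w W hw hW hwW => ?_⟩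
  have h0 := h T hT w W hw hW hwW
  calc ∑ n ∈ In w W, (((In w W).filter fun m => |xs T m - xs T n| ≤ R).card : ℝ) ^ 3 ≤
      ∑ n ∈ In w W, (1 + R ^ 2) ^ 3 *
        (∑ m ∈ In w W, 1 / (1 + (xs T n - xs T m) ^ 2)) ^ 3 := by
        refine Finset.sum_le_sum fun n _ => ?_
        rw [← mul_pow]
        refine pow_le_pow_left₀ (Nat.cast_nonneg _) ?_ 3
        rw [Finset.card_filter, Nat.cast_sum, Finset.mul_sum]
        refine Finset.sum_le_sum fun m _ => ?_
        split_ifs with hm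
        · have h1 : (xs T n - xs T m) ^ 2 ≤ R ^ 2 := by
            rw [← sq_abs, abs_sub_comm]
            exact pow_le_pow_left₀ (abs_nonneg _) hm 2
          rw [Nat.cast_one, mul_one_div, le_div_iff₀ (by positivity)]
          linarith
        · rw [Nat.cast_zero]; positivity
    _ = (1 + R ^ 2) ^ 3 * ∑ n ∈ In w W,
        (∑ m ∈ In w W, 1 / (1 + (xs T n - xs T m) ^ 2)) ^ 3 := by rw [Finset.mul_sum]
    _ ≤ (1 + R ^ 2) ^ 3 * (C * W * Real.log T) :=
        mul_le_mul_of_nonneg_left h0 (by positivity)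
    _ = _ := by ring

end Pool.Agent.AHP
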