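import Pool.Agent.AHP.Lat1
import Pool.Agent.AHP.MomA
import Pool.Agent.AHP.CkDefs
import Pool.Agent.AHP.Block3
import Pool.Agent.AHP.SumA
import Pool.Agent.AHP.KerR

/-!
# The inequality for the numbers of pairs, every exponent
-/

namespace Pool.Agent.AHP

open MeasureTheory Real Set Pool.Agent.ZGap.Gen Pool.Agent.ZetaGaps

open Classical in
lemma SmA_mono (a T H : ℝ) {δ δ' : ℝ} (h : δ' ≤ δ) : SmA a T H δ ≤ SmA a T H δ' := by
  unfold SmA
  have h1 : ((Finset.Ioo (zeroCount T) (zeroCount (T + H))).filter fun n =>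
      ys a T (n + 1) - ys a T n < 1 / 2 - δ) ⊆
      ((Finset.Ioo (zeroCount T) (zeroCount (T + H))).filter fun n =>
        ys a T (n + 1) - ys a T n < 1 / 2 - δ') := by
    intro n hn
    rw [Finset.mem_filter] at hn ⊢
    exact ⟨hn.1, by linarith [hn.2]⟩
  exact_mod_cast Finset.card_le_card h1

open Classical in
lemma AwA_mono (a T H : ℝ) {δ δ' : ℝ} (h : δ' ≤ δ) : AwA a T H δ ≤ AwA a T H δ' := by
  unfold AwA
  have h1 : ((Finset.Ioo (zeroCount T) (zeroCount (T + H))).filter fun n =>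
      ∀ m : ℤ, δ < |ys a T (n + 1) - ys a T n - m / 2|) ⊆
      ((Finset.Ioo (zeroCount T) (zeroCount (T + H))).filter fun n =>
        ∀ m : ℤ, δ' < |ys a T (n + 1) - ys a T n - m / 2|) := by
    intro n hn
    rw [Finset.mem_filter] at hn ⊢
    exact ⟨hn.1, fun m => lt_of_le_of_lt h (hn.2 m)⟩
  exact_mod_cast Finset.card_le_card h1

lemma ys_mono {a T : ℝ} (ha : 0 < a) (hT : 1 ≤ T) {m n : ℕ} (hm : 1 ≤ m) (h : m ≤ n) :
    ys a T m ≤ ys a T n := by
  unfold ys
  exact mul_le_mul_of_nonneg_right (xs_mono hT hm h) (by linarith)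

/-- The sum over the kernel of the primes as a pair sum. -/
lemma PS_eq {a b c A B M : ℝ} {k : ℕ} {Φ : ℝ → ℝ} {P P' : PhiData} (ha : 0 < a)
    (hc : c = 2 * b / (1 + a))
    (hP : ∀ v : ℝ, M * (P.f0 v * P'.f0 v) = Φ v * (A + B * Real.cos (π * k * (c * v))))
    (T H : ℝ) :
    ∑ n ∈ In T H, ∑ m ∈ In T H, ∫ v in (0:ℝ)..1,
      Φ v * (A + B * Real.cos (π * k * (c * v))) *
        Real.cos (2 * π * c * v * (ys a T n - ys a T m)) = M / π * PS P P' b T H := by
  have hpi := Real.pi_ne_zero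
  have h1a : (1 + a) ≠ 0 := by linarith
  unfold PS
  rw [Finset.mul_sum]
  refine Finset.sum_congr rfl fun n _ => ?_
  rw [Finset.mul_sum]
  refine Finset.sum_congr rfl fun m _ => ?_
  unfold GG
  rw [← mul_assoc, div_mul_cancel₀ _ hpi, ← intervalIntegral.integral_const_mul]
  refine intervalIntegral.integral_congr fun v _ => ?_
  have e1 : 2 * π * c * v * (ys a T n - ys a T m) = 2 * π * b * (xs T n - xs T m) * v := by
    unfold ys
    rw [hc]
    field_simp
  rw [e1, ← hP]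
  ring

theorem rk_ineq (hRH : RiemannHypothesis) {a A B ε κ : ℝ} {k : ℕ} (ha : 0 < a) (ha1 : a < 1)
    (hk : 1 ≤ k) (hε : 0 < ε) (hε2 : ε ≤ 3 / 16) (hκ : 0 < κ)
    (hAB : ∀ v : ℝ, 2 * a / (1 + a) ≤ v → v ≤ 1 → 0 ≤ A + B * Real.cos (π * k * v)) :
    ∃ δ : ℝ, 0 < δ ∧ ∃ T0 : ℝ, Real.exp 3 ≤ T0 ∧ ∀ T : ℝ, T0 ≤ T → ∀ H : ℝ, T ^ a ≤ H →
      H ≤ 3 * T → ∀ δ' : ℝ, δ' ≤ δ → SmA a T H δ' ≤ δ' * NI T H → AwA a T H δ' ≤ δ' * NI T H →
      (A * (1 + a ^ 2) + B * ck a k - κ) * NI T H ≤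
          (1 + a) * (A * NI T H + B * AkA a T H ε k) ∧
        |AkA a T H ε 1 - G1A a T H ε| ≤ κ * NI T H := by
  classical
  have hpi := Real.pi_pos
  have hpi3 := Real.pi_gt_three
  obtain ⟨η, hηd⟩ : ∃ η : ℝ, η = κ / 12 := ⟨_, rfl⟩
  have hη : 0 < η := by rw [hηd]; positivity
  obtain ⟨b, c, M, Φ, P, P', hb0, hba, hcd, hc0, hc1, hM, hΦ, hP, hp1, hp2, hcb⟩ :=
    ker_exists (k := k) ha ha1 hη hAB
  obtain ⟨Cg, hCg, g1, g2⟩ := ff_props hc0.le hc1 A B η k
  have g3 := ff_neg c A B η k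
  obtain ⟨κ1, hκ1d⟩ : ∃ κ1 : ℝ, κ1 = κ / (8 * (1 + |B|)) := ⟨_, rfl⟩
  have hB0 : 0 ≤ |B| := abs_nonneg B
  have hκ1 : 0 < κ1 := by rw [hκ1d]; positivity
  have hκ1a : κ1 * (8 * (1 + |B|)) = κ := by rw [hκ1d]; field_simp
  obtain ⟨C2, T2, hC2, hm2⟩ := mom_two_a hRH ha
  obtain ⟨K0, hK0⟩ := comb (Cg := Cg) (C2 := 52 * C2) (κ := κ1) hCg (by positivity) hκ1
  obtain ⟨K, hK⟩ : ∃ K : ℕ, K = max K0 k := ⟨_, rfl⟩
  have hKk : k ≤ K := by rw [hK]; exact le_max_right _ _
  obtain ⟨C3, T3, hC3, hm3⟩ := mom_three_a hRH ha (2 * ((K:ℝ) + 1))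
  obtain ⟨δ, hδ, hcomb⟩ := hK0 K (by rw [hK]; exact le_max_left _ _) (13 * C3) ε (by positivity)
    hε hε2
  obtain ⟨T4, hT4, hlow⟩ := count_low_a ha
  obtain ⟨T5, hT5, hsum⟩ := sum_asymp_a hRH P P' hb0 hba ha1.le (κ := κ / (4 * M))
    (by positivity)
  refine ⟨δ, hδ, max (max T4 T5) (max T2 T3), hT4.trans ((le_max_left _ _).trans
    (le_max_left _ _)), fun T hT H hH hH3 δ' hδ' hsm haw => ?_⟩
  have g4 : T4 ≤ T := (le_max_left _ _).trans ((le_max_left _ _).trans hT)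
  have g5 : T5 ≤ T := (le_max_right _ _).trans ((le_max_left _ _).trans hT)
  have gg2 : T2 ≤ T := (le_max_left _ _).trans ((le_max_right _ _).trans hT)
  have gg3 : T3 ≤ T := (le_max_right _ _).trans ((le_max_right _ _).trans hT)
  have hTe : Real.exp 3 ≤ T := hT4.trans g4
  have hT1 : 1 ≤ T := by
    have : (1:ℝ) ≤ Real.exp 3 := Real.one_le_exp (by norm_num)
    linarith
  have hH0 : 0 ≤ H := (Real.rpow_nonneg (by linarith) _).trans hH
  have hlow' := hlow T g4 H hH hH3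
  have hij : zeroCount T ≤ zeroCount (T + H) := zeroCount_mono (by linarith)
  have hJ : 0 ≤ NI T H := by
    unfold NI
    have : (zeroCount T : ℝ) ≤ zeroCount (T + H) := by exact_mod_cast hij
    linarith
  have hJd : (zeroCount (T + H) : ℝ) - zeroCount T = NI T H := rfl
  have hs0 : 1 / 2 ≤ (1 + a) / 2 := by linarith
  have hyx : ∀ n m, ys a T n - ys a T m = (xs T n - xs T m) * ((1 + a) / 2) := by
    intro n m
    unfold ys
    ring
  have k2 : ∑ n ∈ Finset.Ioc (zeroCount T) (zeroCount (T + H)),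
      ∑ m ∈ Finset.Ioc (zeroCount T) (zeroCount (T + H)), 1 / (1 + (ys a T n - ys a T m) ^ 2) ≤
      52 * C2 * ((zeroCount (T + H) : ℝ) - zeroCount T) := by
    have h1 := hm2 T gg2 T H le_rfl hH (by linarith)
    unfold In at h1
    have h2 : ∑ n ∈ Finset.Ioc (zeroCount T) (zeroCount (T + H)),
        ∑ m ∈ Finset.Ioc (zeroCount T) (zeroCount (T + H)), 1 / (1 + (ys a T n - ys a T m) ^ 2) ≤
        4 * ∑ n ∈ Finset.Ioc (zeroCount T) (zeroCount (T + H)),
          ∑ m ∈ Finset.Ioc (zeroCount T) (zeroCount (T + H)),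
            1 / (1 + (xs T n - xs T m) ^ 2) := by
      rw [Finset.mul_sum]
      refine Finset.sum_le_sum fun n _ => ?_
      rw [Finset.mul_sum]
      refine Finset.sum_le_sum fun m _ => ?_
      rw [hyx, mul_one_div, div_le_div_iff₀ (by positivity) (by positivity), mul_pow]
      have h3 : (1 / 4 : ℝ) ≤ ((1 + a) / 2) ^ 2 := by nlinarith
      have h4 := sq_nonneg (xs T n - xs T m)
      nlinarith
    refine h2.trans ?_
    rw [hJd]
    calc 4 * ∑ n ∈ Finset.Ioc (zeroCount T) (zeroCount (T + H)),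
          ∑ m ∈ Finset.Ioc (zeroCount T) (zeroCount (T + H)),
            1 / (1 + (xs T n - xs T m) ^ 2) ≤ 4 * (C2 * H * Real.log T) :=
          mul_le_mul_of_nonneg_left h1 (by norm_num)
      _ = 4 * C2 * (H * Real.log T) := by ring
      _ ≤ 4 * C2 * (13 * NI T H) := mul_le_mul_of_nonneg_left hlow' (by positivity)
      _ = _ := by ring
  have k3 : ∑ n ∈ Finset.Ioc (zeroCount T) (zeroCount (T + H)),
      (((Finset.Ioc (zeroCount T) (zeroCount (T + H))).filter fun m =>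
        |ys a T m - ys a T n| ≤ K + 1).card : ℝ) ^ 3 ≤
      13 * C3 * ((zeroCount (T + H) : ℝ) - zeroCount T) := by
    have h1 := hm3 T gg3 T H le_rfl hH (by linarith)
    unfold In at h1
    have h2 : ∑ n ∈ Finset.Ioc (zeroCount T) (zeroCount (T + H)),
        (((Finset.Ioc (zeroCount T) (zeroCount (T + H))).filter fun m =>
          |ys a T m - ys a T n| ≤ K + 1).card : ℝ) ^ 3 ≤
        ∑ n ∈ Finset.Ioc (zeroCount T) (zeroCount (T + H)),
        (((Finset.Ioc (zeroCount T) (zeroCount (T + H))).filter fun m =>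
          |xs T m - xs T n| ≤ 2 * ((K:ℝ) + 1)).card : ℝ) ^ 3 := by
      refine Finset.sum_le_sum fun n _ => ?_
      have h3 : ((Finset.Ioc (zeroCount T) (zeroCount (T + H))).filter fun m =>
          |ys a T m - ys a T n| ≤ K + 1) ⊆
          ((Finset.Ioc (zeroCount T) (zeroCount (T + H))).filter fun m =>
          |xs T m - xs T n| ≤ 2 * ((K:ℝ) + 1)) := by
        intro m hm
        rw [Finset.mem_filter] at hm ⊢
        refine ⟨hm.1, ?_⟩
        have h4 := hm.2
        rw [hyx, abs_mul, abs_of_pos (by linarith : (0:ℝ) < (1 + a) / 2)] at h4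
        have h5 := abs_nonneg (xs T m - xs T n)
        nlinarith
      have h4 : (((Finset.Ioc (zeroCount T) (zeroCount (T + H))).filter fun m =>
          |ys a T m - ys a T n| ≤ K + 1).card : ℝ) ≤
          (((Finset.Ioc (zeroCount T) (zeroCount (T + H))).filter fun m =>
          |xs T m - xs T n| ≤ 2 * ((K:ℝ) + 1)).card : ℝ) := by
        exact_mod_cast Finset.card_le_card h3
      exact pow_le_pow_left₀ (Nat.cast_nonneg _) h4 3
    refine h2.trans (h1.trans ?_)
    rw [hJd]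
    calc C3 * H * Real.log T = C3 * (H * Real.log T) := by ring
      _ ≤ C3 * (13 * NI T H) := mul_le_mul_of_nonneg_left hlow' hC3.le
      _ = _ := by ring
  have k5 : SmA a T H δ ≤ δ * NI T H :=
    (SmA_mono a T H hδ').trans (hsm.trans (mul_le_mul_of_nonneg_right hδ' hJ))
  have k6 : AwA a T H δ ≤ δ * NI T H :=
    (AwA_mono a T H hδ').trans (haw.trans (mul_le_mul_of_nonneg_right hδ' hJ))
  obtain ⟨q1, q2, q3⟩ := hcomb (ff c A B η k) g1 g2 g3 (ys a T) (zeroCount T)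
    (zeroCount (T + H)) hij (fun m n h1 h2 _ => ys_mono ha hT1 (by omega) h2) k2 k3 k5 k6
  -- the lattice side
  have q1' : ∑ k' ∈ Finset.Icc 1 K, ff c A B η k ((k':ℝ) / 2) *
      (Rk (ys a T) (zeroCount T) (zeroCount (T + H)) ε k' : ℝ) =
      B * (Rk (ys a T) (zeroCount T) (zeroCount (T + H)) ε k : ℝ) := by
    rw [Finset.sum_eq_single k]
    · rw [ff_half hc1 A B η hk hk, if_pos rfl]
    · intro j hj hne
      rw [ff_half hc1 A B η hk (Finset.mem_Icc.1 hj).1, if_neg hne, zero_mul]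
    · intro h
      exact absurd (Finset.mem_Icc.2 ⟨hk, hKk⟩) h
  rw [ff_zero hc1 A B η hk, q1', hJd] at q1
  have q2k := q2 k (Finset.mem_Icc.2 ⟨hk, hKk⟩)
  have q21 := q2 1 (Finset.mem_Icc.2 ⟨le_rfl, hk.trans hKk⟩)
  -- the prime side
  have hpos := pos_main (Finset.Ioc (zeroCount T) (zeroCount (T + H))) (ys a T) hc0 hc1 hΦ hp1 hp2
  have hPS := PS_eq ha hcd hP T H
  unfold In at hPS
  rw [hPS] at hpos
  have hs := hsum T g5 H hH hH3
  change |(Rk (ys a T) (zeroCount T) (zeroCount (T + H)) ε k : ℝ) - AkA a T H ε k| ≤ _ at q2k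
  change |(Rk (ys a T) (zeroCount T) (zeroCount (T + H)) ε 1 : ℝ) - AkA a T H ε 1| ≤ _ at q21
  change |(Rk (ys a T) (zeroCount T) (zeroCount (T + H)) ε 1 : ℝ) - G1A a T H ε| ≤ _ at q3
  have hfs : ∑ n ∈ Finset.Ioc (zeroCount T) (zeroCount (T + H)),
      ∑ m ∈ Finset.Ioc (zeroCount T) (zeroCount (T + H)), ff c A B η k (ys a T n - ys a T m) =
      ∑ n ∈ Finset.Ioc (zeroCount T) (zeroCount (T + H)),
      ∑ m ∈ Finset.Ioc (zeroCount T) (zeroCount (T + H)),
        ((A + η) * F0 c (ys a T n - ys a T m) + B / 2 * (F0 c (ys a T n - ys a T m - k / 2) +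
          F0 c (ys a T n - ys a T m + k / 2))) := rfl
  rw [hfs] at q1
  generalize (∑ n ∈ Finset.Ioc (zeroCount T) (zeroCount (T + H)),
      ∑ m ∈ Finset.Ioc (zeroCount T) (zeroCount (T + H)),
        ((A + η) * F0 c (ys a T n - ys a T m) + B / 2 * (F0 c (ys a T n - ys a T m - k / 2) +
          F0 c (ys a T n - ys a T m + k / 2)))) = S at q1 hpos
  rw [hJd] at q2k q21 q3
  generalize PS P P' b T H = Q at hpos hs
  generalize NI T H = N at *
  generalize (Rk (ys a T) (zeroCount T) (zeroCount (T + H)) ε k : ℝ) = R at *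
  generalize (Rk (ys a T) (zeroCount T) (zeroCount (T + H)) ε 1 : ℝ) = R1 at *
  generalize AkA a T H ε k = Ak at *
  generalize AkA a T H ε 1 = A1 at *
  generalize G1A a T H ε = GA at *
  have hκ1κ : κ1 ≤ κ / 8 := by
    have : κ1 * 8 ≤ κ1 * (8 * (1 + |B|)) := mul_le_mul_of_nonneg_left (by linarith) hκ1.le
    linarith
  constructor
  · -- `2 c M / π Q ≤ S`
    have hc2 : c * (1 + a) = 2 * b := by
      rw [hcd]
      field_simp
    have t1 : 4 * (M * (b * Q)) ≤ π * ((1 + a) * S) := by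
      have h : π * ((1 + a) * (2 * c * (M / π * Q))) ≤ π * ((1 + a) * S) :=
        mul_le_mul_of_nonneg_left (mul_le_mul_of_nonneg_left hpos (by linarith)) hpi.le
      have e : π * ((1 + a) * (2 * c * (M / π * Q))) = 2 * M * (c * (1 + a)) * Q := by
        field_simp
      rw [e, hc2] at h
      linarith
    have t2 := (abs_le.mp hs).1
    have t3 : M * (κ / (4 * M) * N) = κ / 4 * N := by field_simp
    have t4 : 4 * (M * (2 * π * cb P P' b * N)) - 4 * (κ / 4 * N) ≤ 4 * (M * (b * Q)) := by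
      rw [← t3]
      have : M * (2 * π * cb P P' b * N - κ / (4 * M) * N) ≤ M * (b * Q) :=
        mul_le_mul_of_nonneg_left (by linarith) hM.le
      linarith
    have t5 := (abs_le.mp hcb).1
    have t6 : (A * (1 + a ^ 2) + B * ck a k - η) * N ≤ 4 * M * cb P P' b * N :=
      mul_le_mul_of_nonneg_right (by linarith) hJ
    have t7 : 2 * π * ((A * (1 + a ^ 2) + B * ck a k - η) * N) - κ * N ≤ π * ((1 + a) * S) := by
      have h1 : 2 * π * ((A * (1 + a ^ 2) + B * ck a k - η) * N) ≤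
          2 * π * (4 * M * cb P P' b * N) := mul_le_mul_of_nonneg_left t6 (by positivity)
      have h2 : 2 * π * (4 * M * cb P P' b * N) = 4 * (M * (2 * π * cb P P' b * N)) := by ring
      linarith
    have t8 := (abs_le.mp q1).2
    have t9 : S ≤ 2 * (A + η) * N + 2 * (B * R) + κ1 * N := by linarith
    have t10 : B * R ≤ B * Ak + |B| * (κ1 * N) := by
      have h1 : B * (R - Ak) ≤ |B| * |R - Ak| := by
        rw [← abs_mul]
        exact le_abs_self _
      have h2 : |B| * |R - Ak| ≤ |B| * (κ1 * N) := mul_le_mul_of_nonneg_left q2k hB0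
      linarith
    have t11 : S ≤ 2 * A * N + 2 * (B * Ak) + 2 * η * N + 2 * (|B| * (κ1 * N)) + κ1 * N := by
      linarith
    have t12 : 2 * (|B| * (κ1 * N)) + κ1 * N ≤ κ / 4 * N := by
      have h1 : 2 * |B| * κ1 + κ1 ≤ κ / 4 := by linarith
      have h2 := mul_le_mul_of_nonneg_right h1 hJ
      linarith
    have t13 : (1 + a) * S ≤ (1 + a) * (2 * A * N + 2 * (B * Ak)) +
        (1 + a) * (2 * η * N + κ / 4 * N) := by
      rw [← mul_add]
      exact mul_le_mul_of_nonneg_left (by linarith) (by linarith)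
    have t14 : (1 + a) * (2 * η * N + κ / 4 * N) ≤ 2 * (2 * η * N + κ / 4 * N) :=
      mul_le_mul_of_nonneg_right (by linarith) (by positivity)
    have t15 : 2 * π * ((A * (1 + a ^ 2) + B * ck a k - η) * N) - κ * N ≤
        π * ((1 + a) * (2 * A * N + 2 * (B * Ak)) + 2 * (2 * η * N + κ / 4 * N)) :=
      t7.trans (mul_le_mul_of_nonneg_left (by linarith) hpi.le)
    have t16 : κ * N ≤ π * (κ / 3 * N) := by
      have : 0 ≤ κ * N := by positivity
      nlinarith
    have t17 : π * (2 * ((A * (1 + a ^ 2) + B * ck a k - η) * N)) ≤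
        π * ((1 + a) * (2 * A * N + 2 * (B * Ak)) + 2 * (2 * η * N + κ / 4 * N) +
          κ / 3 * N) := by
      rw [mul_add π ((1 + a) * (2 * A * N + 2 * (B * Ak)) + 2 * (2 * η * N + κ / 4 * N))]
      linarith
    have t18 := le_of_mul_le_mul_left t17 hpi
    rw [hηd] at t18
    have t19 : 0 ≤ κ * N := by positivity
    linarith
  · have h1 : A1 - GA = (R1 - GA) - (R1 - A1) := by ring
    rw [h1]
    refine (abs_sub _ _).trans ?_
    have h2 : κ1 * N ≤ κ / 8 * N := mul_le_mul_of_nonneg_right hκ1κ hJ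
    have h3 : 0 ≤ κ * N := by positivity
    linarith

end Pool.Agent.AHP
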