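import Pool.Agent.AHP.Norm

/-!
# The edge of a window of length `T ^ a`, large gaps
-/

namespace Pool.Agent.AHP

open Real Set Filter Topology Pool.Agent.ZetaGaps

/-- The edge. -/
theorem edge_le_a {a κ R : ℝ} (ha0 : 0 < a) (hκ : 0 < κ) (hR : 0 < R) :
    ∃ T0 : ℝ, ∀ T : ℝ, T0 ≤ T → ∀ w W : ℝ, T ≤ w → T ^ a ≤ W → w + W ≤ 4 * T →
    ({n : ℕ | n ∈ In w W ∧ ∃ m, n < m ∧ m ∉ In w W ∧
      normOrdinate m - normOrdinate n ≤ R}.ncard : ℝ) ≤ κ * (W * Real.log T) := by
  have hpi := Real.pi_pos
  have hpi3 := Real.pi_gt_three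
  obtain ⟨T1, hT1, hN⟩ := norm_close (κ := 1) one_pos hR
  obtain ⟨T2, hT2, hC⟩ := count_asymp (b' := a / 2) (κ := 1 / 2) (by positivity) (by norm_num)
  obtain ⟨c, hc⟩ : ∃ c : ℝ, c = min κ 1 := ⟨_, rfl⟩
  have hc0 : 0 < c := by rw [hc]; exact lt_min hκ one_pos
  have hcκ : c ≤ κ := by rw [hc]; exact min_le_left _ _
  have hc1 : c ≤ 1 := by rw [hc]; exact min_le_right _ _
  have ev1 : ∀ᶠ T : ℝ in atTop, 2 * π * R ≤ Real.log T :=
    Real.tendsto_log_atTop.eventually_ge_atTop _
  have ev2 : ∀ᶠ T : ℝ in atTop, 1 / c ≤ T ^ (a / 2) :=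
    (tendsto_rpow_atTop (by positivity)).eventually_ge_atTop _
  obtain ⟨T3, hT3⟩ := eventually_atTop.mp (ev1.and ev2)
  refine ⟨max (max T1 T2) T3, fun T hT w W hw hW hwW => ?_⟩
  obtain ⟨e1, e2⟩ := hT3 T ((le_max_right _ _).trans hT)
  have hTT1 : T1 ≤ T := ((le_max_left _ _).trans (le_max_left _ _)).trans hT
  have hTT2 : T2 ≤ T := ((le_max_right _ _).trans (le_max_left _ _)).trans hT
  have hTe : Real.exp 3 ≤ T := hT1.trans hTT1
  have he3 : (4:ℝ) ≤ Real.exp 3 := by
    have := Real.add_one_le_exp (3:ℝ); linarith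
  have hT0 : 0 < T := by linarith
  have hL3 : 3 ≤ Real.log T := by rwa [Real.le_log_iff_exp_le hT0]
  have hL0 : 0 < Real.log T := by linarith
  have hsq : T ^ (a / 2) * T ^ (a / 2) = T ^ a := by
    rw [← Real.rpow_add hT0]; norm_num
  have hs0 : 0 < T ^ (a / 2) := Real.rpow_pos_of_pos hT0 _
  have hW0 : 0 < W := (Real.rpow_pos_of_pos hT0 _).trans_le hW
  -- the last piece of the window
  have hcT : T ^ (a / 2) ≤ c * W := by
    have g1 : T ^ (a / 2) * 1 ≤ T ^ (a / 2) * (c * T ^ (a / 2)) := by
      apply mul_le_mul_of_nonneg_left _ hs0.le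
      rw [div_le_iff₀ hc0] at e2
      linarith
    have g2 : T ^ (a / 2) * (c * T ^ (a / 2)) = c * T ^ a := by
      have : T ^ (a / 2) * (c * T ^ (a / 2)) =
          c * (T ^ (a / 2) * T ^ (a / 2)) := by ring
      rw [this, hsq]
    have g3 : c * T ^ a ≤ c * W := mul_le_mul_of_nonneg_left hW hc0.le
    linarith
  have h1s : 1 ≤ T ^ (a / 2) := Real.one_le_rpow (by linarith) (by positivity)
  have hcW : c * W ≤ W := by nlinarith
  have hcount := hC T hTT2 (w + W - c * W) (c * W) (by linarith) hcT (by linarith)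
  have hend : w + W - c * W + c * W = w + W := by ring
  rw [hend] at hcount
  have hsub : {n : ℕ | n ∈ In w W ∧ ∃ m, n < m ∧ m ∉ In w W ∧
      normOrdinate m - normOrdinate n ≤ R} ⊆
      ↑(Finset.Ioc (zeroCount (w + W - c * W)) (zeroCount (w + W))) := by
    rintro n ⟨hn, m, hnm, hm, hd⟩
    have hn1 := one_le_of_mem hn
    have hn2 := (mem_In_iff hn1).mp hn
    have hm1 : 1 ≤ m := by omega
    have hmono := ordinate_mono (zeroCount_unbounded m) hn1 hnm.le
    have hm2 : w + W < ordinate m := by
      by_contra hcon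
      exact hm ((mem_In_iff hm1).mpr ⟨by linarith, not_lt.mp hcon⟩)
    have hcl := (hN T hTT1 n m hn1 hnm.le (by linarith) (by linarith) (Or.inr hd)).1
    have hx : (ordinate m - ordinate n) * Real.log T ≤ 2 * π * R := by
      have g1 : xs T m - xs T n = (ordinate m - ordinate n) * Real.log T / (2 * π) := by
        unfold xs; ring
      rw [g1] at hcl
      have g2 := hcl.trans hd
      rw [div_le_iff₀ (by positivity)] at g2
      linarith
    have hx1 : ordinate m - ordinate n ≤ 1 := by
      have g1 : (ordinate m - ordinate n) * Real.log T ≤ 1 * Real.log T := by linarith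
      exact le_of_mul_le_mul_right g1 hL0
    rw [Finset.coe_Ioc]
    refine ⟨?_, (Finset.mem_Ioc.mp hn).2⟩
    by_contra hcon
    have := (le_zeroCount_iff (zeroCount_unbounded n) hn1).mp (not_lt.mp hcon)
    linarith
  have hcard := Set.ncard_le_ncard hsub (Finset.finite_toSet _)
  rw [Set.ncard_coe_finset, Nat.card_Ioc] at hcard
  have hmonoN := zeroCount_mono (show w + W - c * W ≤ w + W by linarith)
  have hcard' : ({n : ℕ | n ∈ In w W ∧ ∃ m, n < m ∧ m ∉ In w W ∧
      normOrdinate m - normOrdinate n ≤ R}.ncard : ℝ) ≤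
      (zeroCount (w + W) : ℝ) - zeroCount (w + W - c * W) := by
    rw [← Nat.cast_sub hmonoN]
    exact_mod_cast hcard
  refine hcard'.trans ?_
  have h5 := (abs_le.mp hcount).2
  have hWL : 0 < c * W * Real.log T := by
    have : 0 < W := hW0
    positivity
  have h6 : c * W * Real.log T / (2 * π) ≤ 1 / 2 * (c * W * Real.log T) := by
    rw [div_le_iff₀ (by positivity)]
    nlinarith
  have h7 : c * W * Real.log T ≤ κ * (W * Real.log T) := by
    have : 0 < W * Real.log T := by
      have : 0 < W := hW0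
      positivity
    nlinarith
  linarith

/-- Large gaps are few. -/
theorem big_gaps_a {a κ : ℝ} (ha0 : 0 < a) (hκ : 0 < κ) : ∃ G T0 : ℝ, 1 ≤ G ∧
    ∀ T : ℝ, T0 ≤ T → ∀ w W : ℝ, T ≤ w → T ^ a ≤ W → w + W ≤ 4 * T →
    ({n : ℕ | n ∈ Finset.Ioo (zeroCount w) (zeroCount (w + W)) ∧
      G < xs T (n + 1) - xs T n}.ncard : ℝ) ≤ κ * (W * Real.log T) := by
  classical
  have hpi := Real.pi_pos
  have hpi3 := Real.pi_gt_three
  refine ⟨max 1 (1 / κ), 4, le_max_left _ _, fun T hT w W hw hW hwW => ?_⟩
  have hW0 : 0 < W := (Real.rpow_pos_of_pos (by linarith) _).trans_le hW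
  obtain ⟨G, hG⟩ : ∃ G : ℝ, G = max 1 (1 / κ) := ⟨_, rfl⟩
  rw [← hG]
  have hG1 : 1 ≤ G := by rw [hG]; exact le_max_left _ _
  have hGκ : 1 ≤ κ * G := by
    have : 1 / κ ≤ G := by rw [hG]; exact le_max_right _ _
    rw [div_le_iff₀ hκ] at this
    linarith
  have hL0 : 0 < Real.log T := Real.log_pos (by linarith)
  have hxmono : ∀ n m : ℕ, 1 ≤ n → n ≤ m → xs T n ≤ xs T m := by
    intro n m hn hnm
    unfold xs
    have := ordinate_mono (zeroCount_unbounded m) hn hnm
    gcongr
  have htele : ∀ i j : ℕ, i < j →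
      ∑ n ∈ Finset.Ioo i j, (xs T (n + 1) - xs T n) = xs T j - xs T (i + 1) := by
    intro i j hij
    induction j, hij using Nat.le_induction with
    | base =>
      have : Finset.Ioo i (i + 1) = ∅ := by
        ext x; simp only [Finset.mem_Ioo, Finset.notMem_empty, iff_false]; omega
      rw [show i.succ = i + 1 from rfl, this]
      simp
    | succ k hk ih =>
      have h1 : Finset.Ioo i (k + 1) = insert k (Finset.Ioo i k) := by
        ext x; simp only [Finset.mem_Ioo, Finset.mem_insert]
        have : i < k := hk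
        omega
      rw [h1, Finset.sum_insert (by simp), ih]
      ring
  have hset : {n : ℕ | n ∈ Finset.Ioo (zeroCount w) (zeroCount (w + W)) ∧
      G < xs T (n + 1) - xs T n} = ↑((Finset.Ioo (zeroCount w) (zeroCount (w + W))).filter
        fun n => G < xs T (n + 1) - xs T n) := by
    ext n; simp
  rw [hset, Set.ncard_coe_finset]
  rcases Nat.lt_or_ge (zeroCount w) (zeroCount (w + W)) with hlt | hge
  · have h1 : G * (((Finset.Ioo (zeroCount w) (zeroCount (w + W))).filter
        fun n => G < xs T (n + 1) - xs T n).card : ℝ) ≤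
        ∑ n ∈ Finset.Ioo (zeroCount w) (zeroCount (w + W)), (xs T (n + 1) - xs T n) := by
      calc G * (((Finset.Ioo (zeroCount w) (zeroCount (w + W))).filter
            fun n => G < xs T (n + 1) - xs T n).card : ℝ) =
            ∑ n ∈ (Finset.Ioo (zeroCount w) (zeroCount (w + W))).filter
              (fun n => G < xs T (n + 1) - xs T n), G := by
              rw [Finset.sum_const, nsmul_eq_mul]; ring
        _ ≤ ∑ n ∈ (Finset.Ioo (zeroCount w) (zeroCount (w + W))).filter
              (fun n => G < xs T (n + 1) - xs T n), (xs T (n + 1) - xs T n) :=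
            Finset.sum_le_sum fun n hn => (Finset.mem_filter.mp hn).2.le
        _ ≤ _ := by
            apply Finset.sum_le_sum_of_subset_of_nonneg (Finset.filter_subset _ _)
            intro n hn _
            have := hxmono n (n + 1) (by have := (Finset.mem_Ioo.mp hn).1; omega) (by omega)
            linarith
    rw [htele _ _ hlt] at h1
    have hj1 : 1 ≤ zeroCount (w + W) := by omega
    have h2 : ordinate (zeroCount (w + W)) ≤ w + W :=
      (le_zeroCount_iff (zeroCount_unbounded _) hj1).mp le_rfl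
    have h3 : w ≤ ordinate (zeroCount w + 1) := by
      by_contra hcon
      have := (le_zeroCount_iff (zeroCount_unbounded (zeroCount w + 1)) (by omega)).mpr
        (not_le.mp hcon).le
      omega
    have h4 : xs T (zeroCount (w + W)) - xs T (zeroCount w + 1) ≤ W * Real.log T := by
      have g1 : xs T (zeroCount (w + W)) - xs T (zeroCount w + 1) =
          (ordinate (zeroCount (w + W)) - ordinate (zeroCount w + 1)) * Real.log T / (2 * π) := by
        unfold xs; ring
      rw [g1, div_le_iff₀ (by positivity)]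
      have g2 : (ordinate (zeroCount (w + W)) - ordinate (zeroCount w + 1)) * Real.log T ≤
          W * Real.log T := mul_le_mul_of_nonneg_right (by linarith) hL0.le
      have g3 : 0 < W * Real.log T := by
        have : 0 < W := hW0
        positivity
      nlinarith
    have h5 : G * (((Finset.Ioo (zeroCount w) (zeroCount (w + W))).filter
        fun n => G < xs T (n + 1) - xs T n).card : ℝ) ≤ W * Real.log T := h1.trans h4
    have h6 : (0:ℝ) ≤ (((Finset.Ioo (zeroCount w) (zeroCount (w + W))).filter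
        fun n => G < xs T (n + 1) - xs T n).card : ℝ) := Nat.cast_nonneg _
    nlinarith
  · have : Finset.Ioo (zeroCount w) (zeroCount (w + W)) = ∅ := by
      apply Finset.Ioo_eq_empty; omega
    rw [this, Finset.filter_empty, Finset.card_empty, Nat.cast_zero]
    have : 0 < W := hW0
    positivity

end Pool.Agent.AHP
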