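import Pool.Agent.AHP.LongB
import Pool.Agent.AHP.NormA
import Pool.Agent.AHP.Lat
import Pool.Agent.AHP.Block

/-!
# The sharp pair correlation of a short block with few small gaps
-/

namespace Pool.Agent.AHP

open MeasureTheory Real Set Pool.Agent.ZGap.Gen Pool.Agent.ZetaGaps Pool.Agent.AHW

private lemma fin_min (f : ℕ → ℝ) (hf : ∀ k, 0 < f k) (N : ℕ) :
    ∃ δ : ℝ, 0 < δ ∧ ∀ k ≤ N, δ ≤ f k := by
  induction N with
  | zero => exact ⟨f 0, hf 0, fun k hk => by rw [Nat.le_zero.1 hk]⟩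
  | succ N ih =>
    obtain ⟨δ, hδ, h⟩ := ih
    refine ⟨min δ (f (N + 1)), lt_min hδ (hf _), fun k hk => ?_⟩
    rcases Nat.lt_or_ge k (N + 1) with h1 | h1
    · exact (min_le_left _ _).trans (h k (by omega))
    · rw [le_antisymm hk h1]
      exact min_le_right _ _

private lemma fin_max (g : ℕ → ℝ) (N : ℕ) : ∃ M : ℝ, ∀ k ≤ N, g k ≤ M := by
  induction N with
  | zero => exact ⟨g 0, fun k hk => by rw [Nat.le_zero.1 hk]⟩
  | succ N ih =>
    obtain ⟨M, h⟩ := ih
    refine ⟨max M (g (N + 1)), fun k hk => ?_⟩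
    rcases Nat.lt_or_ge k (N + 1) with h1 | h1
    · exact (h k (by omega)).trans (le_max_left _ _)
    · rw [le_antisymm hk h1]
      exact le_max_right _ _

/-- The extreme values of the cosine on the arc. -/
lemma arc_ext {a : ℝ} (ha : 0 < a) (ha1 : a < 1) (k : ℕ) : ∃ m M : ℝ,
    (∀ v : ℝ, 2 * a / (1 + a) ≤ v → v ≤ 1 →
      m ≤ Real.cos (π * k * v) ∧ Real.cos (π * k * v) ≤ M) ∧
    ∀ m' M' : ℝ, (∀ v : ℝ, 2 * a / (1 + a) ≤ v → v ≤ 1 →
      m' ≤ Real.cos (π * k * v) ∧ Real.cos (π * k * v) ≤ M') → m' ≤ m ∧ M ≤ M' := by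
  have h1 : 2 * a / (1 + a) ≤ 1 := by
    rw [div_le_one (by linarith)]
    linarith
  have hc : ContinuousOn (fun v : ℝ => Real.cos (π * k * v)) (Set.Icc (2 * a / (1 + a)) 1) :=
    (by fun_prop : Continuous fun v : ℝ => Real.cos (π * k * v)).continuousOn
  have hne : (Set.Icc (2 * a / (1 + a)) (1:ℝ)).Nonempty := ⟨1, h1, le_rfl⟩
  obtain ⟨v1, hv1, hm⟩ := isCompact_Icc.exists_isMinOn hne hc
  obtain ⟨v2, hv2, hM⟩ := isCompact_Icc.exists_isMaxOn hne hc
  refine ⟨Real.cos (π * k * v1), Real.cos (π * k * v2), fun v h2 h3 => ⟨?_, ?_⟩,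
    fun m' M' h => ⟨(h v1 hv1.1 hv1.2).1, (h v2 hv2.1 hv2.2).2⟩⟩
  · exact hm ⟨h2, h3⟩
  · exact hM ⟨h2, h3⟩

/-- The sharp inequalities for all `k ≤ N` at once. -/
lemma rk_sharp (hRH : RiemannHypothesis) {a ε κ : ℝ} (ha : 0 < a) (ha1 : a < 1)
    (hε : 0 < ε) (hε2 : ε ≤ 3 / 16) (hκ : 0 < κ) (N : ℕ) :
    ∃ δ : ℝ, 0 < δ ∧ ∃ T0 : ℝ, Real.exp 3 ≤ T0 ∧ ∀ T : ℝ, T0 ≤ T → ∀ H : ℝ, T ^ a ≤ H →
      H ≤ 3 * T → 0 ≤ NI T H → ∀ δ' : ℝ, δ' ≤ δ → SmA a T H δ' ≤ δ' * NI T H →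
      AwA a T H δ' ≤ δ' * NI T H →
      (∀ k : ℕ, 1 ≤ k → k ≤ N → ∀ m M : ℝ, (∀ v : ℝ, 2 * a / (1 + a) ≤ v → v ≤ 1 →
          m ≤ Real.cos (π * k * v) ∧ Real.cos (π * k * v) ≤ M) →
        (ck a k + a * (1 - a) * m - κ) * NI T H ≤ (1 + a) * AkA a T H ε k ∧
        (1 + a) * AkA a T H ε k ≤ (ck a k + a * (1 - a) * M + κ) * NI T H) ∧
      |AkA a T H ε 1 - G1A a T H ε| ≤ κ * NI T H := by
  have hpi := Real.pi_pos
  choose mk Mk hmM hex using fun k : ℕ => arc_ext ha ha1 k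
  have h1 : ∀ j : ℕ, _ := fun j => rk_ineq hRH (a := a) (A := -mk (j + 1)) (B := 1) (ε := ε)
    (κ := κ) (k := j + 1) ha ha1 (by omega) hε hε2 hκ
    (fun v hv hv1 => by linarith [(hmM (j + 1) v hv hv1).1])
  have h2 : ∀ j : ℕ, _ := fun j => rk_ineq hRH (a := a) (A := Mk (j + 1)) (B := -1) (ε := ε)
    (κ := κ) (k := j + 1) ha ha1 (by omega) hε hε2 hκ
    (fun v hv hv1 => by linarith [(hmM (j + 1) v hv hv1).2])
  choose δ1 hδ1 T1 hT1 h1 using h1
  choose δ2 hδ2 T2 hT2 h2 using h2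
  obtain ⟨d1, hd1, hd1'⟩ := fin_min δ1 hδ1 N
  obtain ⟨d2, hd2, hd2'⟩ := fin_min δ2 hδ2 N
  obtain ⟨M1, hM1⟩ := fin_max T1 N
  obtain ⟨M2, hM2⟩ := fin_max T2 N
  refine ⟨min d1 d2, lt_min hd1 hd2, max M1 M2, (hT1 0).trans ((hM1 0 (Nat.zero_le N)).trans
    (le_max_left _ _)), fun T hT H hH hH3 hN0 δ' hδ' hsm haw => ?_⟩
  have gM1 : M1 ≤ T := (le_max_left _ _).trans hT
  have gM2 : M2 ≤ T := (le_max_right _ _).trans hT
  have e1 : δ' ≤ d1 := hδ'.trans (min_le_left _ _)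
  have e2 : δ' ≤ d2 := hδ'.trans (min_le_right _ _)
  have haa : 0 ≤ a * (1 - a) := mul_nonneg ha.le (by linarith)
  refine ⟨fun k hk hkN m M hm => ?_, (h1 0 T ((hM1 0 (Nat.zero_le N)).trans gM1) H hH hH3 δ'
    (e1.trans (hd1' 0 (Nat.zero_le N))) hsm haw).2⟩
  obtain ⟨j, rfl⟩ : ∃ j, k = j + 1 := ⟨k - 1, by omega⟩
  have hj : j ≤ N := by omega
  obtain ⟨x1, x2⟩ := hex (j + 1) m M hm
  constructor
  · have h := (h1 j T ((hM1 j hj).trans gM1) H hH hH3 δ' (e1.trans (hd1' j hj)) hsm haw).1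
    have e4 : (-mk (j + 1) * (1 + a ^ 2) + 1 * ck a (j + 1) - κ) * NI T H =
        (ck a (j + 1) + a * (1 - a) * mk (j + 1) - κ) * NI T H -
          (1 + a) * (mk (j + 1) * NI T H) := by ring
    have e5 : (1 + a) * (-mk (j + 1) * NI T H + 1 * AkA a T H ε (j + 1)) =
        (1 + a) * AkA a T H ε (j + 1) - (1 + a) * (mk (j + 1) * NI T H) := by ring
    have e6 : (ck a (j + 1) + a * (1 - a) * m - κ) * NI T H ≤
        (ck a (j + 1) + a * (1 - a) * mk (j + 1) - κ) * NI T H :=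
      mul_le_mul_of_nonneg_right (by linarith [mul_le_mul_of_nonneg_left x1 haa]) hN0
    rw [e4, e5] at h
    linarith
  · have h := (h2 j T ((hM2 j hj).trans gM2) H hH hH3 δ' (e2.trans (hd2' j hj)) hsm haw).1
    have e4 : (Mk (j + 1) * (1 + a ^ 2) + -1 * ck a (j + 1) - κ) * NI T H =
        -((ck a (j + 1) + a * (1 - a) * Mk (j + 1) + κ) * NI T H) +
          (1 + a) * (Mk (j + 1) * NI T H) := by ring
    have e5 : (1 + a) * (Mk (j + 1) * NI T H + -1 * AkA a T H ε (j + 1)) =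
        (1 + a) * (Mk (j + 1) * NI T H) - (1 + a) * AkA a T H ε (j + 1) := by ring
    have e6 : (ck a (j + 1) + a * (1 - a) * Mk (j + 1) + κ) * NI T H ≤
        (ck a (j + 1) + a * (1 - a) * M + κ) * NI T H :=
      mul_le_mul_of_nonneg_right (by linarith [mul_le_mul_of_nonneg_left x2 haa]) hN0
    rw [e4, e5] at h
    linarith

/-- **The sharp pair correlation of a short block with few small gaps.** -/
theorem block_b (hRH : RiemannHypothesis) {a : ℝ} (ha : 0 < a) (ha1 : a < 1) : BlockPCb a := by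
  intro ε κ hε hε8 hκ
  classical
  have hpi := Real.pi_pos
  obtain ⟨N, hNd⟩ : ∃ N : ℕ, N = ⌊1 / ε⌋₊ + 1 := ⟨_, rfl⟩
  have hN : 1 ≤ N := by omega
  have hkN : ∀ k : ℕ, (k:ℝ) * ε ≤ 1 → k ≤ N := by
    intro k hk
    have h1 : (k:ℝ) ≤ 1 / ε := by rw [le_div_iff₀ hε]; exact hk
    have h2 := Nat.le_floor h1
    omega
  have ha2 : 0 < 1 + a := by linarith
  obtain ⟨δ1, hδ1, T1, hT1, P1⟩ := rk_sharp hRH (a := a) (ε := ε / 2 * ((1 + a) / 2)) (κ := κ / 8)
    ha ha1 (by positivity) (by nlinarith) (by positivity) N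
  obtain ⟨δ2, hδ2, T2, hT2, P2⟩ := rk_sharp hRH (a := a) (ε := (ε + 1 / 16) * ((1 + a) / 2))
    (κ := κ / 8) ha ha1 (by positivity) (by nlinarith) (by positivity) N
  obtain ⟨δc, hδcd⟩ : ∃ δc : ℝ, δc = min δ1 δ2 := ⟨_, rfl⟩
  have hδc : 0 < δc := by rw [hδcd]; exact lt_min hδ1 hδ2
  have hδc1 : δc ≤ δ1 := by rw [hδcd]; exact min_le_left _ _
  have hδc2 : δc ≤ δ2 := by rw [hδcd]; exact min_le_right _ _
  obtain ⟨δ0, hδ0, T3, D⟩ := dichotomy_long hRH (a := a) (ε := δc / 4) ha ha1.le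
    (by positivity)
  obtain ⟨G, T4, hG, BG⟩ := big_gaps_a (a := a) (κ := δc / 52) ha (by positivity)
  obtain ⟨R, hRd⟩ : ∃ R : ℝ, R = G + N + 2 := ⟨_, rfl⟩
  have hN0 : (0:ℝ) ≤ N := Nat.cast_nonneg N
  have hR : 0 < R := by rw [hRd]; linarith
  obtain ⟨κ5, hκ5d⟩ : ∃ κ5 : ℝ, κ5 = min (δc / 4) (min (ε / 2) (1 / 16)) := ⟨_, rfl⟩
  have hκ5 : 0 < κ5 := by
    rw [hκ5d]
    exact lt_min (by positivity) (lt_min (by positivity) (by norm_num))
  have hκ5a : κ5 ≤ δc / 4 := by rw [hκ5d]; exact min_le_left _ _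
  have hκ5b : κ5 ≤ ε / 2 := by rw [hκ5d]; exact (min_le_right _ _).trans (min_le_left _ _)
  have hκ5c : κ5 ≤ 1 / 16 := by rw [hκ5d]; exact (min_le_right _ _).trans (min_le_right _ _)
  obtain ⟨T5, hT5, NC⟩ := norm_close (κ := κ5) (R := R) hκ5 hR
  obtain ⟨T6, ED⟩ := edge_le_a (a := a) (κ := κ / 104) (R := R) ha (by positivity) hR
  obtain ⟨T7, hT7, CA⟩ := count_asymp (b' := a) (κ := 1 / 20) ha (by norm_num)
  obtain ⟨T8, hT8⟩ := Filter.eventually_atTop.mp
    ((tendsto_rpow_atTop ha).eventually_ge_atTop (40 / κ))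
  obtain ⟨δ, hδd⟩ : ∃ δ : ℝ, δ = min (δ0 / 2) (δc / 4) := ⟨_, rfl⟩
  have hδ : 0 < δ := by rw [hδd]; exact lt_min (by positivity) (by positivity)
  have hδa : δ ≤ δ0 / 2 := by rw [hδd]; exact min_le_left _ _
  have hδb : δ ≤ δc / 4 := by rw [hδd]; exact min_le_right _ _
  refine ⟨δ, hδ, max (max (max T1 T2) (max T3 T4)) (max (max T5 T6) (max T7 T8)),
    fun T hT H hH hH3 hsmall => ?_⟩
  have gA : max (max T1 T2) (max T3 T4) ≤ T := (le_max_left _ _).trans hT
  have gB : max (max T5 T6) (max T7 T8) ≤ T := (le_max_right _ _).trans hT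
  have g1 : T1 ≤ T := (le_max_left _ _).trans ((le_max_left _ _).trans gA)
  have g2 : T2 ≤ T := (le_max_right _ _).trans ((le_max_left _ _).trans gA)
  have g3 : T3 ≤ T := (le_max_left _ _).trans ((le_max_right _ _).trans gA)
  have g4 : T4 ≤ T := (le_max_right _ _).trans ((le_max_right _ _).trans gA)
  have g5 : T5 ≤ T := (le_max_left _ _).trans ((le_max_left _ _).trans gB)
  have g6 : T6 ≤ T := (le_max_right _ _).trans ((le_max_left _ _).trans gB)
  have g7 : T7 ≤ T := (le_max_left _ _).trans ((le_max_right _ _).trans gB)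
  have g8 : T8 ≤ T := (le_max_right _ _).trans ((le_max_right _ _).trans gB)
  have hTe : Real.exp 3 ≤ T := hT7.trans g7
  have hTp : 0 < T := lt_of_lt_of_le (Real.exp_pos 3) hTe
  have hT1' : 1 ≤ T := by
    have : (1:ℝ) ≤ Real.exp 3 := Real.one_le_exp (by norm_num)
    linarith
  have hTa : 0 < T ^ a := Real.rpow_pos_of_pos hTp a
  have hH0 : 0 < H := lt_of_lt_of_le hTa hH
  have hL3 : 3 ≤ Real.log T := by rw [Real.le_log_iff_exp_le hTp]; exact hTe
  have hHL : 0 < H * Real.log T := by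
    have : 0 < Real.log T := by linarith
    positivity
  have hlow : H * Real.log T ≤ 13 * NI T H := by
    have h1 := (abs_le.mp (CA T g7 T H le_rfl hH (by linarith))).1
    change -(1 / 20 * (H * Real.log T)) ≤ NI T H - H * Real.log T / (2 * π) at h1
    have hpi2 : π ≤ 63 / 20 := by
      have := Real.pi_lt_d2
      norm_num at this
      linarith
    have h2 : H * Real.log T * (10 / 63) ≤ H * Real.log T / (2 * π) := by
      rw [le_div_iff₀ (by positivity)]
      nlinarith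
    linarith
  have hij : zeroCount T ≤ zeroCount (T + H) := zeroCount_mono (by linarith)
  have hJ : 0 < NI T H := by linarith
  have hbig : 1 ≤ κ / 8 * NI T H := by
    have h0 : 40 / κ ≤ H := (hT8 T g8).trans hH
    have h1 : H * 3 ≤ H * Real.log T := mul_le_mul_of_nonneg_left hL3 hH0.le
    have h2 : 40 ≤ H * κ := by
      rw [div_le_iff₀ hκ] at h0
      exact h0
    nlinarith
  have hZ : Zc T H = NI T H := rfl
  rw [hZ] at hsmall
  have hJd : (zeroCount (T + H) : ℝ) - zeroCount T = NI T H := rfl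
  -- ordinates of the window
  have hord : ∀ n, zeroCount T < n → n ≤ zeroCount (T + H) →
      1 ≤ n ∧ T ≤ ordinate n ∧ ordinate n ≤ 4 * T := by
    intro n h1 h2
    have h3 : 1 ≤ n := by omega
    refine ⟨h3, Me_gt h1, ?_⟩
    have h4 := (le_zeroCount_iff (zeroCount_unbounded n) h3 (T := T + H)).1 h2
    linarith
  -- the dichotomy
  have hfar : cn (fun n => ∀ m : ℤ, δc / 4 < |gap n - m / (1 + a)|) (zeroCount T)
      (zeroCount (T + H)) ≤ δc / 4 * NI T H := by
    have h := D T g3 H hH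
    rw [hJd] at h
    rcases h with h1 | h1
    · exfalso
      have h2 : ((({n ∈ Finset.Ioc (zeroCount T) (zeroCount (T + H)) |
          gap n < 1 / (1 + a) - δ0} : Finset ℕ).card : ℕ) : ℝ) ≤
          cn (fun n => gap n < 1 / (1 + a) - δ) (zeroCount T) (zeroCount (T + H)) := by
        apply card_filter_le_ncard (cn_fin _ _ _)
        intro n hn hg
        exact ⟨hn, by linarith⟩
      have h3 : δ * NI T H ≤ δ0 / 2 * NI T H := mul_le_mul_of_nonneg_right hδa hJ.le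
      have h4 : 0 < δ0 / 2 * NI T H := by positivity
      have h5 : cn (fun n => gap n < 1 / (1 + a) - δ) (zeroCount T) (zeroCount (T + H)) ≤
        δ * NI T H := hsmall
      linarith
    · exact h1
  -- gaps
  have hgap : ∀ n, zeroCount T < n → n < zeroCount (T + H) → ∀ r : ℝ, r ≤ R →
      xs T (n + 1) - xs T n ≤ r ∨ gap n ≤ r →
      xs T (n + 1) - xs T n ≤ gap n ∧ gap n ≤ xs T (n + 1) - xs T n + κ5 := by
    intro n h1 h2 r hr hrr
    obtain ⟨o1, o2, o3⟩ := hord n h1 h2.le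
    exact NC T g5 n (n + 1) o1 (by omega) o2 o3 (hrr.imp (fun h => h.trans hr)
      (fun h => le_trans h hr))
  -- the scaling
  obtain ⟨θ, hθ⟩ : ∃ θ : ℝ, θ = 1 / (1 + a) := ⟨_, rfl⟩
  have hθ0 : 0 < θ := by rw [hθ]; positivity
  have hθ1 : θ ≤ 1 := by rw [hθ, div_le_one ha2]; linarith
  have hθm : ∀ x : ℝ, x / (1 + a) = x * θ := fun x => by rw [hθ]; ring
  obtain ⟨s, hs⟩ : ∃ s : ℝ, s = (1 + a) / 2 := ⟨_, rfl⟩
  have hs0 : 0 < s := by rw [hs]; positivity
  have hs1 : s ≤ 1 := by rw [hs]; linarith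
  have hsθ : s * θ = 1 / 2 := by rw [hs, hθ]; field_simp
  have hys : ∀ m n : ℕ, ∀ x : ℝ, ys a T m - ys a T n - x / 2 =
      s * (xs T m - xs T n - x * θ) := by
    intro m n x
    unfold ys
    rw [← hs]
    have : s * (x * θ) = x / 2 := by
      have : s * (x * θ) = x * (s * θ) := by ring
      rw [this, hsθ]; ring
    linarith
  have hyst : ∀ m n : ℕ, ∀ x t : ℝ, |ys a T m - ys a T n - x / 2| ≤ t * s ↔
      |xs T m - xs T n - x * θ| ≤ t := by
    intro m n x t
    rw [hys, abs_mul, abs_of_pos hs0, mul_comm t s]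
    exact mul_le_mul_iff_right₀ hs0
  have hhalf : θ ≤ R := by rw [hRd]; linarith
  have hGR : G ≤ R := by rw [hRd]; linarith
  have hsm : SmA a T H δc ≤ δc * NI T H := by
    have h1 : SmA a T H δc ≤ cn (fun n => gap n < 1 / (1 + a) - δ) (zeroCount T)
        (zeroCount (T + H)) := by
      unfold SmA
      apply card_filter_le_ncard (cn_fin _ _ _)
      intro n hn hg
      rw [Finset.mem_Ioo] at hn
      have e1 := hys (n + 1) n 1
      have e2 : s * (xs T (n + 1) - xs T n - 1 * θ) < -δc := by linarith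
      have e3 : xs T (n + 1) - xs T n - 1 * θ < -δc := by
        by_contra hc
        push Not at hc
        have h5 : s * (-δc) ≤ s * (xs T (n + 1) - xs T n - 1 * θ) :=
          mul_le_mul_of_nonneg_left hc hs0.le
        have h6 : s * δc ≤ 1 * δc := mul_le_mul_of_nonneg_right hs1 hδc.le
        linarith
      have h2 := (hgap n hn.1 hn.2 θ hhalf (Or.inl (by linarith))).2
      refine ⟨Finset.mem_Ioc.2 ⟨hn.1, hn.2.le⟩, ?_⟩
      rw [← hθ]
      linarith
    have h2 : δ * NI T H ≤ δc * NI T H := mul_le_mul_of_nonneg_right (by linarith) hJ.le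
    have h5 : cn (fun n => gap n < 1 / (1 + a) - δ) (zeroCount T) (zeroCount (T + H)) ≤
      δ * NI T H := hsmall
    linarith
  have haw : AwA a T H δc ≤ δc * NI T H := by
    have h1 : AwA a T H δc ≤ cn (fun n => ∀ m : ℤ, δc / 4 < |gap n - m / (1 + a)|) (zeroCount T)
        (zeroCount (T + H)) + ({n : ℕ | n ∈ Finset.Ioo (zeroCount T) (zeroCount (T + H)) ∧
          G < xs T (n + 1) - xs T n}.ncard : ℝ) := by
      unfold AwA
      apply card_filter_le_add (cn_fin _ _ _)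
        ((Finset.finite_toSet _).subset (fun n hn => Finset.mem_coe.2 hn.1))
      intro n hn hg
      have hn' := Finset.mem_Ioo.1 hn
      by_cases hbg : G < xs T (n + 1) - xs T n
      · exact Or.inr ⟨hn, hbg⟩
      · left
        push Not at hbg
        obtain ⟨h2, h3⟩ := hgap n hn'.1 hn'.2 G hGR (Or.inl hbg)
        refine ⟨Finset.mem_Ioc.2 ⟨hn'.1, hn'.2.le⟩, fun m => ?_⟩
        have h4 := hg m
        rw [hys (n + 1) n m, abs_mul, abs_of_pos hs0] at h4
        have h4' : δc < |xs T (n + 1) - xs T n - m * θ| := by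
          have h7 : s * |xs T (n + 1) - xs T n - m * θ| ≤
              1 * |xs T (n + 1) - xs T n - m * θ| :=
            mul_le_mul_of_nonneg_right hs1 (abs_nonneg _)
          linarith
        rw [hθm]
        have h5 : |xs T (n + 1) - xs T n - m * θ| ≤ |gap n - m * θ| +
            |gap n - (xs T (n + 1) - xs T n)| := by
          have h6 : xs T (n + 1) - xs T n - m * θ =
              (gap n - m * θ) - (gap n - (xs T (n + 1) - xs T n)) := by ring
          rw [h6]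
          exact (abs_sub _ _)
        have h6 : |gap n - (xs T (n + 1) - xs T n)| ≤ κ5 := by
          rw [abs_le]
          constructor <;> linarith
        linarith
    have h2 := BG T g4 T H le_rfl hH (by linarith)
    have h3 : δc / 52 * (H * Real.log T) ≤ δc / 4 * NI T H := by
      have : δc / 52 * (H * Real.log T) ≤ δc / 52 * (13 * NI T H) :=
        mul_le_mul_of_nonneg_left hlow (by positivity)
      linarith
    have h4 : 0 ≤ δc * NI T H := by positivity
    linarith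
  obtain ⟨A1, B1⟩ := P1 T g1 H hH hH3 hJ.le δc hδc1 hsm haw
  obtain ⟨A2, B2⟩ := P2 T g2 H hH hH3 hJ.le δc hδc2 hsm haw
  rw [← hs] at A1 B1 A2 B2
  -- gaps near `θ`
  have hlo : G1A a T H (ε / 2 * s) ≤ cn (fun n => |gap n - 1 / (1 + a)| ≤ ε) (zeroCount T)
      (zeroCount (T + H)) := by
    unfold G1A
    apply card_filter_le_ncard (cn_fin _ _ _)
    intro n hn hg
    rw [Finset.mem_Ioo] at hn
    have hg' := (hyst (n + 1) n 1 (ε / 2)).1 hg
    have h0 := abs_le.mp hg'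
    obtain ⟨h2, h3⟩ := hgap n hn.1 hn.2 2 (by rw [hRd]; linarith) (Or.inl (by linarith))
    refine ⟨Finset.mem_Ioc.2 ⟨hn.1, hn.2.le⟩, ?_⟩
    rw [← hθ, abs_le]
    constructor <;> linarith
  have hup : cn (fun n => |gap n - 1 / (1 + a)| ≤ ε) (zeroCount T) (zeroCount (T + H)) ≤
      G1A a T H ((ε + 1 / 16) * s) + (({zeroCount (T + H)} : Set ℕ).ncard : ℝ) := by
    unfold G1A cn
    apply ncard_le_card_add (Set.finite_singleton _)
    rintro n ⟨hn, hg⟩
    rw [Finset.mem_Ioc] at hn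
    by_cases he : n = zeroCount (T + H)
    · right
      exact he
    · left
      have hn2 : n < zeroCount (T + H) := lt_of_le_of_ne hn.2 he
      rw [← hθ] at hg
      have h0 := abs_le.mp hg
      obtain ⟨h2, h3⟩ := hgap n hn.1 hn2 2 (by rw [hRd]; linarith) (Or.inr (by linarith))
      refine ⟨Finset.mem_Ioo.2 ⟨hn.1, hn2⟩, ?_⟩
      apply (hyst (n + 1) n 1 (ε + 1 / 16)).2
      rw [abs_le]
      constructor <;> linarith
  rw [Set.ncard_singleton, Nat.cast_one] at hup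
  have hκN : 0 ≤ κ * NI T H := by positivity
  have hG1a := abs_le.mp B1
  have hG2a := abs_le.mp B2
  intro k hk hkε mm MM hmM
  have hkN' := hkN k hkε
  have h9 : (1 + a) * (κ / 8 * NI T H) ≤ 2 * (κ / 8 * NI T H) :=
    mul_le_mul_of_nonneg_right (by linarith) (by positivity)
  obtain ⟨u1, -⟩ := A1 k hk hkN' mm MM hmM
  obtain ⟨-, u2⟩ := A2 k hk hkN' mm MM hmM
  have e4 : (ck a k + a * (1 - a) * mm - κ) * NI T H =
      (ck a k + a * (1 - a) * mm - κ / 8) * NI T H - 7 / 8 * (κ * NI T H) := by ring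
  have e4' : (ck a k + a * (1 - a) * MM + κ) * NI T H =
      (ck a k + a * (1 - a) * MM + κ / 8) * NI T H + 7 / 8 * (κ * NI T H) := by ring
  refine ⟨?_, ?_⟩
  · have hkR : (k:ℝ) ≤ N := by exact_mod_cast hkN'
    have hk0 : (0:ℝ) ≤ k := Nat.cast_nonneg k
    have hkθ : (k:ℝ) * θ ≤ N := by
      have : (k:ℝ) * θ ≤ k * 1 := mul_le_mul_of_nonneg_left hθ1 hk0
      linarith
    change (ck a k + a * (1 - a) * mm - κ) * NI T H ≤ (1 + a) * cn (fun n => ∃ m', n < m' ∧
      |normOrdinate m' - normOrdinate n - k / (1 + a)| ≤ ε) (zeroCount T) (zeroCount (T + H)) ∧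
      (1 + a) * cn (fun n => ∃ m', n < m' ∧
      |normOrdinate m' - normOrdinate n - k / (1 + a)| ≤ ε) (zeroCount T) (zeroCount (T + H)) ≤
      (ck a k + a * (1 - a) * MM + κ) * NI T H
    have hlo : AkA a T H (ε / 2 * s) k ≤ cn (fun n => ∃ m, n < m ∧
        |normOrdinate m - normOrdinate n - k / (1 + a)| ≤ ε) (zeroCount T)
          (zeroCount (T + H)) := by
      unfold AkA
      apply card_filter_le_ncard (cn_fin _ _ _)
      rintro n hn ⟨m, hm, hnm, hg⟩
      have hn' := Finset.mem_Ioc.1 hn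
      obtain ⟨o1, o2, o3⟩ := hord n hn'.1 hn'.2
      have hg' := (hyst m n k (ε / 2)).1 hg
      have h0 := abs_le.mp hg'
      have hxR : xs T m - xs T n ≤ R := by rw [hRd]; linarith
      obtain ⟨h2, h3⟩ := NC T g5 n m o1 hnm.le o2 o3 (Or.inl hxR)
      refine ⟨hn, m, hnm, ?_⟩
      rw [hθm, abs_le]
      constructor <;> linarith
    have hfin : {n : ℕ | n ∈ In T H ∧ ∃ m, n < m ∧ m ∉ In T H ∧
        normOrdinate m - normOrdinate n ≤ R}.Finite :=
      (Finset.finite_toSet (In T H)).subset (fun n hn => Finset.mem_coe.2 hn.1)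
    have hup2 : cn (fun n => ∃ m, n < m ∧
        |normOrdinate m - normOrdinate n - k / (1 + a)| ≤ ε) (zeroCount T)
          (zeroCount (T + H)) ≤
        AkA a T H ((ε + 1 / 16) * s) k + ({n : ℕ | n ∈ In T H ∧ ∃ m, n < m ∧ m ∉ In T H ∧
          normOrdinate m - normOrdinate n ≤ R}.ncard : ℝ) := by
      unfold AkA cn
      apply ncard_le_card_add hfin
      rintro n ⟨hn, m, hnm, hg⟩
      have hn' := Finset.mem_Ioc.1 hn
      obtain ⟨o1, o2, o3⟩ := hord n hn'.1 hn'.2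
      rw [hθm] at hg
      have h0 := abs_le.mp hg
      have hxR : normOrdinate m - normOrdinate n ≤ R := by rw [hRd]; linarith
      obtain ⟨h2, h3⟩ := NC T g5 n m o1 hnm.le o2 o3 (Or.inr hxR)
      by_cases hmI : m ∈ In T H
      · left
        refine ⟨hn, m, hmI, hnm, ?_⟩
        apply (hyst m n k (ε + 1 / 16)).2
        rw [abs_le]
        constructor <;> linarith
      · right
        exact ⟨hn, m, hnm, hmI, hxR⟩
    have hed := ED T g6 T H le_rfl hH (by linarith)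
    have h5 : κ / 104 * (H * Real.log T) ≤ κ / 8 * NI T H := by
      have : κ / 104 * (H * Real.log T) ≤ κ / 104 * (13 * NI T H) :=
        mul_le_mul_of_nonneg_left hlow (by positivity)
      linarith
    have h6 := mul_le_mul_of_nonneg_left hlo ha2.le
    have h7 : cn (fun n => ∃ m, n < m ∧
        |normOrdinate m - normOrdinate n - k / (1 + a)| ≤ ε) (zeroCount T)
          (zeroCount (T + H)) ≤ AkA a T H ((ε + 1 / 16) * s) k + κ / 8 * NI T H := by linarith
    have h8 := mul_le_mul_of_nonneg_left h7 ha2.le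
    have e7 : (1 + a) * (AkA a T H ((ε + 1 / 16) * s) k + κ / 8 * NI T H) =
        (1 + a) * AkA a T H ((ε + 1 / 16) * s) k + (1 + a) * (κ / 8 * NI T H) := by ring
    constructor <;> linarith
  · intro hk1
    subst hk1
    change (ck a 1 + a * (1 - a) * mm - κ) * NI T H ≤
      (1 + a) * cn (fun n => |gap n - 1 / (1 + a)| ≤ ε) (zeroCount T) (zeroCount (T + H)) ∧
      (1 + a) * cn (fun n => |gap n - 1 / (1 + a)| ≤ ε) (zeroCount T) (zeroCount (T + H)) ≤
      (ck a 1 + a * (1 - a) * MM + κ) * NI T H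
    have h1 : AkA a T H (ε / 2 * s) 1 - κ / 8 * NI T H ≤
        cn (fun n => |gap n - 1 / (1 + a)| ≤ ε) (zeroCount T) (zeroCount (T + H)) := by
      linarith [hG1a.2]
    have h2 := mul_le_mul_of_nonneg_left h1 ha2.le
    have h1' : cn (fun n => |gap n - 1 / (1 + a)| ≤ ε) (zeroCount T) (zeroCount (T + H)) ≤
        AkA a T H ((ε + 1 / 16) * s) 1 + κ / 8 * NI T H + κ / 8 * NI T H := by
      linarith [hG2a.1]
    have h2' := mul_le_mul_of_nonneg_left h1' ha2.le
    have e5 : (1 + a) * (AkA a T H (ε / 2 * s) 1 - κ / 8 * NI T H) =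
        (1 + a) * AkA a T H (ε / 2 * s) 1 - (1 + a) * (κ / 8 * NI T H) := by ring
    have e5' : (1 + a) * (AkA a T H ((ε + 1 / 16) * s) 1 + κ / 8 * NI T H + κ / 8 * NI T H) =
        (1 + a) * AkA a T H ((ε + 1 / 16) * s) 1 + 2 * ((1 + a) * (κ / 8 * NI T H)) := by ring
    constructor <;> linarith

end Pool.Agent.AHP
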