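import Pool.Agent.AHP.CombE

/-!
# Sums of an even function over pairs, and over the pairs near half integral distances
-/

namespace Pool.Agent.AHP

open Finset

theorem sum_sym {g : ℝ → ℝ} (hg : ∀ x, g (-x) = g x) (x : ℕ → ℝ) {i j : ℕ} (hij : i ≤ j) :
    ∑ n ∈ Ioc i j, ∑ m ∈ Ioc i j, g (x n - x m) =
      g 0 * ((j:ℝ) - i) + 2 * ∑ p ∈ PP i j, g (x p.2 - x p.1) := by
  classical
  set Q := Ioc i j ×ˢ Ioc i j with hQ
  have h1 : ∑ n ∈ Ioc i j, ∑ m ∈ Ioc i j, g (x n - x m) = ∑ p ∈ Q, g (x p.1 - x p.2) := by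
    rw [hQ, Finset.sum_product]
  have h2 : ∑ p ∈ Q, g (x p.1 - x p.2) = ∑ p ∈ Q with p.1 < p.2, g (x p.1 - x p.2) +
      ∑ p ∈ Q with ¬ p.1 < p.2, g (x p.1 - x p.2) :=
    (Finset.sum_filter_add_sum_filter_not Q (fun p => p.1 < p.2) _).symm
  have h3 : ∑ p ∈ Q with ¬ p.1 < p.2, g (x p.1 - x p.2) =
      ∑ p ∈ Q with p.1 = p.2, g (x p.1 - x p.2) + ∑ p ∈ Q with p.2 < p.1, g (x p.1 - x p.2) := by
    rw [← Finset.sum_filter_add_sum_filter_not (Q.filter fun p => ¬ p.1 < p.2)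
      (fun p => p.1 = p.2), Finset.filter_filter, Finset.filter_filter]
    congr 1
    · refine Finset.sum_congr (Finset.filter_congr fun p _ => ?_) fun _ _ => rfl
      constructor
      · exact fun h => h.2
      · exact fun h => ⟨by omega, h⟩
    · refine Finset.sum_congr (Finset.filter_congr fun p _ => ?_) fun _ _ => rfl
      constructor
      · rintro ⟨h1, h2⟩
        omega
      · intro h
        exact ⟨by omega, by omega⟩
  have h4 : ∑ p ∈ Q with p.1 = p.2, g (x p.1 - x p.2) = g 0 * ((j:ℝ) - i) := by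
    have e1 : ∑ p ∈ Q with p.1 = p.2, g (x p.1 - x p.2) = ∑ _n ∈ Ioc i j, g 0 := by
      refine Finset.sum_nbij' Prod.fst (fun n => (n, n)) ?_ ?_ ?_ (fun _ _ => rfl) ?_
      · intro p hp
        simp only [hQ, Finset.mem_filter, Finset.mem_product] at hp
        exact hp.1.1
      · intro n hn
        simp only [hQ, Finset.mem_filter, Finset.mem_product]
        exact ⟨⟨hn, hn⟩, trivial⟩
      · intro p hp
        simp only [Finset.mem_filter] at hp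
        exact Prod.ext rfl hp.2
      · intro p hp
        simp only [Finset.mem_filter] at hp
        rw [hp.2, sub_self]
    rw [e1]
    simp only [Finset.sum_const, Nat.card_Ioc, nsmul_eq_mul]
    rw [Nat.cast_sub hij]
    ring
  have h5 : ∑ p ∈ Q with p.1 < p.2, g (x p.1 - x p.2) = ∑ p ∈ PP i j, g (x p.2 - x p.1) := by
    refine Finset.sum_congr ?_ fun p _ => ?_
    · ext p
      simp only [PP, Finset.mem_filter, hQ]
    · rw [← hg, neg_sub]
  have h6 : ∑ p ∈ Q with p.2 < p.1, g (x p.1 - x p.2) = ∑ p ∈ PP i j, g (x p.2 - x p.1) := by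
    refine Finset.sum_nbij' Prod.swap Prod.swap ?_ ?_ (fun _ _ => rfl) (fun _ _ => rfl)
      (fun _ _ => rfl)
    · intro p hp
      simp only [hQ, Finset.mem_filter, Finset.mem_product, Finset.mem_Ioc] at hp
      rw [mem_PP]
      simp only [Prod.fst_swap, Prod.snd_swap]
      omega
    · intro p hp
      rw [mem_PP] at hp
      simp only [hQ, Finset.mem_filter, Finset.mem_product, Finset.mem_Ioc, Prod.fst_swap,
        Prod.snd_swap]
      omega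
  rw [h1, h2, h3, h4, h5, h6]
  ring

theorem far_term {Cg : ℝ} (hCg : 0 < Cg) {g : ℝ → ℝ} (hg : ∀ x, |g x| ≤ Cg / (1 + |x| ^ 3))
    {K : ℕ} (hK : 1 ≤ K) {y : ℝ} (hy : (K:ℝ) / 2 + 1 / 4 < y) :
    |g y| ≤ 4 * Cg / K * (1 / (1 + y ^ 2)) := by
  have hK0 : (1:ℝ) ≤ K := by exact_mod_cast hK
  have y0 : 0 < y := by linarith
  refine (hg y).trans ?_
  rw [abs_of_pos y0, div_mul_div_comm, mul_one, div_le_div_iff₀ (by positivity) (by positivity)]
  have h1 : (K:ℝ) ≤ 2 * y := by linarith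
  have h2 : y ≤ 1 + y ^ 3 := by nlinarith [sq_nonneg (y - 1), pow_pos y0 3]
  have h3 : (K:ℝ) * (1 + y ^ 2) ≤ 4 * (1 + y ^ 3) := by
    calc (K:ℝ) * (1 + y ^ 2) ≤ 2 * y * (1 + y ^ 2) := by gcongr
      _ = 2 * y + 2 * y ^ 3 := by ring
      _ ≤ 2 * (1 + y ^ 3) + 2 * (1 + y ^ 3) := by linarith
      _ = 4 * (1 + y ^ 3) := by ring
  calc Cg * (K * (1 + y ^ 2)) ≤ Cg * (4 * (1 + y ^ 3)) := by gcongr
    _ = 4 * Cg * (1 + y ^ 3) := by ring

/-- A sum over pairs against the double sum of the weights. -/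
theorem sum_PP_le (x : ℕ → ℝ) (i j : ℕ) (S : Finset (ℕ × ℕ)) (hS : S ⊆ PP i j) :
    ∑ p ∈ S, 1 / (1 + (x p.2 - x p.1) ^ 2) ≤
      ∑ n ∈ Ioc i j, ∑ m ∈ Ioc i j, 1 / (1 + (x n - x m) ^ 2) := by
  rw [← Finset.sum_product']
  have h1 : S ⊆ Ioc i j ×ˢ Ioc i j := hS.trans (Finset.filter_subset _ _)
  refine (Finset.sum_le_sum_of_subset_of_nonneg h1 fun _ _ _ => by positivity).trans
    (le_of_eq ?_)
  refine Finset.sum_congr rfl fun p _ => ?_
  rw [← neg_sub (x p.1) (x p.2), neg_sq]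

/-- The sum over the `k` with `y` near `k / 2`. -/
noncomputable def hs (g : ℝ → ℝ) (ε : ℝ) (K : ℕ) (y : ℝ) : ℝ :=
  ∑ k ∈ Finset.Icc 1 K, Set.indicator {k : ℕ | |y - k / 2| ≤ ε} (fun k : ℕ => g (k / 2)) k

theorem hs_eq {g : ℝ → ℝ} {ε y : ℝ} (hε : ε ≤ 3 / 16) {K k₀ : ℕ} (hk : k₀ ∈ Finset.Icc 1 K)
    (h : |y - k₀ / 2| ≤ ε) : hs g ε K y = g (k₀ / 2) := by
  unfold hs
  rw [Finset.sum_eq_single k₀]
  · exact Set.indicator_of_mem (show k₀ ∈ {k : ℕ | |y - k / 2| ≤ ε} from h) _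
  · intro k _ hne
    refine Set.indicator_of_notMem (fun hk2 => hne ?_) _
    have h2 : |y - k / 2| ≤ ε := hk2
    rw [abs_le] at h h2
    have h3 : (k:ℝ) - k₀ < 1 := by linarith [h.1, h2.2, h.2, h2.1]
    have h4 : (k₀:ℝ) - k < 1 := by linarith [h.1, h2.2, h.2, h2.1]
    have h5 : (k:ℝ) < k₀ + 1 := by linarith
    have h6 : (k₀:ℝ) < k + 1 := by linarith
    have h7 : k < k₀ + 1 := by exact_mod_cast h5
    have h8 : k₀ < k + 1 := by exact_mod_cast h6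
    omega
  · exact fun h0 => (h0 hk).elim

theorem hs_far {g : ℝ → ℝ} {ε y : ℝ} (hε : ε ≤ 3 / 16) {K : ℕ} (h : (K:ℝ) / 2 + 1 / 4 < y) :
    hs g ε K y = 0 := by
  refine Finset.sum_eq_zero fun k hk => Set.indicator_of_notMem (fun hk2 => ?_) _
  have h2 : |y - k / 2| ≤ ε := hk2
  have h3 : (k:ℝ) ≤ K := by exact_mod_cast (Finset.mem_Icc.1 hk).2
  rw [abs_le] at h2
  linarith [h2.2]

theorem hs_abs {g : ℝ → ℝ} {Cg : ℝ} (hCg : 0 ≤ Cg) (hg : ∀ x, |g x| ≤ Cg) {ε y : ℝ}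
    (hε : ε ≤ 3 / 16) {K : ℕ} : |hs g ε K y| ≤ Cg := by
  by_cases h : ∃ k₀ ∈ Finset.Icc 1 K, |y - (k₀ : ℕ) / 2| ≤ ε
  · obtain ⟨k₀, hk, h⟩ := h
    rw [hs_eq hε hk h]
    exact hg _
  · have : hs g ε K y = 0 := by
      refine Finset.sum_eq_zero fun k hk => Set.indicator_of_notMem ?_ _
      exact fun hk2 => h ⟨k, hk, hk2⟩
    rw [this, abs_zero]
    exact hCg

theorem sum_Rk (g : ℝ → ℝ) (x : ℕ → ℝ) (i j : ℕ) (ε : ℝ) (K : ℕ) :
    ∑ k ∈ Finset.Icc 1 K, g (k / 2) * Rk x i j ε k = ∑ p ∈ PP i j, hs g ε K (x p.2 - x p.1) := by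
  classical
  unfold hs
  rw [Finset.sum_comm]
  refine Finset.sum_congr rfl fun k _ => ?_
  have h1 : Rk x i j ε k = ((PP i j).filter fun p => |x p.2 - x p.1 - k / 2| ≤ ε).card := by
    unfold Rk PP
    rw [Finset.filter_filter]
  rw [h1, Finset.card_filter]
  push_cast
  rw [Finset.mul_sum]
  refine Finset.sum_congr rfl fun p _ => ?_
  by_cases h : |x p.2 - x p.1 - k / 2| ≤ ε
  · rw [if_pos h, mul_one]
    exact (Set.indicator_of_mem (s := {k : ℕ | |x p.2 - x p.1 - k / 2| ≤ ε}) h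
      (fun k : ℕ => g (k / 2))).symm
  · rw [if_neg h, mul_zero]
    exact (Set.indicator_of_notMem (s := {k : ℕ | |x p.2 - x p.1 - k / 2| ≤ ε}) h
      (fun k : ℕ => g (k / 2))).symm

end Pool.Agent.AHP
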