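import Pool.Agent.AHP.Defs

/-!
# Definitions for the combinatorics of pairs
-/

namespace Pool.Agent.AHP

open Classical in
/-- The pairs of indices `n < m` of the block. -/
noncomputable def PP (i j : ℕ) : Finset (ℕ × ℕ) :=
  (Finset.Ioc i j ×ˢ Finset.Ioc i j).filter fun p => p.1 < p.2

open Classical in
/-- The bad gaps. -/
noncomputable def BG (x : ℕ → ℝ) (i j : ℕ) (δ : ℝ) : Finset ℕ :=
  (Finset.Ioo i j).filter fun n =>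
    x (n + 1) - x n < 1 / 2 - δ ∨ ∀ m : ℤ, δ < |x (n + 1) - x n - m / 2|

open Classical in
/-- The pairs at bounded distance with a bad gap between them. -/
noncomputable def NB (x : ℕ → ℝ) (i j : ℕ) (δ : ℝ) (K : ℕ) : Finset (ℕ × ℕ) :=
  (PP i j).filter fun p => x p.2 - x p.1 ≤ K + 1 ∧ ∃ l ∈ BG x i j δ, p.1 ≤ l ∧ l < p.2

theorem mem_PP {i j : ℕ} {p : ℕ × ℕ} : p ∈ PP i j ↔ i < p.1 ∧ p.1 < p.2 ∧ p.2 ≤ j := by
  simp only [PP, Finset.mem_filter, Finset.mem_product, Finset.mem_Ioc]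
  constructor
  · rintro ⟨⟨⟨a, b⟩, c, d⟩, e⟩
    exact ⟨a, e, d⟩
  · rintro ⟨a, b, c⟩
    exact ⟨⟨⟨a, by omega⟩, by omega, c⟩, b⟩

theorem mem_BG {x : ℕ → ℝ} {i j : ℕ} {δ : ℝ} {n : ℕ} : n ∈ BG x i j δ ↔ (i < n ∧ n < j) ∧
    (x (n + 1) - x n < 1 / 2 - δ ∨ ∀ m : ℤ, δ < |x (n + 1) - x n - m / 2|) := by
  simp only [BG, Finset.mem_filter, Finset.mem_Ioo]

theorem mem_NB {x : ℕ → ℝ} {i j : ℕ} {δ : ℝ} {K : ℕ} {p : ℕ × ℕ} : p ∈ NB x i j δ K ↔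
    (i < p.1 ∧ p.1 < p.2 ∧ p.2 ≤ j) ∧ x p.2 - x p.1 ≤ K + 1 ∧
      ∃ l ∈ BG x i j δ, p.1 ≤ l ∧ l < p.2 := by
  simp only [NB, Finset.mem_filter, mem_PP]

end Pool.Agent.AHP
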