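import Pool.Agent.AHP.Defs

/-!
# Constants of the pair kernels
-/

namespace Pool.Agent.AHP

open MeasureTheory Real Set Pool.Agent.ZGap.Gen

lemma int_cos_int (k : ℤ) :
    ∫ v in (0:ℝ)..1, Real.cos (π * k * v) = if k = 0 then 1 else 0 := by
  split_ifs with h
  · subst h; simp
  · have hk : (k : ℝ) ≠ 0 := by exact_mod_cast h
    have hpk : π * (k : ℝ) ≠ 0 := mul_ne_zero Real.pi_ne_zero hk
    rw [intervalIntegral.integral_comp_mul_left (fun x => Real.cos x) hpk, integral_cos]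
    rw [mul_one, mul_zero, Real.sin_zero, mul_comm π, Real.sin_int_mul_pi]
    simp

lemma int_v_cos_int (k : ℤ) (h : k ≠ 0) :
    ∫ v in (0:ℝ)..1, v * Real.cos (π * k * v) = ((-1) ^ k - 1) / (π * k) ^ 2 := by
  have hk : (k : ℝ) ≠ 0 := by exact_mod_cast h
  obtain ⟨c, hc⟩ : ∃ c : ℝ, c = π * k := ⟨_, rfl⟩
  have hc0 : c ≠ 0 := by rw [hc]; exact mul_ne_zero Real.pi_ne_zero hk
  rw [← hc]
  have hd : ∀ v ∈ uIcc (0:ℝ) 1,
      HasDerivAt (fun v : ℝ => v * Real.sin (c * v) / c + Real.cos (c * v) / c ^ 2)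
        (v * Real.cos (c * v)) v := by
    intro v _
    have h1 : HasDerivAt (fun v : ℝ => c * v) c v := by
      simpa using (hasDerivAt_id v).const_mul c
    have h2 := ((hasDerivAt_id v).mul h1.sin).div_const c
    have h3 := h1.cos.div_const (c ^ 2)
    refine (h2.add h3).congr_deriv ?_
    simp only [id]
    field_simp
    ring
  have hi : IntervalIntegrable (fun v : ℝ => v * Real.cos (c * v)) volume 0 1 := by
    apply Continuous.intervalIntegrable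
    fun_prop
  rw [intervalIntegral.integral_eq_sub_of_hasDerivAt hd hi]
  have hs : Real.sin (c * 1) = 0 := by
    rw [mul_one, hc, mul_comm]; exact Real.sin_int_mul_pi k
  have hcs : Real.cos (c * 1) = (-1) ^ k := by
    rw [mul_one, hc, mul_comm]; exact Real.cos_int_mul_pi k
  rw [hs, hcs]
  simp
  ring

lemma f0_prod (i i' : ℕ) (v : ℝ) : (PC i).f0 v * (PC i').f0 v =
    (Real.cos (π * (((i : ℤ) - i' : ℤ) : ℝ) * v) + Real.cos (π * (((i : ℤ) + i' + 1 : ℤ) : ℝ) * v)) /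
      (2 * ((2 * (i:ℝ) + 1) ^ 2 * (2 * (i':ℝ) + 1) ^ 2)) := by
  have h1 : (2 * (i:ℝ) + 1) ≠ 0 := by positivity
  have h2 : (2 * (i':ℝ) + 1) ≠ 0 := by positivity
  change Real.cos (fr i * v) / (2 * i + 1) ^ 2 * (Real.cos (fr i' * v) / (2 * i' + 1) ^ 2) = _
  have e1 : π * (((i : ℤ) - i' : ℤ) : ℝ) * v = fr i * v - fr i' * v := by
    unfold fr; push_cast; ring
  have e2 : π * (((i : ℤ) + i' + 1 : ℤ) : ℝ) * v = fr i * v + fr i' * v := by
    unfold fr; push_cast; ring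
  rw [e1, e2, Real.cos_sub, Real.cos_add]
  field_simp
  ring

lemma int_prod (p k : ℤ) : ∫ v in (0:ℝ)..1, Real.cos (π * p * v) * Real.cos (π * k * v) =
    ((if p = k then 1 else 0) + (if p = -k then 1 else 0)) / 2 := by
  have h : ∀ v : ℝ, Real.cos (π * p * v) * Real.cos (π * k * v) =
      (1 / 2) * (Real.cos (π * ((p - k : ℤ) : ℝ) * v) + Real.cos (π * ((p + k : ℤ) : ℝ) * v)) := by
    intro v
    have e1 : π * ((p - k : ℤ) : ℝ) * v = π * p * v - π * k * v := by push_cast; ring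
    have e2 : π * ((p + k : ℤ) : ℝ) * v = π * p * v + π * k * v := by push_cast; ring
    rw [e1, e2, Real.cos_sub, Real.cos_add]
    ring
  simp_rw [h]
  rw [intervalIntegral.integral_const_mul, intervalIntegral.integral_add, int_cos_int, int_cos_int]
  · have e1 : (p - k = 0) ↔ (p = k) := sub_eq_zero
    have e2 : (p + k = 0) ↔ (p = -k) := add_eq_zero_iff_eq_neg
    simp only [e1, e2]
    ring
  · apply Continuous.intervalIntegrable; fun_prop
  · apply Continuous.intervalIntegrable; fun_prop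

lemma GG_PC (i i' : ℕ) (k : ℤ) : GG (PC i) (PC i') (π * k) =
    π * (((if (i : ℤ) - i' = k then 1 else 0) + (if (i : ℤ) - i' = -k then 1 else 0)) +
      ((if (i : ℤ) + i' + 1 = k then 1 else 0) + (if (i : ℤ) + i' + 1 = -k then 1 else 0))) /
      (4 * ((2 * (i:ℝ) + 1) ^ 2 * (2 * (i':ℝ) + 1) ^ 2)) := by
  unfold GG
  have h1 : (2 * (i:ℝ) + 1) ≠ 0 := by positivity
  have h2 : (2 * (i':ℝ) + 1) ≠ 0 := by positivity
  have h : ∀ v : ℝ, (PC i).f0 v * (PC i').f0 v * Real.cos (π * k * v) =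
      1 / (2 * ((2 * (i:ℝ) + 1) ^ 2 * (2 * (i':ℝ) + 1) ^ 2)) *
      (Real.cos (π * (((i : ℤ) - i' : ℤ) : ℝ) * v) * Real.cos (π * k * v) +
        Real.cos (π * (((i : ℤ) + i' + 1 : ℤ) : ℝ) * v) * Real.cos (π * k * v)) := by
    intro v
    rw [f0_prod]
    field_simp
  simp_rw [h]
  rw [intervalIntegral.integral_const_mul, intervalIntegral.integral_add, int_prod, int_prod]
  · field_simp
    ring
  · apply Continuous.intervalIntegrable; fun_prop
  · apply Continuous.intervalIntegrable; fun_prop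

/-- The values of the diagonal kernel. -/
theorem GG_self (i k : ℕ) : GG (PC i) (PC i) (π * k) =
    (if k = 0 then π / 2 else if k = 2 * i + 1 then π / 4 else 0) / (2 * (i:ℝ) + 1) ^ 4 := by
  have h1 : (2 * (i:ℝ) + 1) ≠ 0 := by positivity
  have h := GG_PC i i (k : ℤ)
  rw [Int.cast_natCast] at h
  rw [h]
  have e1 : ((i : ℤ) - i = (k : ℤ)) ↔ k = 0 := by omega
  have e2 : ((i : ℤ) - i = -(k : ℤ)) ↔ k = 0 := by omega
  have e3 : ((i : ℤ) + i + 1 = (k : ℤ)) ↔ k = 2 * i + 1 := by omega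
  have e4 : ¬ ((i : ℤ) + i + 1 = -(k : ℤ)) := by omega
  simp only [e1, e2, e3, if_neg e4]
  by_cases hk : k = 0
  · subst hk
    have : ¬ (0 = 2 * i + 1) := by omega
    simp only [if_true, if_neg this]
    field_simp
    ring
  · by_cases hk2 : k = 2 * i + 1
    · simp only [if_neg hk, if_pos hk2]
      field_simp
      ring
    · simp only [if_neg hk, if_neg hk2]
      simp

/-- The values of the kernel of two neighbours. -/
theorem GG_cross (i k : ℕ) : GG (PC i) (PC (i + 1)) (π * k) =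
    (if k = 1 then π / 4 else if k = 2 * i + 2 then π / 4 else 0) /
      ((2 * (i:ℝ) + 1) ^ 2 * (2 * (i:ℝ) + 3) ^ 2) := by
  have h1 : (2 * (i:ℝ) + 1) ≠ 0 := by positivity
  have h2 : (2 * (i:ℝ) + 3) ≠ 0 := by positivity
  have h := GG_PC i (i + 1) (k : ℤ)
  rw [Int.cast_natCast] at h
  rw [h]
  have e1 : ¬ ((i : ℤ) - ((i + 1 : ℕ) : ℤ) = (k : ℤ)) := by push_cast; omega
  have e2 : ((i : ℤ) - ((i + 1 : ℕ) : ℤ) = -(k : ℤ)) ↔ k = 1 := by push_cast; omega
  have e3 : ((i : ℤ) + ((i + 1 : ℕ) : ℤ) + 1 = (k : ℤ)) ↔ k = 2 * i + 2 := by push_cast; omega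
  have e4 : ¬ ((i : ℤ) + ((i + 1 : ℕ) : ℤ) + 1 = -(k : ℤ)) := by push_cast; omega
  simp only [e2, e3, if_neg e4, if_neg e1]
  have e5 : (2 * ((i + 1 : ℕ) : ℝ) + 1) = 2 * (i:ℝ) + 3 := by push_cast; ring
  rw [e5]
  by_cases hk : k = 1
  · subst hk
    have : ¬ (1 = 2 * i + 2) := by omega
    simp only [if_true, if_neg this]
    field_simp
    ring
  · by_cases hk2 : k = 2 * i + 2
    · simp only [if_neg hk, if_pos hk2]
      field_simp
      ring
    · simp only [if_neg hk, if_neg hk2]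
      simp

lemma f0_zero (i : ℕ) : (PC i).f0 0 = 1 / (2 * (i:ℝ) + 1) ^ 2 := by
  change Real.cos (fr i * 0) / (2 * i + 1) ^ 2 = _
  simp

/-- The moment of the diagonal kernel. -/
theorem int_self (i : ℕ) : ∫ v in (0:ℝ)..1, v * (PC i).f0 v * (PC i).f0 v =
    (1 / 4 - 1 / (π ^ 2 * (2 * (i:ℝ) + 1) ^ 2)) / (2 * (i:ℝ) + 1) ^ 4 := by
  have h1 : (2 * (i:ℝ) + 1) ≠ 0 := by positivity
  have h : ∀ v : ℝ, v * (PC i).f0 v * (PC i).f0 v =
      1 / (2 * (2 * (i:ℝ) + 1) ^ 4) * (v + v * Real.cos (π * ((2 * i + 1 : ℤ) : ℝ) * v)) := by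
    intro v
    rw [mul_assoc, f0_prod]
    have e1 : ((i : ℤ) - i) = 0 := by ring
    have e2 : ((i : ℤ) + i + 1) = 2 * i + 1 := by ring
    rw [e1, e2]
    simp only [Int.cast_zero, mul_zero, zero_mul, Real.cos_zero]
    field_simp
  simp_rw [h]
  rw [intervalIntegral.integral_const_mul, intervalIntegral.integral_add,
    int_v_cos_int _ (by omega), integral_id]
  · have e : ((-1 : ℝ)) ^ ((2 * (i : ℤ) + 1 : ℤ)) = -1 := by
      have : Odd (2 * (i : ℤ) + 1) := ⟨i, rfl⟩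
      exact this.neg_one_zpow
    rw [e]
    push_cast
    have hpi := Real.pi_ne_zero
    field_simp
    ring
  · apply Continuous.intervalIntegrable; fun_prop
  · apply Continuous.intervalIntegrable; fun_prop

/-- The moment of the kernel of two neighbours. -/
theorem int_cross (i : ℕ) : ∫ v in (0:ℝ)..1, v * (PC i).f0 v * (PC (i + 1)).f0 v =
    (-1 / π ^ 2) / ((2 * (i:ℝ) + 1) ^ 2 * (2 * (i:ℝ) + 3) ^ 2) := by
  have h1 : (2 * (i:ℝ) + 1) ≠ 0 := by positivity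
  have h2 : (2 * (i:ℝ) + 3) ≠ 0 := by positivity
  have e5 : (2 * ((i + 1 : ℕ) : ℝ) + 1) = 2 * (i:ℝ) + 3 := by push_cast; ring
  have h : ∀ v : ℝ, v * (PC i).f0 v * (PC (i + 1)).f0 v =
      1 / (2 * ((2 * (i:ℝ) + 1) ^ 2 * (2 * (i:ℝ) + 3) ^ 2)) *
        (v * Real.cos (π * ((-1 : ℤ) : ℝ) * v) +
          v * Real.cos (π * ((2 * i + 2 : ℤ) : ℝ) * v)) := by
    intro v
    rw [mul_assoc, f0_prod, e5]
    have e1 : ((i : ℤ) - ((i + 1 : ℕ) : ℤ)) = -1 := by push_cast; ring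
    have e2 : ((i : ℤ) + ((i + 1 : ℕ) : ℤ) + 1) = 2 * i + 2 := by push_cast; ring
    rw [e1, e2]
    field_simp
  simp_rw [h]
  rw [intervalIntegral.integral_const_mul, intervalIntegral.integral_add,
    int_v_cos_int _ (by omega), int_v_cos_int _ (by omega)]
  · have e : ((-1 : ℝ)) ^ ((2 * (i : ℤ) + 2 : ℤ)) = 1 := by
      have : Even (2 * (i : ℤ) + 2) := ⟨i + 1, by ring⟩
      exact this.neg_one_zpow
    have e' : ((-1 : ℝ)) ^ (-1 : ℤ) = -1 := by norm_num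
    rw [e, e']
    push_cast
    have hpi := Real.pi_ne_zero
    field_simp
    ring
  · apply Continuous.intervalIntegrable; fun_prop
  · apply Continuous.intervalIntegrable; fun_prop

lemma GG_neg (P P' : PhiData) (z : ℝ) : GG P P' (-z) = GG P P' z := by
  unfold GG
  congr 1
  apply intervalIntegral.integral_congr
  intro v _
  simp only
  rw [neg_mul, Real.cos_neg]

lemma f0_le_one (i : ℕ) (v : ℝ) : |(PC i).f0 v| ≤ 1 := by
  change |Real.cos (fr i * v) / (2 * i + 1) ^ 2| ≤ 1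
  have h1 : (1:ℝ) ≤ (2 * i + 1) ^ 2 := by
    have : (0:ℝ) ≤ i := Nat.cast_nonneg i
    nlinarith
  rw [abs_div, abs_of_pos (by positivity : (0:ℝ) < (2 * i + 1) ^ 2), div_le_one (by positivity)]
  have := Real.abs_cos_le_one (fr i * v)
  linarith

lemma GG_le (i i' : ℕ) (z : ℝ) : |GG (PC i) (PC i') z| ≤ π := by
  unfold GG
  rw [abs_mul, abs_of_pos Real.pi_pos]
  have h : ‖∫ v in (0:ℝ)..1, (PC i).f0 v * (PC i').f0 v * Real.cos (z * v)‖ ≤ 1 * |1 - 0| := by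
    apply intervalIntegral.norm_integral_le_of_norm_le_const
    intro v _
    rw [Real.norm_eq_abs, abs_mul, abs_mul]
    have h1 := f0_le_one i v
    have h2 := f0_le_one i' v
    have h3 := Real.abs_cos_le_one (z * v)
    calc |(PC i).f0 v| * |(PC i').f0 v| * |Real.cos (z * v)| ≤ 1 * 1 * 1 := by gcongr
      _ = 1 := by norm_num
  rw [Real.norm_eq_abs] at h
  simp only [sub_zero, abs_one, mul_one] at h
  nlinarith [Real.pi_pos]

lemma GG_lip (i i' : ℕ) (z z' : ℝ) :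
    |GG (PC i) (PC i') z - GG (PC i) (PC i') z'| ≤ π * |z - z'| := by
  unfold GG
  rw [← mul_sub, abs_mul, abs_of_pos Real.pi_pos]
  refine mul_le_mul_of_nonneg_left ?_ Real.pi_pos.le
  rw [← intervalIntegral.integral_sub]
  · have h : ‖∫ v in (0:ℝ)..1, ((PC i).f0 v * (PC i').f0 v * Real.cos (z * v) -
        (PC i).f0 v * (PC i').f0 v * Real.cos (z' * v))‖ ≤ |z - z'| * |1 - 0| := by
      apply intervalIntegral.norm_integral_le_of_norm_le_const
      intro v hv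
      rw [uIoc_of_le zero_le_one] at hv
      rw [Real.norm_eq_abs, ← mul_sub, abs_mul, abs_mul]
      have h1 := f0_le_one i v
      have h2 := f0_le_one i' v
      have h3 : |Real.cos (z * v) - Real.cos (z' * v)| ≤ |z - z'| := by
        have h4 := Real.abs_cos_sub_cos_le (z * v) (z' * v)
        have h5 : |z * v - z' * v| = |z - z'| * v := by
          rw [← sub_mul, abs_mul, abs_of_pos hv.1]
        rw [h5] at h4
        have h6 : |z - z'| * v ≤ |z - z'| * 1 :=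
          mul_le_mul_of_nonneg_left hv.2 (abs_nonneg _)
        linarith
      calc |(PC i).f0 v| * |(PC i').f0 v| * |Real.cos (z * v) - Real.cos (z' * v)|
          ≤ 1 * 1 * |z - z'| := by gcongr
        _ = |z - z'| := by ring
    rw [Real.norm_eq_abs] at h
    simpa using h
  · apply Continuous.intervalIntegrable
    have := (PC i).c0
    have := (PC i').c0
    fun_prop
  · apply Continuous.intervalIntegrable
    have := (PC i).c0
    have := (PC i').c0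
    fun_prop

lemma int_cos_cos {μ z : ℝ} (h : z ^ 2 - μ ^ 2 ≠ 0) :
    ∫ v in (0:ℝ)..1, Real.cos (μ * v) * Real.cos (z * v) =
      (z * Real.sin z * Real.cos μ - μ * Real.cos z * Real.sin μ) / (z ^ 2 - μ ^ 2) := by
  have hd : ∀ v ∈ uIcc (0:ℝ) 1,
      HasDerivAt (fun v : ℝ => (z * Real.sin (z * v) * Real.cos (μ * v) -
        μ * Real.cos (z * v) * Real.sin (μ * v)) / (z ^ 2 - μ ^ 2))
        (Real.cos (μ * v) * Real.cos (z * v)) v := by
    intro v _
    have h1 : HasDerivAt (fun v : ℝ => z * v) z v := by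
      simpa using (hasDerivAt_id v).const_mul z
    have h2 : HasDerivAt (fun v : ℝ => μ * v) μ v := by
      simpa using (hasDerivAt_id v).const_mul μ
    have h3 := (((h1.sin.const_mul z).mul h2.cos).sub
      ((h1.cos.const_mul μ).mul h2.sin)).div_const (z ^ 2 - μ ^ 2)
    refine h3.congr_deriv ?_
    field_simp
    ring
  have hi : IntervalIntegrable (fun v : ℝ => Real.cos (μ * v) * Real.cos (z * v)) volume 0 1 := by
    apply Continuous.intervalIntegrable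
    fun_prop
  rw [intervalIntegral.integral_eq_sub_of_hasDerivAt hd hi]
  simp

lemma GG_formula (i i' : ℕ) {z : ℝ} (h1 : z ^ 2 - (π * (((i : ℤ) - i' : ℤ) : ℝ)) ^ 2 ≠ 0)
    (h2 : z ^ 2 - (π * (((i : ℤ) + i' + 1 : ℤ) : ℝ)) ^ 2 ≠ 0) :
    |GG (PC i) (PC i') z| ≤ π * (|z| * |(π * (((i : ℤ) - i' : ℤ) : ℝ)) ^ 2 -
      (π * (((i : ℤ) + i' + 1 : ℤ) : ℝ)) ^ 2|) /
      (|z ^ 2 - (π * (((i : ℤ) - i' : ℤ) : ℝ)) ^ 2| *
        |z ^ 2 - (π * (((i : ℤ) + i' + 1 : ℤ) : ℝ)) ^ 2|) := by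
  obtain ⟨M, hM⟩ : ∃ M : ℝ, M = 2 * ((2 * (i:ℝ) + 1) ^ 2 * (2 * (i':ℝ) + 1) ^ 2) := ⟨_, rfl⟩
  have hM1 : 1 ≤ M := by
    have a1 : (0:ℝ) ≤ i := Nat.cast_nonneg i
    have a2 : (0:ℝ) ≤ i' := Nat.cast_nonneg i'
    have a3 : (1:ℝ) ≤ (2 * (i:ℝ) + 1) ^ 2 := by nlinarith
    have a4 : (1:ℝ) ≤ (2 * (i':ℝ) + 1) ^ 2 := by nlinarith
    rw [hM]
    nlinarith
  obtain ⟨p, hp⟩ : ∃ p : ℤ, p = (i : ℤ) - i' := ⟨_, rfl⟩
  obtain ⟨q, hq⟩ : ∃ q : ℤ, q = (i : ℤ) + i' + 1 := ⟨_, rfl⟩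
  rw [← hp] at h1 ⊢
  rw [← hq] at h2 ⊢
  unfold GG
  have h : ∀ v : ℝ, (PC i).f0 v * (PC i').f0 v * Real.cos (z * v) =
      1 / M * (Real.cos (π * p * v) * Real.cos (z * v) +
        Real.cos (π * q * v) * Real.cos (z * v)) := by
    intro v
    rw [f0_prod, ← hp, ← hq, ← hM]
    field_simp
  simp_rw [h]
  rw [intervalIntegral.integral_const_mul, intervalIntegral.integral_add, int_cos_cos h1,
    int_cos_cos h2]
  rotate_left
  · apply Continuous.intervalIntegrable; fun_prop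
  · apply Continuous.intervalIntegrable; fun_prop
  have hs1 : Real.sin (π * p) = 0 := by rw [mul_comm]; exact Real.sin_int_mul_pi p
  have hs2 : Real.sin (π * q) = 0 := by rw [mul_comm]; exact Real.sin_int_mul_pi q
  have hc1 : Real.cos (π * p) = (-1) ^ p := by rw [mul_comm]; exact Real.cos_int_mul_pi p
  have hc2 : Real.cos (π * q) = (-1) ^ q := by rw [mul_comm]; exact Real.cos_int_mul_pi q
  have hqp : ((-1 : ℝ)) ^ q = - (-1) ^ p := by
    have e : q = p + (2 * (i' : ℤ) + 1) := by rw [hp, hq]; ring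
    rw [e, zpow_add₀ (by norm_num)]
    have : Odd (2 * (i' : ℤ) + 1) := ⟨i', rfl⟩
    rw [this.neg_one_zpow]
    ring
  have hp1 : |((-1 : ℝ)) ^ p| = 1 := by
    rw [abs_zpow]; simp
  rw [hs1, hs2, hc1, hc2, hqp]
  have e : π * (1 / M * ((z * Real.sin z * (-1) ^ p - π * p * Real.cos z * 0) /
      (z ^ 2 - (π * p) ^ 2) + (z * Real.sin z * -(-1) ^ p - π * q * Real.cos z * 0) /
      (z ^ 2 - (π * q) ^ 2))) = (1 / M * Real.sin z * (-1) ^ p) * (π * (z * ((π * p) ^ 2 - (π * q) ^ 2)) /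
      ((z ^ 2 - (π * p) ^ 2) * (z ^ 2 - (π * q) ^ 2))) := by
    have e0 : (π * (p : ℝ)) ^ 2 - (π * (q : ℝ)) ^ 2 =
        (z ^ 2 - (π * q) ^ 2) - (z ^ 2 - (π * p) ^ 2) := by ring
    rw [e0]
    generalize z ^ 2 - (π * (p : ℝ)) ^ 2 = X at h1 ⊢
    generalize z ^ 2 - (π * (q : ℝ)) ^ 2 = Y at h2 ⊢
    field_simp
    ring
  rw [e, abs_mul]
  have h3 : |1 / M * Real.sin z * (-1) ^ p| ≤ 1 := by
    rw [abs_mul, hp1, mul_one, abs_mul, abs_of_pos (by positivity : (0:ℝ) < 1 / M)]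
    have h4 : 1 / M ≤ 1 := by rw [div_le_one (by linarith)]; exact hM1
    have h5 := Real.abs_sin_le_one z
    calc 1 / M * |Real.sin z| ≤ 1 * 1 := by gcongr
      _ = 1 := by norm_num
  have h4 : |π * (z * ((π * p) ^ 2 - (π * q) ^ 2)) /
      ((z ^ 2 - (π * p) ^ 2) * (z ^ 2 - (π * q) ^ 2))| = π * (|z| * |(π * p) ^ 2 - (π * q) ^ 2|) /
      (|z ^ 2 - (π * p) ^ 2| * |z ^ 2 - (π * q) ^ 2|) := by
    rw [abs_div, abs_mul, abs_mul, abs_mul, abs_of_pos Real.pi_pos]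
  rw [h4]
  have h5 : 0 ≤ π * (|z| * |(π * p) ^ 2 - (π * q) ^ 2|) /
      (|z ^ 2 - (π * p) ^ 2| * |z ^ 2 - (π * q) ^ 2|) := by positivity
  calc _ ≤ 1 * (π * (|z| * |(π * p) ^ 2 - (π * q) ^ 2|) /
      (|z ^ 2 - (π * p) ^ 2| * |z ^ 2 - (π * q) ^ 2|)) := mul_le_mul_of_nonneg_right h3 h5
    _ = _ := one_mul _

/-- The pair kernels decay like a cube. -/
theorem GG_decay (i i' : ℕ) : ∃ C : ℝ, 0 < C ∧ ∀ z : ℝ,
    |GG (PC i) (PC i') z| ≤ C / (1 + |z| ^ 3) := by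
  obtain ⟨a, ha⟩ : ∃ a : ℝ, a = (π * (((i : ℤ) - i' : ℤ) : ℝ)) ^ 2 := ⟨_, rfl⟩
  obtain ⟨c, hc⟩ : ∃ c : ℝ, c = (π * (((i : ℤ) + i' + 1 : ℤ) : ℝ)) ^ 2 := ⟨_, rfl⟩
  have ha0 : 0 ≤ a := by rw [ha]; positivity
  have hc0 : 0 ≤ c := by rw [hc]; positivity
  obtain ⟨A, hA⟩ : ∃ A : ℝ, A = a + c + 1 := ⟨_, rfl⟩
  have hA1 : 1 ≤ A := by linarith
  have hpi := Real.pi_pos
  refine ⟨8 * π * A + π * (1 + (2 * A) ^ 2), by positivity, fun z => ?_⟩
  have hz0 : 0 ≤ |z| := abs_nonneg z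
  have hsq : |z| ^ 2 = z ^ 2 := sq_abs z
  rw [le_div_iff₀ (by positivity)]
  by_cases hz : z ^ 2 < 2 * A
  · have h1 := GG_le i i' z
    have h2 : |z| ^ 3 ≤ (2 * A) ^ 2 := by
      have h3 : |z| ≤ 2 * A := by
        by_contra hcon
        push Not at hcon
        nlinarith
      have h4 : |z| ^ 3 = |z| * z ^ 2 := by rw [← hsq]; ring
      rw [h4]
      nlinarith
    have h5 : |GG (PC i) (PC i') z| * (1 + |z| ^ 3) ≤ π * (1 + (2 * A) ^ 2) := by
      apply mul_le_mul h1 (by linarith) (by positivity) hpi.le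
    have h6 : 0 ≤ 8 * π * A := by positivity
    linarith
  · push Not at hz
    have ha2 : z ^ 2 / 2 ≤ z ^ 2 - a := by linarith
    have hc2 : z ^ 2 / 2 ≤ z ^ 2 - c := by linarith
    have hzp : 0 < z ^ 2 := by linarith
    have hzp' : 0 < |z| := by
      rcases hz0.lt_or_eq with h | h
      · exact h
      · rw [← hsq, ← h] at hzp; norm_num at hzp
    have h1 := GG_formula i i' (z := z) (by rw [← ha]; linarith) (by rw [← hc]; linarith)
    rw [← ha, ← hc] at h1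
    rw [abs_of_pos (show 0 < z ^ 2 - a by linarith), abs_of_pos (show 0 < z ^ 2 - c by linarith)]
      at h1
    have h2 : |a - c| ≤ A := by
      rw [abs_le]; constructor <;> linarith
    have h3 : π * (|z| * |a - c|) / ((z ^ 2 - a) * (z ^ 2 - c)) ≤
        π * (|z| * A) / ((z ^ 2 / 2) * (z ^ 2 / 2)) := by
      apply div_le_div₀ (by positivity) _ (by positivity)
      · exact mul_le_mul ha2 hc2 (by positivity) (by linarith)
      · gcongr
    have h4 : π * (|z| * A) / ((z ^ 2 / 2) * (z ^ 2 / 2)) = 4 * π * A / |z| ^ 3 := by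
      rw [← hsq]
      field_simp
      ring
    have h5 : |GG (PC i) (PC i') z| ≤ 4 * π * A / |z| ^ 3 := by
      rw [← h4]; exact h1.trans h3
    have h6 : 1 ≤ |z| ^ 3 := by
      have h7 : 1 ≤ |z| := by
        by_contra hcon
        push Not at hcon
        nlinarith
      exact one_le_pow₀ h7
    have h7 : |GG (PC i) (PC i') z| * (1 + |z| ^ 3) ≤ 4 * π * A / |z| ^ 3 * (2 * |z| ^ 3) :=
      mul_le_mul h5 (by linarith) (by positivity) (by positivity)
    have h8 : 4 * π * A / |z| ^ 3 * (2 * |z| ^ 3) = 8 * π * A := by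
      field_simp
      ring
    have h9 : 0 ≤ π * (1 + (2 * A) ^ 2) := by positivity
    linarith

/-- All properties which the combinatorial part needs, uniformly for `1 / 2 ≤ b ≤ 1`. -/
theorem GG_props (i i' : ℕ) : ∃ Cg : ℝ, 0 < Cg ∧ ∀ b : ℝ, 1 / 2 ≤ b → b ≤ 1 →
    (∀ x : ℝ, |GG (PC i) (PC i') (2 * π * b * x)| ≤ Cg / (1 + |x| ^ 3)) ∧
    (∀ x y : ℝ, |GG (PC i) (PC i') (2 * π * b * x) - GG (PC i) (PC i') (2 * π * b * y)| ≤
      Cg * |x - y|) ∧
    (∀ x : ℝ, GG (PC i) (PC i') (2 * π * b * -x) = GG (PC i) (PC i') (2 * π * b * x)) := by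
  obtain ⟨C, hC, hd⟩ := GG_decay i i'
  have hpi := Real.pi_pos
  have hpi3 := Real.pi_gt_three
  refine ⟨C + 2 * π ^ 2, by positivity, fun b hb hb1 => ⟨fun x => ?_, fun x y => ?_, fun x => ?_⟩⟩
  · refine (hd _).trans ?_
    have h1 : |x| ≤ |2 * π * b * x| := by
      rw [abs_mul, abs_of_pos (by positivity : 0 < 2 * π * b)]
      have : 1 ≤ 2 * π * b := by nlinarith
      nlinarith [abs_nonneg x]
    have h2 : |x| ^ 3 ≤ |2 * π * b * x| ^ 3 := pow_le_pow_left₀ (abs_nonneg x) h1 3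
    apply div_le_div₀ (by positivity) _ (by positivity) (by linarith)
    nlinarith [sq_nonneg π]
  · refine (GG_lip i i' _ _).trans ?_
    rw [← mul_sub, abs_mul, abs_of_pos (by positivity : 0 < 2 * π * b), ← mul_assoc]
    refine mul_le_mul_of_nonneg_right ?_ (abs_nonneg _)
    nlinarith [sq_nonneg π]
  · rw [mul_neg, GG_neg]

/-- The constant of the diagonal kernel. -/
theorem const_self (i : ℕ) (b : ℝ) : (PC i).f0 0 * (PC i).f0 0 / 4 + b ^ 2 / 2 *
    ∫ v in (0:ℝ)..1, v * (PC i).f0 v * (PC i).f0 v =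
    (1 / 4 + b ^ 2 / 8 - b ^ 2 / (2 * π ^ 2 * (2 * (i:ℝ) + 1) ^ 2)) / (2 * (i:ℝ) + 1) ^ 4 := by
  have h1 : (2 * (i:ℝ) + 1) ≠ 0 := by positivity
  have hpi := Real.pi_ne_zero
  rw [int_self, f0_zero]
  field_simp
  ring

/-- The constant of the kernel of two neighbours. -/
theorem const_cross (i : ℕ) (b : ℝ) : (PC i).f0 0 * (PC (i + 1)).f0 0 / 4 + b ^ 2 / 2 *
    ∫ v in (0:ℝ)..1, v * (PC i).f0 v * (PC (i + 1)).f0 v =
    (1 / 4 - b ^ 2 / (2 * π ^ 2)) / ((2 * (i:ℝ) + 1) ^ 2 * (2 * (i:ℝ) + 3) ^ 2) := by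
  have h1 : (2 * (i:ℝ) + 1) ≠ 0 := by positivity
  have h2 : (2 * (i:ℝ) + 3) ≠ 0 := by positivity
  have hpi := Real.pi_ne_zero
  have e5 : (2 * ((i + 1 : ℕ) : ℝ) + 1) = 2 * (i:ℝ) + 3 := by push_cast; ring
  rw [int_cross, f0_zero, f0_zero, e5]
  field_simp
  ring

end Pool.Agent.AHP
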