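import Pool.Agent.PF.Near
import Pool.Agent.ZGap.DW.Count

/-!
# The pair correlation in the second case of the dichotomy: definitions
-/

namespace Pool.Agent.AHP

open MeasureTheory Real Set Pool.Agent.ZGap.Gen Pool.Agent.ZetaGaps

/-- The pair kernel: `∫ FF P D (t - u) * FF P' D (t - v) dt = D * GG P P' (D * (u - v))`. -/
noncomputable def GG (P P' : PhiData) (z : ℝ) : ℝ :=
  π * ∫ v in (0:ℝ)..1, P.f0 v * P'.f0 v * Real.cos (z * v)

/-- The frequency `π (2 i + 1) / 2`. -/
noncomputable def fr (i : ℕ) : ℝ := π * (2 * i + 1) / 2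

/-- The kernels `cos (π (2 i + 1) v / 2) / (2 i + 1)^2`. -/
noncomputable def PC (i : ℕ) : PhiData where
  f0 := fun v => Real.cos (fr i * v) / (2 * i + 1) ^ 2
  f1 := fun v => -(fr i * Real.sin (fr i * v)) / (2 * i + 1) ^ 2
  f2 := fun v => -(fr i * (fr i * Real.cos (fr i * v))) / (2 * i + 1) ^ 2
  c0 := by fun_prop
  c1 := by fun_prop
  c2 := by fun_prop
  d0 := fun v => by
    have h : HasDerivAt (fun v : ℝ => fr i * v) (fr i) v := by
      simpa using (hasDerivAt_id v).const_mul (fr i)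
    refine (h.cos.div_const _).congr_deriv ?_
    ring
  d1 := fun v => by
    have h : HasDerivAt (fun v : ℝ => fr i * v) (fr i) v := by
      simpa using (hasDerivAt_id v).const_mul (fr i)
    refine (((h.sin.const_mul (fr i)).neg).div_const _).congr_deriv ?_
    ring
  one := by
    have h : fr i * 1 = (i : ℝ) * π + π / 2 := by unfold fr; ring
    rw [h, Real.cos_add, Real.cos_pi_div_two, Real.sin_pi_div_two, Real.sin_nat_mul_pi]
    simp
  b0 := fun v _ _ => by
    have h1 : (1:ℝ) ≤ (2 * i + 1) ^ 2 := by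
      have : (0:ℝ) ≤ i := Nat.cast_nonneg i
      nlinarith
    rw [abs_div, abs_of_pos (by positivity : (0:ℝ) < (2 * i + 1) ^ 2), div_le_iff₀ (by positivity)]
    have := Real.abs_cos_le_one (fr i * v)
    linarith
  b1 := fun v _ _ => by
    have h0 : (0:ℝ) ≤ i := Nat.cast_nonneg i
    have hpi := Real.pi_lt_four
    have hpi0 := Real.pi_pos
    have h2 := Real.abs_sin_le_one (fr i * v)
    have h3 : 0 ≤ fr i := by unfold fr; positivity
    rw [abs_div, abs_of_pos (by positivity : (0:ℝ) < (2 * i + 1) ^ 2), div_le_iff₀ (by positivity),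
      abs_neg, abs_mul, abs_of_nonneg h3]
    have h4 : fr i ≤ 2 * (2 * i + 1) := by unfold fr; nlinarith
    nlinarith [abs_nonneg (Real.sin (fr i * v))]
  b2 := fun v _ _ => by
    have h0 : (0:ℝ) ≤ i := Nat.cast_nonneg i
    have hpi := Real.pi_lt_four
    have hpi0 := Real.pi_pos
    have h2 := Real.abs_cos_le_one (fr i * v)
    have h3 : 0 ≤ fr i := by unfold fr; positivity
    rw [abs_div, abs_of_pos (by positivity : (0:ℝ) < (2 * i + 1) ^ 2), div_le_iff₀ (by positivity),
      abs_neg, abs_mul, abs_mul, abs_of_nonneg h3, ← mul_assoc]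
    have h4 : fr i ≤ 2 * (2 * i + 1) := by unfold fr; nlinarith
    have h5 : fr i * fr i ≤ 4 * (2 * i + 1) ^ 2 := by nlinarith
    nlinarith [abs_nonneg (Real.cos (fr i * v)), mul_nonneg h3 h3]

/-- The scaled ordinate. -/
noncomputable def xs (T : ℝ) (n : ℕ) : ℝ := ordinate n * Real.log T / (2 * π)

/-- The indices of the zeros in the window. -/
noncomputable def In (w W : ℝ) : Finset ℕ := Finset.Ioc (zeroCount w) (zeroCount (w + W))

open Classical in
/-- The number of pairs at distance about `k / 2`. -/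
noncomputable def Rk (x : ℕ → ℝ) (i j : ℕ) (ε : ℝ) (k : ℕ) : ℕ :=
  ((Finset.Ioc i j ×ˢ Finset.Ioc i j).filter
    fun p : ℕ × ℕ => p.1 < p.2 ∧ |x p.2 - x p.1 - k / 2| ≤ ε).card

end Pool.Agent.AHP
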