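import Pool.Agent.ZGap.Gen.Eval2
import Pool.Agent.PF.SNb

/-!
# The explicit formula for prime sums of length `T ^ b`, `b < 1`
-/

namespace Pool.Agent.AHP

open MeasureTheory Real Set Pool.Agent.ZGap.Gen Pool.Agent.ZetaGaps Pool.Agent.PF.SN
open Pool.Agent.Hadamard Pool.Agent.DirPoly Pool.Agent.ZGap

lemma exp_error_lim {b C : ℝ} (hb : b < 1) :
    Filter.Tendsto (fun T : ℝ => C * T ^ b * (1 + Real.log (4 * T)) / T ^ ((1 + b) / 2))
      Filter.atTop (nhds 0) := by
  have h1 : Filter.Tendsto (fun T : ℝ => (3 + Real.log T) / T ^ ((1 - b) / 2)) Filter.atTop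
      (nhds 0) := by
    have e1 : Filter.Tendsto (fun T : ℝ => 3 / T ^ ((1 - b) / 2)) Filter.atTop (nhds 0) :=
      Filter.Tendsto.div_atTop tendsto_const_nhds (tendsto_rpow_atTop (by linarith))
    have e2 : Filter.Tendsto (fun T : ℝ => Real.log T / T ^ ((1 - b) / 2)) Filter.atTop
        (nhds 0) := (isLittleO_log_rpow_atTop (by linarith)).tendsto_div_nhds_zero
    have e3 := e1.add e2
    rw [add_zero] at e3
    refine e3.congr fun T => ?_
    ring
  have h2 : Filter.Tendsto (fun T : ℝ => |C| * ((3 + Real.log T) / T ^ ((1 - b) / 2)))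
      Filter.atTop (nhds 0) := by
    have := h1.const_mul |C|
    rwa [mul_zero] at this
  refine squeeze_zero_norm' ?_ h2
  filter_upwards [Filter.eventually_ge_atTop 1] with T hT
  have hT0 : 0 < T := by linarith
  have hlog : 0 ≤ Real.log T := Real.log_nonneg hT
  have h4 : Real.log (4 * T) ≤ 2 + Real.log T := by
    rw [Real.log_mul (by norm_num) hT0.ne']
    have : Real.log 4 ≤ 2 := by
      rw [Real.log_le_iff_le_exp (by norm_num)]
      have h5 := Real.add_one_le_exp (1:ℝ)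
      have h6 : Real.exp 2 = Real.exp 1 * Real.exp 1 := by rw [← Real.exp_add]; norm_num
      nlinarith
    linarith
  have h40 : 0 ≤ Real.log (4 * T) := Real.log_nonneg (by linarith)
  have hp : 0 < T ^ ((1 + b) / 2) := Real.rpow_pos_of_pos hT0 _
  have hq : 0 < T ^ ((1 - b) / 2) := Real.rpow_pos_of_pos hT0 _
  have e1 : T ^ ((1 + b) / 2) = T ^ b * T ^ ((1 - b) / 2) := by
    rw [← Real.rpow_add hT0]
    congr 1
    ring
  have hTb : 0 < T ^ b := Real.rpow_pos_of_pos hT0 _
  rw [Real.norm_eq_abs, abs_div, abs_of_pos hp, abs_mul, abs_mul, abs_of_pos hTb,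
    abs_of_nonneg (by linarith : 0 ≤ 1 + Real.log (4 * T)), e1]
  have e2 : |C| * T ^ b * (1 + Real.log (4 * T)) / (T ^ b * T ^ ((1 - b) / 2)) =
      |C| * ((1 + Real.log (4 * T)) / T ^ ((1 - b) / 2)) := by
    field_simp
  rw [e2]
  refine mul_le_mul_of_nonneg_left ?_ (abs_nonneg C)
  exact div_le_div_of_nonneg_right (by linarith) hq.le

/-- **The explicit formula**, `b < 1`. -/
theorem expl (hRH : RiemannHypothesis) {b κ : ℝ} (hb0 : 0 < b) (hb : b < 1) (hκ : 0 < κ) :
    ∃ T0 : ℝ, Real.exp 3 ≤ T0 ∧ ∀ T : ℝ, T0 ≤ T → 1 ≤ b * Real.log T ∧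
      ∀ (P : PhiData) (t : ℝ), T ≤ t → t ≤ 4 * T →
        |SS P (b * Real.log T) t - (P.f0 0 / 2 * Real.log T -
          (vmPoly (bb P (b * Real.log T)) ⌊T⌋₊ t).re)| ≤ κ * Real.log T := by
  obtain ⟨θ, hθ⟩ : ∃ θ : ℝ, θ = (1 + b) / 2 := ⟨_, rfl⟩
  obtain ⟨C, hC, hexp⟩ := exists_explicit_th hRH (θ := θ) (by rw [hθ]; linarith)
    (by rw [hθ]; linarith)
  have hlim := exp_error_lim (C := C) hb
  have h1 : ∀ᶠ T : ℝ in Filter.atTop,
      C * T ^ b * (1 + Real.log (4 * T)) / T ^ ((1 + b) / 2) < 1 :=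
    hlim.eventually_lt_const (by norm_num)
  have h2 : ∀ᶠ T : ℝ in Filter.atTop, 3 / κ + 1 / b ≤ Real.log T :=
    Real.tendsto_log_atTop.eventually_ge_atTop _
  obtain ⟨T1, hT1⟩ := Filter.eventually_atTop.mp (h1.and h2)
  refine ⟨max T1 (Real.exp 3), le_max_right _ _, fun T hT => ?_⟩
  obtain ⟨g1, g2⟩ := hT1 T ((le_max_left _ _).trans hT)
  have hTe : Real.exp 3 ≤ T := (le_max_right _ _).trans hT
  have hT1' : 1 ≤ T := by linarith [Real.add_one_le_exp (3:ℝ)]
  have hT0 : 0 < T := by linarith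
  have hk : 0 < 3 / κ := by positivity
  have hb' : 0 < 1 / b := by positivity
  have hL0 : 0 < Real.log T := by linarith
  have hD1 : 1 ≤ b * Real.log T := by
    have : 1 / b ≤ Real.log T := by linarith
    rwa [div_le_iff₀' hb0] at this
  refine ⟨hD1, fun P t ht1 ht2 => ?_⟩
  have ht0 : 0 < t := by linarith
  have hexpD : Real.exp (b * Real.log T) = T ^ b := by
    rw [Real.rpow_def_of_pos hT0, mul_comm]
  have hx : Real.exp (b * Real.log T) ≤ (⌊T⌋₊ : ℕ) + 1 := by
    rw [hexpD]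
    calc T ^ b ≤ T ^ (1:ℝ) := Real.rpow_le_rpow_of_exponent_le hT1' hb.le
      _ = T := Real.rpow_one _
      _ ≤ _ := (Nat.lt_floor_add_one T).le
  obtain ⟨S, hS, hSb⟩ := hexp P (b * Real.log T) ⌊T⌋₊ t (by linarith) hx (by linarith)
  have e1 : SS P (b * Real.log T) t = S := hS.tsum_eq
  rw [e1]
  -- the error term
  have e2 : C * Real.exp (b * Real.log T) * (1 + Real.log t) / t ^ θ ≤ 1 := by
    refine le_trans ?_ g1.le
    rw [hexpD, ← hθ]
    have hlt : Real.log t ≤ Real.log (4 * T) := Real.log_le_log ht0 ht2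
    have hlt0 : 0 ≤ Real.log t := Real.log_nonneg (by linarith)
    have hth : T ^ θ ≤ t ^ θ := Real.rpow_le_rpow hT0.le ht1 (by rw [hθ]; linarith)
    have hTθ : 0 < T ^ θ := Real.rpow_pos_of_pos hT0 _
    have hTb : 0 < T ^ b := Real.rpow_pos_of_pos hT0 _
    have hl0 : 0 ≤ Real.log (4 * T) := hlt0.trans hlt
    exact div_le_div₀ (mul_nonneg (by positivity) (by linarith))
      (mul_le_mul_of_nonneg_left (by linarith) (by positivity)) hTθ hth
  -- the main term
  have e3 : |P.f0 0 / 2 * Real.log (t / (2 * π)) - P.f0 0 / 2 * Real.log T| ≤ 2 := by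
    have h3 : P.f0 0 / 2 * Real.log (t / (2 * π)) - P.f0 0 / 2 * Real.log T =
        P.f0 0 / 2 * (Real.log (t / (2 * π)) - Real.log T) := by ring
    have hpi := Real.pi_pos
    have hpi4 := Real.pi_le_four
    have hpi3 := Real.pi_gt_three
    have h4 : |Real.log (t / (2 * π)) - Real.log T| ≤ 2 := by
      rw [← Real.log_div (by positivity) hT0.ne', abs_le]
      have h5 : (7:ℝ) ≤ Real.exp 2 := by
        have h6 : Real.exp 2 = Real.exp 1 * Real.exp 1 := by rw [← Real.exp_add]; norm_num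
        have h7 := Real.exp_one_gt_d9
        nlinarith
      constructor
      · rw [Real.le_log_iff_exp_le (by positivity), Real.exp_neg, div_div,
          le_div_iff₀ (by positivity)]
        have h8 : (Real.exp 2)⁻¹ ≤ 1 / 7 := by
          rw [inv_eq_one_div]
          exact one_div_le_one_div_of_le (by norm_num) h5
        have h9 : 2 * π ≤ 7 := by linarith [Real.pi_lt_d2]
        calc (Real.exp 2)⁻¹ * (2 * π * T) ≤ 1 / 7 * (7 * T) := by gcongr
          _ = T := by ring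
          _ ≤ t := ht1
      · rw [Real.log_le_iff_le_exp (by positivity), div_div, div_le_iff₀ (by positivity)]
        have h10 : (1:ℝ) ≤ Real.exp 2 := by linarith
        have h11 : 4 * T ≤ 2 * π * T := by nlinarith
        calc t ≤ 4 * T := ht2
          _ ≤ 2 * π * T := h11
          _ ≤ Real.exp 2 * (2 * π * T) := le_mul_of_one_le_left (by positivity) h10
    have h12 := P.b0 0 le_rfl zero_le_one
    rw [h3, abs_mul, abs_div, abs_of_pos (by norm_num : (0:ℝ) < 2)]
    have h13 : |P.f0 0| / 2 ≤ 1 := by linarith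
    calc |P.f0 0| / 2 * |Real.log (t / (2 * π)) - Real.log T| ≤ 1 * 2 :=
          mul_le_mul h13 h4 (abs_nonneg _) (by norm_num)
      _ = 2 := by norm_num
  have e4 : 3 ≤ κ * Real.log T := by
    have : 3 / κ ≤ Real.log T := by linarith
    rwa [div_le_iff₀' hκ] at this
  have e5 : S - (P.f0 0 / 2 * Real.log T - (vmPoly (bb P (b * Real.log T)) ⌊T⌋₊ t).re) =
      (S - (P.f0 0 / 2 * Real.log (t / (2 * π)) - (vmPoly (bb P (b * Real.log T)) ⌊T⌋₊ t).re)) +
        (P.f0 0 / 2 * Real.log (t / (2 * π)) - P.f0 0 / 2 * Real.log T) := by ring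
  rw [e5]
  refine (abs_add_le _ _).trans ?_
  linarith [hSb.trans e2]

end Pool.Agent.AHP
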