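import Mathlib

/-!
# The mean value of a product of two cosine sums
-/

namespace Pool.Agent.AHP

open MeasureTheory Real Set

lemma int_cos_le {θ w W : ℝ} (hθ : θ ≠ 0) : |∫ t in w..(w + W), Real.cos (t * θ)| ≤ 2 / |θ| := by
  have h1 : ∫ t in w..(w + W), Real.cos (t * θ) =
      (Real.sin ((w + W) * θ) - Real.sin (w * θ)) / θ := by
    rw [intervalIntegral.integral_comp_mul_right (fun x => Real.cos x) hθ, integral_cos,
      smul_eq_mul]
    field_simp
  rw [h1, abs_div]
  apply div_le_div_of_nonneg_right _ (abs_nonneg _)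
  have h2 := Real.abs_sin_le_one ((w + W) * θ)
  have h3 := Real.abs_sin_le_one (w * θ)
  calc |Real.sin ((w + W) * θ) - Real.sin (w * θ)| ≤
      |Real.sin ((w + W) * θ)| + |Real.sin (w * θ)| := abs_sub _ _
    _ ≤ 2 := by linarith

lemma abs_log_ge {N m n : ℕ} (hm : 1 ≤ m) (hn : 1 ≤ n) (hmN : m ≤ N) (hnN : n ≤ N) (h : m ≠ n) :
    |(m:ℝ) - n| / N ≤ |Real.log m - Real.log n| := by
  have key : ∀ a b : ℕ, 1 ≤ a → 1 ≤ b → b ≤ N → a < b →
      ((b:ℝ) - a) / N ≤ Real.log b - Real.log a := by
    intro a b ha hb hbN hab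
    have ha0 : (0:ℝ) < a := by exact_mod_cast ha
    have hb0 : (0:ℝ) < b := by exact_mod_cast hb
    have hN0 : (0:ℝ) < N := by
      have : 0 < N := by omega
      exact_mod_cast this
    have h1 : Real.log (a / b) ≤ a / b - 1 := Real.log_le_sub_one_of_pos (by positivity)
    rw [Real.log_div ha0.ne' hb0.ne'] at h1
    have h2 : ((b:ℝ) - a) / b ≤ Real.log b - Real.log a := by
      have : ((b:ℝ) - a) / b = 1 - a / b := by field_simp
      rw [this]; linarith
    refine le_trans ?_ h2
    have hab' : (a:ℝ) < b := by exact_mod_cast hab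
    exact div_le_div_of_nonneg_left (by linarith) hb0 (by exact_mod_cast hbN)
  rcases Nat.lt_or_gt_of_ne h with hlt | hgt
  · have h1 := key m n hm hn hnN hlt
    have h2 : (m:ℝ) < n := by exact_mod_cast hlt
    rw [abs_sub_comm (m:ℝ) n, abs_of_pos (by linarith : (0:ℝ) < (n:ℝ) - m), abs_sub_comm]
    exact h1.trans (le_abs_self _)
  · have h1 := key n m hn hm hmN hgt
    have h2 : (n:ℝ) < m := by exact_mod_cast hgt
    rw [abs_of_pos (by linarith : (0:ℝ) < (m:ℝ) - n)]
    exact h1.trans (le_abs_self _)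

/-- Reciprocals of the distances. -/
lemma sum_inv_le (N n : ℕ) (hn : n ∈ Finset.Icc 1 N) :
    ∑ m ∈ (Finset.Icc 1 N).filter (fun m => m ≠ n), 1 / |(m:ℝ) - n| ≤ 2 * (1 + Real.log N) := by
  rw [Finset.mem_Icc] at hn
  have hharm : ∑ j ∈ Finset.Icc 1 N, (1:ℝ) / j ≤ 1 + Real.log N := by
    have h := harmonic_le_one_add_log N
    rw [harmonic_eq_sum_Icc] at h
    push_cast at h
    simpa [one_div] using h
  have hsplit : (Finset.Icc 1 N).filter (fun m => m ≠ n) = Finset.Ico 1 n ∪ Finset.Ioc n N := by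
    ext m
    simp only [Finset.mem_filter, Finset.mem_Icc, Finset.mem_union, Finset.mem_Ico,
      Finset.mem_Ioc]
    omega
  have hdisj : Disjoint (Finset.Ico 1 n) (Finset.Ioc n N) := by
    rw [Finset.disjoint_left]
    intro m h1 h2
    rw [Finset.mem_Ico] at h1
    rw [Finset.mem_Ioc] at h2
    omega
  rw [hsplit, Finset.sum_union hdisj]
  have h1 : ∑ m ∈ Finset.Ico 1 n, 1 / |(m:ℝ) - n| ≤ ∑ j ∈ Finset.Icc 1 N, (1:ℝ) / j := by
    calc ∑ m ∈ Finset.Ico 1 n, 1 / |(m:ℝ) - n| =
        ∑ j ∈ (Finset.Ico 1 n).image (fun m => n - m), (1:ℝ) / j := by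
          rw [Finset.sum_image]
          · refine Finset.sum_congr rfl fun m hm => ?_
            rw [Finset.mem_Ico] at hm
            have : (m:ℝ) < n := by exact_mod_cast hm.2
            rw [abs_sub_comm, abs_of_pos (by linarith : (0:ℝ) < (n:ℝ) - m), Nat.cast_sub hm.2.le]
          · intro x hx y hy hxy
            rw [Finset.mem_coe, Finset.mem_Ico] at hx hy
            have : n - x = n - y := hxy
            omega
      _ ≤ _ := by
          apply Finset.sum_le_sum_of_subset_of_nonneg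
          · intro j hj
            rw [Finset.mem_image] at hj
            obtain ⟨m, hm, rfl⟩ := hj
            rw [Finset.mem_Ico] at hm
            rw [Finset.mem_Icc]
            omega
          · intro j _ _; positivity
  have h2 : ∑ m ∈ Finset.Ioc n N, 1 / |(m:ℝ) - n| ≤ ∑ j ∈ Finset.Icc 1 N, (1:ℝ) / j := by
    calc ∑ m ∈ Finset.Ioc n N, 1 / |(m:ℝ) - n| =
        ∑ j ∈ (Finset.Ioc n N).image (fun m => m - n), (1:ℝ) / j := by
          rw [Finset.sum_image]
          · refine Finset.sum_congr rfl fun m hm => ?_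
            rw [Finset.mem_Ioc] at hm
            have : (n:ℝ) < m := by exact_mod_cast hm.1
            rw [abs_of_pos (by linarith : (0:ℝ) < (m:ℝ) - n), Nat.cast_sub hm.1.le]
          · intro x hx y hy hxy
            rw [Finset.mem_coe, Finset.mem_Ioc] at hx hy
            have : x - n = y - n := hxy
            omega
      _ ≤ _ := by
          apply Finset.sum_le_sum_of_subset_of_nonneg
          · intro j hj
            rw [Finset.mem_image] at hj
            obtain ⟨m, hm, rfl⟩ := hj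
            rw [Finset.mem_Ioc] at hm
            rw [Finset.mem_Icc]
            omega
          · intro j _ _; positivity
  linarith

/-- One product of cosines. -/
lemma cos_pair {N m n : ℕ} (hm : 2 ≤ m) (hn : 2 ≤ n) (hmN : m ≤ N) (hnN : n ≤ N) (w W : ℝ) :
    |(∫ t in w..(w + W), Real.cos (t * Real.log m) * Real.cos (t * Real.log n)) -
      (if m = n then W / 2 else 0)| ≤ 1 + (if m = n then 0 else N / |(m:ℝ) - n|) := by
  have hm0 : (2:ℝ) ≤ m := by exact_mod_cast hm
  have hn0 : (2:ℝ) ≤ n := by exact_mod_cast hn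
  have hlm : 0 < Real.log m := Real.log_pos (by linarith)
  have hln : 0 < Real.log n := Real.log_pos (by linarith)
  have hl2 : (1:ℝ) / 2 ≤ Real.log 2 := by have := Real.log_two_gt_d9; linarith
  have hlm2 : 1 / 2 ≤ Real.log m := hl2.trans (Real.log_le_log (by norm_num) hm0)
  have hln2 : 1 / 2 ≤ Real.log n := hl2.trans (Real.log_le_log (by norm_num) hn0)
  have hsplit : (∫ t in w..(w + W), Real.cos (t * Real.log m) * Real.cos (t * Real.log n)) =
      1 / 2 * (∫ t in w..(w + W), Real.cos (t * (Real.log m - Real.log n))) +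
        1 / 2 * ∫ t in w..(w + W), Real.cos (t * (Real.log m + Real.log n)) := by
    rw [← intervalIntegral.integral_const_mul, ← intervalIntegral.integral_const_mul,
      ← intervalIntegral.integral_add]
    · refine intervalIntegral.integral_congr fun t _ => ?_
      show Real.cos (t * Real.log m) * Real.cos (t * Real.log n) =
        1 / 2 * Real.cos (t * (Real.log m - Real.log n)) +
          1 / 2 * Real.cos (t * (Real.log m + Real.log n))
      rw [mul_sub, mul_add, Real.cos_sub, Real.cos_add]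
      ring
    · exact (by fun_prop : Continuous fun t =>
        1 / 2 * Real.cos (t * (Real.log m - Real.log n))).intervalIntegrable _ _
    · exact (by fun_prop : Continuous fun t =>
        1 / 2 * Real.cos (t * (Real.log m + Real.log n))).intervalIntegrable _ _
  have hplus : |1 / 2 * ∫ t in w..(w + W), Real.cos (t * (Real.log m + Real.log n))| ≤ 1 := by
    have h := int_cos_le (w := w) (W := W) (θ := Real.log m + Real.log n) (by positivity)
    rw [abs_mul, abs_of_pos (by norm_num : (0:ℝ) < 1 / 2)]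
    have h2 : 2 / |Real.log m + Real.log n| ≤ 2 := by
      rw [abs_of_pos (by positivity), div_le_iff₀ (by positivity)]
      linarith
    linarith
  rw [hsplit]
  rcases eq_or_ne m n with rfl | hne
  · rw [if_pos rfl, if_pos rfl]
    have h1 : (∫ t in w..(w + W), Real.cos (t * (Real.log m - Real.log m))) = W := by
      simp
    rw [h1, add_zero]
    have h2 : 1 / 2 * W + 1 / 2 * (∫ t in w..(w + W), Real.cos (t * (Real.log m + Real.log m))) -
        W / 2 = 1 / 2 * ∫ t in w..(w + W), Real.cos (t * (Real.log m + Real.log m)) := by ring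
    rw [h2]
    exact hplus
  · rw [if_neg hne, if_neg hne, sub_zero]
    have hne' : Real.log m - Real.log n ≠ 0 := by
      intro h
      apply hne
      have : (m:ℝ) = n := Real.log_injOn_pos (by simp; omega) (by simp; omega) (by linarith)
      exact_mod_cast this
    have h1 := int_cos_le (w := w) (W := W) hne'
    have h2 := abs_log_ge (N := N) (by omega) (by omega) hmN hnN hne
    have hN0 : (0:ℝ) < N := by
      have : 0 < N := by omega
      exact_mod_cast this
    have hmn : 0 < |(m:ℝ) - n| := by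
      rw [abs_pos, sub_ne_zero]
      exact_mod_cast hne
    have h3 : |1 / 2 * ∫ t in w..(w + W), Real.cos (t * (Real.log m - Real.log n))| ≤
        N / |(m:ℝ) - n| := by
      rw [abs_mul, abs_of_pos (by norm_num : (0:ℝ) < 1 / 2)]
      have h4 : 2 / |Real.log m - Real.log n| ≤ 2 * (N / |(m:ℝ) - n|) := by
        rw [div_le_iff₀ (abs_pos.mpr hne')]
        have h5 : 2 * (N / |(m:ℝ) - n|) * (|(m:ℝ) - n| / N) = 2 := by field_simp
        have h6 : 2 * (N / |(m:ℝ) - n|) * (|(m:ℝ) - n| / N) ≤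
            2 * (N / |(m:ℝ) - n|) * |Real.log m - Real.log n| :=
          mul_le_mul_of_nonneg_left h2 (by positivity)
        linarith
      linarith
    exact (abs_add_le _ _).trans (by linarith)

theorem cos_mean (N : ℕ) (a a' : ℕ → ℝ) (w W : ℝ) (_h0 : a 0 = 0) (h1 : a 1 = 0)
    (_h0' : a' 0 = 0) (h1' : a' 1 = 0) :
    |(∫ t in w..(w + W), (∑ n ∈ Finset.Icc 1 N, a n * Real.cos (t * Real.log n)) *
        (∑ n ∈ Finset.Icc 1 N, a' n * Real.cos (t * Real.log n))) -
      W / 2 * ∑ n ∈ Finset.Icc 1 N, a n * a' n| ≤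
      20 * N * (1 + Real.log N) * ((∑ n ∈ Finset.Icc 1 N, a n ^ 2) +
        ∑ n ∈ Finset.Icc 1 N, a' n ^ 2) := by
  classical
  obtain ⟨I, hI⟩ : ∃ I : ℕ → ℕ → ℝ, I = fun (m n : ℕ) =>
      ∫ t in w..(w + W), Real.cos (t * Real.log m) * Real.cos (t * Real.log n) := ⟨_, rfl⟩
  have hint : (∫ t in w..(w + W), (∑ n ∈ Finset.Icc 1 N, a n * Real.cos (t * Real.log n)) *
        (∑ n ∈ Finset.Icc 1 N, a' n * Real.cos (t * Real.log n))) =
      ∑ m ∈ Finset.Icc 1 N, ∑ n ∈ Finset.Icc 1 N, a m * a' n * I m n := by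
    have h2 : ∀ t : ℝ, (∑ n ∈ Finset.Icc 1 N, a n * Real.cos (t * Real.log n)) *
        (∑ n ∈ Finset.Icc 1 N, a' n * Real.cos (t * Real.log n)) =
        ∑ m ∈ Finset.Icc 1 N, ∑ n ∈ Finset.Icc 1 N,
          a m * a' n * (Real.cos (t * Real.log m) * Real.cos (t * Real.log n)) := by
      intro t
      rw [Finset.sum_mul_sum]
      refine Finset.sum_congr rfl fun m _ => Finset.sum_congr rfl fun n _ => ?_
      ring
    simp_rw [h2]
    have hc : ∀ m n : ℕ, Continuous fun t : ℝ =>
        a m * a' n * (Real.cos (t * Real.log m) * Real.cos (t * Real.log n)) := by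
      intro m n; fun_prop
    rw [intervalIntegral.integral_finsetSum
      (fun m _ => (continuous_finsetSum _ fun n _ => hc m n).intervalIntegrable _ _)]
    refine Finset.sum_congr rfl fun m _ => ?_
    rw [intervalIntegral.integral_finsetSum (fun n _ => (hc m n).intervalIntegrable _ _)]
    refine Finset.sum_congr rfl fun n _ => ?_
    rw [hI, intervalIntegral.integral_const_mul]
  have hdiag : W / 2 * ∑ n ∈ Finset.Icc 1 N, a n * a' n =
      ∑ m ∈ Finset.Icc 1 N, ∑ n ∈ Finset.Icc 1 N, a m * a' n * (if m = n then W / 2 else 0) := by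
    rw [Finset.mul_sum]
    refine Finset.sum_congr rfl fun m hm => ?_
    rw [Finset.sum_eq_single m]
    · rw [if_pos rfl]; ring
    · intro n _ hnm; rw [if_neg (Ne.symm hnm)]; ring
    · intro h; exact absurd hm h
  rw [hint, hdiag, ← Finset.sum_sub_distrib]
  have hN0 : (0:ℝ) ≤ N := Nat.cast_nonneg N
  obtain ⟨E, hE⟩ : ∃ E : ℕ → ℕ → ℝ, E = fun (m n : ℕ) =>
      1 + (if m = n then 0 else (N:ℝ) / |(m:ℝ) - n|) := ⟨_, rfl⟩
  have hE0 : ∀ m n, 0 ≤ E m n := by
    intro m n; rw [hE]; dsimp only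
    split_ifs
    · norm_num
    · positivity
  have hterm : ∀ m ∈ Finset.Icc 1 N, ∀ n ∈ Finset.Icc 1 N,
      |a m * a' n * I m n - a m * a' n * (if m = n then W / 2 else 0)| ≤
        1 / 2 * (a m ^ 2 * E m n) + 1 / 2 * (a' n ^ 2 * E m n) := by
    intro m hm n hn
    rw [Finset.mem_Icc] at hm hn
    have hAM : |a m * a' n| ≤ 1 / 2 * a m ^ 2 + 1 / 2 * a' n ^ 2 := by
      rw [abs_mul, ← sq_abs (a m), ← sq_abs (a' n)]
      nlinarith [sq_nonneg (|a m| - |a' n|)]
    have hnn : 0 ≤ 1 / 2 * (a m ^ 2 * E m n) + 1 / 2 * (a' n ^ 2 * E m n) := by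
      have := hE0 m n
      positivity
    rcases Nat.lt_or_ge m 2 with hm2 | hm2
    · have : m = 1 := by omega
      subst this
      rw [h1]
      rw [h1] at hnn
      simpa using hnn
    rcases Nat.lt_or_ge n 2 with hn2 | hn2
    · have : n = 1 := by omega
      subst this
      rw [h1']
      rw [h1'] at hnn
      simpa using hnn
    have hp := cos_pair hm2 hn2 hm.2 hn.2 w W
    rw [← mul_sub, abs_mul]
    have hp' : |I m n - (if m = n then W / 2 else 0)| ≤ E m n := by
      rw [hI, hE]; exact hp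
    calc |a m * a' n| * |I m n - (if m = n then W / 2 else 0)| ≤
        (1 / 2 * a m ^ 2 + 1 / 2 * a' n ^ 2) * E m n :=
          mul_le_mul hAM hp' (abs_nonneg _) (by positivity)
      _ = _ := by ring
  have hrow : ∀ n ∈ Finset.Icc 1 N, ∑ m ∈ Finset.Icc 1 N, E m n ≤ 3 * N * (1 + Real.log N) := by
    intro n hn
    have hNpos : 1 ≤ N := by rw [Finset.mem_Icc] at hn; omega
    have hlog : 0 ≤ Real.log N := Real.log_nonneg (by exact_mod_cast hNpos)
    rw [hE]
    dsimp only
    rw [Finset.sum_add_distrib, Finset.sum_const, Nat.card_Icc, Nat.add_sub_cancel, nsmul_eq_mul,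
      mul_one]
    have h2 : ∑ m ∈ Finset.Icc 1 N, (if m = n then 0 else (N:ℝ) / |(m:ℝ) - n|) =
        N * ∑ m ∈ (Finset.Icc 1 N).filter (fun m => m ≠ n), 1 / |(m:ℝ) - n| := by
      rw [Finset.sum_filter, Finset.mul_sum]
      refine Finset.sum_congr rfl fun m _ => ?_
      by_cases h : m = n
      · rw [if_pos h, if_neg (not_not.mpr h), mul_zero]
      · rw [if_neg h, if_pos h]; ring
    rw [h2]
    have h3 := mul_le_mul_of_nonneg_left (sum_inv_le N n hn) hN0
    nlinarith
  have hsym : ∀ m n, E m n = E n m := by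
    intro m n; rw [hE]; dsimp only
    by_cases h : m = n
    · rw [if_pos h, if_pos h.symm]
    · rw [if_neg h, if_neg (Ne.symm h), abs_sub_comm]
  calc |∑ m ∈ Finset.Icc 1 N, (∑ n ∈ Finset.Icc 1 N, a m * a' n * I m n -
        ∑ n ∈ Finset.Icc 1 N, a m * a' n * (if m = n then W / 2 else 0))| ≤
      ∑ m ∈ Finset.Icc 1 N, ∑ n ∈ Finset.Icc 1 N,
        |a m * a' n * I m n - a m * a' n * (if m = n then W / 2 else 0)| := by
        refine (Finset.abs_sum_le_sum_abs _ _).trans (Finset.sum_le_sum fun m _ => ?_)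
        rw [← Finset.sum_sub_distrib]
        exact Finset.abs_sum_le_sum_abs _ _
    _ ≤ ∑ m ∈ Finset.Icc 1 N, ∑ n ∈ Finset.Icc 1 N,
        (1 / 2 * (a m ^ 2 * E m n) + 1 / 2 * (a' n ^ 2 * E m n)) :=
        Finset.sum_le_sum fun m hm => Finset.sum_le_sum fun n hn => hterm m hm n hn
    _ = 1 / 2 * (∑ m ∈ Finset.Icc 1 N, a m ^ 2 * ∑ n ∈ Finset.Icc 1 N, E n m) +
        1 / 2 * ∑ n ∈ Finset.Icc 1 N, a' n ^ 2 * ∑ m ∈ Finset.Icc 1 N, E m n := by
        rw [Finset.mul_sum, Finset.mul_sum]
        simp_rw [Finset.sum_add_distrib]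
        congr 1
        · refine Finset.sum_congr rfl fun m _ => ?_
          rw [Finset.mul_sum, Finset.mul_sum]
          exact Finset.sum_congr rfl fun n _ => by rw [hsym m n]
        · rw [Finset.sum_comm]
          refine Finset.sum_congr rfl fun n _ => ?_
          rw [Finset.mul_sum, Finset.mul_sum]
    _ ≤ 1 / 2 * (∑ m ∈ Finset.Icc 1 N, a m ^ 2 * (3 * N * (1 + Real.log N))) +
        1 / 2 * ∑ n ∈ Finset.Icc 1 N, a' n ^ 2 * (3 * N * (1 + Real.log N)) := by
        gcongr with m hm n hn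
        · exact hrow m hm
        · exact hrow n hn
    _ = 3 / 2 * N * (1 + Real.log N) * ((∑ n ∈ Finset.Icc 1 N, a n ^ 2) +
        ∑ n ∈ Finset.Icc 1 N, a' n ^ 2) := by
        rw [← Finset.sum_mul, ← Finset.sum_mul]
        ring
    _ ≤ _ := by
        have hlog : 0 ≤ 1 + Real.log N := by
          rcases Nat.eq_zero_or_pos N with h | h
          · rw [h]; simp
          · have : 0 ≤ Real.log N := Real.log_nonneg (by exact_mod_cast h)
            linarith
        have hs : 0 ≤ (∑ n ∈ Finset.Icc 1 N, a n ^ 2) + ∑ n ∈ Finset.Icc 1 N, a' n ^ 2 :=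
          add_nonneg (Finset.sum_nonneg fun _ _ => sq_nonneg _)
            (Finset.sum_nonneg fun _ _ => sq_nonneg _)
        have h2 : 0 ≤ N * (1 + Real.log N) * ((∑ n ∈ Finset.Icc 1 N, a n ^ 2) +
            ∑ n ∈ Finset.Icc 1 N, a' n ^ 2) := by positivity
        nlinarith

end Pool.Agent.AHP
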