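import Pool.Agent.AHP.Defs
import Pool.Agent.ZetaGaps.Unbounded

/-!
# Sums over the indices as sums over the zeros
-/

namespace Pool.Agent.AHP

open MeasureTheory Real Set Pool.Agent.ZGap.Gen Pool.Agent.ZetaGaps Pool.Agent.Hadamard

open Classical in
/-- The zeros with ordinate in `(w, w + W]`. -/
noncomputable def Zf (w W : ℝ) : Finset ℂ :=
  (finite_zerosUpTo (w + W)).toFinset.filter (fun ρ => w < ρ.im)

lemma mem_Zf {w W : ℝ} (hw : 0 ≤ w) {ρ : ℂ} :
    ρ ∈ Zf w W ↔ ρ ∈ ntz ∧ w < ρ.im ∧ ρ.im ≤ w + W := by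
  rw [Zf, Finset.mem_filter, Set.Finite.mem_toFinset, mem_zerosUpTo]
  constructor
  · rintro ⟨⟨h1, _, h3⟩, h4⟩
    exact ⟨h1, h4, h3⟩
  · rintro ⟨h1, h2, h3⟩
    exact ⟨⟨h1, by linarith, h3⟩, h2⟩

lemma one_le_of_mem {w W : ℝ} {n : ℕ} (h : n ∈ In w W) : 1 ≤ n := by
  have := (Finset.mem_Ioc.1 h).1
  omega

lemma mem_In_iff {w W : ℝ} {n : ℕ} (hn : 1 ≤ n) :
    n ∈ In w W ↔ w < ordinate n ∧ ordinate n ≤ w + W := by
  rw [In, Finset.mem_Ioc]
  have h1 := le_zeroCount_iff (zeroCount_unbounded n) hn (T := w)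
  have h2 := le_zeroCount_iff (zeroCount_unbounded n) hn (T := w + W)
  rw [← h2]
  constructor
  · rintro ⟨h3, h4⟩
    refine ⟨?_, h4⟩
    by_contra hc
    push Not at hc
    have := h1.2 hc
    omega
  · rintro ⟨h3, h4⟩
    refine ⟨?_, h4⟩
    by_contra hc
    push Not at hc
    have := h1.1 hc
    linarith

/-- The number of indices with a given ordinate. -/
lemma card_fiber {w W γ : ℝ} (hw : 0 ≤ w) (h1 : w < γ) (h2 : γ ≤ w + W) :
    (((In w W).filter fun n => ordinate n = γ).card : ℕ) =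
      ∑ ρ ∈ (Zf w W).filter (fun ρ => ρ.im = γ), mult ρ := by
  classical
  -- the largest value below `γ`
  obtain ⟨s, hs1, hs2, hs3⟩ : ∃ s : ℝ, w ≤ s ∧ s < γ ∧ ∀ ρ ∈ ntz, s < ρ.im → γ ≤ ρ.im := by
    set F : Finset ℝ := insert w (((Zf w W).image fun ρ => ρ.im).filter (fun y => y < γ)) with hF
    have hne : F.Nonempty := ⟨w, Finset.mem_insert_self _ _⟩
    refine ⟨F.max' hne, F.le_max' _ (Finset.mem_insert_self _ _), ?_, ?_⟩
    · have hall : ∀ y ∈ F, y < γ := fun y hy => by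
        rw [hF, Finset.mem_insert, Finset.mem_filter] at hy
        rcases hy with hy | hy
        · rw [hy]; exact h1
        · exact hy.2
      exact hall _ (F.max'_mem hne)
    · intro ρ hρ h3
      by_contra hc
      push Not at hc
      have h4 : w ≤ F.max' hne := F.le_max' _ (Finset.mem_insert_self _ _)
      have h5 : ρ.im ∈ F := by
        rw [hF, Finset.mem_insert, Finset.mem_filter, Finset.mem_image]
        exact Or.inr ⟨⟨ρ, (mem_Zf hw).2 ⟨hρ, by linarith, by linarith⟩, rfl⟩, hc⟩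
      have := F.le_max' _ h5
      linarith
  have h3 := zeroCount_sub (S := s) (T := γ) hs2.le
  have h4 : (finite_zerosUpTo γ).toFinset.filter (fun ρ => s < ρ.im) =
      (Zf w W).filter (fun ρ => ρ.im = γ) := by
    ext ρ
    rw [Finset.mem_filter, Set.Finite.mem_toFinset, mem_zerosUpTo, Finset.mem_filter, mem_Zf hw]
    constructor
    · rintro ⟨⟨h5, _, h6⟩, h7⟩
      have h8 := hs3 ρ h5 h7
      exact ⟨⟨h5, by linarith, by linarith⟩, by linarith⟩
    · rintro ⟨⟨h5, h6, h7⟩, h8⟩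
      exact ⟨⟨h5, by linarith, h8.le⟩, by linarith⟩
  rw [h4] at h3
  have h5 : (In w W).filter (fun n => ordinate n = γ) = Finset.Ioc (zeroCount s) (zeroCount γ) := by
    ext n
    rw [Finset.mem_filter, Finset.mem_Ioc]
    constructor
    · rintro ⟨h6, h7⟩
      have hn := one_le_of_mem h6
      refine ⟨?_, ?_⟩
      · by_contra hc
        push Not at hc
        have := (le_zeroCount_iff (zeroCount_unbounded n) hn (T := s)).1 hc
        linarith
      · exact (le_zeroCount_iff (zeroCount_unbounded n) hn (T := γ)).2 h7.le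
    · rintro ⟨h6, h7⟩
      have hn : 1 ≤ n := by omega
      have h8 := (le_zeroCount_iff (zeroCount_unbounded n) hn (T := γ)).1 h7
      have h9 : s < ordinate n := by
        by_contra hc
        push Not at hc
        have := (le_zeroCount_iff (zeroCount_unbounded n) hn (T := s)).2 hc
        omega
      obtain ⟨ρ, hρ, hρ2⟩ := exists_zero_ordinate (zeroCount_unbounded n) hn
      have h10 := hs3 ρ hρ (by rw [hρ2]; exact h9)
      have h11 : ordinate n = γ := by rw [hρ2] at h10; linarith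
      refine ⟨(mem_In_iff hn).2 ⟨?_, ?_⟩, h11⟩ <;> rw [h11] <;> assumption
  rw [h5, Nat.card_Ioc, h3]
  omega

/-- A sum over the indices is a sum over the zeros. -/
theorem sum_index (F : ℝ → ℝ) {w W : ℝ} (hw : 0 ≤ w) :
    ∑ n ∈ In w W, F (ordinate n) = ∑ ρ ∈ Zf w W, (mult ρ : ℝ) * F ρ.im := by
  classical
  set G : Finset ℝ := (Zf w W).image fun ρ => ρ.im with hG
  have m1 : ∀ n ∈ In w W, ordinate n ∈ G := by
    intro n hn
    have h1 := one_le_of_mem hn
    obtain ⟨ρ, hρ, hρ2⟩ := exists_zero_ordinate (zeroCount_unbounded n) h1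
    have h2 := (mem_In_iff h1).1 hn
    rw [hG, Finset.mem_image]
    exact ⟨ρ, (mem_Zf hw).2 ⟨hρ, by rw [hρ2]; exact h2.1, by rw [hρ2]; exact h2.2⟩, hρ2⟩
  have m2 : ∀ ρ ∈ Zf w W, ρ.im ∈ G := fun ρ hρ => by
    rw [hG, Finset.mem_image]; exact ⟨ρ, hρ, rfl⟩
  rw [← Finset.sum_fiberwise_of_maps_to m1, ← Finset.sum_fiberwise_of_maps_to m2]
  refine Finset.sum_congr rfl fun γ hγ => ?_
  have e1 : ∑ n ∈ (In w W).filter (fun n => ordinate n = γ), F (ordinate n) =
      (((In w W).filter fun n => ordinate n = γ).card : ℝ) * F γ := by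
    rw [Finset.sum_congr rfl (fun n hn => by rw [(Finset.mem_filter.1 hn).2]),
      Finset.sum_const, nsmul_eq_mul]
  have e2 : ∑ ρ ∈ (Zf w W).filter (fun ρ => ρ.im = γ), (mult ρ : ℝ) * F ρ.im =
      (∑ ρ ∈ (Zf w W).filter (fun ρ => ρ.im = γ), (mult ρ : ℝ)) * F γ := by
    rw [Finset.sum_mul]
    exact Finset.sum_congr rfl (fun ρ hρ => by rw [(Finset.mem_filter.1 hρ).2])
  rw [e1, e2]
  congr 1
  rw [hG, Finset.mem_image] at hγ
  obtain ⟨ρ, hρ, rfl⟩ := hγ
  have h3 := (mem_Zf hw).1 hρ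
  rw [card_fiber hw h3.2.1 h3.2.2]
  push_cast
  rfl

/-- The same, as a sum over all zeros. -/
theorem hasSum_index (F : ℝ → ℝ) {w W : ℝ} (hw : 0 ≤ w) :
    HasSum (fun ρ : ntz => if w < (ρ : ℂ).im ∧ (ρ : ℂ).im ≤ w + W then
      (mult ρ : ℝ) * F (ρ : ℂ).im else 0) (∑ n ∈ In w W, F (ordinate n)) := by
  classical
  rw [sum_index F hw]
  have hmem : ∀ ρ ∈ Zf w W, ρ ∈ ntz := fun ρ hρ => ((mem_Zf hw).1 hρ).1
  have e2 := Finset.sum_subtype_of_mem (s := Zf w W) (fun ρ : ℂ => (mult ρ : ℝ) * F ρ.im) hmem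
  rw [← e2]
  have e3 : ∑ x ∈ (Zf w W).subtype (fun x => x ∈ ntz), (mult (x : ℂ) : ℝ) * F (x : ℂ).im =
      ∑ x ∈ (Zf w W).subtype (fun x => x ∈ ntz), (if w < (x : ℂ).im ∧ (x : ℂ).im ≤ w + W then
      (mult x : ℝ) * F (x : ℂ).im else 0) := by
    refine Finset.sum_congr rfl fun x hx => ?_
    rw [Finset.mem_subtype, mem_Zf hw] at hx
    rw [if_pos hx.2]
  rw [e3]
  refine hasSum_sum_of_ne_finset_zero fun ρ hρ => ?_
  rw [if_neg]
  intro h
  apply hρ
  rw [Finset.mem_subtype, mem_Zf hw]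
  exact ⟨ρ.2, h⟩

end Pool.Agent.AHP
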