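import Pool.Agent.AHP.Defs

/-!
# Functions with three derivatives: decay of the cosine transform, kernels
-/

namespace Pool.Agent.AHP

open MeasureTheory Real Set Pool.Agent.ZGap.Gen

/-- `u1`, `u2`, `u3` are the derivatives of `u`. -/
structure Jet3 (u u1 u2 u3 : ℝ → ℝ) : Prop where
  d0 : ∀ v, HasDerivAt u (u1 v) v
  d1 : ∀ v, HasDerivAt u1 (u2 v) v
  d2 : ∀ v, HasDerivAt u2 (u3 v) v
  c3 : Continuous u3

lemma Jet3.k0 {u u1 u2 u3 : ℝ → ℝ} (h : Jet3 u u1 u2 u3) : Continuous u :=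
  continuous_iff_continuousAt.2 fun v => (h.d0 v).continuousAt

lemma Jet3.k1 {u u1 u2 u3 : ℝ → ℝ} (h : Jet3 u u1 u2 u3) : Continuous u1 :=
  continuous_iff_continuousAt.2 fun v => (h.d1 v).continuousAt

lemma Jet3.k2 {u u1 u2 u3 : ℝ → ℝ} (h : Jet3 u u1 u2 u3) : Continuous u2 :=
  continuous_iff_continuousAt.2 fun v => (h.d2 v).continuousAt

lemma Jet3.mul {u u1 u2 u3 w w1 w2 w3 : ℝ → ℝ} (h : Jet3 u u1 u2 u3) (g : Jet3 w w1 w2 w3) :
    Jet3 (fun v => u v * w v) (fun v => u1 v * w v + u v * w1 v)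
      (fun v => u2 v * w v + 2 * (u1 v * w1 v) + u v * w2 v)
      (fun v => u3 v * w v + 3 * (u2 v * w1 v) + 3 * (u1 v * w2 v) + u v * w3 v) where
  d0 := fun v => (h.d0 v).mul (g.d0 v)
  d1 := fun v => by
    refine (((h.d1 v).mul (g.d0 v)).add ((h.d0 v).mul (g.d1 v))).congr_deriv ?_
    ring
  d2 := fun v => by
    refine ((((h.d2 v).mul (g.d0 v)).add (((h.d1 v).mul (g.d1 v)).const_mul 2)).add
      ((h.d0 v).mul (g.d2 v))).congr_deriv ?_
    ring
  c3 := by
    have := h.k0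
    have := h.k1
    have := h.k2
    have := h.c3
    have := g.k0
    have := g.k1
    have := g.k2
    have := g.c3
    fun_prop

lemma exists_sup {f : ℝ → ℝ} (hf : Continuous f) : ∃ S : ℝ, 1 ≤ S ∧ ∀ v, 0 ≤ v → v ≤ 1 →
    |f v| ≤ S := by
  obtain ⟨C, hC⟩ := isCompact_Icc.exists_bound_of_continuousOn (s := Icc (0:ℝ) 1) hf.continuousOn
  refine ⟨max C 1, le_max_right _ _, fun v h0 h1 => ?_⟩
  have := hC v ⟨h0, h1⟩
  rw [Real.norm_eq_abs] at this
  exact this.trans (le_max_left _ _)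

/-- A function with three derivatives which vanishes at `1` is a multiple of a kernel. -/
lemma Jet3.exists_phi {u u1 u2 u3 : ℝ → ℝ} (h : Jet3 u u1 u2 u3) (h1 : u 1 = 0) :
    ∃ (M : ℝ) (P : PhiData), 0 < M ∧ ∀ v, M * P.f0 v = u v := by
  obtain ⟨S0, hS0, b0⟩ := exists_sup h.k0
  obtain ⟨S1, hS1, b1⟩ := exists_sup h.k1
  obtain ⟨S2, hS2, b2⟩ := exists_sup h.k2
  obtain ⟨M, hM⟩ : ∃ M : ℝ, M = S0 + S1 + S2 := ⟨_, rfl⟩
  have hM0 : 0 < M := by linarith
  have hk0 := h.k0
  have hk1 := h.k1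
  have hk2 := h.k2
  refine ⟨M, ⟨fun v => u v / M, fun v => u1 v / M, fun v => u2 v / M, by fun_prop, by fun_prop,
    by fun_prop, fun v => (h.d0 v).div_const M, fun v => (h.d1 v).div_const M, by simp [h1],
    fun v v0 v1 => ?_, fun v v0 v1 => ?_, fun v v0 v1 => ?_⟩, hM0, fun v => ?_⟩
  · rw [abs_div, abs_of_pos hM0, div_le_iff₀ hM0]
    have := b0 v v0 v1
    linarith
  · rw [abs_div, abs_of_pos hM0, div_le_iff₀ hM0]
    have := b1 v v0 v1
    linarith
  · rw [abs_div, abs_of_pos hM0, div_le_iff₀ hM0]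
    have := b2 v v0 v1
    linarith
  · show M * (u v / M) = u v
    field_simp

lemma int_abs_le_one {f g : ℝ → ℝ} {S : ℝ} (hS : ∀ v, 0 ≤ v → v ≤ 1 → |f v| ≤ S)
    (hg : ∀ v, |g v| ≤ 1) : |∫ v in (0:ℝ)..1, f v * g v| ≤ S := by
  have h := intervalIntegral.norm_integral_le_of_norm_le_const (a := 0) (b := 1) (C := S)
    (f := fun v => f v * g v) (fun v hv => by
      rw [Set.uIoc_of_le zero_le_one] at hv
      rw [Real.norm_eq_abs, abs_mul]
      have h1 := hS v hv.1.le hv.2
      calc |f v| * |g v| ≤ S * 1 := mul_le_mul h1 (hg v) (abs_nonneg _)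
            ((abs_nonneg _).trans h1)
        _ = S := mul_one S)
  rw [Real.norm_eq_abs] at h
  simpa using h

/-- The decay of the cosine transform. -/
lemma Jet3.decay {u u1 u2 u3 : ℝ → ℝ} (h : Jet3 u u1 u2 u3) (h1 : u 1 = 0) (h2 : u1 1 = 0)
    (h3 : u1 0 = 0) : ∃ C : ℝ, 0 < C ∧ ∀ z : ℝ,
      |∫ v in (0:ℝ)..1, u v * Real.cos (z * v)| ≤ C / (1 + |z| ^ 3) := by
  obtain ⟨S0, hS0, b0⟩ := exists_sup h.k0
  obtain ⟨S2, hS2, b2⟩ := exists_sup h.k2
  obtain ⟨S3, hS3, b3⟩ := exists_sup h.c3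
  refine ⟨2 * (S0 + S2 + S3), by linarith, fun z => ?_⟩
  have hpos : 0 < 1 + |z| ^ 3 := by positivity
  rw [le_div_iff₀ hpos]
  rcases le_or_gt |z| 1 with hz | hz
  · have e1 := int_abs_le_one b0 (g := fun v => Real.cos (z * v))
      (fun v => Real.abs_cos_le_one _)
    have e2 : |z| ^ 3 ≤ 1 := pow_le_one₀ (abs_nonneg z) hz
    calc |∫ v in (0:ℝ)..1, u v * Real.cos (z * v)| * (1 + |z| ^ 3) ≤ S0 * 2 :=
          mul_le_mul e1 (by linarith) (by positivity) (by linarith)
      _ ≤ _ := by linarith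
  · have hz0 : z ≠ 0 := by
      rintro rfl
      rw [abs_zero] at hz
      linarith
    have hk0 := h.k0
    have hk1 := h.k1
    have hk2 := h.k2
    have hk3 := h.c3
    have dsin : ∀ v : ℝ, HasDerivAt (fun v => Real.sin (z * v) / z) (Real.cos (z * v)) v := by
      intro v
      have e : HasDerivAt (fun v : ℝ => z * v) z v := by
        simpa using (hasDerivAt_id v).const_mul z
      refine (e.sin.div_const z).congr_deriv ?_
      field_simp
    have dcos : ∀ v : ℝ, HasDerivAt (fun v => -Real.cos (z * v) / z) (Real.sin (z * v)) v := by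
      intro v
      have e : HasDerivAt (fun v : ℝ => z * v) z v := by
        simpa using (hasDerivAt_id v).const_mul z
      refine (e.cos.neg.div_const z).congr_deriv ?_
      field_simp
      try ring
    -- three integrations by parts
    have s1 : ∫ v in (0:ℝ)..1, u v * Real.cos (z * v) =
        -(∫ v in (0:ℝ)..1, u1 v * (Real.sin (z * v) / z)) := by
      rw [intervalIntegral.integral_mul_deriv_eq_deriv_mul (fun v _ => h.d0 v)
        (fun v _ => dsin v) (hk1.intervalIntegrable _ _)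
        ((by fun_prop : Continuous fun v => Real.cos (z * v)).intervalIntegrable _ _)]
      rw [h1]
      simp
    have s2 : ∫ v in (0:ℝ)..1, u1 v * Real.sin (z * v) =
        -(∫ v in (0:ℝ)..1, u2 v * (-Real.cos (z * v) / z)) := by
      rw [intervalIntegral.integral_mul_deriv_eq_deriv_mul (fun v _ => h.d1 v)
        (fun v _ => dcos v) (hk2.intervalIntegrable _ _)
        ((by fun_prop : Continuous fun v => Real.sin (z * v)).intervalIntegrable _ _)]
      rw [h2, h3]
      simp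
    have s3 : ∫ v in (0:ℝ)..1, u2 v * Real.cos (z * v) = u2 1 * (Real.sin z / z) -
        ∫ v in (0:ℝ)..1, u3 v * (Real.sin (z * v) / z) := by
      rw [intervalIntegral.integral_mul_deriv_eq_deriv_mul (fun v _ => h.d2 v)
        (fun v _ => dsin v) (hk3.intervalIntegrable _ _)
        ((by fun_prop : Continuous fun v => Real.cos (z * v)).intervalIntegrable _ _)]
      simp
    have t1 : ∫ v in (0:ℝ)..1, u1 v * (Real.sin (z * v) / z) =
        (∫ v in (0:ℝ)..1, u1 v * Real.sin (z * v)) / z := by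
      rw [← intervalIntegral.integral_div]
      exact intervalIntegral.integral_congr fun v _ => by ring
    have t2 : ∫ v in (0:ℝ)..1, u2 v * (-Real.cos (z * v) / z) =
        -((∫ v in (0:ℝ)..1, u2 v * Real.cos (z * v)) / z) := by
      rw [← intervalIntegral.integral_div, ← intervalIntegral.integral_neg]
      exact intervalIntegral.integral_congr fun v _ => by ring
    have t3 : ∫ v in (0:ℝ)..1, u3 v * (Real.sin (z * v) / z) =
        (∫ v in (0:ℝ)..1, u3 v * Real.sin (z * v)) / z := by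
      rw [← intervalIntegral.integral_div]
      exact intervalIntegral.integral_congr fun v _ => by ring
    have e3 := int_abs_le_one b3 (g := fun v => Real.sin (z * v))
      (fun v => Real.abs_sin_le_one _)
    have e4 := b2 1 zero_le_one le_rfl
    have e5 := Real.abs_sin_le_one z
    have key : (∫ v in (0:ℝ)..1, u v * Real.cos (z * v)) * z ^ 3 =
        -(u2 1 * Real.sin z - ∫ v in (0:ℝ)..1, u3 v * Real.sin (z * v)) := by
      rw [s1, t1, s2, t2, s3, t3]
      field_simp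
    have e6 : |∫ v in (0:ℝ)..1, u v * Real.cos (z * v)| * |z| ^ 3 ≤ S2 + S3 := by
      rw [← abs_pow, ← abs_mul, key, abs_neg]
      refine (abs_sub _ _).trans ?_
      rw [abs_mul]
      have : |u2 1| * |Real.sin z| ≤ S2 * 1 := mul_le_mul e4 e5 (abs_nonneg _) (by linarith)
      linarith
    have e7 : 1 ≤ |z| ^ 3 := one_le_pow₀ hz.le
    have e8 : |∫ v in (0:ℝ)..1, u v * Real.cos (z * v)| * 1 ≤
        |∫ v in (0:ℝ)..1, u v * Real.cos (z * v)| * |z| ^ 3 :=
      mul_le_mul_of_nonneg_left e7 (abs_nonneg _)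
    rw [mul_add]
    linarith

end Pool.Agent.AHP
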