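import Pool.Agent.AHP.CkDefs
import Pool.Agent.AHP.KerQ0

/-!
# Existence of the kernels
-/

namespace Pool.Agent.AHP

open MeasureTheory Real Set Pool.Agent.ZGap.Gen

lemma jet_pow (m : ℕ) : Jet3 (fun v : ℝ => 1 - v ^ (m + 3))
    (fun v => -(((m:ℝ) + 3) * v ^ (m + 2))) (fun v => -(((m:ℝ) + 3) * (((m:ℝ) + 2) * v ^ (m + 1))))
    (fun v => -(((m:ℝ) + 3) * (((m:ℝ) + 2) * (((m:ℝ) + 1) * v ^ m)))) where
  d0 := fun v => by
    refine ((hasDerivAt_pow (m + 3) v).const_sub 1).congr_deriv ?_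
    push_cast
    simp
  d1 := fun v => by
    refine (((hasDerivAt_pow (m + 2) v).const_mul ((m:ℝ) + 3)).neg).congr_deriv ?_
    push_cast
    simp
  d2 := fun v => by
    refine ((((hasDerivAt_pow (m + 1) v).const_mul ((m:ℝ) + 2)).const_mul
      ((m:ℝ) + 3)).neg).congr_deriv ?_
    push_cast
    simp
  c3 := by fun_prop

lemma jet_cos (A B s : ℝ) : Jet3 (fun v : ℝ => A + B * Real.cos (s * v))
    (fun v => -(B * s * Real.sin (s * v))) (fun v => -(B * s * (s * Real.cos (s * v))))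
    (fun v => B * s * (s * (s * Real.sin (s * v)))) where
  d0 := fun v => by
    have e : HasDerivAt (fun v : ℝ => s * v) s v := by simpa using (hasDerivAt_id v).const_mul s
    refine ((e.cos.const_mul B).const_add A).congr_deriv ?_
    ring
  d1 := fun v => by
    have e : HasDerivAt (fun v : ℝ => s * v) s v := by simpa using (hasDerivAt_id v).const_mul s
    refine ((e.sin.const_mul (B * s)).neg).congr_deriv ?_
    ring
  d2 := fun v => by
    have e : HasDerivAt (fun v : ℝ => s * v) s v := by simpa using (hasDerivAt_id v).const_mul s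
    refine (((e.cos.const_mul s).const_mul (B * s)).neg).congr_deriv ?_
    ring
  c3 := by fun_prop

lemma cos_diff_le (B s x y : ℝ) : |B * Real.cos (s * x) - B * Real.cos (s * y)| ≤
    |B| * |s| * |x - y| := by
  rw [← mul_sub, abs_mul, mul_assoc]
  refine mul_le_mul_of_nonneg_left ?_ (abs_nonneg B)
  refine (Real.abs_cos_sub_cos_le _ _).trans (le_of_eq ?_)
  rw [← mul_sub, abs_mul]

lemma int_le_of_le {f : ℝ → ℝ} {C : ℝ} (h : ∀ v, 0 ≤ v → v ≤ 1 → |f v| ≤ C) :
    |∫ v in (0:ℝ)..1, f v| ≤ C := by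
  have := int_abs_le_one h (g := fun _ => 1) (fun _ => by simp)
  simpa using this

/-- The parameters. -/
lemma exists_params {W η : ℝ} (hW : 0 < W) (hη : 0 < η) : ∃ (t : ℝ) (m : ℕ), 0 < t ∧ t < 1 ∧
    W * (1 - t) ≤ η ∧ W * t ^ (m + 3) ≤ η ∧ W / ((m:ℝ) + 3) ≤ η := by
  obtain ⟨t, ht⟩ : ∃ t : ℝ, t = 1 - min (1 / 2) (η / W) := ⟨_, rfl⟩
  have h1 : min (1 / 2) (η / W) ≤ 1 / 2 := min_le_left _ _
  have h2 : min (1 / 2) (η / W) ≤ η / W := min_le_right _ _
  have h3 : 0 < min (1 / 2) (η / W) := lt_min (by norm_num) (by positivity)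
  have t0 : 0 < t := by linarith
  have t1 : t < 1 := by linarith
  have ev1 : ∀ᶠ m : ℕ in Filter.atTop, t ^ m < η / W :=
    (tendsto_pow_atTop_nhds_zero_of_lt_one t0.le t1).eventually_lt_const (by positivity)
  have ev2 : ∀ᶠ m : ℕ in Filter.atTop, W / η ≤ (m:ℝ) :=
    tendsto_natCast_atTop_atTop.eventually_ge_atTop _
  obtain ⟨m, hm1, hm2⟩ := (ev1.and ev2).exists
  refine ⟨t, m, t0, t1, ?_, ?_, ?_⟩
  · have h4 : 1 - t ≤ η / W := by linarith
    calc W * (1 - t) ≤ W * (η / W) := mul_le_mul_of_nonneg_left h4 hW.le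
      _ = η := by field_simp
  · have h4 : t ^ (m + 3) ≤ η / W := by
      refine le_trans ?_ hm1.le
      exact pow_le_pow_of_le_one t0.le t1.le (by omega)
    calc W * t ^ (m + 3) ≤ W * (η / W) := mul_le_mul_of_nonneg_left h4 hW.le
      _ = η := by field_simp
  · have hm0 : (0:ℝ) < (m:ℝ) + 3 := by positivity
    rw [div_le_iff₀ hm0]
    rw [div_le_iff₀ hη] at hm2
    nlinarith

/-- **Existence of the kernels**, with the decay of the transform. -/
theorem ker_exists_decay {a A B η : ℝ} {k : ℕ} (ha : 0 < a) (ha1 : a < 1) (hη : 0 < η)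
    (hAB : ∀ v : ℝ, 2 * a / (1 + a) ≤ v → v ≤ 1 → 0 ≤ A + B * Real.cos (π * k * v)) :
    ∃ (b c M : ℝ) (Φ : ℝ → ℝ) (P P' : PhiData), 0 < b ∧ b < a ∧ c = 2 * b / (1 + a) ∧ 0 < c ∧
      c < 1 ∧ 0 < M ∧ Continuous Φ ∧
      (∀ v : ℝ, M * (P.f0 v * P'.f0 v) = Φ v * (A + B * Real.cos (π * k * (c * v)))) ∧
      (∀ v : ℝ, 0 ≤ v → v ≤ 1 → 0 ≤ (1 - Φ v) * (A + B * Real.cos (π * k * (c * v))) + η) ∧
      (∀ v : ℝ, c ≤ v → v ≤ 2 - c → 0 ≤ A + B * Real.cos (π * k * v) + η) ∧
      |4 * M * cb P P' b - (A * (1 + a ^ 2) + B * ck a k)| ≤ η ∧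
      ∃ Cg : ℝ, 0 < Cg ∧ (∀ x : ℝ, |GG P P' (2 * π * c * x)| ≤ Cg / (1 + |x| ^ 3)) ∧
        (∀ x y : ℝ, |GG P P' (2 * π * c * x) - GG P P' (2 * π * c * y)| ≤ Cg * |x - y|) ∧
        (∀ x : ℝ, GG P P' (2 * π * c * -x) = GG P P' (2 * π * c * x)) := by
  have hpi := Real.pi_pos
  obtain ⟨S, hS⟩ : ∃ S : ℝ, S = |A| + |B| := ⟨_, rfl⟩
  have hS0 : 0 ≤ S := by rw [hS]; positivity
  obtain ⟨Q, hQ⟩ : ∃ Q : ℝ, Q = |B| * |π * (k:ℝ)| := ⟨_, rfl⟩
  have hQ0 : 0 ≤ Q := by rw [hQ]; positivity
  obtain ⟨W, hW⟩ : ∃ W : ℝ, W = 8 * (Q + S + 1) := ⟨_, rfl⟩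
  have hW0 : 0 < W := by linarith
  obtain ⟨t, m, t0, t1, w1, w2, w3⟩ := exists_params hW0 hη
  obtain ⟨α, hα⟩ : ∃ α : ℝ, α = 2 * a / (1 + a) := ⟨_, rfl⟩
  have hα0 : 0 < α := by rw [hα]; positivity
  have hα1 : α < 1 := by
    rw [hα, div_lt_one (by linarith)]
    linarith
  obtain ⟨b, hb⟩ : ∃ b : ℝ, b = a * t := ⟨_, rfl⟩
  obtain ⟨c, hc⟩ : ∃ c : ℝ, c = 2 * b / (1 + a) := ⟨_, rfl⟩
  have hb0 : 0 < b := by rw [hb]; positivity
  have hba : b < a := by rw [hb]; exact mul_lt_of_lt_one_right ha t1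
  have hcα : c = α * t := by rw [hc, hα, hb]; ring
  have hc0 : 0 < c := by rw [hcα]; positivity
  have hcα' : c < α := by rw [hcα]; exact mul_lt_of_lt_one_right hα0 t1
  have hc1 : c < 1 := hcα'.trans hα1
  have h1t : 0 < 1 - t := by linarith
  have w1' : 8 * Q * (1 - t) + 8 * S * (1 - t) ≤ η := by
    have : W * (1 - t) = 8 * Q * (1 - t) + 8 * S * (1 - t) + 8 * (1 - t) := by rw [hW]; ring
    linarith
  have hQt : 0 ≤ Q * (1 - t) := by positivity
  have hSt : 0 ≤ S * (1 - t) := by positivity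
  -- the functions
  have jp := jet_pow m
  have jc := jet_cos A B (π * k * c)
  have jw := jp.mul jc
  have jh := jp.mul jw
  obtain ⟨M2, P', hM2, hP'⟩ := jp.exists_phi (by simp)
  obtain ⟨M1, P, hM1, hP⟩ := jw.exists_phi (by simp)
  obtain ⟨Φ, hΦ⟩ : ∃ Φ : ℝ → ℝ, Φ = fun v => (1 - v ^ (m + 3)) ^ 2 := ⟨_, rfl⟩
  have hΦc : Continuous Φ := by rw [hΦ]; fun_prop
  have hprod : ∀ v : ℝ, M1 * M2 * (P.f0 v * P'.f0 v) =
      Φ v * (A + B * Real.cos (π * k * (c * v))) := by
    intro v
    have e1 := hP v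
    have e2 := hP' v
    have e3 : π * k * c * v = π * k * (c * v) := by ring
    rw [e3] at e1
    calc M1 * M2 * (P.f0 v * P'.f0 v) = (M1 * P.f0 v) * (M2 * P'.f0 v) := by ring
      _ = _ := by rw [e1, e2, hΦ]; ring
  have hpow : ∀ v : ℝ, 0 ≤ v → v ≤ 1 → 0 ≤ v ^ (m + 3) ∧ v ^ (m + 3) ≤ 1 := fun v v0 v1 =>
    ⟨by positivity, pow_le_one₀ v0 v1⟩
  have hΦ1 : ∀ v : ℝ, 0 ≤ v → v ≤ 1 → 0 ≤ 1 - Φ v ∧ 1 - Φ v ≤ 1 ∧ 1 - Φ v ≤ 2 * v ^ (m + 3) := by
    intro v v0 v1
    obtain ⟨p0, p1⟩ := hpow v v0 v1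
    rw [hΦ]
    simp only
    refine ⟨by nlinarith, by nlinarith [sq_nonneg (1 - v ^ (m + 3))], by nlinarith⟩
  have hsize : ∀ x : ℝ, |A + B * Real.cos x| ≤ S := by
    intro x
    refine (abs_add_le _ _).trans ?_
    rw [abs_mul, hS]
    have := mul_le_mul_of_nonneg_left (Real.abs_cos_le_one x) (abs_nonneg B)
    linarith
  have hlip : ∀ x y : ℝ, |(A + B * Real.cos (π * k * x)) - (A + B * Real.cos (π * k * y))| ≤
      Q * |x - y| := by
    intro x y
    have h := cos_diff_le B (π * k) x y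
    rw [← hQ] at h
    have e : (A + B * Real.cos (π * k * x)) - (A + B * Real.cos (π * k * y)) =
        B * Real.cos (π * k * x) - B * Real.cos (π * k * y) := by ring
    rw [e]
    exact h
  -- lower bound near `α`
  have hlow : ∀ v d : ℝ, 0 ≤ d → α - d ≤ v → v ≤ 1 → Q * d ≤ η →
      0 ≤ A + B * Real.cos (π * k * v) + η := by
    intro v d hd hv hv1 hQd
    rcases le_or_gt α v with h | h
    · have := hAB v (by rw [← hα]; exact h) hv1
      linarith
    · have h1 := hAB α (by rw [← hα]) hα1.le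
      have h2 := (abs_le.mp (hlip v α)).1
      have h3 : |v - α| ≤ d := by
        rw [abs_le]
        constructor <;> linarith
      have h4 : Q * |v - α| ≤ Q * d := mul_le_mul_of_nonneg_left h3 hQ0
      linarith
  refine ⟨b, c, M1 * M2, Φ, P, P', hb0, hba, hc, hc0, hc1, by positivity, hΦc, hprod, ?_, ?_, ?_,
    ?_⟩
  · -- the flat part
    intro v v0 v1
    obtain ⟨q0, q1, q2⟩ := hΦ1 v v0 v1
    rcases le_or_gt v t with h | h
    · have h1 := (abs_le.mp (hsize (π * k * (c * v)))).1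
      have h2 : v ^ (m + 3) ≤ t ^ (m + 3) := pow_le_pow_left₀ v0 h _
      have h3 : (1 - Φ v) * (A + B * Real.cos (π * k * (c * v))) ≥ (1 - Φ v) * (-S) :=
        mul_le_mul_of_nonneg_left h1 q0
      have h4 : (1 - Φ v) * S ≤ (2 * t ^ (m + 3)) * S :=
        mul_le_mul_of_nonneg_right (by linarith) hS0
      have h5 : 8 * S * t ^ (m + 3) ≤ η := by
        have h6 : 0 ≤ (Q + 1) * t ^ (m + 3) := by positivity
        have h7 : W * t ^ (m + 3) = 8 * S * t ^ (m + 3) + 8 * ((Q + 1) * t ^ (m + 3)) := by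
          rw [hW]; ring
        linarith
      have h8 : 0 ≤ S * t ^ (m + 3) := by positivity
      nlinarith
    · have h1 : 0 ≤ A + B * Real.cos (π * k * (c * v)) + η := by
        refine hlow (c * v) (α - c * t) ?_ ?_ ?_ ?_
        · have : c * t ≤ c * 1 := mul_le_mul_of_nonneg_left t1.le hc0.le
          linarith
        · have : c * t ≤ c * v := mul_le_mul_of_nonneg_left h.le hc0.le
          linarith
        · calc c * v ≤ 1 * 1 := mul_le_mul hc1.le v1 v0 zero_le_one
            _ = 1 := mul_one 1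
        · have h2 : α - c * t ≤ 2 * (1 - t) := by
            rw [hcα]
            have : α - α * t * t = α * ((1 - t) * (1 + t)) := by ring
            rw [this]
            have h3 : (1 - t) * (1 + t) ≤ (1 - t) * 2 :=
              mul_le_mul_of_nonneg_left (by linarith) h1t.le
            have h4 : 0 ≤ (1 - t) * (1 + t) := by positivity
            calc α * ((1 - t) * (1 + t)) ≤ 1 * ((1 - t) * 2) :=
                  mul_le_mul hα1.le h3 h4 zero_le_one
              _ = 2 * (1 - t) := by ring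
          have h5 : Q * (α - c * t) ≤ Q * (2 * (1 - t)) := mul_le_mul_of_nonneg_left h2 hQ0
          linarith
      have h2 : (1 - Φ v) * (A + B * Real.cos (π * k * (c * v)) + η) ≥ 0 := mul_nonneg q0 h1
      nlinarith
  · -- the part between
    intro v v1 v2
    have hQc : Q * (α - c) ≤ η := by
      have h2 : α - c ≤ 1 - t := by
        rw [hcα]
        have : α - α * t = α * (1 - t) := by ring
        rw [this]
        exact mul_le_of_le_one_left h1t.le hα1.le
      have h5 : Q * (α - c) ≤ Q * (1 - t) := mul_le_mul_of_nonneg_left h2 hQ0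
      linarith
    rcases le_or_gt v 1 with h | h
    · exact hlow v (α - c) (by linarith) (by linarith) h hQc
    · have h1 := hlow (2 - v) (α - c) (by linarith) (by linarith) (by linarith) hQc
      have e : Real.cos (π * k * (2 - v)) = Real.cos (π * k * v) := by
        have e2 : π * k * (2 - v) = ((k:ℤ) : ℝ) * (2 * π) - π * k * v := by
          push_cast
          ring
        rw [e2, Real.cos_int_mul_two_pi_sub]
      rw [e] at h1
      exact h1
  · -- the constant
    have hΦ0 : Φ 0 = 1 := by rw [hΦ]; simp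
    have e0 := hprod 0
    rw [hΦ0, mul_zero, mul_zero, Real.cos_zero, mul_one, one_mul] at e0
    have e1 : M1 * M2 * (∫ v in (0:ℝ)..1, v * P.f0 v * P'.f0 v) =
        ∫ v in (0:ℝ)..1, v * (Φ v * (A + B * Real.cos (π * k * (c * v)))) := by
      rw [← intervalIntegral.integral_const_mul]
      refine intervalIntegral.integral_congr fun v _ => ?_
      rw [← hprod v]
      ring
    have e2 : 4 * (M1 * M2) * cb P P' b = (A + B) +
        2 * b ^ 2 * ∫ v in (0:ℝ)..1, v * (Φ v * (A + B * Real.cos (π * k * (c * v)))) := by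
      unfold cb
      rw [← e1]
      have : 4 * (M1 * M2) * (P.f0 0 * P'.f0 0 / 4 + b ^ 2 / 2 *
          ∫ v in (0:ℝ)..1, v * P.f0 v * P'.f0 v) = M1 * M2 * (P.f0 0 * P'.f0 0) +
          2 * b ^ 2 * (M1 * M2 * ∫ v in (0:ℝ)..1, v * P.f0 v * P'.f0 v) := by ring
      rw [this, e0]
    have e3 : A * (1 + a ^ 2) + B * ck a k = (A + B) +
        2 * a ^ 2 * ∫ v in (0:ℝ)..1, v * (A + B * Real.cos (π * k * (α * v))) := by
      have s1 : ∫ u in (0:ℝ)..a, u * Real.cos (2 * π * k * u / (1 + a)) =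
          a ^ 2 * ∫ v in (0:ℝ)..1, v * Real.cos (π * k * (α * v)) := by
        have h := intervalIntegral.integral_comp_mul_left (a := 0) (b := 1)
          (f := fun u => u * Real.cos (2 * π * k * u / (1 + a))) ha.ne'
        rw [mul_zero, mul_one, smul_eq_mul] at h
        have h2 : ∫ u in (0:ℝ)..a, u * Real.cos (2 * π * k * u / (1 + a)) =
            a * ∫ v in (0:ℝ)..1, (a * v) * Real.cos (2 * π * k * (a * v) / (1 + a)) := by
          rw [h, ← mul_assoc, mul_inv_cancel₀ ha.ne', one_mul]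
        have h3 : ∫ v in (0:ℝ)..1, (a * v) * Real.cos (2 * π * k * (a * v) / (1 + a)) =
            a * ∫ v in (0:ℝ)..1, v * Real.cos (π * k * (α * v)) := by
          rw [← intervalIntegral.integral_const_mul]
          refine intervalIntegral.integral_congr fun v _ => ?_
          have e : 2 * π * k * (a * v) / (1 + a) = π * k * (α * v) := by rw [hα]; ring
          rw [e]
          ring
        rw [h2, h3]
        ring
      have s2 : ∫ v in (0:ℝ)..1, v * (A + B * Real.cos (π * k * (α * v))) =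
          A / 2 + B * ∫ v in (0:ℝ)..1, v * Real.cos (π * k * (α * v)) := by
        have h1 : ∀ v : ℝ, v * (A + B * Real.cos (π * k * (α * v))) =
            A * v + B * (v * Real.cos (π * k * (α * v))) := fun v => by ring
        simp only [h1]
        rw [intervalIntegral.integral_add
          ((by fun_prop : Continuous fun v : ℝ => A * v).intervalIntegrable _ _)
          ((by fun_prop : Continuous fun v : ℝ =>
            B * (v * Real.cos (π * k * (α * v)))).intervalIntegrable _ _),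
          intervalIntegral.integral_const_mul, intervalIntegral.integral_const_mul, integral_id]
        ring
      unfold ck
      rw [s1, s2]
      ring
    rw [e2, e3]
    obtain ⟨I1, hI1⟩ : ∃ I : ℝ, I = ∫ v in (0:ℝ)..1,
        v * (Φ v * (A + B * Real.cos (π * k * (c * v)))) := ⟨_, rfl⟩
    obtain ⟨I2, hI2⟩ : ∃ I : ℝ, I = ∫ v in (0:ℝ)..1,
        v * (A + B * Real.cos (π * k * (α * v))) := ⟨_, rfl⟩
    rw [← hI1, ← hI2]
    have d1 : |I2| ≤ S := by
      rw [hI2]
      refine int_le_of_le fun v v0 v1 => ?_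
      rw [abs_mul, abs_of_nonneg v0]
      calc v * |A + B * Real.cos (π * k * (α * v))| ≤ 1 * S :=
            mul_le_mul v1 (hsize _) (abs_nonneg _) zero_le_one
        _ = S := one_mul S
    have d2 : |I1 - I2| ≤ 2 * S / ((m:ℝ) + 4) + Q * (1 - t) := by
      have c1 : Continuous fun v : ℝ => v * (Φ v * (A + B * Real.cos (π * k * (c * v)))) := by
        fun_prop
      have c2 : Continuous fun v : ℝ => v * (A + B * Real.cos (π * k * (α * v))) := by
        fun_prop
      rw [hI1, hI2, ← intervalIntegral.integral_sub (c1.intervalIntegrable _ _)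
        (c2.intervalIntegrable _ _)]
      have h3 : ∫ v in (0:ℝ)..1, (2 * S * v ^ (m + 3) + Q * (1 - t)) ≤
          2 * S / ((m:ℝ) + 4) + Q * (1 - t) := by
        rw [intervalIntegral.integral_add
          ((by fun_prop : Continuous fun v : ℝ => 2 * S * v ^ (m + 3)).intervalIntegrable _ _)
          ((by fun_prop : Continuous fun _ : ℝ => Q * (1 - t)).intervalIntegrable _ _),
          intervalIntegral.integral_const_mul, integral_pow, intervalIntegral.integral_const]
        simp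
        apply le_of_eq
        push_cast
        ring
      refine le_trans ?_ h3
      refine (intervalIntegral.abs_integral_le_integral_abs zero_le_one).trans ?_
      refine intervalIntegral.integral_mono_on zero_le_one
        ((c1.sub c2).abs.intervalIntegrable _ _)
        ((by fun_prop : Continuous fun v : ℝ =>
          2 * S * v ^ (m + 3) + Q * (1 - t)).intervalIntegrable _ _) fun v hv => ?_
      obtain ⟨q0, q1, q2⟩ := hΦ1 v hv.1 hv.2
      have e : v * (Φ v * (A + B * Real.cos (π * k * (c * v)))) -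
          v * (A + B * Real.cos (π * k * (α * v))) =
          v * (-((1 - Φ v) * (A + B * Real.cos (π * k * (c * v)))) +
            ((A + B * Real.cos (π * k * (c * v))) - (A + B * Real.cos (π * k * (α * v))))) := by
        ring
      rw [e, abs_mul, abs_of_nonneg hv.1]
      have g1 := abs_add_le (-((1 - Φ v) * (A + B * Real.cos (π * k * (c * v)))))
        ((A + B * Real.cos (π * k * (c * v))) - (A + B * Real.cos (π * k * (α * v))))
      have g2 : |-((1 - Φ v) * (A + B * Real.cos (π * k * (c * v))))| ≤ 2 * v ^ (m + 3) * S := by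
        rw [abs_neg, abs_mul, abs_of_nonneg q0]
        exact mul_le_mul q2 (hsize _) (abs_nonneg _) (by have := (hpow v hv.1 hv.2).1; linarith)
      have g3 : |(A + B * Real.cos (π * k * (c * v))) - (A + B * Real.cos (π * k * (α * v)))| ≤
          Q * (1 - t) := by
        refine (hlip _ _).trans (mul_le_mul_of_nonneg_left ?_ hQ0)
        rw [hcα]
        have : α * t * v - α * v = -(α * v * (1 - t)) := by ring
        rw [this, abs_neg, abs_of_nonneg (by have := hv.1; positivity)]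
        have h5 : α * v ≤ 1 * 1 := mul_le_mul hα1.le hv.2 hv.1 zero_le_one
        calc α * v * (1 - t) ≤ 1 * (1 - t) := mul_le_mul_of_nonneg_right (by linarith) h1t.le
          _ = 1 - t := one_mul _
      have g4 : |-((1 - Φ v) * (A + B * Real.cos (π * k * (c * v)))) +
            ((A + B * Real.cos (π * k * (c * v))) - (A + B * Real.cos (π * k * (α * v))))| ≤
          2 * S * v ^ (m + 3) + Q * (1 - t) := by linarith
      calc v * _ ≤ 1 * (2 * S * v ^ (m + 3) + Q * (1 - t)) :=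
            mul_le_mul hv.2 g4 (abs_nonneg _) zero_le_one
        _ = _ := one_mul _
    have d3 : 2 * S / ((m:ℝ) + 4) ≤ η / 4 := by
      have hm0 : (0:ℝ) ≤ m := Nat.cast_nonneg m
      have h1 : 2 * S / ((m:ℝ) + 4) ≤ 2 * S / ((m:ℝ) + 3) :=
        div_le_div_of_nonneg_left (by positivity) (by positivity) (by linarith)
      have h2 : 2 * S / ((m:ℝ) + 3) ≤ (W / 4) / ((m:ℝ) + 3) :=
        div_le_div_of_nonneg_right (by linarith) (by positivity)
      have h3 : (W / 4) / ((m:ℝ) + 3) = (W / ((m:ℝ) + 3)) / 4 := by ring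
      linarith
    have e4 : A + B + 2 * b ^ 2 * I1 - (A + B + 2 * a ^ 2 * I2) =
        2 * b ^ 2 * (I1 - I2) + 2 * (b ^ 2 - a ^ 2) * I2 := by ring
    rw [e4]
    have hb2 : b ^ 2 ≤ 1 := pow_le_one₀ hb0.le (by linarith)
    have hab : a ^ 2 - b ^ 2 ≤ 2 * (1 - t) := by
      rw [hb]
      have h1 : a ^ 2 - (a * t) ^ 2 = a ^ 2 * ((1 - t) * (1 + t)) := by ring
      rw [h1]
      have h2 : a ^ 2 ≤ 1 := pow_le_one₀ ha.le ha1.le
      have h3 : (1 - t) * (1 + t) ≤ (1 - t) * 2 :=
        mul_le_mul_of_nonneg_left (by linarith) h1t.le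
      have h4 : 0 ≤ (1 - t) * (1 + t) := by positivity
      calc a ^ 2 * ((1 - t) * (1 + t)) ≤ 1 * ((1 - t) * 2) :=
            mul_le_mul h2 h3 h4 zero_le_one
        _ = 2 * (1 - t) := by ring
    have hab0 : 0 ≤ a ^ 2 - b ^ 2 := by nlinarith
    refine (abs_add_le _ _).trans ?_
    have f1 : |2 * b ^ 2 * (I1 - I2)| ≤ 2 * (2 * S / ((m:ℝ) + 4) + Q * (1 - t)) := by
      rw [abs_mul, abs_of_nonneg (by positivity)]
      exact mul_le_mul (by linarith) d2 (abs_nonneg _) (by norm_num)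
    have f2 : |2 * (b ^ 2 - a ^ 2) * I2| ≤ 4 * (S * (1 - t)) := by
      have h1 : 2 * (b ^ 2 - a ^ 2) * I2 = -(2 * (a ^ 2 - b ^ 2) * I2) := by ring
      rw [h1, abs_neg, abs_mul, abs_of_nonneg (by linarith)]
      calc 2 * (a ^ 2 - b ^ 2) * |I2| ≤ (2 * (2 * (1 - t))) * S :=
            mul_le_mul (by linarith) d1 (abs_nonneg _) (by linarith)
        _ = 4 * (S * (1 - t)) := by ring
    linarith
  · -- decay
    obtain ⟨C, hC, hdec⟩ := jh.decay (by simp) (by simp) (by simp)
    have hM : 0 < M1 * M2 := by positivity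
    have hGG : ∀ z : ℝ, GG P P' z = π / (M1 * M2) * ∫ v in (0:ℝ)..1,
        ((1 - v ^ (m + 3)) * ((1 - v ^ (m + 3)) * (A + B * Real.cos (π * k * c * v)))) *
          Real.cos (z * v) := by
      intro z
      unfold GG
      rw [div_mul_eq_mul_div, mul_div_assoc]
      congr 1
      rw [eq_div_iff hM.ne', ← intervalIntegral.integral_mul_const]
      refine intervalIntegral.integral_congr fun v _ => ?_
      have h1 := hprod v
      have e3 : π * k * (c * v) = π * k * c * v := by ring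
      rw [e3] at h1
      calc P.f0 v * P'.f0 v * Real.cos (z * v) * (M1 * M2) =
            (M1 * M2 * (P.f0 v * P'.f0 v)) * Real.cos (z * v) := by ring
        _ = _ := by rw [h1, hΦ]; ring
    obtain ⟨e, he⟩ : ∃ e : ℝ, e = min 1 ((2 * π * c) ^ 3) := ⟨_, rfl⟩
    have he0 : 0 < e := by rw [he]; exact lt_min one_pos (by positivity)
    have he1 : e ≤ 1 := by rw [he]; exact min_le_left _ _
    have he2 : e ≤ (2 * π * c) ^ 3 := by rw [he]; exact min_le_right _ _
    obtain ⟨C1, hC1⟩ : ∃ C1 : ℝ, C1 = π / (M1 * M2) * C / e := ⟨_, rfl⟩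
    have hC10 : 0 < C1 := by rw [hC1]; positivity
    refine ⟨C1 + 8 * π ^ 2, by positivity, fun x => ?_, fun x y => ?_, fun x => ?_⟩
    · have h1 := hdec (2 * π * c * x)
      have h2 : e * (1 + |x| ^ 3) ≤ 1 + |2 * π * c * x| ^ 3 := by
        rw [abs_mul, abs_of_pos (by positivity : 0 < 2 * π * c), mul_pow, mul_add, mul_one]
        have h3 : e * |x| ^ 3 ≤ (2 * π * c) ^ 3 * |x| ^ 3 :=
          mul_le_mul_of_nonneg_right he2 (by positivity)
        linarith
      have hp : 0 < 1 + |x| ^ 3 := by positivity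
      rw [hGG, abs_mul, abs_of_pos (by positivity : 0 < π / (M1 * M2))]
      have h4 : C / (1 + |2 * π * c * x| ^ 3) ≤ C / (e * (1 + |x| ^ 3)) :=
        div_le_div_of_nonneg_left hC.le (by positivity) h2
      calc π / (M1 * M2) * _ ≤ π / (M1 * M2) * (C / (e * (1 + |x| ^ 3))) :=
            mul_le_mul_of_nonneg_left (h1.trans h4) (by positivity)
        _ = C1 / (1 + |x| ^ 3) := by
            rw [hC1]
            field_simp
        _ ≤ (C1 + 8 * π ^ 2) / (1 + |x| ^ 3) :=
            div_le_div_of_nonneg_right (by have := hpi; nlinarith [sq_nonneg π]) hp.le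
    · have hk := P.c0
      have hk' := P'.c0
      unfold GG
      rw [← mul_sub, abs_mul, abs_of_pos hpi, ← intervalIntegral.integral_sub
        ((by fun_prop : Continuous _).intervalIntegrable _ _)
        ((by fun_prop : Continuous _).intervalIntegrable _ _)]
      have h1 : |∫ v in (0:ℝ)..1, (P.f0 v * P'.f0 v * Real.cos (2 * π * c * x * v) -
          P.f0 v * P'.f0 v * Real.cos (2 * π * c * y * v))| ≤ 8 * π * |x - y| := by
        refine int_le_of_le fun v v0 v1 => ?_
        rw [← mul_sub, abs_mul, abs_mul]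
        have g1 := P.b0 v v0 v1
        have g2 := P'.b0 v v0 v1
        have g3 : |Real.cos (2 * π * c * x * v) - Real.cos (2 * π * c * y * v)| ≤
            2 * π * |x - y| := by
          refine (Real.abs_cos_sub_cos_le _ _).trans ?_
          have h5 : 2 * π * c * x * v - 2 * π * c * y * v = 2 * π * (c * v) * (x - y) := by ring
          rw [h5, abs_mul, abs_of_nonneg (by positivity)]
          refine mul_le_mul_of_nonneg_right ?_ (abs_nonneg _)
          have h6 : c * v ≤ 1 * 1 := mul_le_mul hc1.le v1 v0 zero_le_one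
          calc 2 * π * (c * v) ≤ 2 * π * 1 := mul_le_mul_of_nonneg_left (by linarith) (by positivity)
            _ = 2 * π := mul_one _
        calc |P.f0 v| * |P'.f0 v| * |Real.cos (2 * π * c * x * v) - Real.cos (2 * π * c * y * v)|
            ≤ (2 * 2) * (2 * π * |x - y|) :=
              mul_le_mul (mul_le_mul g1 g2 (abs_nonneg _) (by norm_num)) g3 (abs_nonneg _)
                (by norm_num)
          _ = 8 * π * |x - y| := by ring
      calc π * _ ≤ π * (8 * π * |x - y|) := mul_le_mul_of_nonneg_left h1 hpi.le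
        _ = 8 * π ^ 2 * |x - y| := by ring
        _ ≤ (C1 + 8 * π ^ 2) * |x - y| :=
            mul_le_mul_of_nonneg_right (by linarith) (abs_nonneg _)
    · unfold GG
      congr 1
      refine intervalIntegral.integral_congr fun v _ => ?_
      have : 2 * π * c * -x * v = -(2 * π * c * x * v) := by ring
      rw [this, Real.cos_neg]

/-- **Existence of the kernels.** -/
theorem ker_exists {a A B η : ℝ} {k : ℕ} (ha : 0 < a) (ha1 : a < 1) (hη : 0 < η)
    (hAB : ∀ v : ℝ, 2 * a / (1 + a) ≤ v → v ≤ 1 → 0 ≤ A + B * Real.cos (π * k * v)) :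
    ∃ (b c M : ℝ) (Φ : ℝ → ℝ) (P P' : PhiData), 0 < b ∧ b < a ∧ c = 2 * b / (1 + a) ∧ 0 < c ∧ c < 1 ∧ 0 < M ∧ Continuous Φ ∧
      (∀ v : ℝ, M * (P.f0 v * P'.f0 v) = Φ v * (A + B * Real.cos (π * k * (c * v)))) ∧
      (∀ v : ℝ, 0 ≤ v → v ≤ 1 → 0 ≤ (1 - Φ v) * (A + B * Real.cos (π * k * (c * v))) + η) ∧
      (∀ v : ℝ, c ≤ v → v ≤ 2 - c → 0 ≤ A + B * Real.cos (π * k * v) + η) ∧
      |4 * M * cb P P' b - (A * (1 + a ^ 2) + B * ck a k)| ≤ η := by
  obtain ⟨b, c, M, Φ, P, P', h1, h2, h3, h4, h5, h6, h7, h8, h9, h10, h11, -⟩ :=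
    ker_exists_decay ha ha1 hη hAB
  exact ⟨b, c, M, Φ, P, P', h1, h2, h3, h4, h5, h6, h7, h8, h9, h10, h11⟩

end Pool.Agent.AHP
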