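import Pool.Agent.AHP.Pos2

/-!
# The kernel for the lattice side
-/

namespace Pool.Agent.AHP

open MeasureTheory Real Set

/-- The kernel with the transform `(A + η + B cos (π k v)) χ(v)`. -/
noncomputable def ff (c A B η : ℝ) (k : ℕ) (y : ℝ) : ℝ :=
  (A + η) * F0 c y + B / 2 * (F0 c (y - k / 2) + F0 c (y + k / 2))

lemma ff_neg (c A B η : ℝ) (k : ℕ) (y : ℝ) : ff c A B η k (-y) = ff c A B η k y := by
  unfold ff
  have e1 : -y - (k:ℝ) / 2 = -(y + k / 2) := by ring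
  have e2 : -y + (k:ℝ) / 2 = -(y - k / 2) := by ring
  rw [e1, e2, F0_neg, F0_neg, F0_neg]
  ring

lemma cube_shift (y s : ℝ) : 1 + |y| ^ 3 ≤ 4 * (1 + |s| ^ 3) * (1 + |y - s| ^ 3) := by
  have h1 : |y| ≤ |y - s| + |s| := by
    have := abs_add_le (y - s) s
    rwa [sub_add_cancel] at this
  have p0 := abs_nonneg (y - s)
  have q0 := abs_nonneg s
  have h2 : |y| ^ 3 ≤ (|y - s| + |s|) ^ 3 := pow_le_pow_left₀ (abs_nonneg y) h1 3
  have h3 : (|y - s| + |s|) ^ 3 ≤ 4 * (|y - s| ^ 3 + |s| ^ 3) := by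
    nlinarith [mul_nonneg (add_nonneg p0 q0) (sq_nonneg (|y - s| - |s|))]
  have h4 : 0 ≤ |y - s| ^ 3 * |s| ^ 3 := by positivity
  nlinarith [pow_nonneg p0 3, pow_nonneg q0 3]

lemma F0_decay_shift {c : ℝ} (hc0 : 0 ≤ c) (hc1 : c < 1) (s y : ℝ) :
    |F0 c (y - s)| ≤ 10 / (1 - c) ^ 3 * (4 * (1 + |s| ^ 3)) / (1 + |y| ^ 3) := by
  have hw : 0 < 1 - c := by linarith
  refine (F0_decay hc0 hc1 (y - s)).trans ?_
  have h := cube_shift y s
  rw [div_le_div_iff₀ (by positivity) (by positivity)]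
  have hC : 0 ≤ 10 / (1 - c) ^ 3 := by positivity
  calc 10 / (1 - c) ^ 3 * (1 + |y| ^ 3) ≤
      10 / (1 - c) ^ 3 * (4 * (1 + |s| ^ 3) * (1 + |y - s| ^ 3)) :=
        mul_le_mul_of_nonneg_left h hC
    _ = _ := by ring

/-- The kernel satisfies the hypotheses of the combinatorial part. -/
lemma ff_props {c : ℝ} (hc0 : 0 ≤ c) (hc1 : c < 1) (A B η : ℝ) (k : ℕ) : ∃ Cg : ℝ, 0 < Cg ∧
    (∀ x : ℝ, |ff c A B η k x| ≤ Cg / (1 + |x| ^ 3)) ∧
    (∀ x y : ℝ, |ff c A B η k x - ff c A B η k y| ≤ Cg * |x - y|) := by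
  have hw : 0 < 1 - c := by linarith
  obtain ⟨D, hD⟩ : ∃ D : ℝ, D = 10 / (1 - c) ^ 3 * (4 * (1 + |(k:ℝ) / 2| ^ 3)) := ⟨_, rfl⟩
  have hD0 : 0 < D := by rw [hD]; positivity
  have hA0 : 0 ≤ |A + η| := abs_nonneg _
  have hB0 : 0 ≤ |B| := abs_nonneg _
  have hdec : ∀ s : ℝ, |s| ≤ |(k:ℝ) / 2| → ∀ x : ℝ, |F0 c (x - s)| ≤ D / (1 + |x| ^ 3) := by
    intro s hs x
    refine (F0_decay_shift hc0 hc1 s x).trans ?_
    apply div_le_div_of_nonneg_right _ (by positivity)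
    rw [hD]
    apply mul_le_mul_of_nonneg_left _ (by positivity)
    have := pow_le_pow_left₀ (abs_nonneg s) hs 3
    linarith
  refine ⟨(|A + η| + |B|) * (D + 80) + 1, by positivity, fun x => ?_, fun x y => ?_⟩
  · have h0 : |F0 c x| ≤ D / (1 + |x| ^ 3) := by
      have := hdec 0 (by rw [abs_zero]; exact abs_nonneg _) x
      rwa [sub_zero] at this
    have h1 := hdec ((k:ℝ) / 2) le_rfl x
    have h2 : |F0 c (x + k / 2)| ≤ D / (1 + |x| ^ 3) := by
      have := hdec (-((k:ℝ) / 2)) (by rw [abs_neg]) x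
      rwa [sub_neg_eq_add] at this
    obtain ⟨u, hu⟩ : ∃ u : ℝ, u = D / (1 + |x| ^ 3) := ⟨_, rfl⟩
    rw [← hu] at h0 h1 h2
    have h3 : |ff c A B η k x| ≤ |A + η| * u + |B| * u := by
      unfold ff
      refine (abs_add_le _ _).trans ?_
      rw [abs_mul, abs_mul, abs_div, abs_of_pos (by norm_num : (0:ℝ) < 2)]
      have e1 := abs_add_le (F0 c (x - k / 2)) (F0 c (x + k / 2))
      have e2 : |B| / 2 * |F0 c (x - k / 2) + F0 c (x + k / 2)| ≤ |B| / 2 * (u + u) :=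
        mul_le_mul_of_nonneg_left (by linarith) (by positivity)
      have e3 : |A + η| * |F0 c x| ≤ |A + η| * u := mul_le_mul_of_nonneg_left h0 hA0
      linarith
    refine h3.trans ?_
    rw [hu, ← add_mul, ← mul_div_assoc]
    apply div_le_div_of_nonneg_right _ (by positivity)
    nlinarith
  · have h0 := F0_lip hc0 hc1.le x y
    have h1 := F0_lip hc0 hc1.le (x - k / 2) (y - k / 2)
    have h2 := F0_lip hc0 hc1.le (x + k / 2) (y + k / 2)
    rw [sub_sub_sub_cancel_right] at h1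
    rw [add_sub_add_right_eq_sub] at h2
    obtain ⟨u, hu⟩ : ∃ u : ℝ, u = |x - y| := ⟨_, rfl⟩
    have hu0 : 0 ≤ u := by rw [hu]; exact abs_nonneg _
    rw [← hu] at h0 h1 h2 ⊢
    have e0 : ff c A B η k x - ff c A B η k y = (A + η) * (F0 c x - F0 c y) +
        B / 2 * ((F0 c (x - k / 2) - F0 c (y - k / 2)) +
          (F0 c (x + k / 2) - F0 c (y + k / 2))) := by
      unfold ff
      ring
    rw [e0]
    refine (abs_add_le _ _).trans ?_
    rw [abs_mul, abs_mul, abs_div, abs_of_pos (by norm_num : (0:ℝ) < 2)]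
    have e1 := abs_add_le (F0 c (x - k / 2) - F0 c (y - k / 2))
      (F0 c (x + k / 2) - F0 c (y + k / 2))
    have e2 : |B| / 2 * |F0 c (x - k / 2) - F0 c (y - k / 2) +
        (F0 c (x + k / 2) - F0 c (y + k / 2))| ≤ |B| / 2 * (80 * u + 80 * u) :=
      mul_le_mul_of_nonneg_left (by linarith) (by positivity)
    have e3 : |A + η| * |F0 c x - F0 c y| ≤ |A + η| * (80 * u) :=
      mul_le_mul_of_nonneg_left h0 hA0
    have e4 : 0 ≤ (|A + η| + |B|) * D * u := by positivity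
    nlinarith

lemma ff_zero {c : ℝ} (hc1 : c < 1) (A B η : ℝ) {k : ℕ} (hk : 1 ≤ k) :
    ff c A B η k 0 = 2 * (A + η) := by
  unfold ff
  have e0 := F0_half hc1 0
  have e1 := F0_half hc1 (-(k:ℤ))
  have e2 := F0_half hc1 (k:ℤ)
  rw [if_pos rfl] at e0
  rw [if_neg (by omega)] at e1 e2
  push_cast at e0 e1 e2
  have f1 : (0:ℝ) - k / 2 = -k / 2 := by ring
  have f2 : (0:ℝ) + k / 2 = k / 2 := by ring
  have f0 : (0:ℝ) / 2 = 0 := by norm_num
  rw [f0] at e0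
  rw [f1, f2, e0, e1, e2]
  ring

lemma ff_half {c : ℝ} (hc1 : c < 1) (A B η : ℝ) {k j : ℕ} (hk : 1 ≤ k) (hj : 1 ≤ j) :
    ff c A B η k ((j:ℝ) / 2) = if j = k then B else 0 := by
  unfold ff
  have e0 := F0_half hc1 (j:ℤ)
  have e1 := F0_half hc1 ((j:ℤ) - k)
  have e2 := F0_half hc1 ((j:ℤ) + k)
  rw [if_neg (by omega)] at e0 e2
  push_cast at e0 e1 e2
  have f1 : (j:ℝ) / 2 - k / 2 = (j - k) / 2 := by ring
  have f2 : (j:ℝ) / 2 + k / 2 = (j + k) / 2 := by ring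
  rw [f1, f2, e0, e1, e2]
  by_cases h : j = k
  · rw [if_pos (by omega), if_pos h]
    ring
  · rw [if_neg (by omega), if_neg h]
    ring

end Pool.Agent.AHP
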