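import Pool.Agent.AHP.Defs
import Pool.Agent.ZGap.DW.Ff

/-!
# From blocks to long intervals, and the dichotomy with the pair correlation
-/

namespace Pool.Agent.AHP

open Real Set Pool.Agent.ZetaGaps Pool.Agent.AHW

/-- The number of zeros in `(T, T + H]`. -/
noncomputable def Zc (T H : ℝ) : ℝ := (zeroCount (T + H) : ℝ) - zeroCount T

/-- The number of zeros in `(T, T + H]` with the property `P`. -/
noncomputable def Cn (P : ℕ → Prop) (T H : ℝ) : ℝ := cn P (zeroCount T) (zeroCount (T + H))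

lemma Zc_nonneg {T H : ℝ} (hH : 0 ≤ H) : 0 ≤ Zc T H := by
  have h : (zeroCount T : ℝ) ≤ zeroCount (T + H) := by
    exact_mod_cast zeroCount_mono (show T ≤ T + H by linarith)
  unfold Zc
  linarith

lemma Cn_nonneg (P : ℕ → Prop) (T H : ℝ) : 0 ≤ Cn P T H := cn_nonneg _ _ _

lemma Cn_le_Zc (P : ℕ → Prop) {T H : ℝ} (hH : 0 ≤ H) : Cn P T H ≤ Zc T H := by
  unfold Cn cn Zc
  have h0 : zeroCount T ≤ zeroCount (T + H) := zeroCount_mono (by linarith)
  have h1 : ({n : ℕ | n ∈ Finset.Ioc (zeroCount T) (zeroCount (T + H)) ∧ P n}).ncard ≤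
      (Finset.Ioc (zeroCount T) (zeroCount (T + H))).card := by
    rw [← Set.ncard_coe_finset]
    exact Set.ncard_le_ncard (fun n hn => hn.1) (Finset.finite_toSet _)
  rw [Nat.card_Ioc] at h1
  have h2 : (({n : ℕ | n ∈ Finset.Ioc (zeroCount T) (zeroCount (T + H)) ∧ P n}).ncard : ℝ) ≤
      ((zeroCount (T + H) - zeroCount T : ℕ) : ℝ) := by exact_mod_cast h1
  rwa [Nat.cast_sub h0] at h2

lemma Zc_split (T H H' : ℝ) : Zc T (H + H') = Zc T H + Zc (T + H) H' := by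
  unfold Zc
  rw [← add_assoc]
  ring

lemma Cn_split (P : ℕ → Prop) {T H H' : ℝ} (hH : 0 ≤ H) (hH' : 0 ≤ H') :
    Cn P T (H + H') = Cn P T H + Cn P (T + H) H' := by
  unfold Cn
  rw [← add_assoc]
  exact cn_add P (zeroCount_mono (by linarith)) (zeroCount_mono (by linarith))

/-- **From blocks to long intervals.** -/
theorem long_of_block {P Q : ℕ → Prop} {c κ δ T0 : ℝ} (hc0 : 0 ≤ c) (hc1 : c ≤ 1) (hκ : 0 ≤ κ)
    (hδ : 0 < δ) (hT1 : 1 ≤ T0)
    (hb : ∀ T, T0 ≤ T → ∀ H, T ≤ H → H ≤ 3 * T → Cn P T H ≤ δ * Zc T H →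
      |Cn Q T H - c * Zc T H| ≤ κ * Zc T H) :
    ∀ T, T0 ≤ T → ∀ H, T ≤ H → |Cn Q T H - c * Zc T H| ≤ κ * Zc T H + 1 / δ * Cn P T H := by
  have hT0 : 0 ≤ T0 := by linarith
  -- one block
  have hone : ∀ T, T0 ≤ T → ∀ H, T ≤ H → H ≤ 3 * T →
      |Cn Q T H - c * Zc T H| ≤ κ * Zc T H + 1 / δ * Cn P T H := by
    intro T hT H h1 h2
    have hH0 : 0 ≤ H := hT0.trans (hT.trans h1)
    have hZ := Zc_nonneg (T := T) hH0
    have hP := Cn_nonneg P T H
    have hQ := Cn_nonneg Q T H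
    have hQ1 := Cn_le_Zc Q (T := T) hH0
    rcases le_or_gt (Cn P T H) (δ * Zc T H) with h | h
    · have h3 := hb T hT H h1 h2 h
      have h4 : 0 ≤ 1 / δ * Cn P T H := by positivity
      linarith
    · have h3 : Zc T H ≤ 1 / δ * Cn P T H := by
        rw [one_div, ← div_eq_inv_mul, le_div_iff₀ hδ]
        linarith
      have h4 : |Cn Q T H - c * Zc T H| ≤ Zc T H := by
        have h5 : c * Zc T H ≤ 1 * Zc T H := mul_le_mul_of_nonneg_right hc1 hZ
        have h6 : 0 ≤ c * Zc T H := mul_nonneg hc0 hZ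
        rw [abs_le]
        constructor <;> linarith
      have h5 : 0 ≤ κ * Zc T H := mul_nonneg hκ hZ
      linarith
  -- induction
  have hind : ∀ n : ℕ, ∀ T, T0 ≤ T → ∀ H, T ≤ H → H ≤ 2 ^ n * T →
      |Cn Q T H - c * Zc T H| ≤ κ * Zc T H + 1 / δ * Cn P T H := by
    intro n
    induction n with
    | zero =>
      intro T hT H h1 h2
      have hT' : 0 ≤ T := hT0.trans hT
      rw [pow_zero, one_mul] at h2
      exact hone T hT H h1 (by linarith)
    | succ n ih =>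
      intro T hT H h1 h2
      have hT' : 0 ≤ T := hT0.trans hT
      rcases le_or_gt H (3 * T) with h3 | h3
      · exact hone T hT H h1 h3
      · have e1 := hone T hT T le_rfl (by linarith)
        have e2 := ih (T + T) (by linarith) (H - T) (by linarith) (by
          rw [pow_succ] at h2
          have h4 : (1:ℝ) ≤ 2 ^ n := one_le_pow₀ (by norm_num)
          nlinarith)
        have s1 : Zc T H = Zc T T + Zc (T + T) (H - T) := by
          rw [← Zc_split]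
          congr 1
          ring
        have s2 : ∀ R : ℕ → Prop, Cn R T H = Cn R T T + Cn R (T + T) (H - T) := by
          intro R
          rw [← Cn_split R hT' (by linarith)]
          congr 1
          ring
        rw [s1, s2 Q, s2 P]
        have e3 : Cn Q T T + Cn Q (T + T) (H - T) - c * (Zc T T + Zc (T + T) (H - T)) =
            (Cn Q T T - c * Zc T T) + (Cn Q (T + T) (H - T) - c * Zc (T + T) (H - T)) := by ring
        rw [e3]
        refine (abs_add_le _ _).trans ?_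
        linarith
  intro T hT H h1
  have h0 : 0 < T := by linarith
  obtain ⟨n, hn⟩ := pow_unbounded_of_one_lt (H / T) (by norm_num : (1:ℝ) < 2)
  refine hind n T hT H h1 ?_
  rw [div_lt_iff₀ h0] at hn
  exact hn.le

/-- The density of the points at distance `k / 2` under the Alternative Hypothesis. -/
noncomputable def rho (k : ℕ) : ℝ := 1 / 2 - (1 - (-1) ^ k) / (π ^ 2 * k ^ 2)

lemma rho_mem {k : ℕ} (hk : 1 ≤ k) : 0 ≤ rho k ∧ rho k ≤ 1 := by
  have hpi := Real.pi_gt_three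
  have hk' : (1:ℝ) ≤ k := by exact_mod_cast hk
  have hk2 : (1:ℝ) ≤ (k:ℝ) ^ 2 := one_le_pow₀ hk'
  have hp2 : (9:ℝ) ≤ π ^ 2 := by nlinarith
  have hpk : (9:ℝ) ≤ π ^ 2 * k ^ 2 := by nlinarith
  have h1 : (-1:ℝ) ^ k = 1 ∨ (-1:ℝ) ^ k = -1 := neg_one_pow_eq_or ℝ k
  unfold rho
  have h2 : 0 ≤ (1 - (-1:ℝ) ^ k) / (π ^ 2 * k ^ 2) := by
    refine div_nonneg ?_ (by linarith)
    rcases h1 with h | h <;> rw [h] <;> norm_num
  have h3 : (1 - (-1:ℝ) ^ k) / (π ^ 2 * k ^ 2) ≤ 1 / 2 := by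
    rw [div_le_iff₀ (by linarith)]
    rcases h1 with h | h <;> rw [h] <;> linarith
  constructor <;> linarith

lemma const_mem : 0 ≤ 1 / 2 - 2 / π ^ 2 ∧ 1 / 2 - 2 / π ^ 2 ≤ 1 := by
  have hpi := Real.pi_gt_three
  have hp2 : (9:ℝ) ≤ π ^ 2 := by nlinarith
  have h2 : 0 ≤ 2 / π ^ 2 := by positivity
  have h3 : 2 / π ^ 2 ≤ 1 / 2 := by
    rw [div_le_iff₀ (by linarith)]
    linarith
  constructor <;> linarith

/-- The statement of the block theorem. -/
def BlockS : Prop := ∀ ε κ : ℝ, 0 < ε → ε ≤ 1 / 8 → 0 < κ → ∃ δ : ℝ, 0 < δ ∧ ∃ T0 : ℝ, ∀ T : ℝ, T0 ≤ T →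
  ∀ H : ℝ, T ≤ H → H ≤ 3 * T → Cn (fun n => gap n < 1 / 2 - δ) T H ≤ δ * Zc T H →
    |Cn (fun n => |gap n - 1 / 2| ≤ ε) T H - (1 / 2 - 2 / π ^ 2) * Zc T H| ≤ κ * Zc T H ∧
    ∀ k : ℕ, 1 ≤ k → k * ε ≤ 1 →
      |Cn (fun n => ∃ m, n < m ∧ |normOrdinate m - normOrdinate n - k / 2| ≤ ε) T H -
        rho k * Zc T H| ≤ κ * Zc T H

/-- The pair correlation in long intervals. -/
theorem pc_long (hB : BlockS) {ε : ℝ} (hε : 0 < ε) (hε8 : ε ≤ 1 / 8) : ∃ δ : ℝ, 0 < δ ∧ ∃ T0 : ℝ, ∀ T : ℝ, T0 ≤ T →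
    ∀ H : ℝ, T ≤ H → Cn (fun n => gap n < 1 / 2 - δ) T H ≤ δ * Zc T H →
      |Cn (fun n => |gap n - 1 / 2| ≤ ε) T H - (1 / 2 - 2 / π ^ 2) * Zc T H| ≤ ε * Zc T H ∧
      ∀ k : ℕ, 1 ≤ k → k * ε ≤ 1 →
        |Cn (fun n => ∃ m, n < m ∧ |normOrdinate m - normOrdinate n - k / 2| ≤ ε) T H -
          rho k * Zc T H| ≤ ε * Zc T H := by
  obtain ⟨δ1, hδ1, T1, hb⟩ := hB ε (ε / 2) hε hε8 (half_pos hε)
  obtain ⟨δ, hδ⟩ : ∃ δ : ℝ, δ = min δ1 (δ1 * (ε / 2)) := ⟨_, rfl⟩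
  have hδ0 : 0 < δ := by rw [hδ]; positivity
  have hδa : δ ≤ δ1 := by rw [hδ]; exact min_le_left _ _
  have hδb : δ ≤ δ1 * (ε / 2) := by rw [hδ]; exact min_le_right _ _
  refine ⟨δ, hδ0, max T1 1, fun T hT H hH hP => ?_⟩
  have hT1 : (1:ℝ) ≤ T := (le_max_right _ _).trans hT
  have hH0 : 0 ≤ H := by linarith
  have hZ := Zc_nonneg (T := T) hH0
  have hP1 : 1 / δ1 * Cn (fun n => gap n < 1 / 2 - δ1) T H ≤ ε / 2 * Zc T H := by
    have h1 : Cn (fun n => gap n < 1 / 2 - δ1) T H ≤ Cn (fun n => gap n < 1 / 2 - δ) T H :=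
      cn_imp _ _ fun n hn => by linarith
    have h2 : Cn (fun n => gap n < 1 / 2 - δ1) T H ≤ δ1 * (ε / 2) * Zc T H :=
      h1.trans (hP.trans (mul_le_mul_of_nonneg_right hδb hZ))
    rw [one_div, ← div_eq_inv_mul, div_le_iff₀ hδ1]
    linarith
  constructor
  · have h := long_of_block (P := fun n => gap n < 1 / 2 - δ1)
      (Q := fun n => |gap n - 1 / 2| ≤ ε) const_mem.1 const_mem.2 (half_pos hε).le hδ1
      (le_max_right T1 1)
      (fun T hT H h1 h2 h3 => (hb T ((le_max_left _ _).trans hT) H h1 h2 h3).1) T hT H hH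
    linarith
  · intro k hk hkε
    have h := long_of_block (P := fun n => gap n < 1 / 2 - δ1)
      (Q := fun n => ∃ m, n < m ∧ |normOrdinate m - normOrdinate n - k / 2| ≤ ε)
      (rho_mem hk).1 (rho_mem hk).2 (half_pos hε).le hδ1 (le_max_right T1 1)
      (fun T hT H h1 h2 h3 => (hb T ((le_max_left _ _).trans hT) H h1 h2 h3).2 k hk hkε)
      T hT H hH
    linarith

/-- **The dichotomy with the whole pair correlation** (`a = 1`). -/
theorem dichotomy_pc_of (hRH : RiemannHypothesis) (hB : BlockS) {a ε : ℝ} (ha : 0 < a)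
    (ha1 : a ≤ 1) (hε : 0 < ε) (hε8 : ε ≤ 1 / 8) :
    ∃ δ : ℝ, 0 < δ ∧ ∃ T₀ : ℝ, ∀ T : ℝ, T₀ ≤ T → ∀ H : ℝ, T ^ a ≤ H →
      δ * ((zeroCount (T + H) : ℝ) - zeroCount T) ≤
        cn (fun n => gap n < 1 / (1 + a) - δ) (zeroCount T) (zeroCount (T + H)) ∨
      (cn (fun n => ∀ m : ℤ, ε < |gap n - m / (1 + a)|) (zeroCount T) (zeroCount (T + H)) ≤
        ε * ((zeroCount (T + H) : ℝ) - zeroCount T) ∧
       (1 - a - ε) * ((zeroCount (T + H) : ℝ) - zeroCount T) ≤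
        cn (fun n => |gap n - 1 / (1 + a)| ≤ ε) (zeroCount T) (zeroCount (T + H)) ∧
       (a = 1 →
        |cn (fun n => |gap n - 1 / 2| ≤ ε) (zeroCount T) (zeroCount (T + H)) -
          (1 / 2 - 2 / π ^ 2) * ((zeroCount (T + H) : ℝ) - zeroCount T)| ≤
          ε * ((zeroCount (T + H) : ℝ) - zeroCount T) ∧
        ∀ k : ℕ, 1 ≤ k → k * ε ≤ 1 →
          |cn (fun n => ∃ m, n < m ∧ |normOrdinate m - normOrdinate n - k / 2| ≤ ε)
            (zeroCount T) (zeroCount (T + H)) -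
            (1 / 2 - (1 - (-1) ^ k) / (π ^ 2 * k ^ 2)) *
              ((zeroCount (T + H) : ℝ) - zeroCount T)| ≤
            ε * ((zeroCount (T + H) : ℝ) - zeroCount T))) := by
  obtain ⟨δ0, hδ0, T0, hD⟩ := dichotomy_full hRH ha ha1 hε
  have hcard : ∀ (δ : ℝ) (i j : ℕ), ((({n ∈ Finset.Ioc i j |
      gap n < 1 / (1 + a) - δ} : Finset ℕ).card : ℕ) : ℝ) =
      cn (fun n => gap n < 1 / (1 + a) - δ) i j := by
    intro δ i j
    unfold cn
    rw [← Set.ncard_coe_finset]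
    congr 2
    ext n
    simp
  obtain ⟨δ2, hδ2, T2, hP⟩ := pc_long hB hε hε8
  obtain ⟨δ, hδ⟩ : ∃ δ : ℝ, δ = min δ0 δ2 := ⟨_, rfl⟩
  have hδp : 0 < δ := by rw [hδ]; exact lt_min hδ0 hδ2
  have hδa : δ ≤ δ0 := by rw [hδ]; exact min_le_left _ _
  have hδb : δ ≤ δ2 := by rw [hδ]; exact min_le_right _ _
  refine ⟨δ, hδp, max (max T0 T2) 1, fun T hT H hH => ?_⟩
  have g1 : T0 ≤ T := (le_max_left _ _).trans ((le_max_left _ _).trans hT)
  have g2 : T2 ≤ T := (le_max_right _ _).trans ((le_max_left _ _).trans hT)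
  have g3 : (1:ℝ) ≤ T := (le_max_right _ _).trans hT
  have hpos : (1 : ℝ) ≤ T ^ a := Real.one_le_rpow g3 ha.le
  have hH0 : 0 ≤ H := by linarith
  have hZ : 0 ≤ (zeroCount (T + H) : ℝ) - zeroCount T := Zc_nonneg hH0
  rcases le_or_gt (δ * ((zeroCount (T + H) : ℝ) - zeroCount T))
    (cn (fun n => gap n < 1 / (1 + a) - δ) (zeroCount T) (zeroCount (T + H))) with h | h
  · exact Or.inl h
  right
  have hb : cn (fun n => ∀ m : ℤ, ε < |gap n - m / (1 + a)|) (zeroCount T) (zeroCount (T + H)) ≤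
        ε * ((zeroCount (T + H) : ℝ) - zeroCount T) ∧
       (1 - a - ε) * ((zeroCount (T + H) : ℝ) - zeroCount T) ≤
        cn (fun n => |gap n - 1 / (1 + a)| ≤ ε) (zeroCount T) (zeroCount (T + H)) := by
    rcases hD T g1 H hH with h1 | h1
    · exfalso
      rw [hcard] at h1
      have h2 : cn (fun n => gap n < 1 / (1 + a) - δ0) (zeroCount T) (zeroCount (T + H)) ≤
          cn (fun n => gap n < 1 / (1 + a) - δ) (zeroCount T) (zeroCount (T + H)) :=
        cn_imp _ _ (fun n hn => by linarith)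
      have h3 : δ * ((zeroCount (T + H) : ℝ) - zeroCount T) ≤
          δ0 * ((zeroCount (T + H) : ℝ) - zeroCount T) := mul_le_mul_of_nonneg_right hδa hZ
      linarith
    · exact h1
  refine ⟨hb.1, hb.2, fun ha2 => ?_⟩
  subst ha2
  have hTH : T ≤ H := by rwa [Real.rpow_one] at hH
  have e2 : (1:ℝ) / (1 + 1) = 1 / 2 := by norm_num
  rw [e2] at h
  have hP2 : Cn (fun n => gap n < 1 / 2 - δ2) T H ≤ δ2 * Zc T H := by
    have h2 : Cn (fun n => gap n < 1 / 2 - δ2) T H ≤ Cn (fun n => gap n < 1 / 2 - δ) T H :=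
      cn_imp _ _ (fun n hn => by linarith)
    exact h2.trans (h.le.trans (mul_le_mul_of_nonneg_right hδb hZ))
  exact hP T g2 H hTH hP2

end Pool.Agent.AHP
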