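import Pool.Agent.AHP.CkDefs
import Pool.Agent.AHP.Block
import Pool.Agent.ZGap.DW.Ff

/-!
# From blocks to long intervals, and the dichotomy with the pair correlation, for every `a`
-/

namespace Pool.Agent.AHP

open Real Set Pool.Agent.ZetaGaps Pool.Agent.AHW

/-- **From blocks to long intervals.** -/
theorem long_one {P Q : ℕ → Prop} {a s c δ T0 M : ℝ} (ha : 0 < a) (ha1 : a ≤ 1) (hδ : 0 < δ)
    (hM : |s| + |c| ≤ M) (hT1 : 1 ≤ T0)
    (hb : ∀ T, T0 ≤ T → ∀ H, T ^ a ≤ H → H ≤ 3 * T ^ a → Cn P T H ≤ δ * Zc T H →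
      s * Cn Q T H ≤ c * Zc T H) :
    ∀ T, T0 ≤ T → ∀ H, T ^ a ≤ H → s * Cn Q T H ≤ c * Zc T H + M / δ * Cn P T H := by
  have hM0 : 0 ≤ M := le_trans (by positivity) hM
  have hMδ : 0 ≤ M / δ := by positivity
  have hpow : ∀ T, T0 ≤ T → (1:ℝ) ≤ T ^ a := fun T hT =>
    Real.one_le_rpow (hT1.trans hT) ha.le
  -- one block
  have hone : ∀ T, T0 ≤ T → ∀ H, T ^ a ≤ H → H ≤ 3 * T ^ a →
      s * Cn Q T H ≤ c * Zc T H + M / δ * Cn P T H := by
    intro T hT H h1 h2
    have hp := hpow T hT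
    have hH0 : 0 ≤ H := by linarith
    have hZ := Zc_nonneg (T := T) hH0
    have hP := Cn_nonneg P T H
    have hQ := Cn_nonneg Q T H
    have hQ1 := Cn_le_Zc Q (T := T) hH0
    rcases le_or_gt (Cn P T H) (δ * Zc T H) with h | h
    · have h3 := hb T hT H h1 h2 h
      have h4 : 0 ≤ M / δ * Cn P T H := mul_nonneg hMδ hP
      linarith
    · have h3 : M * Zc T H ≤ M / δ * Cn P T H := by
        have h5 : M / δ * (δ * Zc T H) ≤ M / δ * Cn P T H :=
          mul_le_mul_of_nonneg_left h.le hMδ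
        have h6 : M / δ * (δ * Zc T H) = M * Zc T H := by
          field_simp
        linarith
      have h4 : s * Cn Q T H - c * Zc T H ≤ M * Zc T H := by
        have h5 : s * Cn Q T H ≤ |s| * Zc T H :=
          (mul_le_mul_of_nonneg_right (le_abs_self s) hQ).trans
            (mul_le_mul_of_nonneg_left hQ1 (abs_nonneg s))
        have h6 : -c * Zc T H ≤ |c| * Zc T H :=
          mul_le_mul_of_nonneg_right (neg_le_abs c) hZ
        have h7 := mul_le_mul_of_nonneg_right hM hZ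
        linarith
      linarith
  -- induction
  have hind : ∀ n : ℕ, ∀ T, T0 ≤ T → ∀ H, T ^ a ≤ H → H ≤ n →
      s * Cn Q T H ≤ c * Zc T H + M / δ * Cn P T H := by
    intro n
    induction n with
    | zero =>
      intro T hT H h1 h2
      exfalso
      have h3 := hpow T hT
      rw [Nat.cast_zero] at h2
      linarith
    | succ n ih =>
      intro T hT H h1 h2
      have hp := hpow T hT
      have hT1' : 1 ≤ T := hT1.trans hT
      rcases le_or_gt H (3 * T ^ a) with h3 | h3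
      · exact hone T hT H h1 h3
      · have hTT : T ^ a ≤ T := by
          have := Real.rpow_le_rpow_of_exponent_le hT1' ha1
          rwa [Real.rpow_one] at this
        have hU : (T + T ^ a) ^ a ≤ 2 * T ^ a := by
          have g1 : (T + T ^ a) ^ a ≤ (2 * T) ^ a :=
            Real.rpow_le_rpow (by linarith) (by linarith) ha.le
          have g2 : (2 * T) ^ a = 2 ^ a * T ^ a := Real.mul_rpow (by norm_num) (by linarith)
          have g3 : (2:ℝ) ^ a ≤ 2 := by
            have := Real.rpow_le_rpow_of_exponent_le (show (1:ℝ) ≤ 2 by norm_num) ha1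
            rwa [Real.rpow_one] at this
          have g4 : (2:ℝ) ^ a * T ^ a ≤ 2 * T ^ a := mul_le_mul_of_nonneg_right g3 (by linarith)
          linarith
        have e1 := hone T hT (T ^ a) le_rfl (by linarith)
        have e2 := ih (T + T ^ a) (by linarith) (H - T ^ a) (by linarith) (by
          push_cast at h2
          linarith)
        have s1 : Zc T H = Zc T (T ^ a) + Zc (T + T ^ a) (H - T ^ a) := by
          rw [← Zc_split]
          congr 1
          ring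
        have s2 : ∀ R : ℕ → Prop, Cn R T H = Cn R T (T ^ a) + Cn R (T + T ^ a) (H - T ^ a) := by
          intro R
          rw [← Cn_split R (by linarith) (by linarith)]
          congr 1
          ring
        rw [s1, s2 Q, s2 P]
        linarith
  intro T hT H h1
  obtain ⟨n, hn⟩ := exists_nat_ge H
  exact hind n T hT H h1 hn

lemma ck_abs {a : ℝ} (ha : 0 < a) (k : ℕ) : |ck a k| ≤ 1 + a ^ 2 := by
  have h1 : |∫ u in (0:ℝ)..a, u * Real.cos (2 * π * k * u / (1 + a))| ≤ ∫ u in (0:ℝ)..a, u := by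
    refine (intervalIntegral.abs_integral_le_integral_abs ha.le).trans ?_
    apply intervalIntegral.integral_mono_on ha.le
    · exact (Continuous.abs (by fun_prop)).intervalIntegrable _ _
    · exact continuous_id.intervalIntegrable _ _
    · intro u hu
      rw [abs_mul, abs_of_nonneg hu.1]
      have := Real.abs_cos_le_one (2 * π * k * u / (1 + a))
      have h2 := mul_le_mul_of_nonneg_left this hu.1
      linarith
  rw [integral_id] at h1
  unfold ck
  refine (abs_add_le _ _).trans ?_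
  rw [abs_one, abs_mul, abs_of_pos (by norm_num : (0:ℝ) < 2)]
  linarith

lemma ck_one {k : ℕ} (hk : 1 ≤ k) : ck 1 k = 2 * rho k := by
  have hk' : (0:ℝ) < k := by exact_mod_cast hk
  have hpi := Real.pi_pos
  obtain ⟨b, hb⟩ : ∃ b : ℝ, b = π * k := ⟨_, rfl⟩
  have hb0 : 0 < b := by rw [hb]; positivity
  have h1 : ∀ u : ℝ, HasDerivAt (fun u => u * Real.sin (b * u) / b + Real.cos (b * u) / b ^ 2)
      (u * Real.cos (b * u)) u := by
    intro u
    have e1 : HasDerivAt (fun u : ℝ => b * u) b u := by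
      simpa using (hasDerivAt_id u).const_mul b
    have e2 := ((hasDerivAt_id u).mul e1.sin).div_const b
    have e3 := e1.cos.div_const (b ^ 2)
    refine (e2.add e3).congr_deriv ?_
    simp only [id]
    field_simp
    ring
  have h2 : ∫ u in (0:ℝ)..1, u * Real.cos (b * u) = (Real.cos b - 1) / b ^ 2 + Real.sin b / b := by
    rw [intervalIntegral.integral_eq_sub_of_hasDerivAt (fun u _ => h1 u)
      ((by fun_prop : Continuous fun u : ℝ => u * Real.cos (b * u)).intervalIntegrable _ _)]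
    simp
    ring
  have h3 : Real.sin b = 0 := by rw [hb, mul_comm]; exact Real.sin_nat_mul_pi k
  have h4 : Real.cos b = (-1) ^ k := by rw [hb, mul_comm]; exact Real.cos_nat_mul_pi k
  have h5 : (fun u : ℝ => u * Real.cos (2 * π * k * u / (1 + 1))) =
      fun u => u * Real.cos (b * u) := by
    ext u
    congr 2
    rw [hb]
    ring
  unfold ck rho
  rw [h5, h2, h3, h4, hb]
  ring

/-- The block theorem, as a hypothesis. -/
def BlockPC (a : ℝ) : Prop := ∀ ε κ : ℝ, 0 < ε → ε ≤ 1 / 8 → 0 < κ → ∃ δ : ℝ, 0 < δ ∧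
  ∃ T0 : ℝ, ∀ T : ℝ, T0 ≤ T → ∀ H : ℝ, T ^ a ≤ H → H ≤ 3 * T →
    Cn (fun n => gap n < 1 / (1 + a) - δ) T H ≤ δ * Zc T H → PCa a ε κ T H

/-- The block theorem for `a = 1`. -/
theorem blockPC_one (hRH : RiemannHypothesis) : BlockPC 1 := by
  intro ε κ hε hε8 hκ
  obtain ⟨δ, hδ, T0, h⟩ := block hRH hε hε8 (half_pos hκ)
  have e2 : (1:ℝ) / (1 + 1) = 1 / 2 := by norm_num
  refine ⟨δ, hδ, T0, fun T hT H hH hH3 hP => ?_⟩
  rw [Real.rpow_one] at hH
  rw [e2] at hP
  obtain ⟨h1, h2⟩ := h T hT H hH hH3 hP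
  have c1 : ck 1 1 = 2 * (1 / 2 - 2 / π ^ 2) := by
    rw [ck_one le_rfl]
    unfold rho
    push_cast
    ring
  have h1' := abs_le.mp h1
  refine ⟨?_, ?_, fun k hk hkε => ?_⟩
  · rw [c1, e2]
    unfold Cn Zc
    linarith [h1'.1]
  · rw [c1, e2]
    unfold Cn Zc
    linarith [h1'.2]
  · have h3 := abs_le.mp (h2 k hk hkε)
    have e3 : ((k : ℝ)) / (1 + 1) = k / 2 := by norm_num
    rw [ck_one hk, e3]
    unfold Cn Zc rho
    rw [abs_le]
    constructor
    · linarith [h3.1]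
    · linarith [h3.2]

/-- The pair correlation in long intervals. -/
theorem pc_long_a {a : ℝ} (ha : 0 < a) (ha1 : a ≤ 1) (hB : BlockPC a) {ε : ℝ} (hε : 0 < ε)
    (hε8 : ε ≤ 1 / 8) : ∃ δ : ℝ, 0 < δ ∧ ∃ T0 : ℝ, ∀ T : ℝ, T0 ≤ T →
    ∀ H : ℝ, T ^ a ≤ H → Cn (fun n => gap n < 1 / (1 + a) - δ) T H ≤ δ * Zc T H →
      PCa a ε ε T H := by
  obtain ⟨δ1, hδ1, T1, hb⟩ := hB ε (ε / 2) hε hε8 (half_pos hε)
  obtain ⟨δ, hδ⟩ : ∃ δ : ℝ, δ = min δ1 (δ1 * (ε / 12)) := ⟨_, rfl⟩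
  have hδ0 : 0 < δ := by rw [hδ]; positivity
  have hδa : δ ≤ δ1 := by rw [hδ]; exact min_le_left _ _
  have hδb : δ ≤ δ1 * (ε / 12) := by rw [hδ]; exact min_le_right _ _
  have haa : 0 ≤ a * (1 - a) := mul_nonneg ha.le (by linarith)
  have haa1 : a * (1 - a) ≤ 1 := by nlinarith
  have hb' : ∀ T, max T1 1 ≤ T → ∀ H, T ^ a ≤ H → H ≤ 3 * T ^ a →
      Cn (fun n => gap n < 1 / (1 + a) - δ1) T H ≤ δ1 * Zc T H → PCa a ε (ε / 2) T H := by
    intro T hT H hH hH3 hP
    have hT1 : (1:ℝ) ≤ T := (le_max_right _ _).trans hT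
    have hTT : T ^ a ≤ T := by
      have := Real.rpow_le_rpow_of_exponent_le hT1 ha1
      rwa [Real.rpow_one] at this
    exact hb T ((le_max_left _ _).trans hT) H hH (by linarith) hP
  have hck : ∀ k : ℕ, |ck a k| ≤ 2 := by
    intro k
    have := ck_abs ha k
    nlinarith
  have hs1 : |1 + a| ≤ 2 := by rw [abs_of_pos (by linarith)]; linarith
  have hs2 : |-(1 + a)| ≤ 2 := by rw [abs_neg]; exact hs1
  refine ⟨δ, hδ0, max T1 1, fun T hT H hH hP => ?_⟩
  have hT1 : (1:ℝ) ≤ T := (le_max_right _ _).trans hT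
  have hp : (1:ℝ) ≤ T ^ a := Real.one_le_rpow hT1 ha.le
  have hH0 : 0 ≤ H := by linarith
  have hZ := Zc_nonneg (T := T) hH0
  have hP1 : 6 / δ1 * Cn (fun n => gap n < 1 / (1 + a) - δ1) T H ≤ ε / 2 * Zc T H := by
    have h1 : Cn (fun n => gap n < 1 / (1 + a) - δ1) T H ≤
        Cn (fun n => gap n < 1 / (1 + a) - δ) T H := cn_imp _ _ fun n hn => by linarith
    have h2 : Cn (fun n => gap n < 1 / (1 + a) - δ1) T H ≤ δ1 * (ε / 12) * Zc T H :=
      h1.trans (hP.trans (mul_le_mul_of_nonneg_right hδb hZ))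
    rw [div_mul_eq_mul_div, div_le_iff₀ hδ1]
    linarith
  refine ⟨?_, ?_, fun k hk hkε => ?_⟩
  · have hc : |-(ck a 1 - a * (1 - a) - ε / 2)| ≤ 4 := by
      have := abs_le.mp (hck 1)
      rw [abs_le]
      constructor <;> linarith [this.1, this.2]
    have h := long_one (P := fun n => gap n < 1 / (1 + a) - δ1)
      (Q := fun n => |gap n - 1 / (1 + a)| ≤ ε) (s := -(1 + a))
      (c := -(ck a 1 - a * (1 - a) - ε / 2)) (M := 6) ha ha1 hδ1 (by linarith)
      (le_max_right T1 1)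
      (fun T hT H h1 h2 h3 => by
        have := (hb' T hT H h1 h2 h3).1
        linarith) T hT H hH
    linarith
  · have hc : |ck a 1 + a * (1 - a) * Real.cos (2 * π * a / (1 + a)) + ε / 2| ≤ 4 := by
      have h1 := abs_le.mp (hck 1)
      have h2 : |a * (1 - a) * Real.cos (2 * π * a / (1 + a))| ≤ 1 := by
        rw [abs_mul, abs_of_nonneg haa]
        have := Real.abs_cos_le_one (2 * π * a / (1 + a))
        calc a * (1 - a) * |Real.cos (2 * π * a / (1 + a))| ≤ 1 * 1 :=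
              mul_le_mul haa1 this (abs_nonneg _) (by norm_num)
          _ = 1 := by ring
      have h3 := abs_le.mp h2
      rw [abs_le]
      constructor <;> linarith [h1.1, h1.2, h3.1, h3.2]
    have h := long_one (P := fun n => gap n < 1 / (1 + a) - δ1)
      (Q := fun n => |gap n - 1 / (1 + a)| ≤ ε) (s := 1 + a)
      (c := ck a 1 + a * (1 - a) * Real.cos (2 * π * a / (1 + a)) + ε / 2) (M := 6)
      ha ha1 hδ1 (by linarith) (le_max_right T1 1)
      (fun T hT H h1 h2 h3 => (hb' T hT H h1 h2 h3).2.1) T hT H hH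
    linarith
  · have hc := abs_le.mp (hck k)
    have hc1 : |ck a k + (a * (1 - a) + ε / 2)| ≤ 4 := by
      rw [abs_le]
      constructor <;> linarith [hc.1, hc.2]
    have hc2 : |-ck a k + (a * (1 - a) + ε / 2)| ≤ 4 := by
      rw [abs_le]
      constructor <;> linarith [hc.1, hc.2]
    have hu := long_one (P := fun n => gap n < 1 / (1 + a) - δ1)
      (Q := fun n => ∃ m, n < m ∧ |normOrdinate m - normOrdinate n - k / (1 + a)| ≤ ε)
      (s := 1 + a) (c := ck a k + (a * (1 - a) + ε / 2)) (M := 6) ha ha1 hδ1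
      (by linarith) (le_max_right T1 1)
      (fun T hT H h1 h2 h3 => by
        have := (abs_le.mp ((hb' T hT H h1 h2 h3).2.2 k hk hkε)).2
        linarith) T hT H hH
    have hl := long_one (P := fun n => gap n < 1 / (1 + a) - δ1)
      (Q := fun n => ∃ m, n < m ∧ |normOrdinate m - normOrdinate n - k / (1 + a)| ≤ ε)
      (s := -(1 + a)) (c := -ck a k + (a * (1 - a) + ε / 2)) (M := 6) ha ha1 hδ1
      (by linarith) (le_max_right T1 1)
      (fun T hT H h1 h2 h3 => by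
        have := (abs_le.mp ((hb' T hT H h1 h2 h3).2.2 k hk hkε)).1
        linarith) T hT H hH
    rw [abs_le]
    constructor
    · linarith
    · linarith

/-- One gap: it is small, or bad, or near `c`, or near `2 c`, or at least `3 c - η`. -/
lemma near_one_two {a η δ g : ℝ} (ha : 0 < a) (ha1 : a ≤ 1) (hη8 : η ≤ 1 / 8)
    (hδη : δ ≤ η) (hP : ¬ (g < 1 / (1 + a) - δ)) (hQ : ¬ (∀ m : ℤ, η < |g - m / (1 + a)|)) :
    |g - 1 / (1 + a)| ≤ η ∨ |g - 2 / (1 + a)| ≤ η ∨ 3 * (1 / (1 + a)) - η ≤ g := by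
  push Not at hP hQ
  obtain ⟨m, hm⟩ := hQ
  obtain ⟨c, hc⟩ : ∃ c : ℝ, c = 1 / (1 + a) := ⟨_, rfl⟩
  have hc2 : 1 / 2 ≤ c := by
    rw [hc, div_le_div_iff₀ (by norm_num) (by linarith)]; linarith
  have hmc : (m : ℝ) / (1 + a) = m * c := by rw [hc]; ring
  have h2c : (2 : ℝ) / (1 + a) = 2 * c := by rw [hc]; ring
  rw [hmc] at hm
  rw [h2c, ← hc]
  rw [← hc] at hP
  have hm' := abs_le.mp hm
  rcases lt_trichotomy m 1 with h | h | h
  · exfalso
    have h1 : (m : ℝ) ≤ 0 := by exact_mod_cast (by omega : m ≤ 0)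
    have h2 : (m : ℝ) * c ≤ 0 := mul_nonpos_of_nonpos_of_nonneg h1 (by linarith)
    linarith [hm'.2]
  · left
    rw [h, Int.cast_one, one_mul] at hm
    exact hm
  · right
    rcases eq_or_lt_of_le (show (2:ℤ) ≤ m by omega) with h3 | h3
    · left
      rw [← h3] at hm
      push_cast at hm
      exact hm
    · right
      have h1 : (3 : ℝ) ≤ m := by exact_mod_cast (by omega : (3 : ℤ) ≤ m)
      have h2 : 3 * c ≤ m * c := mul_le_mul_of_nonneg_right h1 (by linarith)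
      linarith [hm'.1]

open Classical in
/-- Few small gaps, few bad gaps, mean at most `1 + η`: gaps near `1 / (1 + a)` and
`2 / (1 + a)`. -/
theorem near_two {a η δ : ℝ} (ha : 0 < a) (ha1 : a ≤ 1) (hη : 0 < η) (hη8 : η ≤ 1 / 8)
    (hδη : δ ≤ η) {i j : ℕ} (hij : i ≤ j) (hpos : ∀ n ∈ Finset.Ioc i j, 0 ≤ gap n)
    (hP : cn (fun n => gap n < 1 / (1 + a) - δ) i j ≤ η * ((j : ℝ) - i))
    (hQ : cn (fun n => ∀ m : ℤ, η < |gap n - m / (1 + a)|) i j ≤ η * ((j : ℝ) - i))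
    (hS : ∑ n ∈ Finset.Ioc i j, gap n ≤ (1 + η) * ((j : ℝ) - i)) :
    (2 - a - 14 * η) * ((j : ℝ) - i) ≤ 2 * cn (fun n => |gap n - 1 / (1 + a)| ≤ η) i j +
      cn (fun n => |gap n - 2 / (1 + a)| ≤ η) i j := by
  obtain ⟨c, hc⟩ : ∃ c : ℝ, c = 1 / (1 + a) := ⟨_, rfl⟩
  have hc2 : 1 / 2 ≤ c := by
    rw [hc, div_le_div_iff₀ (by norm_num) (by linarith)]; linarith
  have hca : c * (1 + a) = 1 := by rw [hc]; field_simp
  have h2c : (2 : ℝ) / (1 + a) = 2 * c := by rw [hc]; ring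
  obtain ⟨N, hN⟩ : ∃ N : ℝ, N = (j : ℝ) - i := ⟨_, rfl⟩
  have hN0 : 0 ≤ N := by
    have : (i : ℝ) ≤ j := by exact_mod_cast hij
    rw [hN]; linarith
  obtain ⟨z, hz⟩ : ∃ z : ℝ, z = cn (fun n => 3 * (1 / (1 + a)) - η ≤ gap n) i j := ⟨_, rfl⟩
  obtain ⟨y, hy⟩ : ∃ y : ℝ, y = cn (fun n => |gap n - 2 / (1 + a)| ≤ η) i j := ⟨_, rfl⟩
  obtain ⟨x, hx⟩ : ∃ x : ℝ, x = cn (fun n => |gap n - 1 / (1 + a)| ≤ η) i j := ⟨_, rfl⟩
  have hxN : x ≤ N := by rw [hx, hN]; exact cn_le _ hij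
  have hyN : y ≤ N := by rw [hy, hN]; exact cn_le _ hij
  have hzN : z ≤ N := by rw [hz, hN]; exact cn_le _ hij
  have hcov : N ≤ cn (fun n => gap n < 1 / (1 + a) - δ) i j +
      cn (fun n => ∀ m : ℤ, η < |gap n - m / (1 + a)|) i j + x + y + z := by
    have h1 : N = ∑ n ∈ Finset.Ioc i j, (1 : ℝ) := by
      rw [Finset.sum_const, Nat.card_Ioc, nsmul_eq_mul, mul_one, Nat.cast_sub hij, hN]
    rw [h1, hx, hy, hz, cn_sum, cn_sum, cn_sum, cn_sum, cn_sum, ← Finset.sum_add_distrib,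
      ← Finset.sum_add_distrib, ← Finset.sum_add_distrib, ← Finset.sum_add_distrib]
    refine Finset.sum_le_sum fun n _ => ?_
    have w : ∀ p : Prop, (0 : ℝ) ≤ (if p then (1 : ℝ) else 0) := fun p => by
      split_ifs <;> norm_num
    have w1 := w (gap n < 1 / (1 + a) - δ)
    have w2 := w (∀ m : ℤ, η < |gap n - m / (1 + a)|)
    have w3 := w (|gap n - 1 / (1 + a)| ≤ η)
    have w4 := w (|gap n - 2 / (1 + a)| ≤ η)
    have w5 := w (3 * (1 / (1 + a)) - η ≤ gap n)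
    by_cases q1 : gap n < 1 / (1 + a) - δ
    · rw [if_pos q1]
      linarith
    by_cases q2 : ∀ m : ℤ, η < |gap n - m / (1 + a)|
    · rw [if_pos q2]
      linarith
    rcases near_one_two ha ha1 hη8 hδη q1 q2 with q3 | q3 | q3
    · rw [if_pos q3]
      linarith
    · rw [if_pos q3]
      linarith
    · rw [if_pos q3]
      linarith
  have hsum : (c - η) * x + (2 * c - η) * y + (3 * c - η) * z ≤ (1 + η) * N := by
    rw [← hN] at hS
    refine le_trans ?_ hS
    rw [hx, hy, hz, cn_sum, cn_sum, cn_sum, Finset.mul_sum, Finset.mul_sum, Finset.mul_sum,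
      ← Finset.sum_add_distrib, ← Finset.sum_add_distrib]
    refine Finset.sum_le_sum fun n hn => ?_
    have g0 := hpos n hn
    rw [h2c, ← hc]
    by_cases q1 : |gap n - c| ≤ η
    · have q1' := abs_le.mp q1
      have q2 : ¬ (|gap n - 2 * c| ≤ η) := by
        intro h
        have := abs_le.mp h
        linarith [q1'.2, this.1]
      have q3 : ¬ (3 * c - η ≤ gap n) := by
        push Not
        linarith [q1'.2]
      rw [if_pos q1, if_neg q2, if_neg q3]
      linarith [q1'.1]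
    · rw [if_neg q1]
      by_cases q2 : |gap n - 2 * c| ≤ η
      · have q2' := abs_le.mp q2
        have q3 : ¬ (3 * c - η ≤ gap n) := by
          push Not
          linarith [q2'.2]
        rw [if_pos q2, if_neg q3]
        linarith [q2'.1]
      · rw [if_neg q2]
        by_cases q3 : 3 * c - η ≤ gap n
        · rw [if_pos q3]; linarith
        · rw [if_neg q3]; linarith
  rw [← hN] at hP hQ ⊢
  rw [← hx, ← hy]
  have e1 : (1 - 2 * η) * N ≤ x + y + z := by linarith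
  have hxp : 0 ≤ x := by rw [hx]; exact cn_nonneg _ _ _
  have hyp : 0 ≤ y := by rw [hy]; exact cn_nonneg _ _ _
  have hzp : 0 ≤ z := by rw [hz]; exact cn_nonneg _ _ _
  have e2 := mul_le_mul_of_nonneg_left hsum (show (0 : ℝ) ≤ 1 + a by linarith)
  have e3 : (1 + a) * ((c - η) * x + (2 * c - η) * y + (3 * c - η) * z) =
      (c * (1 + a)) * (x + 2 * y + 3 * z) - η * (1 + a) * (x + y + z) := by ring
  rw [e3, hca] at e2
  have e4 : η * (1 + a) * (x + y + z) ≤ η * 2 * (3 * N) :=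
    mul_le_mul (mul_le_mul_of_nonneg_left (by linarith) hη.le) (by linarith) (by linarith)
      (by positivity)
  have e5 : (1 + a) * ((1 + η) * N) ≤ (1 + a + 2 * η) * N := by
    have : (1 + a) * (1 + η) ≤ 1 + a + 2 * η := by nlinarith
    nlinarith
  nlinarith

/-- Few small gaps: gaps near `1 / (1 + a)` and `2 / (1 + a)`. -/
theorem two_long (hRH : RiemannHypothesis) {a ε : ℝ} (ha : 0 < a) (ha1 : a ≤ 1) (hε : 0 < ε) :
    ∃ δ : ℝ, 0 < δ ∧ ∃ T₀ : ℝ, ∀ T : ℝ, T₀ ≤ T → ∀ H : ℝ, T ^ a ≤ H →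
      Cn (fun n => gap n < 1 / (1 + a) - δ) T H ≤ δ * Zc T H →
      (2 - a - ε) * Zc T H ≤ 2 * Cn (fun n => |gap n - 1 / (1 + a)| ≤ ε) T H +
        Cn (fun n => |gap n - 2 / (1 + a)| ≤ ε) T H := by
  obtain ⟨η, hη⟩ : ∃ η : ℝ, η = min (ε / 14) (1 / 8) := ⟨_, rfl⟩
  have hη0 : 0 < η := by rw [hη]; exact lt_min (by positivity) (by norm_num)
  have hηε : 14 * η ≤ ε := by
    have : η ≤ ε / 14 := by rw [hη]; exact min_le_left _ _
    linarith
  have hη8 : η ≤ 1 / 8 := by rw [hη]; exact min_le_right _ _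
  obtain ⟨δ0, hδ0, T1, hD⟩ := dichotomy_full hRH ha ha1 hη0
  obtain ⟨T2, hT2, hM⟩ := mean_gap ha hη0 (by linarith)
  obtain ⟨δ, hδ⟩ : ∃ δ : ℝ, δ = min (δ0 / 2) η := ⟨_, rfl⟩
  have hδp : 0 < δ := by rw [hδ]; exact lt_min (by positivity) hη0
  have hδa : δ ≤ δ0 / 2 := by rw [hδ]; exact min_le_left _ _
  have hδb : δ ≤ η := by rw [hδ]; exact min_le_right _ _
  have hcard : ∀ (δ : ℝ) (i j : ℕ), ((({n ∈ Finset.Ioc i j |
      gap n < 1 / (1 + a) - δ} : Finset ℕ).card : ℕ) : ℝ) =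
      cn (fun n => gap n < 1 / (1 + a) - δ) i j := by
    intro δ i j
    unfold cn
    rw [← Set.ncard_coe_finset]
    congr 2
    ext n
    simp
  refine ⟨δ, hδp, max T1 T2, fun T hT H hH hP => ?_⟩
  have g1 : T1 ≤ T := (le_max_left _ _).trans hT
  have g2 : T2 ≤ T := (le_max_right _ _).trans hT
  have g3 : 1 ≤ T := by linarith
  have hpos : (1 : ℝ) ≤ T ^ a := Real.one_le_rpow g3 ha.le
  have hcc := zeroCount_mono (show T ≤ T + H by linarith)
  have hZ := Zc_nonneg (T := T) (H := H) (by linarith)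
  have k1 := Cn_nonneg (fun n => |gap n - 1 / (1 + a)| ≤ ε) T H
  have k2 := Cn_nonneg (fun n => |gap n - 2 / (1 + a)| ≤ ε) T H
  rcases hD T g1 H hH with h1 | h1
  · rw [hcard] at h1
    have h2 : Cn (fun n => gap n < 1 / (1 + a) - δ0) T H ≤
        Cn (fun n => gap n < 1 / (1 + a) - δ) T H := cn_imp _ _ (fun n hn => by linarith)
    have h3 : δ * Zc T H ≤ δ0 / 2 * Zc T H := mul_le_mul_of_nonneg_right hδa hZ
    have h4 : δ0 * Zc T H ≤ δ0 / 2 * Zc T H := (le_trans h1 h2).trans (hP.trans h3)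
    have h5 : Zc T H = 0 := by
      by_contra hne
      have : 0 < Zc T H := lt_of_le_of_ne hZ (Ne.symm hne)
      have : 0 < δ0 / 2 * Zc T H := by positivity
      linarith
    rw [h5]
    linarith
  · have hn := near_two ha ha1 hη0 hη8 hδb hcc
      (fun n hn => gap_nonneg_of g3 (Finset.mem_Ioc.1 hn).1)
      (hP.trans (mul_le_mul_of_nonneg_right hδb hZ)) h1.1 (hM T g2 H hH)
    have e1 : cn (fun n => |gap n - 1 / (1 + a)| ≤ η) (zeroCount T) (zeroCount (T + H)) ≤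
        Cn (fun n => |gap n - 1 / (1 + a)| ≤ ε) T H :=
      cn_imp _ _ (fun n hn => le_trans hn (by linarith))
    have e2 : cn (fun n => |gap n - 2 / (1 + a)| ≤ η) (zeroCount T) (zeroCount (T + H)) ≤
        Cn (fun n => |gap n - 2 / (1 + a)| ≤ ε) T H :=
      cn_imp _ _ (fun n hn => le_trans hn (by linarith))
    have e3 : (2 - a - ε) * Zc T H ≤ (2 - a - 14 * η) * Zc T H :=
      mul_le_mul_of_nonneg_right (by linarith) hZ
    have hn' : (2 - a - 14 * η) * Zc T H ≤ 2 * cn (fun n => |gap n - 1 / (1 + a)| ≤ η)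
      (zeroCount T) (zeroCount (T + H)) +
        cn (fun n => |gap n - 2 / (1 + a)| ≤ η) (zeroCount T) (zeroCount (T + H)) := hn
    linarith

/-- **The dichotomy with the pair correlation**, every exponent. -/
theorem dichotomy_all_of (hRH : RiemannHypothesis) {a ε : ℝ} (ha : 0 < a) (ha1 : a ≤ 1)
    (hε : 0 < ε) (hε8 : ε ≤ 1 / 8) (hB : BlockPC a) :
    ∃ δ : ℝ, 0 < δ ∧ ∃ T₀ : ℝ, ∀ T : ℝ, T₀ ≤ T → ∀ H : ℝ, T ^ a ≤ H →
      δ * Zc T H ≤ Cn (fun n => gap n < 1 / (1 + a) - δ) T H ∨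
      (Cn (fun n => ∀ m : ℤ, ε < |gap n - m / (1 + a)|) T H ≤ ε * Zc T H ∧
       (1 - a - ε) * Zc T H ≤ Cn (fun n => |gap n - 1 / (1 + a)| ≤ ε) T H ∧
       PCa a ε ε T H ∧
       (2 - a - ε) * Zc T H ≤ 2 * Cn (fun n => |gap n - 1 / (1 + a)| ≤ ε) T H +
         Cn (fun n => |gap n - 2 / (1 + a)| ≤ ε) T H) := by
  obtain ⟨δ0, hδ0, T0, hD⟩ := dichotomy_full hRH ha ha1 hε
  obtain ⟨δ2, hδ2, T2, hP⟩ := pc_long_a ha ha1 hB hε hε8
  obtain ⟨δ3, hδ3, T3, hW⟩ := two_long hRH ha ha1 hε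
  have hcard : ∀ (δ : ℝ) (i j : ℕ), ((({n ∈ Finset.Ioc i j |
      gap n < 1 / (1 + a) - δ} : Finset ℕ).card : ℕ) : ℝ) =
      cn (fun n => gap n < 1 / (1 + a) - δ) i j := by
    intro δ i j
    unfold cn
    rw [← Set.ncard_coe_finset]
    congr 2
    ext n
    simp
  obtain ⟨δ, hδ⟩ : ∃ δ : ℝ, δ = min δ0 (min δ2 δ3) := ⟨_, rfl⟩
  have hδp : 0 < δ := by rw [hδ]; exact lt_min hδ0 (lt_min hδ2 hδ3)
  have hδa : δ ≤ δ0 := by rw [hδ]; exact min_le_left _ _
  have hδb : δ ≤ δ2 := by rw [hδ]; exact (min_le_right _ _).trans (min_le_left _ _)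
  have hδc : δ ≤ δ3 := by rw [hδ]; exact (min_le_right _ _).trans (min_le_right _ _)
  refine ⟨δ, hδp, max (max T0 T2) (max T3 1), fun T hT H hH => ?_⟩
  have g1 : T0 ≤ T := (le_max_left _ _).trans ((le_max_left _ _).trans hT)
  have g2 : T2 ≤ T := (le_max_right _ _).trans ((le_max_left _ _).trans hT)
  have g3 : T3 ≤ T := (le_max_left _ _).trans ((le_max_right _ _).trans hT)
  have g4 : (1:ℝ) ≤ T := (le_max_right _ _).trans ((le_max_right _ _).trans hT)
  have hpos : (1 : ℝ) ≤ T ^ a := Real.one_le_rpow g4 ha.le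
  have hZ := Zc_nonneg (T := T) (H := H) (by linarith)
  rcases le_or_gt (δ * Zc T H) (Cn (fun n => gap n < 1 / (1 + a) - δ) T H) with h | h
  · exact Or.inl h
  right
  have hsm : ∀ δ' : ℝ, δ ≤ δ' → Cn (fun n => gap n < 1 / (1 + a) - δ') T H ≤ δ' * Zc T H := by
    intro δ' h1
    have h2 : Cn (fun n => gap n < 1 / (1 + a) - δ') T H ≤
        Cn (fun n => gap n < 1 / (1 + a) - δ) T H := cn_imp _ _ (fun n hn => by linarith)
    exact h2.trans (h.le.trans (mul_le_mul_of_nonneg_right h1 hZ))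
  have hb : Cn (fun n => ∀ m : ℤ, ε < |gap n - m / (1 + a)|) T H ≤ ε * Zc T H ∧
       (1 - a - ε) * Zc T H ≤ Cn (fun n => |gap n - 1 / (1 + a)| ≤ ε) T H := by
    rcases hD T g1 H hH with h1 | h1
    · exfalso
      rw [hcard] at h1
      have h2 : Cn (fun n => gap n < 1 / (1 + a) - δ0) T H ≤
          Cn (fun n => gap n < 1 / (1 + a) - δ) T H := cn_imp _ _ (fun n hn => by linarith)
      have h3 : δ * Zc T H ≤ δ0 * Zc T H := mul_le_mul_of_nonneg_right hδa hZ
      have h4 : δ0 * Zc T H ≤ Cn (fun n => gap n < 1 / (1 + a) - δ0) T H := h1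
      linarith
    · exact h1
  exact ⟨hb.1, hb.2, hP T g2 H hH (hsm _ hδb), hW T g3 H hH (hsm _ hδc)⟩

end Pool.Agent.AHP
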