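import Pool.Agent.AHP.LongA

/-!
# The dichotomy with sharp bounds for the whole pair correlation, every exponent
-/

namespace Pool.Agent.AHP

open Real Set Pool.Agent.ZetaGaps Pool.Agent.AHW

/-- `n` has a later point at distance about `k / (1 + a)`. -/
def PairAt (a ε : ℝ) (k n : ℕ) : Prop :=
  ∃ m, n < m ∧ |normOrdinate m - normOrdinate n - k / (1 + a)| ≤ ε

/-- `m` and `M` are bounds for `cos (π k v)` on the unknown arc. -/
def ArcBd (a : ℝ) (k : ℕ) (m M : ℝ) : Prop :=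
  ∀ v : ℝ, 2 * a / (1 + a) ≤ v → v ≤ 1 → m ≤ Real.cos (π * k * v) ∧ Real.cos (π * k * v) ≤ M

/-- The two bounds for a property. -/
def Between (a κ : ℝ) (k : ℕ) (m M : ℝ) (Q : ℕ → Prop) (T H : ℝ) : Prop :=
  (ck a k + a * (1 - a) * m - κ) * Zc T H ≤ (1 + a) * Cn Q T H ∧
    (1 + a) * Cn Q T H ≤ (ck a k + a * (1 - a) * M + κ) * Zc T H

/-- The sharp pair correlation clauses for one window. -/
def PCb (a ε κ T H : ℝ) : Prop :=
  ∀ k : ℕ, 1 ≤ k → k * ε ≤ 1 → ∀ m M : ℝ, ArcBd a k m M →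
    Between a κ k m M (PairAt a ε k) T H ∧
    (k = 1 → Between a κ 1 m M (fun n => |gap n - 1 / (1 + a)| ≤ ε) T H)

/-- The block theorem, as a hypothesis. -/
def BlockPCb (a : ℝ) : Prop := ∀ ε κ : ℝ, 0 < ε → ε ≤ 1 / 8 → 0 < κ → ∃ δ : ℝ, 0 < δ ∧
  ∃ T0 : ℝ, ∀ T : ℝ, T0 ≤ T → ∀ H : ℝ, T ^ a ≤ H → H ≤ 3 * T →
    Cn (fun n => gap n < 1 / (1 + a) - δ) T H ≤ δ * Zc T H → PCb a ε κ T H

lemma between_mono {a κ : ℝ} {k : ℕ} {m m' M M' : ℝ} {Q : ℕ → Prop} {T H : ℝ} (ha : 0 < a)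
    (ha1 : a ≤ 1) (hH : 0 ≤ H) (hm : m ≤ m') (hM : M' ≤ M) (h : Between a κ k m' M' Q T H) :
    Between a κ k m M Q T H := by
  have haa : 0 ≤ a * (1 - a) := mul_nonneg ha.le (by linarith)
  have hZ := Zc_nonneg (T := T) hH
  have h1 := mul_le_mul_of_nonneg_left hm haa
  have h2 := mul_le_mul_of_nonneg_left hM haa
  exact ⟨(mul_le_mul_of_nonneg_right (by linarith) hZ).trans h.1,
    h.2.trans (mul_le_mul_of_nonneg_right (by linarith) hZ)⟩

/-- The block theorem for `a = 1`. -/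
theorem blockPCb_one (hRH : RiemannHypothesis) : BlockPCb 1 := by
  intro ε κ hε hε8 hκ
  obtain ⟨δ, hδ, T0, h⟩ := block hRH hε hε8 (half_pos hκ)
  have e2 : (1:ℝ) / (1 + 1) = 1 / 2 := by norm_num
  refine ⟨δ, hδ, T0, fun T hT H hH hH3 hP => ?_⟩
  rw [Real.rpow_one] at hH
  rw [e2] at hP
  obtain ⟨h1, h2⟩ := h T hT H hH hH3 hP
  have c1 : ck 1 1 = 2 * (1 / 2 - 2 / π ^ 2) := by
    rw [ck_one le_rfl]
    unfold rho
    push_cast
    ring
  have h1' := abs_le.mp h1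
  intro k hk hkε m M _
  constructor
  · have h3 := abs_le.mp (h2 k hk hkε)
    have e3 : ((k : ℝ)) / (1 + 1) = k / 2 := by norm_num
    unfold Between PairAt
    rw [ck_one hk, e3]
    unfold Cn Zc rho
    constructor
    · linarith [h3.1]
    · linarith [h3.2]
  · intro _
    unfold Between
    rw [c1, e2]
    unfold Cn Zc
    constructor
    · linarith [h1'.1]
    · linarith [h1'.2]

/-- Gluing of the two bounds. -/
lemma long_between {P Q : ℕ → Prop} {a κ δ T0 m M : ℝ} {k : ℕ} (ha : 0 < a) (ha1 : a ≤ 1)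
    (hκ : 0 < κ) (hκ1 : κ ≤ 1) (hδ : 0 < δ) (hT1 : 1 ≤ T0) (hm1 : -1 ≤ m) (hm2 : m ≤ 1)
    (hM1 : -1 ≤ M) (hM2 : M ≤ 1)
    (hb : ∀ T, T0 ≤ T → ∀ H, T ^ a ≤ H → H ≤ 3 * T ^ a → Cn P T H ≤ δ * Zc T H →
      Between a κ k m M Q T H)
    (T : ℝ) (hT : T0 ≤ T) (H : ℝ) (hH : T ^ a ≤ H) (hP : 6 / δ * Cn P T H ≤ κ * Zc T H) :
    Between a (2 * κ) k m M Q T H := by
  have haa : 0 ≤ a * (1 - a) := mul_nonneg ha.le (by linarith)
  have haa1 : a * (1 - a) ≤ 1 := by nlinarith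
  have hck := abs_le.mp (ck_abs ha k)
  have hck2 : a ^ 2 ≤ 1 := by nlinarith
  have hs1 : |1 + a| ≤ 2 := by rw [abs_of_pos (by linarith)]; linarith
  have hs2 : |-(1 + a)| ≤ 2 := by rw [abs_neg]; exact hs1
  have hx : ∀ x : ℝ, -1 ≤ x → x ≤ 1 → |a * (1 - a) * x| ≤ 1 := by
    intro x h1 h2
    rw [abs_mul, abs_of_nonneg haa]
    calc a * (1 - a) * |x| ≤ 1 * 1 :=
          mul_le_mul haa1 (abs_le.mpr ⟨h1, h2⟩) (abs_nonneg _) (by norm_num)
      _ = 1 := by ring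
  have hm3 := abs_le.mp (hx m hm1 hm2)
  have hM3 := abs_le.mp (hx M hM1 hM2)
  constructor
  · have h := long_one (P := P) (Q := Q) (s := -(1 + a))
      (c := -(ck a k + a * (1 - a) * m - κ)) (M := 6) ha ha1 hδ (by
        have : |-(ck a k + a * (1 - a) * m - κ)| ≤ 4 := by
          rw [abs_le]
          constructor <;> linarith [hck.1, hck.2, hm3.1, hm3.2]
        linarith) hT1
      (fun T hT H h1 h2 h3 => by
        have := (hb T hT H h1 h2 h3).1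
        linarith) T hT H hH
    linarith
  · have h := long_one (P := P) (Q := Q) (s := 1 + a)
      (c := ck a k + a * (1 - a) * M + κ) (M := 6) ha ha1 hδ (by
        have : |ck a k + a * (1 - a) * M + κ| ≤ 4 := by
          rw [abs_le]
          constructor <;> linarith [hck.1, hck.2, hM3.1, hM3.2]
        linarith) hT1
      (fun T hT H h1 h2 h3 => (hb T hT H h1 h2 h3).2) T hT H hH
    linarith

/-- The pair correlation in long intervals. -/
theorem pc_long_b {a : ℝ} (ha : 0 < a) (ha1 : a ≤ 1) (hB : BlockPCb a) {ε : ℝ} (hε : 0 < ε)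
    (hε8 : ε ≤ 1 / 8) : ∃ δ : ℝ, 0 < δ ∧ ∃ T0 : ℝ, ∀ T : ℝ, T0 ≤ T →
    ∀ H : ℝ, T ^ a ≤ H → Cn (fun n => gap n < 1 / (1 + a) - δ) T H ≤ δ * Zc T H →
      PCb a ε ε T H := by
  obtain ⟨δ1, hδ1, T1, hb⟩ := hB ε (ε / 2) hε hε8 (half_pos hε)
  obtain ⟨δ, hδ⟩ : ∃ δ : ℝ, δ = min δ1 (δ1 * (ε / 12)) := ⟨_, rfl⟩
  have hδ0 : 0 < δ := by rw [hδ]; positivity
  have hδa : δ ≤ δ1 := by rw [hδ]; exact min_le_left _ _
  have hδb : δ ≤ δ1 * (ε / 12) := by rw [hδ]; exact min_le_right _ _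
  have hb' : ∀ T, max T1 1 ≤ T → ∀ H, T ^ a ≤ H → H ≤ 3 * T ^ a →
      Cn (fun n => gap n < 1 / (1 + a) - δ1) T H ≤ δ1 * Zc T H → PCb a ε (ε / 2) T H := by
    intro T hT H hH hH3 hP
    have hT1 : (1:ℝ) ≤ T := (le_max_right _ _).trans hT
    have hTT : T ^ a ≤ T := by
      have := Real.rpow_le_rpow_of_exponent_le hT1 ha1
      rwa [Real.rpow_one] at this
    exact hb T ((le_max_left _ _).trans hT) H hH (by linarith) hP
  refine ⟨δ, hδ0, max T1 1, fun T hT H hH hP => ?_⟩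
  have hT1 : (1:ℝ) ≤ T := (le_max_right _ _).trans hT
  have hp : (1:ℝ) ≤ T ^ a := Real.one_le_rpow hT1 ha.le
  have hH0 : 0 ≤ H := by linarith
  have hZ := Zc_nonneg (T := T) hH0
  have hP1 : 6 / δ1 * Cn (fun n => gap n < 1 / (1 + a) - δ1) T H ≤ ε / 2 * Zc T H := by
    have h1 : Cn (fun n => gap n < 1 / (1 + a) - δ1) T H ≤
        Cn (fun n => gap n < 1 / (1 + a) - δ) T H := cn_imp _ _ fun n hn => by linarith
    have h2 : Cn (fun n => gap n < 1 / (1 + a) - δ1) T H ≤ δ1 * (ε / 12) * Zc T H :=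
      h1.trans (hP.trans (mul_le_mul_of_nonneg_right hδb hZ))
    rw [div_mul_eq_mul_div, div_le_iff₀ hδ1]
    linarith
  intro k hk hkε m M hA
  -- bounds in `[-1, 1]`
  have hv1 : 2 * a / (1 + a) ≤ 1 := by
    rw [div_le_one (by linarith)]; linarith
  obtain ⟨m', hm'⟩ : ∃ m' : ℝ, m' = max m (-1) := ⟨_, rfl⟩
  obtain ⟨M', hM'⟩ : ∃ M' : ℝ, M' = min M 1 := ⟨_, rfl⟩
  have hA' : ArcBd a k m' M' := by
    intro v h1 h2
    have h3 := hA v h1 h2
    rw [hm', hM']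
    exact ⟨max_le h3.1 (Real.neg_one_le_cos _), le_min h3.2 (Real.cos_le_one _)⟩
  have hA1 := hA' 1 hv1 le_rfl
  have q1 : -1 ≤ m' := by rw [hm']; exact le_max_right _ _
  have q2 : m' ≤ 1 := hA1.1.trans (Real.cos_le_one _)
  have q3 : -1 ≤ M' := (Real.neg_one_le_cos _).trans hA1.2
  have q4 : M' ≤ 1 := by rw [hM']; exact min_le_right _ _
  have q5 : m ≤ m' := by rw [hm']; exact le_max_left _ _
  have q6 : M' ≤ M := by rw [hM']; exact min_le_left _ _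
  have e : 2 * (ε / 2) = ε := by ring
  constructor
  · have h := long_between (P := fun n => gap n < 1 / (1 + a) - δ1) (Q := PairAt a ε k)
      (κ := ε / 2) (k := k) (m := m') (M := M') ha ha1 (half_pos hε) (by linarith) hδ1
      (le_max_right T1 1) q1 q2 q3 q4
      (fun T hT H h1 h2 h3 => (hb' T hT H h1 h2 h3 k hk hkε m' M' hA').1) T hT H hH hP1
    rw [e] at h
    exact between_mono ha ha1 hH0 q5 q6 h
  · intro hk1
    have h := long_between (P := fun n => gap n < 1 / (1 + a) - δ1)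
      (Q := fun n => |gap n - 1 / (1 + a)| ≤ ε) (κ := ε / 2) (k := 1) (m := m') (M := M')
      ha ha1 (half_pos hε) (by linarith) hδ1 (le_max_right T1 1) q1 q2 q3 q4
      (fun T hT H h1 h2 h3 => (hb' T hT H h1 h2 h3 k hk hkε m' M' hA').2 hk1) T hT H hH hP1
    rw [e] at h
    exact between_mono ha ha1 hH0 q5 q6 h

/-- **The dichotomy with sharp bounds for the pair correlation**, every exponent. -/
theorem dichotomy_all_b (hRH : RiemannHypothesis) {a ε : ℝ} (ha : 0 < a) (ha1 : a ≤ 1)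
    (hε : 0 < ε) (hε8 : ε ≤ 1 / 8) (hB : BlockPCb a) :
    ∃ δ : ℝ, 0 < δ ∧ ∃ T₀ : ℝ, ∀ T : ℝ, T₀ ≤ T → ∀ H : ℝ, T ^ a ≤ H →
      δ * Zc T H ≤ Cn (fun n => gap n < 1 / (1 + a) - δ) T H ∨
      (Cn (fun n => ∀ m : ℤ, ε < |gap n - m / (1 + a)|) T H ≤ ε * Zc T H ∧
       (1 - a - ε) * Zc T H ≤ Cn (fun n => |gap n - 1 / (1 + a)| ≤ ε) T H ∧
       (2 - a - ε) * Zc T H ≤ 2 * Cn (fun n => |gap n - 1 / (1 + a)| ≤ ε) T H +
         Cn (fun n => |gap n - 2 / (1 + a)| ≤ ε) T H ∧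
       PCb a ε ε T H) := by
  obtain ⟨δ0, hδ0, T0, hD⟩ := dichotomy_full hRH ha ha1 hε
  obtain ⟨δ2, hδ2, T2, hP⟩ := pc_long_b ha ha1 hB hε hε8
  obtain ⟨δ3, hδ3, T3, hW⟩ := two_long hRH ha ha1 hε
  have hcard : ∀ (δ : ℝ) (i j : ℕ), ((({n ∈ Finset.Ioc i j |
      gap n < 1 / (1 + a) - δ} : Finset ℕ).card : ℕ) : ℝ) =
      cn (fun n => gap n < 1 / (1 + a) - δ) i j := by
    intro δ i j
    unfold cn
    rw [← Set.ncard_coe_finset]
    congr 2
    ext n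
    simp
  obtain ⟨δ, hδ⟩ : ∃ δ : ℝ, δ = min δ0 (min δ2 δ3) := ⟨_, rfl⟩
  have hδp : 0 < δ := by rw [hδ]; exact lt_min hδ0 (lt_min hδ2 hδ3)
  have hδa : δ ≤ δ0 := by rw [hδ]; exact min_le_left _ _
  have hδb : δ ≤ δ2 := by rw [hδ]; exact (min_le_right _ _).trans (min_le_left _ _)
  have hδc : δ ≤ δ3 := by rw [hδ]; exact (min_le_right _ _).trans (min_le_right _ _)
  refine ⟨δ, hδp, max (max T0 T2) (max T3 1), fun T hT H hH => ?_⟩
  have g1 : T0 ≤ T := (le_max_left _ _).trans ((le_max_left _ _).trans hT)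
  have g2 : T2 ≤ T := (le_max_right _ _).trans ((le_max_left _ _).trans hT)
  have g3 : T3 ≤ T := (le_max_left _ _).trans ((le_max_right _ _).trans hT)
  have g4 : (1:ℝ) ≤ T := (le_max_right _ _).trans ((le_max_right _ _).trans hT)
  have hpos : (1 : ℝ) ≤ T ^ a := Real.one_le_rpow g4 ha.le
  have hZ := Zc_nonneg (T := T) (H := H) (by linarith)
  rcases le_or_gt (δ * Zc T H) (Cn (fun n => gap n < 1 / (1 + a) - δ) T H) with h | h
  · exact Or.inl h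
  right
  have hsm : ∀ δ' : ℝ, δ ≤ δ' → Cn (fun n => gap n < 1 / (1 + a) - δ') T H ≤ δ' * Zc T H := by
    intro δ' h1
    have h2 : Cn (fun n => gap n < 1 / (1 + a) - δ') T H ≤
        Cn (fun n => gap n < 1 / (1 + a) - δ) T H := cn_imp _ _ (fun n hn => by linarith)
    exact h2.trans (h.le.trans (mul_le_mul_of_nonneg_right h1 hZ))
  have hb : Cn (fun n => ∀ m : ℤ, ε < |gap n - m / (1 + a)|) T H ≤ ε * Zc T H ∧
       (1 - a - ε) * Zc T H ≤ Cn (fun n => |gap n - 1 / (1 + a)| ≤ ε) T H := by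
    rcases hD T g1 H hH with h1 | h1
    · exfalso
      rw [hcard] at h1
      have h2 : Cn (fun n => gap n < 1 / (1 + a) - δ0) T H ≤
          Cn (fun n => gap n < 1 / (1 + a) - δ) T H := cn_imp _ _ (fun n hn => by linarith)
      have h3 : δ * Zc T H ≤ δ0 * Zc T H := mul_le_mul_of_nonneg_right hδa hZ
      have h4 : δ0 * Zc T H ≤ Cn (fun n => gap n < 1 / (1 + a) - δ0) T H := h1
      linarith
    · exact h1
  exact ⟨hb.1, hb.2, hW T g3 H hH (hsm _ hδc), hP T g2 H hH (hsm _ hδb)⟩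

end Pool.Agent.AHP
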