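import Pool.Agent.AHP.LongB

/-!
# The dichotomy with the pair correlation, every exponent: explicit bounds
-/

namespace Pool.Agent.AHP

open Real Set Pool.Agent.ZetaGaps Pool.Agent.AHW

/-- The extreme value of `(-1)^k cos (π k v)` on the unknown arc. -/
noncomputable def EC (a : ℝ) (k : ℕ) : ℝ := Real.cos (π * min 1 (k * (1 - a) / (1 + a)))

lemma arc_cos {a : ℝ} (ha : 0 < a) (k : ℕ) {v : ℝ} (h0 : 2 * a / (1 + a) ≤ v)
    (h1 : v ≤ 1) : EC a k ≤ (-1) ^ k * Real.cos (π * k * v) ∧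
      (-1) ^ k * Real.cos (π * k * v) ≤ 1 := by
  have hpi := Real.pi_pos
  have h1a : 0 < 1 + a := by linarith
  have hk : (0:ℝ) ≤ k := Nat.cast_nonneg k
  have e1 : (-1) ^ k * Real.cos (π * k * v) = Real.cos (π * (k * (1 - v))) := by
    have e2 : π * (k * (1 - v)) = k * π - π * k * v := by ring
    rw [e2, Real.cos_nat_mul_pi_sub]
  rw [e1]
  refine ⟨?_, Real.cos_le_one _⟩
  have h2 : 1 - v ≤ (1 - a) / (1 + a) := by
    rw [le_div_iff₀ h1a]
    rw [div_le_iff₀ h1a] at h0
    linarith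
  have h3 : k * (1 - v) ≤ k * (1 - a) / (1 + a) := by
    rw [mul_div_assoc]
    exact mul_le_mul_of_nonneg_left h2 hk
  unfold EC
  rcases le_total (k * (1 - a) / (1 + a)) 1 with h | h
  · rw [min_eq_right h]
    apply Real.cos_le_cos_of_nonneg_of_le_pi
    · have : 0 ≤ k * (1 - v) := mul_nonneg hk (by linarith)
      positivity
    · nlinarith
    · exact mul_le_mul_of_nonneg_left h3 hpi.le
  · rw [min_eq_left h, mul_one, Real.cos_pi]
    exact Real.neg_one_le_cos _

/-- The pair correlation clauses for one window, explicit form. -/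
def PCc (a ε κ T H : ℝ) : Prop :=
  ∀ k : ℕ, 1 ≤ k → k * ε ≤ 1 → ∀ Q : ℕ → Prop,
    (Q = PairAt a ε k ∨ (k = 1 ∧ Q = fun n => |gap n - 1 / (1 + a)| ≤ ε)) →
    -κ * Zc T H ≤ a * (1 - a) * Zc T H + (-1) ^ k * (ck a k * Zc T H - (1 + a) * Cn Q T H) ∧
    a * (1 - a) * Zc T H + (-1) ^ k * (ck a k * Zc T H - (1 + a) * Cn Q T H) ≤
      (a * (1 - a) * (1 - EC a k) + κ) * Zc T H

theorem pcc_of_pcb {a ε κ T H : ℝ} (ha : 0 < a) (h : PCb a ε κ T H) : PCc a ε κ T H := by
  intro k hk hkε Q hQ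
  rcases Nat.even_or_odd k with he | ho
  · have s1 : (-1:ℝ) ^ k = 1 := he.neg_one_pow
    have hA : ArcBd a k (EC a k) 1 := by
      intro v h0 h1
      have := arc_cos ha k h0 h1
      rw [s1, one_mul] at this
      exact this
    have hb : Between a κ k (EC a k) 1 Q T H := by
      obtain ⟨b1, b2⟩ := h k hk hkε _ _ hA
      rcases hQ with rfl | ⟨rfl, rfl⟩
      · exact b1
      · exact b2 rfl
    obtain ⟨b1, b2⟩ := hb
    rw [s1]
    constructor <;> linarith
  · have s1 : (-1:ℝ) ^ k = -1 := ho.neg_one_pow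
    have hA : ArcBd a k (-1) (-EC a k) := by
      intro v h0 h1
      have := arc_cos ha k h0 h1
      rw [s1] at this
      constructor <;> linarith [this.1, this.2]
    have hb : Between a κ k (-1) (-EC a k) Q T H := by
      obtain ⟨b1, b2⟩ := h k hk hkε _ _ hA
      rcases hQ with rfl | ⟨rfl, rfl⟩
      · exact b1
      · exact b2 rfl
    obtain ⟨b1, b2⟩ := hb
    rw [s1]
    constructor <;> linarith

end Pool.Agent.AHP
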