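import Pool.Agent.ZGap.Gen.Eval
import Pool.Agent.ZGap.NonLattice.B

/-!
# Mean values of products of real Dirichlet polynomials
-/

namespace Pool.Agent.AHP

open MeasureTheory Real Finset ArithmeticFunction
open Pool.Agent.ZGap.Gen Pool.Agent.DirPoly

/-- `∑ a_n n^{-it}`, real coefficients. -/
noncomputable def dp (a : ℕ → ℝ) (N : ℕ) (t : ℝ) : ℂ :=
  ∑ n ∈ Icc 1 N, ((a n : ℝ) : ℂ) * (n : ℂ) ^ (-(t * Complex.I) : ℂ)

lemma cpow_exp {n : ℕ} (hn : 1 ≤ n) (t : ℝ) : (n : ℂ) ^ (-(t * Complex.I) : ℂ) =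
    Complex.exp (((-(Real.log n) : ℝ) : ℂ) * Complex.I * t) := by
  have hn0 : (n : ℂ) ≠ 0 := by exact_mod_cast (by omega : n ≠ 0)
  rw [Complex.cpow_def_of_ne_zero hn0, ← Complex.natCast_log]
  congr 1
  push_cast
  ring

lemma dp_continuous (a : ℕ → ℝ) (N : ℕ) : Continuous (dp a N) := by
  unfold dp
  refine continuous_finsetSum _ fun n hn => ?_
  rw [mem_Icc] at hn
  have hn0 : (n : ℂ) ≠ 0 := by exact_mod_cast (by omega : n ≠ 0)
  exact continuous_const.mul (Continuous.const_cpow (by fun_prop) (Or.inl hn0))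

lemma int_exp_le {θ : ℝ} (hθ : θ ≠ 0) (a b : ℝ) :
    ‖∫ t in a..b, Complex.exp ((θ : ℂ) * Complex.I * t)‖ ≤ 2 / |θ| := by
  have hc : (θ : ℂ) * Complex.I ≠ 0 := mul_ne_zero (by exact_mod_cast hθ) Complex.I_ne_zero
  rw [integral_exp_mul_complex hc, norm_div]
  have h3 : ∀ x : ℝ, ‖Complex.exp ((θ : ℂ) * Complex.I * x)‖ = 1 := by
    intro x
    have : (θ : ℂ) * Complex.I * x = ((θ * x : ℝ) : ℂ) * Complex.I := by push_cast; ring
    rw [this, Complex.norm_exp_ofReal_mul_I]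
  have h2 : ‖Complex.exp ((θ : ℂ) * Complex.I * b) - Complex.exp ((θ : ℂ) * Complex.I * a)‖ ≤ 2 :=
    calc _ ≤ ‖Complex.exp ((θ : ℂ) * Complex.I * b)‖ + ‖Complex.exp ((θ : ℂ) * Complex.I * a)‖ :=
          norm_sub_le _ _
      _ = 2 := by rw [h3, h3]; norm_num
  have h4 : ‖(θ : ℂ) * Complex.I‖ = |θ| := by
    rw [norm_mul, Complex.norm_I, mul_one, Complex.norm_real, Real.norm_eq_abs]
  rw [h4]
  exact div_le_div_of_nonneg_right h2 (abs_nonneg _)

lemma log_ge {n : ℕ} (hn : 2 ≤ n) : 2 / 3 ≤ Real.log n := by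
  have h1 : Real.log 2 ≤ Real.log n := Real.log_le_log (by norm_num) (by exact_mod_cast hn)
  linarith [Real.log_two_gt_d9]

/-- The integral of a Dirichlet polynomial. -/
lemma int_dp {a : ℕ → ℝ} (ha : a 1 = 0) (N : ℕ) (w v : ℝ) :
    ‖∫ t in w..v, dp a N t‖ ≤ 3 * ∑ n ∈ Icc 1 N, |a n| := by
  unfold dp
  rw [intervalIntegral.integral_finsetSum]
  · rw [Finset.mul_sum]
    refine (norm_sum_le _ _).trans (Finset.sum_le_sum fun n hn => ?_)
    rw [mem_Icc] at hn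
    rw [intervalIntegral.integral_const_mul, norm_mul, Complex.norm_real, Real.norm_eq_abs]
    rcases Nat.lt_or_ge n 2 with h | h
    · have : n = 1 := by omega
      rw [this, ha]
      simp
    · have h1 : ∀ t : ℝ, (n : ℂ) ^ (-(t * Complex.I) : ℂ) =
          Complex.exp (((-(Real.log n) : ℝ) : ℂ) * Complex.I * t) := fun t => cpow_exp hn.1 t
      simp only [h1]
      have h2 := log_ge h
      have h3 := int_exp_le (θ := -(Real.log n)) (by linarith) w v
      rw [abs_neg, abs_of_pos (by linarith : 0 < Real.log n)] at h3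
      have h4 : 2 / Real.log n ≤ 3 := by
        rw [div_le_iff₀ (by linarith)]
        linarith
      rw [mul_comm]
      exact mul_le_mul_of_nonneg_right (h3.trans h4) (abs_nonneg _)
  · intro n hn
    rw [mem_Icc] at hn
    have hn0 : (n : ℂ) ≠ 0 := by exact_mod_cast (by omega : n ≠ 0)
    exact (continuous_const.mul
      (Continuous.const_cpow (by fun_prop) (Or.inl hn0))).intervalIntegrable _ _

/-- The integral of a product of Dirichlet polynomials. -/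
lemma int_dp_mul {a a' : ℕ → ℝ} (ha : a 1 = 0) (ha' : a' 1 = 0) (N : ℕ) (w v : ℝ) :
    ‖∫ t in w..v, dp a N t * dp a' N t‖ ≤
      2 * ((∑ n ∈ Icc 1 N, |a n|) * ∑ n ∈ Icc 1 N, |a' n|) := by
  have h0 : ∀ t : ℝ, dp a N t * dp a' N t = ∑ m ∈ Icc 1 N, ∑ n ∈ Icc 1 N,
      (((a m : ℝ) : ℂ) * ((a' n : ℝ) : ℂ)) *
        ((m : ℂ) ^ (-(t * Complex.I) : ℂ) * (n : ℂ) ^ (-(t * Complex.I) : ℂ)) := by
    intro t
    unfold dp
    rw [Finset.sum_mul_sum]
    refine Finset.sum_congr rfl fun m _ => Finset.sum_congr rfl fun n _ => ?_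
    ring
  have hc : ∀ m ∈ Icc 1 N, ∀ n ∈ Icc 1 N, Continuous (fun t : ℝ =>
      (((a m : ℝ) : ℂ) * ((a' n : ℝ) : ℂ)) *
        ((m : ℂ) ^ (-(t * Complex.I) : ℂ) * (n : ℂ) ^ (-(t * Complex.I) : ℂ))) := by
    intro m hm n hn
    rw [mem_Icc] at hm hn
    have hn0 : (n : ℂ) ≠ 0 := by exact_mod_cast (by omega : n ≠ 0)
    have hm0 : (m : ℂ) ≠ 0 := by exact_mod_cast (by omega : m ≠ 0)
    exact continuous_const.mul ((Continuous.const_cpow (by fun_prop) (Or.inl hm0)).mul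
      (Continuous.const_cpow (by fun_prop) (Or.inl hn0)))
  simp only [h0]
  rw [intervalIntegral.integral_finsetSum]
  · rw [Finset.sum_mul_sum, Finset.mul_sum]
    refine (norm_sum_le _ _).trans (Finset.sum_le_sum fun m hm => ?_)
    rw [intervalIntegral.integral_finsetSum]
    · rw [Finset.mul_sum]
      refine (norm_sum_le _ _).trans (Finset.sum_le_sum fun n hn => ?_)
      rw [mem_Icc] at hm hn
      rw [intervalIntegral.integral_const_mul, norm_mul, norm_mul, Complex.norm_real,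
        Complex.norm_real, Real.norm_eq_abs, Real.norm_eq_abs]
      rcases Nat.lt_or_ge m 2 with h | h
      · have : m = 1 := by omega
        rw [this, ha]
        simp
      rcases Nat.lt_or_ge n 2 with h' | h'
      · have : n = 1 := by omega
        rw [this, ha']
        simp
      have h1 : ∀ t : ℝ, (m : ℂ) ^ (-(t * Complex.I) : ℂ) * (n : ℂ) ^ (-(t * Complex.I) : ℂ) =
          Complex.exp (((-(Real.log m + Real.log n) : ℝ) : ℂ) * Complex.I * t) := by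
        intro t
        rw [cpow_exp hm.1 t, cpow_exp hn.1 t, ← Complex.exp_add]
        congr 1
        push_cast
        ring
      simp only [h1]
      have h2 := log_ge h
      have h2' := log_ge h'
      have h3 := int_exp_le (θ := -(Real.log m + Real.log n)) (by linarith) w v
      rw [abs_neg, abs_of_pos (by linarith : 0 < Real.log m + Real.log n)] at h3
      have h4 : 2 / (Real.log m + Real.log n) ≤ 2 := by
        rw [div_le_iff₀ (by linarith)]
        linarith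
      rw [mul_comm]
      exact mul_le_mul_of_nonneg_right (h3.trans h4) (by positivity)
    · intro n hn
      exact (hc m hm n hn).intervalIntegrable _ _
  · intro m hm
    exact (continuous_finsetSum _ fun n hn => hc m hm n hn).intervalIntegrable _ _

lemma sum_abs_le (a : ℕ → ℝ) (N : ℕ) :
    ∑ n ∈ Icc 1 N, |a n| ≤ N + ∑ n ∈ Icc 1 N, a n ^ 2 := by
  have h1 : ∑ n ∈ Icc 1 N, |a n| ≤ ∑ n ∈ Icc 1 N, (1 + a n ^ 2) := by
    refine Finset.sum_le_sum fun n _ => ?_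
    have h2 := sq_nonneg (|a n| - 1)
    have h3 := sq_abs (a n)
    nlinarith [sq_nonneg (a n)]
  refine h1.trans (le_of_eq ?_)
  rw [Finset.sum_add_distrib]
  simp

lemma sum_abs_mul_le (a a' : ℕ → ℝ) (N : ℕ) :
    (∑ n ∈ Icc 1 N, |a n|) * ∑ n ∈ Icc 1 N, |a' n| ≤
      N * ((∑ n ∈ Icc 1 N, a n ^ 2) + ∑ n ∈ Icc 1 N, a' n ^ 2) := by
  have h1 : ∀ c : ℕ → ℝ, (∑ n ∈ Icc 1 N, |c n|) ^ 2 ≤ N * ∑ n ∈ Icc 1 N, c n ^ 2 := by
    intro c
    have h2 := sq_sum_le_card_mul_sum_sq (s := Icc 1 N) (f := fun n => |c n|)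
    simp only [sq_abs, Nat.card_Icc, Nat.add_sub_cancel] at h2
    exact h2
  have h2 := h1 a
  have h3 := h1 a'
  nlinarith [sq_nonneg ((∑ n ∈ Icc 1 N, |a n|) - ∑ n ∈ Icc 1 N, |a' n|),
    sq_nonneg (∑ n ∈ Icc 1 N, |a n|), sq_nonneg (∑ n ∈ Icc 1 N, |a' n|)]

/-- Mean square. -/
lemma mean_dp {N : ℕ} (hN : 1 ≤ N) (a : ℕ → ℝ) (w v : ℝ) :
    |(∫ t in w..v, ‖dp a N t‖ ^ 2) - (v - w) * ∑ n ∈ Icc 1 N, a n ^ 2| ≤
      4 * N * (1 + Real.log N) * ∑ n ∈ Icc 1 N, a n ^ 2 := by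
  have h := Pool.Agent.NonLattice.mean_value hN (fun n => ((a n : ℝ) : ℂ)) w v
  simp only [Complex.norm_real, Real.norm_eq_abs, sq_abs] at h
  exact h

/-- The product of the real parts. -/
lemma re_mul_re (z z' : ℂ) : z.re * z'.re =
    (z * z').re / 2 + (‖z + z'‖ ^ 2 - ‖z - z'‖ ^ 2) / 8 := by
  rw [← Complex.normSq_eq_norm_sq, ← Complex.normSq_eq_norm_sq, Complex.normSq_apply,
    Complex.normSq_apply]
  simp only [Complex.mul_re, Complex.add_re, Complex.add_im, Complex.sub_re, Complex.sub_im]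
  ring

lemma dp_add (a a' : ℕ → ℝ) (N : ℕ) (t : ℝ) :
    dp a N t + dp a' N t = dp (fun n => a n + a' n) N t := by
  unfold dp
  rw [← Finset.sum_add_distrib]
  refine Finset.sum_congr rfl fun n _ => ?_
  push_cast
  ring

lemma dp_sub (a a' : ℕ → ℝ) (N : ℕ) (t : ℝ) :
    dp a N t - dp a' N t = dp (fun n => a n - a' n) N t := by
  unfold dp
  rw [← Finset.sum_sub_distrib]
  refine Finset.sum_congr rfl fun n _ => ?_
  push_cast
  ring

/-- The mean value of the product of the real parts. -/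
lemma mean_re {N : ℕ} (hN : 1 ≤ N) {a a' : ℕ → ℝ} (ha : a 1 = 0) (ha' : a' 1 = 0) (w v : ℝ) :
    |(∫ t in w..v, (dp a N t).re * (dp a' N t).re) -
      (v - w) / 2 * ∑ n ∈ Icc 1 N, a n * a' n| ≤
      4 * N * (1 + Real.log N) * ((∑ n ∈ Icc 1 N, a n ^ 2) + ∑ n ∈ Icc 1 N, a' n ^ 2) := by
  have hca := dp_continuous a N
  have hca' := dp_continuous a' N
  have e1 : ∀ t : ℝ, (dp a N t).re * (dp a' N t).re = (dp a N t * dp a' N t).re / 2 +
      (‖dp (fun n => a n + a' n) N t‖ ^ 2 - ‖dp (fun n => a n - a' n) N t‖ ^ 2) / 8 := by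
    intro t
    rw [re_mul_re, dp_add, dp_sub]
  have hcp := dp_continuous (fun n => a n + a' n) N
  have hcm := dp_continuous (fun n => a n - a' n) N
  have e2 : (∫ t in w..v, (dp a N t).re * (dp a' N t).re) =
      (∫ t in w..v, dp a N t * dp a' N t).re / 2 +
      ((∫ t in w..v, ‖dp (fun n => a n + a' n) N t‖ ^ 2) -
        ∫ t in w..v, ‖dp (fun n => a n - a' n) N t‖ ^ 2) / 8 := by
    simp only [e1]
    rw [intervalIntegral.integral_add, intervalIntegral.integral_div,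
      intervalIntegral.integral_div, intervalIntegral.integral_sub]
    · congr 2
      exact Complex.reCLM.intervalIntegral_comp_comm (μ := volume) (a := w) (b := v)
        ((hca.mul hca').intervalIntegrable _ _)
    · exact (by fun_prop : Continuous _).intervalIntegrable _ _
    · exact (by fun_prop : Continuous _).intervalIntegrable _ _
    · exact ((Complex.continuous_re.comp (hca.mul hca')).div_const _).intervalIntegrable _ _
    · exact (by fun_prop : Continuous _).intervalIntegrable _ _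
  have h1 := mean_dp hN (fun n => a n + a' n) w v
  have h2 := mean_dp hN (fun n => a n - a' n) w v
  have h3 := (int_dp_mul ha ha' N w v).trans
    (mul_le_mul_of_nonneg_left (sum_abs_mul_le a a' N) (by norm_num))
  have h4 := (Complex.abs_re_le_norm (∫ t in w..v, dp a N t * dp a' N t)).trans h3
  have s1 : ∑ n ∈ Icc 1 N, (a n + a' n) ^ 2 = (∑ n ∈ Icc 1 N, a n ^ 2) +
      (∑ n ∈ Icc 1 N, a' n ^ 2) + 2 * ∑ n ∈ Icc 1 N, a n * a' n := by
    rw [Finset.mul_sum, ← Finset.sum_add_distrib, ← Finset.sum_add_distrib]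
    exact Finset.sum_congr rfl fun n _ => by ring
  have s2 : ∑ n ∈ Icc 1 N, (a n - a' n) ^ 2 = (∑ n ∈ Icc 1 N, a n ^ 2) +
      (∑ n ∈ Icc 1 N, a' n ^ 2) - 2 * ∑ n ∈ Icc 1 N, a n * a' n := by
    rw [Finset.mul_sum, ← Finset.sum_add_distrib, ← Finset.sum_sub_distrib]
    exact Finset.sum_congr rfl fun n _ => by ring
  rw [e2]
  simp only [s1, s2] at h1 h2
  obtain ⟨A, hA⟩ : ∃ A, A = ∑ n ∈ Icc 1 N, a n ^ 2 := ⟨_, rfl⟩
  obtain ⟨A', hA'⟩ : ∃ A', A' = ∑ n ∈ Icc 1 N, a' n ^ 2 := ⟨_, rfl⟩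
  obtain ⟨B, hB⟩ : ∃ B, B = ∑ n ∈ Icc 1 N, a n * a' n := ⟨_, rfl⟩
  obtain ⟨I1, hI1⟩ : ∃ I1, I1 = ∫ t in w..v, ‖dp (fun n => a n + a' n) N t‖ ^ 2 := ⟨_, rfl⟩
  obtain ⟨I2, hI2⟩ : ∃ I2, I2 = ∫ t in w..v, ‖dp (fun n => a n - a' n) N t‖ ^ 2 := ⟨_, rfl⟩
  obtain ⟨I3, hI3⟩ : ∃ I3, I3 = (∫ t in w..v, dp a N t * dp a' N t).re := ⟨_, rfl⟩
  obtain ⟨M, hM⟩ : ∃ M : ℝ, M = 4 * N * (1 + Real.log N) := ⟨_, rfl⟩
  have hA0 : 0 ≤ A := by rw [hA]; exact Finset.sum_nonneg fun n _ => sq_nonneg _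
  have hA0' : 0 ≤ A' := by rw [hA']; exact Finset.sum_nonneg fun n _ => sq_nonneg _
  have hlog : 0 ≤ Real.log N := Real.log_natCast_nonneg N
  have hN0 : (0:ℝ) ≤ N := Nat.cast_nonneg N
  have hMN : 4 * (N:ℝ) ≤ M := by
    rw [hM]
    nlinarith [mul_nonneg hN0 hlog]
  rw [← hA, ← hA', ← hB, ← hI1, ← hM] at h1
  rw [← hA, ← hA', ← hB, ← hI2, ← hM] at h2
  rw [← hA, ← hA', ← hI3] at h4
  rw [← hA, ← hA', ← hB, ← hI1, ← hI2, ← hI3, ← hM]
  have h5 : (N:ℝ) * (A + A') ≤ M / 4 * (A + A') :=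
    mul_le_mul_of_nonneg_right (by linarith) (by linarith)
  have g1 := abs_le.mp h1
  have g2 := abs_le.mp h2
  have g4 := abs_le.mp h4
  have e3 : I3 / 2 + (I1 - I2) / 8 - (v - w) / 2 * B = I3 / 2 +
      ((I1 - (v - w) * (A + A' + 2 * B)) - (I2 - (v - w) * (A + A' - 2 * B))) / 8 := by ring
  rw [e3, abs_le]
  have e4 : M * (A + A' + 2 * B) + M * (A + A' - 2 * B) = 2 * (M * (A + A')) := by ring
  have e5 : M / 4 * (A + A') = M * (A + A') / 4 := by ring
  have hMA : 0 ≤ M * (A + A') := mul_nonneg (by linarith) (by linarith)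
  constructor
  · linarith [g1.1, g2.2, g4.1]
  · linarith [g1.2, g2.1, g4.2]

end Pool.Agent.AHP
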