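import Pool.Agent.PF.PPw
import Pool.Agent.Lib.ANT.MertensE
import Pool.Agent.ZGap.Gen.Kernel

/-!
# The sum of the squares of the coefficients
-/

namespace Pool.Agent.AHP

open MeasureTheory Real Set Pool.Agent.ZGap.Gen
open Finset (Icc filter)

/-- The prime powers that are not primes. -/
lemma nonprime_sum : ∃ C : ℝ, 0 < C ∧ ∀ N : ℕ,
    ∑ n ∈ (Finset.Icc 1 N).filter (fun n => ¬ n.Prime),
      ArithmeticFunction.vonMangoldt n / n ≤ C := by
  obtain ⟨C, hC, h⟩ := Pool.Agent.PF.PPwAux.cubes_le
  refine ⟨C + C, by positivity, fun N => ?_⟩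
  have h1 := Pool.Agent.PF.PPwAux.nonprime_le
    (fun n : ℕ => ArithmeticFunction.vonMangoldt n / n)
    (fun n => div_nonneg ArithmeticFunction.vonMangoldt_nonneg (Nat.cast_nonneg _))
    (fun n hn => by rw [hn, zero_div]) N
  refine h1.trans (add_le_add ?_ ?_)
  · refine le_trans ?_ (h N 4)
    refine (Finset.sum_le_sum_of_subset_of_nonneg (t := (Finset.Icc 1 N).filter Nat.Prime)
      (fun p hp => ?_) (fun p _ _ => div_nonneg ArithmeticFunction.vonMangoldt_nonneg
        (Nat.cast_nonneg _))).trans ?_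
    · rw [Finset.mem_filter] at hp ⊢
      exact ⟨hp.1, hp.2.1⟩
    · refine Finset.sum_le_sum fun p hp => ?_
      rw [Finset.mem_filter] at hp
      have hp0 : (0:ℝ) < p := by exact_mod_cast hp.2.pos
      have hlp : 0 ≤ Real.log p := Real.log_natCast_nonneg p
      have e : ArithmeticFunction.vonMangoldt (p ^ 2) / ((p ^ 2 : ℕ) : ℝ) =
          Real.log p * (1 / Real.sqrt p) ^ 4 := by
        rw [ArithmeticFunction.vonMangoldt_apply_pow (by norm_num),
          ArithmeticFunction.vonMangoldt_apply_prime hp.2, one_div, inv_pow,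
          show (4:ℕ) = 2 * 2 by norm_num, pow_mul, Real.sq_sqrt hp0.le]
        push_cast
        rw [div_eq_mul_inv]
      rw [e]
      exact Finset.single_le_sum (f := fun k => Real.log p * (1 / Real.sqrt p) ^ k)
        (fun k _ => by positivity) (Finset.mem_Icc.2 ⟨by norm_num, le_rfl⟩)
  · refine le_trans ?_ (h N N)
    refine Finset.sum_le_sum fun p hp => Finset.sum_le_sum fun k hk => ?_
    rw [Finset.mem_filter] at hp
    rw [Finset.mem_Icc] at hk
    have hp1 : (1:ℝ) ≤ p := by exact_mod_cast hp.2.one_lt.le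
    have hp0 : (0:ℝ) < p := by linarith
    have hlp : 0 ≤ Real.log p := Real.log_natCast_nonneg p
    rw [ArithmeticFunction.vonMangoldt_apply_pow (by omega),
      ArithmeticFunction.vonMangoldt_apply_prime hp.2]
    push_cast
    rw [div_eq_mul_one_div, ← one_div_pow]
    have h2 : 1 / (p : ℝ) ≤ 1 / Real.sqrt p := by
      apply one_div_le_one_div_of_le (Real.sqrt_pos.2 hp0)
      rw [Real.sqrt_le_left hp0.le]
      nlinarith
    gcongr

/-- The product of the two profiles. -/
noncomputable def ph (P P' : PhiData) (v : ℝ) : ℝ := P.f0 v * P'.f0 v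

lemma ph_lip (P P' : PhiData) {u v : ℝ} (hu : u ∈ Set.Icc (0:ℝ) 1) (hv : v ∈ Set.Icc (0:ℝ) 1) :
    |ph P P' u - ph P P' v| ≤ 20 * |u - v| := by
  have hd : ∀ x : ℝ, HasDerivAt (ph P P') (P.f1 x * P'.f0 x + P.f0 x * P'.f1 x) x := fun x =>
    (P.d0 x).mul (P'.d0 x)
  have h := (convex_Icc (0:ℝ) 1).norm_image_sub_le_of_norm_hasDerivWithin_le
    (f := ph P P') (C := 20) (fun x hx => (hd x).hasDerivWithinAt) (fun x hx => by
      have a1 := P.b0 x hx.1 hx.2
      have a2 := P'.b0 x hx.1 hx.2
      have a3 := P.b1 x hx.1 hx.2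
      have a4 := P'.b1 x hx.1 hx.2
      rw [Real.norm_eq_abs]
      refine (abs_add_le _ _).trans ?_
      rw [abs_mul, abs_mul]
      have b1 : |P.f1 x| * |P'.f0 x| ≤ 5 * 2 := by gcongr
      have b2 : |P.f0 x| * |P'.f1 x| ≤ 2 * 5 := by gcongr
      linarith) hv hu
  rwa [Real.norm_eq_abs, Real.norm_eq_abs] at h

lemma ph_le (P P' : PhiData) {v : ℝ} (hv : v ∈ Set.Icc (0:ℝ) 1) : |ph P P' v| ≤ 4 := by
  unfold ph
  rw [abs_mul]
  have a1 := P.b0 v hv.1 hv.2
  have a2 := P'.b0 v hv.1 hv.2
  have : |P.f0 v| * |P'.f0 v| ≤ 2 * 2 := by gcongr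
  linarith

theorem mean_sq_lim (P P' : PhiData) : ∃ C : ℝ, 0 < C ∧ ∀ (D : ℝ) (x : ℕ), 1 ≤ D →
    Real.exp D ≤ x + 1 →
      |(∑ n ∈ Finset.Icc 1 x, ArithmeticFunction.vonMangoldt n ^ 2 / n *
        (P.f0 (min (Real.log n / D) 1) * P'.f0 (min (Real.log n / D) 1))) -
        D ^ 2 * ∫ v in (0:ℝ)..1, v * P.f0 v * P'.f0 v| ≤ C * D := by
  obtain ⟨C1, hC1, h1⟩ := Pool.Agent.ANTE.mertens_lip
  obtain ⟨C2, hC2, h2⟩ := nonprime_sum
  refine ⟨C1 * 24 + 4 * C2, by positivity, fun D x hD hx => ?_⟩
  have hD0 : 0 < D := by linarith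
  set h : ℝ → ℝ := fun u => max u 0 * ph P P' (min (max u 0 / D) 1) with hh
  have hmem : ∀ u : ℝ, min (max u 0 / D) 1 ∈ Set.Icc (0:ℝ) 1 := fun u =>
    ⟨le_min (div_nonneg (le_max_right _ _) hD0.le) zero_le_one, min_le_right _ _⟩
  have hin : ∀ u ∈ Set.Icc 0 D, h u = u * ph P P' (u / D) ∧ u / D ∈ Set.Icc (0:ℝ) 1 := by
    intro u hu
    have e1 : u / D ≤ 1 := (div_le_one hD0).2 hu.2
    rw [hh]
    simp only
    rw [max_eq_left hu.1, min_eq_left e1]
    exact ⟨rfl, div_nonneg hu.1 hD0.le, e1⟩
  have hL : ∀ u ∈ Set.Icc 0 D, ∀ v ∈ Set.Icc 0 D, |h u - h v| ≤ 24 * |u - v| := by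
    intro u hu v hv
    obtain ⟨e1, e2⟩ := hin u hu
    obtain ⟨e3, e4⟩ := hin v hv
    rw [e1, e3]
    have e5 : u * ph P P' (u / D) - v * ph P P' (v / D) =
        (u - v) * ph P P' (u / D) + v * (ph P P' (u / D) - ph P P' (v / D)) := by ring
    rw [e5]
    refine (abs_add_le _ _).trans ?_
    rw [abs_mul, abs_mul, abs_of_nonneg hv.1]
    have e6 := ph_le P P' e2
    have e7 := ph_lip P P' e2 e4
    have e8 : |u / D - v / D| = |u - v| / D := by
      rw [← sub_div, abs_div, abs_of_pos hD0]
    rw [e8] at e7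
    have e9 : v * |ph P P' (u / D) - ph P P' (v / D)| ≤ D * (20 * (|u - v| / D)) := by
      have := hv.2
      have := hv.1
      gcongr
    have e10 : D * (20 * (|u - v| / D)) = 20 * |u - v| := by field_simp
    have e11 : |u - v| * |ph P P' (u / D)| ≤ |u - v| * 4 := by gcongr
    linarith
  have h0 : ∀ u, u ∉ Set.Ioo 0 D → h u = 0 := by
    intro u hu
    rw [Set.mem_Ioo, not_and_or, not_lt, not_lt] at hu
    rw [hh]
    simp only
    rcases hu with hu | hu
    · rw [max_eq_right hu, zero_mul]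
    · have e1 : (1:ℝ) ≤ max u 0 / D := by
        rw [one_le_div hD0]; exact hu.trans (le_max_left _ _)
      rw [min_eq_right e1]
      unfold ph
      rw [P.one]
      ring
  have hlog : D ≤ Real.log ((x + 1 : ℕ) : ℝ) := by
    rw [Real.le_log_iff_exp_le (by positivity)]
    push_cast
    exact hx
  have g1 := h1 h 24 0 D (x + 1) hD0.le (by norm_num) (by omega) hlog hL h0
  -- the last term
  have g2 : ∑ n ∈ Finset.Icc 1 (x + 1), ArithmeticFunction.vonMangoldt n / n * h (Real.log n) =
      ∑ n ∈ Finset.Icc 1 x, ArithmeticFunction.vonMangoldt n / n * h (Real.log n) := by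
    rw [Finset.sum_Icc_succ_top (by omega), h0 (Real.log ((x + 1 : ℕ) : ℝ)) (fun hc => by
      linarith [hc.2]), mul_zero, add_zero]
  -- the integral
  have g3 : ∫ u in (0:ℝ)..(Real.log ((x + 1 : ℕ) : ℝ)), h u =
      D ^ 2 * ∫ v in (0:ℝ)..1, v * P.f0 v * P'.f0 v := by
    have hhc : Continuous h := by
      rw [hh]
      have c1 : Continuous (ph P P') := by unfold ph; exact P.c0.mul P'.c0
      exact (continuous_id.max continuous_const).mul (c1.comp (by fun_prop))
    rw [← intervalIntegral.integral_add_adjacent_intervals (hhc.intervalIntegrable 0 D)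
      (hhc.intervalIntegrable D _)]
    have e1 : ∫ u in D..(Real.log ((x + 1 : ℕ) : ℝ)), h u = 0 := by
      rw [intervalIntegral.integral_congr (g := fun _ => (0:ℝ)) (fun u hu => ?_)]
      · simp
      · rw [uIcc_of_le hlog] at hu
        exact h0 u fun hc => by linarith [hc.2, hu.1]
    rw [e1, add_zero]
    have e2 : ∫ u in (0:ℝ)..D, h u = ∫ u in (0:ℝ)..D, (fun v => D * (v * ph P P' v)) (u / D) := by
      refine intervalIntegral.integral_congr fun u hu => ?_
      rw [uIcc_of_le hD0.le] at hu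
      rw [(hin u hu).1]
      show u * ph P P' (u / D) = D * (u / D * ph P P' (u / D))
      field_simp
    have e3 := intervalIntegral.integral_comp_div (a := 0) (b := D)
      (fun v => D * (v * ph P P' v)) hD0.ne'
    rw [zero_div, div_self hD0.ne', smul_eq_mul] at e3
    rw [e2, e3, intervalIntegral.integral_const_mul, ← mul_assoc, ← sq]
    congr 1
    refine intervalIntegral.integral_congr fun v _ => ?_
    show v * ph P P' v = v * P.f0 v * P'.f0 v
    unfold ph
    ring
  rw [g2, g3, sub_zero] at g1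
  -- the prime powers
  have g4 : |(∑ n ∈ Finset.Icc 1 x, ArithmeticFunction.vonMangoldt n ^ 2 / n *
      (P.f0 (min (Real.log n / D) 1) * P'.f0 (min (Real.log n / D) 1))) -
      ∑ n ∈ Finset.Icc 1 x, ArithmeticFunction.vonMangoldt n / n * h (Real.log n)| ≤
      4 * C2 * D := by
    rw [← Finset.sum_sub_distrib]
    refine (Finset.abs_sum_le_sum_abs _ _).trans ?_
    have k1 : ∀ n ∈ Finset.Icc 1 x, |ArithmeticFunction.vonMangoldt n ^ 2 / n *
        (P.f0 (min (Real.log n / D) 1) * P'.f0 (min (Real.log n / D) 1)) -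
        ArithmeticFunction.vonMangoldt n / n * h (Real.log n)| ≤
        if n.Prime then 0 else 4 * D * (ArithmeticFunction.vonMangoldt n / n) := by
      intro n hn
      have hn1 : 1 ≤ n := (Finset.mem_Icc.1 hn).1
      have hn0 : (0:ℝ) < n := by exact_mod_cast hn1
      have hln : 0 ≤ Real.log n := Real.log_natCast_nonneg n
      have hΛ : 0 ≤ ArithmeticFunction.vonMangoldt n := ArithmeticFunction.vonMangoldt_nonneg
      have hΛl : ArithmeticFunction.vonMangoldt n ≤ Real.log n :=
        ArithmeticFunction.vonMangoldt_le_log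
      have e1 : h (Real.log n) = Real.log n * ph P P' (min (Real.log n / D) 1) := by
        rw [hh]
        simp only
        rw [max_eq_left hln]
      have e2 : ArithmeticFunction.vonMangoldt n ^ 2 / n *
          (P.f0 (min (Real.log n / D) 1) * P'.f0 (min (Real.log n / D) 1)) -
          ArithmeticFunction.vonMangoldt n / n * h (Real.log n) =
          ArithmeticFunction.vonMangoldt n / n *
            ((ArithmeticFunction.vonMangoldt n - Real.log n) *
              ph P P' (min (Real.log n / D) 1)) := by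
        rw [e1]
        unfold ph
        ring
      rw [e2]
      split_ifs with hp
      · rw [ArithmeticFunction.vonMangoldt_apply_prime hp, sub_self, zero_mul, mul_zero, abs_zero]
      · rw [abs_mul, abs_of_nonneg (div_nonneg hΛ hn0.le), mul_comm]
        refine mul_le_mul_of_nonneg_right ?_ (div_nonneg hΛ hn0.le)
        rw [abs_mul]
        have e3 : |ArithmeticFunction.vonMangoldt n - Real.log n| ≤ Real.log n := by
          rw [abs_of_nonpos (by linarith)]; linarith
        rcases le_or_gt (Real.log n) D with hc | hc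
        · have e4 := ph_le P P' (v := min (Real.log n / D) 1)
            ⟨le_min (by positivity) zero_le_one, min_le_right _ _⟩
          calc _ ≤ D * 4 := by
                have := e3.trans hc
                gcongr
            _ = _ := by ring
        · have e4 : ph P P' (min (Real.log n / D) 1) = 0 := by
            rw [min_eq_right ((one_le_div hD0).2 hc.le)]
            unfold ph
            rw [P.one]
            ring
          rw [e4, abs_zero, mul_zero]
          positivity
    refine (Finset.sum_le_sum k1).trans ?_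
    rw [Finset.sum_ite, Finset.sum_const_zero, zero_add, ← Finset.mul_sum]
    have := h2 x
    calc 4 * D * _ ≤ 4 * D * C2 := by gcongr
      _ = _ := by ring
  have k := abs_sub_le (∑ n ∈ Finset.Icc 1 x, ArithmeticFunction.vonMangoldt n ^ 2 / n *
      (P.f0 (min (Real.log n / D) 1) * P'.f0 (min (Real.log n / D) 1)))
      (∑ n ∈ Finset.Icc 1 x, ArithmeticFunction.vonMangoldt n / n * h (Real.log n))
      (D ^ 2 * ∫ v in (0:ℝ)..1, v * P.f0 v * P'.f0 v)
  linarith

end Pool.Agent.AHP
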