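import Mathlib

/-!
# A flat topped kernel and positive sums over pairs
-/

namespace Pool.Agent.AHP

open MeasureTheory Real Set intervalIntegral

/-- The kernel whose transform is `1` on `[-c, c]` and falls to `0` at `± (2 - c)`; its translates by
`2 ℤ` on the Fourier side sum to `1`. -/
noncomputable def F0 (c y : ℝ) : ℝ :=
  2 * (∫ v in (0:ℝ)..c, Real.cos (2 * π * v * y)) +
    ∫ v in c..(2 - c), (1 + Real.cos (π * (v - c) / (2 * (1 - c)))) * Real.cos (2 * π * v * y)

lemma F0_neg (c y : ℝ) : F0 c (-y) = F0 c y := by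
  unfold F0
  have h : ∀ v : ℝ, Real.cos (2 * π * v * -y) = Real.cos (2 * π * v * y) := by
    intro v
    rw [mul_neg, Real.cos_neg]
  simp only [h]

lemma F0_abs {c : ℝ} (hc0 : 0 ≤ c) (hc1 : c ≤ 1) (y : ℝ) : |F0 c y| ≤ 4 := by
  have h1 : ‖∫ v in (0:ℝ)..c, Real.cos (2 * π * v * y)‖ ≤ 1 * |c - 0| := by
    apply intervalIntegral.norm_integral_le_of_norm_le_const
    intro v _
    rw [Real.norm_eq_abs]
    exact Real.abs_cos_le_one _
  have h2 : ‖∫ v in c..(2 - c), (1 + Real.cos (π * (v - c) / (2 * (1 - c)))) *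
      Real.cos (2 * π * v * y)‖ ≤ 2 * |2 - c - c| := by
    apply intervalIntegral.norm_integral_le_of_norm_le_const
    intro v _
    rw [Real.norm_eq_abs, abs_mul]
    have e1 := Real.abs_cos_le_one (2 * π * v * y)
    have e2 := Real.abs_cos_le_one (π * (v - c) / (2 * (1 - c)))
    have e3 : |1 + Real.cos (π * (v - c) / (2 * (1 - c)))| ≤ 2 := by
      rw [abs_le] at e2 ⊢
      constructor <;> linarith [e2.1, e2.2]
    calc _ ≤ 2 * 1 := mul_le_mul e3 e1 (abs_nonneg _) (by norm_num)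
      _ = 2 := by norm_num
  rw [Real.norm_eq_abs] at h1 h2
  rw [sub_zero, abs_of_nonneg hc0] at h1
  rw [abs_of_nonneg (by linarith : (0:ℝ) ≤ 2 - c - c)] at h2
  unfold F0
  refine (abs_add_le _ _).trans ?_
  rw [abs_mul, abs_of_pos (by norm_num : (0:ℝ) < 2)]
  linarith

lemma cos_lip (a b : ℝ) : |Real.cos a - Real.cos b| ≤ |a - b| := Real.abs_cos_sub_cos_le _ _

lemma F0_lip {c : ℝ} (hc0 : 0 ≤ c) (hc1 : c ≤ 1) (y z : ℝ) :
    |F0 c y - F0 c z| ≤ 80 * |y - z| := by
  have hpi := Real.pi_pos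
  have hpi4 := Real.pi_lt_d2
  have hcos : ∀ v : ℝ, 0 ≤ v → v ≤ 2 →
      |Real.cos (2 * π * v * y) - Real.cos (2 * π * v * z)| ≤ 4 * π * |y - z| := by
    intro v hv0 hv
    refine (cos_lip _ _).trans ?_
    rw [← mul_sub, abs_mul, abs_of_nonneg (by positivity : 0 ≤ 2 * π * v)]
    apply mul_le_mul_of_nonneg_right _ (abs_nonneg _)
    nlinarith
  have h1 : ‖∫ v in (0:ℝ)..c, (Real.cos (2 * π * v * y) - Real.cos (2 * π * v * z))‖ ≤
      (4 * π * |y - z|) * |c - 0| := by
    apply intervalIntegral.norm_integral_le_of_norm_le_const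
    intro v hv
    rw [uIoc_of_le hc0] at hv
    rw [Real.norm_eq_abs]
    exact hcos v hv.1.le (by linarith [hv.2])
  have h2 : ‖∫ v in c..(2 - c), ((1 + Real.cos (π * (v - c) / (2 * (1 - c)))) *
      Real.cos (2 * π * v * y) - (1 + Real.cos (π * (v - c) / (2 * (1 - c)))) *
      Real.cos (2 * π * v * z))‖ ≤ (2 * (4 * π * |y - z|)) * |2 - c - c| := by
    apply intervalIntegral.norm_integral_le_of_norm_le_const
    intro v hv
    rw [uIoc_of_le (by linarith)] at hv
    rw [Real.norm_eq_abs, ← mul_sub, abs_mul]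
    have e1 := hcos v (by linarith [hv.1]) (by linarith [hv.2])
    have e2 := Real.abs_cos_le_one (π * (v - c) / (2 * (1 - c)))
    have e3 : |1 + Real.cos (π * (v - c) / (2 * (1 - c)))| ≤ 2 := by
      rw [abs_le] at e2 ⊢
      constructor <;> linarith [e2.1, e2.2]
    exact mul_le_mul e3 e1 (abs_nonneg _) (by norm_num)
  rw [integral_sub (Continuous.intervalIntegrable (by fun_prop) _ _)
    (Continuous.intervalIntegrable (by fun_prop) _ _), Real.norm_eq_abs, sub_zero,
    abs_of_nonneg hc0] at h1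
  rw [integral_sub (Continuous.intervalIntegrable (by fun_prop) _ _)
    (Continuous.intervalIntegrable (by fun_prop) _ _), Real.norm_eq_abs,
    abs_of_nonneg (by linarith : (0:ℝ) ≤ 2 - c - c)] at h2
  unfold F0
  generalize (∫ v in (0:ℝ)..c, Real.cos (2 * π * v * y)) = I1 at h1 ⊢
  generalize (∫ v in (0:ℝ)..c, Real.cos (2 * π * v * z)) = I2 at h1 ⊢
  generalize (∫ v in c..(2 - c), (1 + Real.cos (π * (v - c) / (2 * (1 - c)))) *
    Real.cos (2 * π * v * y)) = J1 at h2 ⊢
  generalize (∫ v in c..(2 - c), (1 + Real.cos (π * (v - c) / (2 * (1 - c)))) *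
    Real.cos (2 * π * v * z)) = J2 at h2 ⊢
  have e : 2 * I1 + J1 - (2 * I2 + J2) = 2 * (I1 - I2) + (J1 - J2) := by ring
  rw [e]
  refine (abs_add_le _ _).trans ?_
  rw [abs_mul, abs_of_pos (by norm_num : (0:ℝ) < 2)]
  have hA := abs_nonneg (y - z)
  have hq : 0 ≤ 4 * π * |y - z| := by positivity
  have h3 : 4 * π * |y - z| * c ≤ 4 * π * |y - z| * 1 := mul_le_mul_of_nonneg_left hc1 hq
  have h4 : 2 * (4 * π * |y - z|) * (2 - c - c) ≤ 2 * (4 * π * |y - z|) * 2 :=
    mul_le_mul_of_nonneg_left (by linarith) (by positivity)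
  have h5 : 4 * π * |y - z| ≤ 12.6 * |y - z| := by nlinarith
  nlinarith

/-- The integral of a cosine. -/
lemma int_cos {r : ℝ} (hr : r ≠ 0) (p q : ℝ) :
    ∫ v in p..q, Real.cos (r * v) = (Real.sin (r * q) - Real.sin (r * p)) / r := by
  have h : ∀ v ∈ uIcc p q, HasDerivAt (fun v => Real.sin (r * v) / r) (Real.cos (r * v)) v := by
    intro v _
    have h1 : HasDerivAt (fun v : ℝ => r * v) r v := by
      simpa using (hasDerivAt_id v).const_mul r
    refine (h1.sin.div_const r).congr_deriv ?_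
    field_simp
  rw [integral_eq_sub_of_hasDerivAt h (Continuous.intervalIntegrable (by fun_prop) _ _)]
  ring

/-- The antisymmetric part vanishes at half integers. -/
lemma int_anti {c : ℝ} (hc : c ≠ 1) (j : ℤ) :
    ∫ v in c..(2 - c), Real.cos (π * (v - c) / (2 * (1 - c))) * Real.cos (π * j * v) = 0 := by
  have hw : (1 - c) ≠ 0 := sub_ne_zero.2 (Ne.symm hc)
  have h1 := integral_comp_sub_left (a := c) (b := 2 - c)
    (fun v => Real.cos (π * (v - c) / (2 * (1 - c))) * Real.cos (π * j * v)) 2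
  have h2 : ∀ v : ℝ, Real.cos (π * (2 - v - c) / (2 * (1 - c))) * Real.cos (π * j * (2 - v)) =
      -(Real.cos (π * (v - c) / (2 * (1 - c))) * Real.cos (π * j * v)) := by
    intro v
    have e1 : π * (2 - v - c) / (2 * (1 - c)) = π - π * (v - c) / (2 * (1 - c)) := by
      field_simp
      ring
    have e2 : π * j * (2 - v) = (j : ℝ) * (2 * π) - π * j * v := by ring
    rw [e1, Real.cos_pi_sub, e2, Real.cos_int_mul_two_pi_sub]
    ring
  simp only [h2] at h1
  rw [intervalIntegral.integral_neg] at h1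
  have e3 : (2:ℝ) - (2 - c) = c := by ring
  rw [e3] at h1
  linarith

/-- The values at half integers. -/
lemma F0_half {c : ℝ} (hc1 : c < 1) (j : ℤ) : F0 c (j / 2) = if j = 0 then 2 else 0 := by
  have hpi := Real.pi_pos
  unfold F0
  have e1 : ∀ v : ℝ, Real.cos (2 * π * v * (j / 2)) = Real.cos (π * j * v) := by
    intro v
    congr 1
    ring
  simp only [e1]
  have e2 : (∫ v in c..(2 - c), (1 + Real.cos (π * (v - c) / (2 * (1 - c)))) *
      Real.cos (π * j * v)) = ∫ v in c..(2 - c), Real.cos (π * j * v) := by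
    have e3 : ∀ v : ℝ, (1 + Real.cos (π * (v - c) / (2 * (1 - c)))) * Real.cos (π * j * v) =
        Real.cos (π * j * v) +
          Real.cos (π * (v - c) / (2 * (1 - c))) * Real.cos (π * j * v) := fun v => by ring
    simp only [e3]
    rw [integral_add (Continuous.intervalIntegrable (by fun_prop) _ _)
      (Continuous.intervalIntegrable (by fun_prop) _ _), int_anti hc1.ne j, add_zero]
  rw [e2]
  by_cases hj : j = 0
  · rw [if_pos hj, hj]
    simp only [Int.cast_zero, mul_zero, zero_mul, Real.cos_zero, intervalIntegral.integral_const, smul_eq_mul,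
      mul_one, sub_zero]
    ring
  · rw [if_neg hj]
    have hr : π * (j : ℝ) ≠ 0 := mul_ne_zero hpi.ne' (by exact_mod_cast hj)
    rw [int_cos hr, int_cos hr]
    have e4 : π * j * (2 - c) = (j : ℝ) * (2 * π) - π * j * c := by ring
    rw [e4, Real.sin_int_mul_two_pi_sub]
    simp only [mul_zero, Real.sin_zero]
    ring

/-- The closed form. -/
lemma F0_closed {c y : ℝ} (hc1 : c < 1) (hy : y ≠ 0) (h1 : π / (2 * (1 - c)) + 2 * π * y ≠ 0)
    (h2 : π / (2 * (1 - c)) - 2 * π * y ≠ 0) :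
    F0 c y = (Real.sin (2 * π * y * (2 - c)) + Real.sin (2 * π * y * c)) *
      ((π / (2 * (1 - c))) ^ 2 /
        (2 * π * y * ((π / (2 * (1 - c)) + 2 * π * y) * (π / (2 * (1 - c)) - 2 * π * y)))) := by
  have hpi := Real.pi_pos
  have hw : (1 - c) ≠ 0 := by linarith
  have hr : 2 * π * y ≠ 0 := by positivity
  obtain ⟨θ, hθ⟩ : ∃ θ, θ = π / (2 * (1 - c)) := ⟨_, rfl⟩
  rw [← hθ] at h1 h2 ⊢
  have e1 : ∀ v : ℝ, Real.cos (2 * π * v * y) = Real.cos (2 * π * y * v) := fun v => by
    congr 1; ring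
  have e0 : ∀ v : ℝ, Real.cos (π * (v - c) / (2 * (1 - c))) = Real.cos (θ * (v - c)) := fun v => by
    congr 1; rw [hθ]; ring
  have e2 : (∫ v in c..(2 - c), (1 + Real.cos (π * (v - c) / (2 * (1 - c)))) *
      Real.cos (2 * π * v * y)) = (∫ v in c..(2 - c), Real.cos (2 * π * y * v)) +
      ∫ v in c..(2 - c), Real.cos (θ * (v - c)) * Real.cos (2 * π * y * v) := by
    rw [← integral_add (Continuous.intervalIntegrable (by fun_prop) _ _)
      (Continuous.intervalIntegrable (by fun_prop) _ _)]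
    refine integral_congr fun v _ => ?_
    simp only [e0, e1]
    ring
  have e3 : (∫ v in c..(2 - c), Real.cos (θ * (v - c)) * Real.cos (2 * π * y * v)) =
      (Real.sin (2 * π * y * (2 - c)) + Real.sin (2 * π * y * c)) / 2 *
        (1 / (θ - 2 * π * y) - 1 / (θ + 2 * π * y)) := by
    have h : ∀ v ∈ uIcc c (2 - c), HasDerivAt
        (fun v => (Real.sin (θ * (v - c) + 2 * π * y * v) / (θ + 2 * π * y) +
          Real.sin (θ * (v - c) - 2 * π * y * v) / (θ - 2 * π * y)) / 2)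
        (Real.cos (θ * (v - c)) * Real.cos (2 * π * y * v)) v := by
      intro v _
      have g1 : HasDerivAt (fun v : ℝ => θ * (v - c) + 2 * π * y * v) (θ + 2 * π * y) v := by
        have := (((hasDerivAt_id' v).sub_const c).const_mul θ).fun_add
          ((hasDerivAt_id' v).const_mul (2 * π * y))
        refine this.congr_deriv ?_
        ring
      have g2 : HasDerivAt (fun v : ℝ => θ * (v - c) - 2 * π * y * v) (θ - 2 * π * y) v := by
        have := (((hasDerivAt_id' v).sub_const c).const_mul θ).fun_sub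
          ((hasDerivAt_id' v).const_mul (2 * π * y))
        refine this.congr_deriv ?_
        ring
      refine (((g1.sin.div_const (θ + 2 * π * y)).fun_add
        (g2.sin.div_const (θ - 2 * π * y))).div_const 2).congr_deriv ?_
      rw [mul_div_cancel_right₀ _ h1, mul_div_cancel_right₀ _ h2, Real.cos_add, Real.cos_sub]
      ring
    rw [integral_eq_sub_of_hasDerivAt h (Continuous.intervalIntegrable (by fun_prop) _ _)]
    have f1 : θ * (2 - c - c) = π := by
      rw [hθ]
      field_simp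
      ring
    rw [f1, sub_self, mul_zero, zero_add, zero_sub, Real.sin_neg, Real.sin_add, Real.sin_sub,
      Real.sin_pi, Real.cos_pi]
    ring
  unfold F0
  rw [e2, e3]
  simp only [e1]
  rw [int_cos hr, int_cos hr, mul_zero, Real.sin_zero]
  generalize Real.sin (2 * π * y * (2 - c)) = s2
  generalize Real.sin (2 * π * y * c) = s1
  field_simp
  ring

/-- The decay. -/
lemma F0_decay {c : ℝ} (hc0 : 0 ≤ c) (hc1 : c < 1) (y : ℝ) :
    |F0 c y| ≤ 10 / (1 - c) ^ 3 / (1 + |y| ^ 3) := by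
  have hpi := Real.pi_pos
  have hpi3 := Real.pi_gt_three
  obtain ⟨w, hw⟩ : ∃ w, w = 1 - c := ⟨_, rfl⟩
  have hw0 : 0 < w := by rw [hw]; linarith
  have hw1 : w ≤ 1 := by rw [hw]; linarith
  -- it is enough to take `y ≥ 0`
  suffices H : ∀ z : ℝ, 0 ≤ z → |F0 c z| ≤ 10 / w ^ 3 / (1 + z ^ 3) by
    rw [← hw]
    rcases le_total 0 y with h | h
    · rw [abs_of_nonneg h]
      exact H y h
    · rw [abs_of_nonpos h, ← F0_neg]
      exact H (-y) (by linarith)
  intro z hz
  have hw3 : w ^ 3 ≤ 1 := pow_le_one₀ hw0.le hw1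
  have hwp : 0 < w ^ 3 := by positivity
  by_cases hcase : 16 * w ^ 2 * z ^ 2 < 2
  · rw [div_div, le_div_iff₀ (by positivity)]
    have h1 := F0_abs hc0 hc1.le z
    have h2 : w * z ≤ 1 := by
      by_contra h
      push Not at h
      nlinarith
    have h3 : w ^ 3 * z ^ 3 ≤ 1 := by
      have : (w * z) ^ 3 ≤ 1 := pow_le_one₀ (by positivity) h2
      calc w ^ 3 * z ^ 3 = (w * z) ^ 3 := by ring
        _ ≤ 1 := this
    have h4 : w ^ 3 * (1 + z ^ 3) ≤ 2 := by nlinarith
    calc |F0 c z| * (w ^ 3 * (1 + z ^ 3)) ≤ 4 * 2 :=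
          mul_le_mul h1 h4 (by positivity) (by norm_num)
      _ ≤ 10 := by norm_num
  · push Not at hcase
    have hz0 : 0 < z := by
      rcases hz.lt_or_eq with h | h
      · exact h
      · rw [← h] at hcase
        norm_num at hcase
    obtain ⟨θ, hθ⟩ : ∃ θ, θ = π / (2 * (1 - c)) := ⟨_, rfl⟩
    have hθw : θ * w = π / 2 := by
      rw [hθ, ← hw]
      field_simp
    have hθ0 : 0 < θ := by rw [hθ, ← hw]; positivity
    -- `4 π² z² ≥ 2 θ²`
    have hprod : 2 * π ^ 2 * z ^ 2 ≤ (2 * π * z) ^ 2 - θ ^ 2 := by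
      have g1 : θ ^ 2 * w ^ 2 = π ^ 2 / 4 := by
        calc θ ^ 2 * w ^ 2 = (θ * w) ^ 2 := by ring
          _ = _ := by rw [hθw]; ring
      have g2 : θ ^ 2 ≤ 2 * π ^ 2 * z ^ 2 := by
        have g3 : θ ^ 2 * w ^ 2 ≤ 2 * π ^ 2 * z ^ 2 * w ^ 2 := by
          rw [g1]
          nlinarith [sq_nonneg π]
        exact le_of_mul_le_mul_right g3 (by positivity)
      nlinarith
    have hpos : 0 < 2 * π ^ 2 * z ^ 2 := by positivity
    have n1 : θ + 2 * π * z ≠ 0 := by positivity
    have n2 : θ - 2 * π * z ≠ 0 := by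
      intro h0
      have : θ = 2 * π * z := by linarith
      rw [this] at hprod
      linarith
    have hcl := F0_closed (c := c) (y := z) hc1 hz0.ne' (by rw [← hθ]; exact n1)
      (by rw [← hθ]; exact n2)
    rw [hcl, ← hθ, abs_mul]
    have s1 : |Real.sin (2 * π * z * (2 - c)) + Real.sin (2 * π * z * c)| ≤ 2 := by
      refine (abs_add_le _ _).trans ?_
      linarith [Real.abs_sin_le_one (2 * π * z * (2 - c)), Real.abs_sin_le_one (2 * π * z * c)]
    have s2 : |θ ^ 2 / (2 * π * z * ((θ + 2 * π * z) * (θ - 2 * π * z)))| ≤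
        θ ^ 2 / (2 * π * z * (2 * π ^ 2 * z ^ 2)) := by
      rw [abs_div, abs_of_nonneg (sq_nonneg θ)]
      apply div_le_div_of_nonneg_left (sq_nonneg θ) (by positivity)
      rw [abs_mul, abs_of_pos (by positivity : 0 < 2 * π * z)]
      apply mul_le_mul_of_nonneg_left _ (by positivity)
      have : (θ + 2 * π * z) * (θ - 2 * π * z) = -((2 * π * z) ^ 2 - θ ^ 2) := by ring
      rw [this, abs_neg]
      exact hprod.trans (le_abs_self _)
    refine (mul_le_mul s1 s2 (abs_nonneg _) (by norm_num)).trans ?_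
    rw [← mul_div_assoc, div_div, div_le_div_iff₀ (by positivity) (by positivity)]
    -- `2 θ² w³ (1 + z³) ≤ 10 (4 π³ z³)`
    have t1 : θ ^ 2 * w ^ 2 = π ^ 2 / 4 := by
      calc θ ^ 2 * w ^ 2 = (θ * w) ^ 2 := by ring
        _ = _ := by rw [hθw]; ring
    have t2 : w ^ 3 ≤ 23 * (w ^ 3 * z ^ 3) := by
      have u1 : 1 / 8 ≤ (w * z) ^ 2 := by
        have : (w * z) ^ 2 = w ^ 2 * z ^ 2 := by ring
        rw [this]; linarith
      have u0 : 0 ≤ w * z := by positivity
      have u2 : 7 / 20 ≤ w * z := by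
        by_contra h
        push Not at h
        nlinarith
      have u3 : (7 / 20 : ℝ) ^ 3 ≤ (w * z) ^ 3 := pow_le_pow_left₀ (by norm_num) u2 3
      have u4 : (w * z) ^ 3 = w ^ 3 * z ^ 3 := by ring
      rw [u4] at u3
      norm_num at u3
      nlinarith
    have t3 : w * (w ^ 3 * z ^ 3) ≤ w ^ 3 * z ^ 3 := by
      have : 0 ≤ w ^ 3 * z ^ 3 := by positivity
      nlinarith
    have t4 : 2 * θ ^ 2 * (w ^ 3 * (1 + z ^ 3)) = π ^ 2 / 2 * (w + w * z ^ 3) := by
      calc 2 * θ ^ 2 * (w ^ 3 * (1 + z ^ 3)) = 2 * (θ ^ 2 * w ^ 2) * (w + w * z ^ 3) := by ring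
        _ = π ^ 2 / 2 * (w + w * z ^ 3) := by rw [t1]; ring
    rw [t4]
    have t5 : w + w * z ^ 3 ≤ 24 * z ^ 3 := by
      have v1 : w ≤ 23 * z ^ 3 := by
        have v2 : (1:ℝ) ≤ 23 * z ^ 3 := by
          have : w ^ 3 * 1 ≤ w ^ 3 * (23 * z ^ 3) := by linarith
          exact le_of_mul_le_mul_left this hwp
        linarith
      have v3 : w * z ^ 3 ≤ z ^ 3 := by
        have : 0 ≤ z ^ 3 := by positivity
        nlinarith
      linarith
    have t6 : π ^ 2 / 2 * (w + w * z ^ 3) ≤ π ^ 2 / 2 * (24 * z ^ 3) :=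
      mul_le_mul_of_nonneg_left t5 (by positivity)
    have t7 : π ^ 2 / 2 * (24 * z ^ 3) ≤ 10 * (2 * π * z * (2 * π ^ 2 * z ^ 2)) := by
      have : 0 ≤ π ^ 2 * z ^ 3 := by positivity
      nlinarith
    linarith

end Pool.Agent.AHP
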