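import Pool.Agent.AHP.Pos

/-!
# Positivity of sums over pairs
-/

namespace Pool.Agent.AHP

open MeasureTheory Real Set intervalIntegral

lemma sum_cos_eq (S : Finset ℕ) (y : ℕ → ℝ) (r : ℝ) :
    ∑ n ∈ S, ∑ m ∈ S, Real.cos (r * (y n - y m)) =
      (∑ n ∈ S, Real.cos (r * y n)) ^ 2 + (∑ n ∈ S, Real.sin (r * y n)) ^ 2 := by
  have h : ∀ n m, Real.cos (r * (y n - y m)) =
      Real.cos (r * y n) * Real.cos (r * y m) + Real.sin (r * y n) * Real.sin (r * y m) := by
    intro n m
    rw [mul_sub, Real.cos_sub]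
  simp only [h, Finset.sum_add_distrib]
  rw [sq, sq, Finset.sum_mul_sum, Finset.sum_mul_sum]

lemma pos_int (S : Finset ℕ) (y : ℕ → ℝ) {p q : ℝ} (hpq : p ≤ q) {w : ℝ → ℝ} (hw : Continuous w)
    (h0 : ∀ v, p ≤ v → v ≤ q → 0 ≤ w v) (r : ℝ) :
    0 ≤ ∑ n ∈ S, ∑ m ∈ S, ∫ v in p..q, w v * Real.cos (r * v * (y n - y m)) := by
  have h1 : ∑ n ∈ S, ∑ m ∈ S, ∫ v in p..q, w v * Real.cos (r * v * (y n - y m)) =
      ∫ v in p..q, w v * ∑ n ∈ S, ∑ m ∈ S, Real.cos (r * v * (y n - y m)) := by
    have e1 : ∀ n ∈ S, ∑ m ∈ S, ∫ v in p..q, w v * Real.cos (r * v * (y n - y m)) =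
        ∫ v in p..q, ∑ m ∈ S, w v * Real.cos (r * v * (y n - y m)) := by
      intro n _
      rw [intervalIntegral.integral_finsetSum]
      intro m _
      exact Continuous.intervalIntegrable (by fun_prop) _ _
    rw [Finset.sum_congr rfl e1, ← intervalIntegral.integral_finsetSum]
    · refine intervalIntegral.integral_congr fun v _ => ?_
      simp only [Finset.mul_sum]
    · intro n _
      exact Continuous.intervalIntegrable (by fun_prop) _ _
  rw [h1]
  refine intervalIntegral.integral_nonneg hpq fun v hv => ?_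
  rw [sum_cos_eq]
  exact mul_nonneg (h0 v hv.1 hv.2) (by positivity)

/-- The pointwise identity. -/
lemma pos_id {c A B η : ℝ} {k : ℕ} {Φ : ℝ → ℝ} (hΦ : Continuous Φ) (z : ℝ) :
    (A + η) * F0 c z + B / 2 * (F0 c (z - k / 2) + F0 c (z + k / 2)) -
      2 * c * (∫ v in (0:ℝ)..1, Φ v * (A + B * Real.cos (π * k * (c * v))) *
        Real.cos (2 * π * c * v * z)) =
    2 * c * (∫ v in (0:ℝ)..1, ((1 - Φ v) * (A + B * Real.cos (π * k * (c * v))) + η) *
        Real.cos (2 * π * c * v * z)) +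
      ∫ v in c..(2 - c), ((1 + Real.cos (π * (v - c) / (2 * (1 - c)))) *
        (A + B * Real.cos (π * k * v) + η)) * Real.cos (2 * π * v * z) := by
  have hcc : ∀ v : ℝ, Real.cos (2 * π * v * (z - k / 2)) + Real.cos (2 * π * v * (z + k / 2)) =
      2 * Real.cos (π * k * v) * Real.cos (2 * π * v * z) := by
    intro v
    have e1 : 2 * π * v * (z - k / 2) = 2 * π * v * z - π * k * v := by ring
    have e2 : 2 * π * v * (z + k / 2) = 2 * π * v * z + π * k * v := by ring
    rw [e1, e2, Real.cos_sub, Real.cos_add]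
    ring
  -- the part on `[0, c]`
  have h1 : (A + η) * (∫ v in (0:ℝ)..c, Real.cos (2 * π * v * z)) +
      B / 2 * ((∫ v in (0:ℝ)..c, Real.cos (2 * π * v * (z - k / 2))) +
        ∫ v in (0:ℝ)..c, Real.cos (2 * π * v * (z + k / 2))) =
      ∫ v in (0:ℝ)..c, (A + B * Real.cos (π * k * v) + η) * Real.cos (2 * π * v * z) := by
    rw [← integral_add (Continuous.intervalIntegrable (by fun_prop) _ _)
      (Continuous.intervalIntegrable (by fun_prop) _ _)]
    simp only [hcc]
    rw [← intervalIntegral.integral_const_mul, ← intervalIntegral.integral_const_mul,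
      ← integral_add (Continuous.intervalIntegrable (by fun_prop) _ _)
      (Continuous.intervalIntegrable (by fun_prop) _ _)]
    refine intervalIntegral.integral_congr fun v _ => ?_
    ring
  have h2 : (∫ v in (0:ℝ)..c, (A + B * Real.cos (π * k * v) + η) * Real.cos (2 * π * v * z)) =
      c * ∫ v in (0:ℝ)..1, (A + B * Real.cos (π * k * (c * v)) + η) *
        Real.cos (2 * π * c * v * z) := by
    have e := intervalIntegral.mul_integral_comp_mul_left (a := 0) (b := 1)
      (f := fun v => (A + B * Real.cos (π * k * v) + η) * Real.cos (2 * π * v * z)) c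
    rw [mul_zero, mul_one] at e
    rw [← e]
    congr 1
    refine intervalIntegral.integral_congr fun v _ => ?_
    congr 2
    ring
  -- the part on `[c, 2 - c]`
  have h3 : (A + η) * (∫ v in c..(2 - c), (1 + Real.cos (π * (v - c) / (2 * (1 - c)))) *
        Real.cos (2 * π * v * z)) +
      B / 2 * ((∫ v in c..(2 - c), (1 + Real.cos (π * (v - c) / (2 * (1 - c)))) *
        Real.cos (2 * π * v * (z - k / 2))) +
        ∫ v in c..(2 - c), (1 + Real.cos (π * (v - c) / (2 * (1 - c)))) *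
          Real.cos (2 * π * v * (z + k / 2))) =
      ∫ v in c..(2 - c), ((1 + Real.cos (π * (v - c) / (2 * (1 - c)))) *
        (A + B * Real.cos (π * k * v) + η)) * Real.cos (2 * π * v * z) := by
    rw [← integral_add (Continuous.intervalIntegrable (by fun_prop) _ _)
      (Continuous.intervalIntegrable (by fun_prop) _ _)]
    simp only [← mul_add, hcc]
    rw [← intervalIntegral.integral_const_mul, ← intervalIntegral.integral_const_mul,
      ← integral_add (Continuous.intervalIntegrable (by fun_prop) _ _)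
      (Continuous.intervalIntegrable (by fun_prop) _ _)]
    refine intervalIntegral.integral_congr fun v _ => ?_
    ring
  have h4 : (∫ v in (0:ℝ)..1, (A + B * Real.cos (π * k * (c * v)) + η) *
        Real.cos (2 * π * c * v * z)) =
      (∫ v in (0:ℝ)..1, ((1 - Φ v) * (A + B * Real.cos (π * k * (c * v))) + η) *
        Real.cos (2 * π * c * v * z)) +
      ∫ v in (0:ℝ)..1, Φ v * (A + B * Real.cos (π * k * (c * v))) *
        Real.cos (2 * π * c * v * z) := by
    rw [← integral_add (Continuous.intervalIntegrable (by fun_prop) _ _)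
      (Continuous.intervalIntegrable (by fun_prop) _ _)]
    refine intervalIntegral.integral_congr fun v _ => ?_
    ring
  unfold F0
  rw [h2, h4] at h1
  linear_combination 2 * h1 + h3

/-- **Positivity.** -/
theorem pos_main (S : Finset ℕ) (y : ℕ → ℝ) {c A B η : ℝ} {k : ℕ} {Φ : ℝ → ℝ} (hc0 : 0 < c)
    (hc1 : c < 1) (hΦ : Continuous Φ)
    (h1 : ∀ v : ℝ, 0 ≤ v → v ≤ 1 → 0 ≤ (1 - Φ v) * (A + B * Real.cos (π * k * (c * v))) + η)
    (h2 : ∀ v : ℝ, c ≤ v → v ≤ 2 - c → 0 ≤ A + B * Real.cos (π * k * v) + η) :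
    2 * c * (∑ n ∈ S, ∑ m ∈ S, ∫ v in (0:ℝ)..1,
        Φ v * (A + B * Real.cos (π * k * (c * v))) * Real.cos (2 * π * c * v * (y n - y m))) ≤
      ∑ n ∈ S, ∑ m ∈ S, ((A + η) * F0 c (y n - y m) +
        B / 2 * (F0 c (y n - y m - k / 2) + F0 c (y n - y m + k / 2))) := by
  have e1 := pos_int S y (p := 0) (q := 1) zero_le_one
    (w := fun v => (1 - Φ v) * (A + B * Real.cos (π * k * (c * v))) + η) (by fun_prop) h1
    (2 * π * c)
  have e2 := pos_int S y (p := c) (q := 2 - c) (by linarith)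
    (w := fun v => (1 + Real.cos (π * (v - c) / (2 * (1 - c)))) *
      (A + B * Real.cos (π * k * v) + η)) (by fun_prop)
    (fun v hv1 hv2 => by
      have h := Real.neg_one_le_cos (π * (v - c) / (2 * (1 - c)))
      exact mul_nonneg (by linarith) (h2 v hv1 hv2)) (2 * π)
  have e3 : (∑ n ∈ S, ∑ m ∈ S, ((A + η) * F0 c (y n - y m) +
        B / 2 * (F0 c (y n - y m - k / 2) + F0 c (y n - y m + k / 2)))) -
      2 * c * (∑ n ∈ S, ∑ m ∈ S, ∫ v in (0:ℝ)..1,
        Φ v * (A + B * Real.cos (π * k * (c * v))) * Real.cos (2 * π * c * v * (y n - y m))) =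
      2 * c * (∑ n ∈ S, ∑ m ∈ S, ∫ v in (0:ℝ)..1,
        ((1 - Φ v) * (A + B * Real.cos (π * k * (c * v))) + η) *
          Real.cos (2 * π * c * v * (y n - y m))) +
      ∑ n ∈ S, ∑ m ∈ S, ∫ v in c..(2 - c), ((1 + Real.cos (π * (v - c) / (2 * (1 - c)))) *
        (A + B * Real.cos (π * k * v) + η)) * Real.cos (2 * π * v * (y n - y m)) := by
    rw [Finset.mul_sum, Finset.mul_sum, ← Finset.sum_sub_distrib, ← Finset.sum_add_distrib]
    refine Finset.sum_congr rfl fun n _ => ?_
    rw [Finset.mul_sum, Finset.mul_sum, ← Finset.sum_sub_distrib, ← Finset.sum_add_distrib]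
    refine Finset.sum_congr rfl fun m _ => ?_
    exact pos_id hΦ (y n - y m)
  have e4 : 0 ≤ 2 * c * (∑ n ∈ S, ∑ m ∈ S, ∫ v in (0:ℝ)..1,
        ((1 - Φ v) * (A + B * Real.cos (π * k * (c * v))) + η) *
          Real.cos (2 * π * c * v * (y n - y m))) := mul_nonneg (by linarith) e1
  linarith

end Pool.Agent.AHP
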