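import Pool.Agent.AHP.Index
import Pool.Agent.RG.CountW

/-!
# Majorants for the zeros in a window
-/

namespace Pool.Agent.AHP

open MeasureTheory Real Set Pool.Agent.ZGap.Gen Pool.Agent.ZetaGaps Pool.Agent.Hadamard
  Pool.Agent.PF.SN Pool.Agent.ZGap.Res.FM

/-- The weight. -/
noncomputable def q (L x : ℝ) : ℝ := 1 / (1 + (L * x) ^ 2)

lemma q_pos (L x : ℝ) : 0 < q L x := by unfold q; positivity

lemma q_le_one (L x : ℝ) : q L x ≤ 1 := by
  unfold q
  rw [div_le_one (by positivity)]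
  nlinarith [sq_nonneg (L * x)]

lemma q_continuous (L : ℝ) : Continuous (q L) := by
  unfold q
  exact continuous_const.div (by fun_prop) fun x => by positivity

lemma q_le {L x : ℝ} (hL : 1 ≤ L) : q L x ≤ 1 / (1 + x ^ 2) := by
  unfold q
  have h1 : 1 ≤ L ^ 2 := by nlinarith
  have h2 : x ^ 2 ≤ (L * x) ^ 2 := by rw [mul_pow]; nlinarith [sq_nonneg x]
  gcongr

lemma q_far {L x : ℝ} (hL : 1 ≤ L) (hx : 1 ≤ |x|) : q L x ≤ 2 / L ^ 2 * (1 / (1 + x ^ 2)) := by
  unfold q
  have h0 : 0 < L ^ 2 := by positivity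
  have h1 : 1 ≤ x ^ 2 := by rw [← sq_abs]; nlinarith
  rw [div_mul_div_comm, mul_one, div_le_div_iff₀ (by positivity) (by positivity), mul_pow]
  nlinarith

/-- The sum of the weights over the window. -/
noncomputable def wn (T w W t : ℝ) : ℝ := ∑ n ∈ In w W, q (Real.log T) (t - ordinate n)

lemma wn_nonneg (T w W t : ℝ) : 0 ≤ wn T w W t := Finset.sum_nonneg fun _ _ => (q_pos _ _).le

lemma wn_continuous (T w W : ℝ) : Continuous (wn T w W) := by
  unfold wn
  exact continuous_finsetSum _ fun n _ => (q_continuous _).comp (by fun_prop)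

lemma W1_eq (T t : ℝ) : W1 T t = ∑' ρ : ntz, (mult ρ : ℝ) * q (Real.log T) (t - (ρ : ℂ).im) := rfl

lemma hasSum_W1 (hRH : RiemannHypothesis) {T : ℝ} (hT : 1 ≤ Real.log T) (t : ℝ) :
    HasSum (fun ρ : ntz => (mult ρ : ℝ) * q (Real.log T) (t - (ρ : ℂ).im)) (W1 T t) :=
  (W1_summable hRH hT t).hasSum

lemma hasSum_wn {T w W t : ℝ} (hw : 0 ≤ w) :
    HasSum (fun ρ : ntz => if w < (ρ : ℂ).im ∧ (ρ : ℂ).im ≤ w + W then
      (mult ρ : ℝ) * q (Real.log T) (t - (ρ : ℂ).im) else 0) (wn T w W t) :=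
  hasSum_index (fun γ => q (Real.log T) (t - γ)) hw

lemma wn_le_W1 (hRH : RiemannHypothesis) {T w W : ℝ} (hT : 1 ≤ Real.log T) (hw : 0 ≤ w) (t : ℝ) :
    wn T w W t ≤ W1 T t := by
  refine hasSum_le (fun ρ => ?_) (hasSum_wn hw) (hasSum_W1 hRH hT t)
  have h1 : 0 ≤ (mult ρ : ℝ) * q (Real.log T) (t - (ρ : ℂ).im) :=
    mul_nonneg (Nat.cast_nonneg _) (q_pos _ _).le
  split_ifs
  · exact le_rfl
  · exact h1

/-- The zeros outside contribute little in the middle. -/
lemma W1_sub_wn_le (hRH : RiemannHypothesis) : ∃ C : ℝ, 0 < C ∧ ∀ T w W t : ℝ,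
    1 ≤ Real.log T → 0 ≤ w → w + 1 ≤ t → t ≤ w + W - 1 →
      W1 T t - wn T w W t ≤ 2 / Real.log T ^ 2 * (C * Real.log (|t| + 2)) := by
  obtain ⟨C, hC, h⟩ := tsum_weight_le
  refine ⟨C, hC, fun T w W t hT hw h1 h2 => ?_⟩
  have hs := ((summable_weight t).hasSum.mul_left (2 / Real.log T ^ 2))
  refine (hasSum_le (fun ρ => ?_) ((hasSum_W1 hRH hT t).sub (hasSum_wn hw)) hs).trans ?_
  · split_ifs with hc
    · rw [sub_self]; positivity
    · rw [sub_zero]
      have h3 : 1 ≤ |t - (ρ : ℂ).im| := by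
        rw [not_and_or, not_lt, not_le] at hc
        rcases hc with hc | hc
        · rw [abs_of_nonneg (by linarith)]; linarith
        · rw [abs_of_nonpos (by linarith)]; linarith
      have h4 := q_far hT h3
      calc (mult ρ : ℝ) * q (Real.log T) (t - (ρ : ℂ).im)
          ≤ (mult ρ : ℝ) * (2 / Real.log T ^ 2 * (1 / (1 + (t - (ρ : ℂ).im) ^ 2))) := by gcongr
        _ = _ := by ring
  · gcongr
    exact h t

/-- The zeros of the window contribute little far from it. -/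
lemma wn_far : ∃ C : ℝ, 0 < C ∧ ∀ T w W t : ℝ, 1 ≤ Real.log T → 1 ≤ w → 0 ≤ W →
    (t ≤ w - 1 ∨ w + W + 1 ≤ t) →
      wn T w W t ≤ 2 / Real.log T ^ 2 * (C * Real.log (w + W + 3)) := by
  obtain ⟨C, hC, h⟩ := tsum_weight_le
  refine ⟨C, hC, fun T w W t hT hw hW ht => ?_⟩
  have hw0 : 0 ≤ w := by linarith
  -- the reference point
  obtain ⟨s, hs1, hs2⟩ : ∃ s : ℝ, |s| ≤ w + W + 1 ∧ ∀ g : ℝ, w < g → g ≤ w + W →
      1 ≤ |s - g| ∧ |s - g| ≤ |t - g| := by
    rcases ht with ht | ht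
    · refine ⟨w - 1, ?_, fun g h1 h2 => ?_⟩
      · rw [abs_of_nonneg (by linarith)]; linarith
      · rw [abs_of_nonpos (by linarith : w - 1 - g ≤ 0), abs_of_nonpos (by linarith : t - g ≤ 0)]
        constructor <;> linarith
    · refine ⟨w + W + 1, ?_, fun g h1 h2 => ?_⟩
      · rw [abs_of_nonneg (by linarith)]
      · rw [abs_of_nonneg (by linarith : 0 ≤ w + W + 1 - g),
          abs_of_nonneg (by linarith : 0 ≤ t - g)]
        constructor <;> linarith
  have hs := ((summable_weight s).hasSum.mul_left (2 / Real.log T ^ 2))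
  refine (hasSum_le (fun ρ => ?_) (hasSum_wn hw0) hs).trans ?_
  · split_ifs with hc
    · obtain ⟨h3, h4⟩ := hs2 _ hc.1 hc.2
      have h5 : q (Real.log T) (t - (ρ : ℂ).im) ≤ q (Real.log T) (s - (ρ : ℂ).im) := by
        unfold q
        have h6 : (Real.log T * (s - (ρ : ℂ).im)) ^ 2 ≤ (Real.log T * (t - (ρ : ℂ).im)) ^ 2 := by
          rw [mul_pow, mul_pow]
          have h7 : (s - (ρ : ℂ).im) ^ 2 ≤ (t - (ρ : ℂ).im) ^ 2 := by
            rw [← sq_abs, ← sq_abs (t - (ρ : ℂ).im)]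
            gcongr
          gcongr
        gcongr
      have h6 := h5.trans (q_far hT h3)
      calc (mult ρ : ℝ) * q (Real.log T) (t - (ρ : ℂ).im)
          ≤ (mult ρ : ℝ) * (2 / Real.log T ^ 2 * (1 / (1 + (s - (ρ : ℂ).im) ^ 2))) := by gcongr
        _ = _ := by ring
    · positivity
  · have h3 : Real.log (|s| + 2) ≤ Real.log (w + W + 3) :=
      Real.log_le_log (by positivity) (by linarith)
    have h4 := h s
    have h5 : C * Real.log (|s| + 2) ≤ C * Real.log (w + W + 3) := by gcongr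
    gcongr
    linarith

lemma integral_q {L : ℝ} (hL : 0 < L) (g : ℝ) : ∫ t : ℝ, q L (t - g) = π / L := by
  rw [integral_sub_right_eq_self (fun t => q L t) g]
  have h := Measure.integral_comp_mul_left (fun x : ℝ => 1 / (1 + x ^ 2)) L
  rw [abs_of_pos (inv_pos.mpr hL), smul_eq_mul] at h
  have h2 : ∫ x : ℝ, 1 / (1 + x ^ 2) = π := by
    simp_rw [one_div]
    exact integral_univ_inv_one_add_sq
  rw [h2] at h
  unfold q
  rw [h]
  field_simp

lemma integrable_q {L : ℝ} (hL : 0 < L) (g : ℝ) : Integrable fun t : ℝ => q L (t - g) := by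
  have h1 : Integrable fun t : ℝ => q L t := by
    have h := (integrable_inv_one_add_sq).comp_mul_left' hL.ne'
    refine h.congr (Filter.Eventually.of_forall fun t => ?_)
    show (1 + (L * t) ^ 2)⁻¹ = q L t
    unfold q
    rw [one_div]
  exact h1.comp_sub_right g

lemma integral_wn {T : ℝ} (hL : 0 < Real.log T) (w W : ℝ) :
    Integrable (wn T w W) ∧ ∫ t, wn T w W t = (In w W).card * (π / Real.log T) := by
  constructor
  · unfold wn
    exact integrable_finsetSum _ fun _ _ => integrable_q hL _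
  · unfold wn
    rw [integral_finsetSum _ fun _ _ => integrable_q hL _]
    simp_rw [integral_q hL]
    rw [Finset.sum_const, nsmul_eq_mul]

end Pool.Agent.AHP
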